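import Mathlib

/-!
# MP_f70009_an: total renormalization on the two-torus

`V = 𝕋 × M` with `M = 𝕋`, i.e. the two-torus `T2`.  Its universal cover `ℝ²` is written as `ℂ`
(real smoothness only).
-/

open scoped ContDiff Topology
open Set Filter

namespace TotRen

/-- The two-torus `𝕋 × M` with `M = 𝕋 = ℝ/ℤ`. -/
abbrev T2 := UnitAddCircle × UnitAddCircle

/-- The covering map `ℂ = ℝ² → 𝕋²`, `z ↦ (Re z mod 1, Im z mod 1)`. -/
noncomputable def pr (z : ℂ) : T2 := ((z.re : UnitAddCircle), (z.im : UnitAddCircle))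

/-- `F : ℂ → ℂ` is a lift of `f : 𝕋² → 𝕋²`. -/
def IsLift (F : ℂ → ℂ) (f : T2 → T2) : Prop := ∀ z, f (pr z) = pr (F z)

/-- The model corner sets: `ℝ²` for `k = 0`, `[0,∞) × ℝ` for `k = 1`, `[0,∞)²` for `k ≥ 2`. -/
def corner (k : ℕ) : Set ℂ := {z | (1 ≤ k → 0 ≤ z.re) ∧ (2 ≤ k → 0 ≤ z.im)}

/-- A local diffeomorphism between open subsets of the plane (`C^∞` in both directions). -/
structure IsSmoothChart (χ : OpenPartialHomeomorph ℂ ℂ) : Prop where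
  smooth : ContDiffOn ℝ ∞ χ χ.source
  smooth_symm : ContDiffOn ℝ ∞ χ.symm χ.target

/-- `Δ ⊆ 𝕋²` is a (codimension-zero) submanifold with corners: near each of its points it is, in a
smooth chart centred at that point, one of the model sets `corner k`. -/
def IsCornerDomain (Δ : Set T2) : Prop :=
  ∀ z : ℂ, pr z ∈ Δ → ∃ (χ : OpenPartialHomeomorph ℂ ℂ) (k : ℕ), IsSmoothChart χ ∧
    z ∈ χ.source ∧ χ z = 0 ∧ ∀ w ∈ χ.source, (pr w ∈ Δ ↔ χ w ∈ corner k)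

/-- `H` is a local diffeomorphism on `Δ`: near each point of `Δ` it is the restriction to `Δ` of a
diffeomorphism between open sets. -/
def IsLocalDiffeoOn (H : T2 → T2) (Δ : Set T2) : Prop :=
  ∀ z : ℂ, pr z ∈ Δ → ∃ Ψ : OpenPartialHomeomorph ℂ ℂ, IsSmoothChart Ψ ∧ z ∈ Ψ.source ∧
    ∀ w ∈ Ψ.source, pr w ∈ Δ → H (pr w) = pr (Ψ w)

/-- The data of a total renormalization: `Δ ⊊ 𝕋²` a submanifold with corners, `H : Δ → 𝕋²` a
bijective local diffeomorphism, `τ` the first return time of `g` to `Δ`, bounded by `m`,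
`G = H ∘ g^τ ∘ H⁻¹`, and the orbit of `Δ` is everything. -/
structure RenData (g G : T2 → T2) (Δ : Set T2) (H : T2 → T2) (τ : T2 → ℕ) (m : ℕ) : Prop where
  ne_univ : Δ ≠ univ
  corners : IsCornerDomain Δ
  localDiffeo : IsLocalDiffeoOn H Δ
  bij : BijOn H Δ univ
  one_le : ∀ p ∈ Δ, 1 ≤ τ p
  le_bound : ∀ p ∈ Δ, τ p ≤ m
  return_mem : ∀ p ∈ Δ, g^[τ p] p ∈ Δ
  first : ∀ p ∈ Δ, ∀ j, 1 ≤ j → j < τ p → g^[j] p ∉ Δ
  conj : ∀ p ∈ Δ, G (H p) = H (g^[τ p] p)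
  total : ∀ q, ∃ n, ∃ p ∈ Δ, g^[n] p = q

/-- `G` is a total renormalization of `g`. -/
def IsTotalRenormalization (g G : T2 → T2) : Prop :=
  ∃ Δ H τ m, RenData g G Δ H τ m

end TotRen
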