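import Mathlib

/-!
# Weak Bezout, resultant form
-/

open Polynomial

namespace TotRen

/-- The degree of a determinant. -/
theorem natDegree_det_le_of {n D : ℕ} (M : Matrix (Fin n) (Fin n) ℝ[X])
    (hM : ∀ i j, (M i j).natDegree ≤ D) : M.det.natDegree ≤ n * D := by
  rw [Matrix.det_apply]
  refine natDegree_sum_le_of_forall_le _ _ fun σ _ => ?_
  refine (natDegree_smul_le _ _).trans ((natDegree_prod_le _ _).trans ?_)
  refine (Finset.sum_le_sum fun i _ => hM (σ i) i).trans ?_
  simp

/-- Weak Bézout through the resultant.  Proof: `Res := resultant P Q D D ∈ ℝ[X]` has degree `≤ 2D·D`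
(determinant of a `2D × 2D` matrix with entries of degree `≤ D`).  If `(x, y) ∈ S` then with
`φ = evalRingHom x`, `φ Res = resultant (P.map φ) (Q.map φ) D D` (`resultant_map_map`) `= 0`,
since `exists_mul_add_mul_eq_C_resultant` evaluated at the common root `y` gives `0`
(`D ≠ 0`; if `D = 0` then `P = C (C c)` has no zero and `S = ∅`).  So `x` takes at most `2D²`
values; for each `x`, `y` is a root of `P.map φ ≠ 0`, of degree `≤ D`. -/
theorem bezout_resultant (D : ℕ) (P Q : ℝ[X][X]) {c : ℝ} (hc : c ≠ 0) (hPc : P.coeff D = C c)
    (hP : P.natDegree ≤ D) (hP' : ∀ i, (P.coeff i).natDegree ≤ D)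
    (hQ : Q.natDegree ≤ D) (hQ' : ∀ i, (Q.coeff i).natDegree ≤ D)
    (hres : P.resultant Q D D ≠ 0) (S : Finset (ℝ × ℝ))
    (hS : ∀ p ∈ S, evalEval p.1 p.2 P = 0 ∧ evalEval p.1 p.2 Q = 0) :
    S.card ≤ 2 * D * D * D := by
  classical
  have hroot : ∀ p ∈ S, (P.resultant Q D D).eval p.1 = 0 := by
    intro p hp
    obtain ⟨h1, h2⟩ := hS p hp
    rcases Nat.eq_zero_or_pos D with hD | hD
    · exfalso
      have h3 : P = C (C c) := by
        rw [← hPc, hD]
        exact eq_C_of_natDegree_le_zero (hD ▸ hP)
      rw [h3, evalEval_C, eval_C] at h1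
      exact hc h1
    · obtain ⟨a, b, -, -, hab⟩ := exists_mul_add_mul_eq_C_resultant P Q hP hQ (Or.inl hD.ne')
      have h4 := congrArg (evalEval p.1 p.2) hab
      rw [evalEval_C, evalEval_add, evalEval_mul, evalEval_mul, h1, h2, zero_mul, zero_mul,
        add_zero] at h4
      exact h4.symm
  have hdeg : (P.resultant Q D D).natDegree ≤ 2 * D * D := by
    have h := natDegree_det_le_of (D := D) (sylvester P Q D D) (by
      intro i j
      induction j using Fin.addCases with
      | left j =>
        simp only [sylvester, Matrix.of_apply, Fin.addCases_left]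
        split_ifs
        · exact hQ' _
        · rw [natDegree_zero]
          exact Nat.zero_le _
      | right j =>
        simp only [sylvester, Matrix.of_apply, Fin.addCases_right]
        split_ifs
        · exact hP' _
        · rw [natDegree_zero]
          exact Nat.zero_le _)
    rw [two_mul]
    exact h
  have himg : (S.image Prod.fst).card ≤ 2 * D * D := by
    refine le_trans (Finset.card_le_card (t := (P.resultant Q D D).roots.toFinset) ?_) ?_
    · intro x hx
      obtain ⟨p, hp, rfl⟩ := Finset.mem_image.1 hx
      rw [Multiset.mem_toFinset, mem_roots hres]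
      exact hroot p hp
    · exact (Multiset.toFinset_card_le _).trans ((card_roots' _).trans hdeg)
  have hfib : ∀ x ∈ S.image Prod.fst, (S.filter fun p => p.1 = x).card ≤ D := by
    intro x _
    have hcoef : (P.map (evalRingHom x)).coeff D = c := by
      rw [coeff_map, hPc]
      simp
    have hne : P.map (evalRingHom x) ≠ 0 := by
      intro h
      rw [h, coeff_zero] at hcoef
      exact hc hcoef.symm
    have h1 : (S.filter fun p => p.1 = x).card ≤ (P.map (evalRingHom x)).roots.toFinset.card := by
      refine Finset.card_le_card_of_injOn Prod.snd ?_ ?_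
      · intro p hp
        have hp' := Finset.mem_filter.1 (Finset.mem_coe.1 hp)
        rw [Finset.mem_coe, Multiset.mem_toFinset, mem_roots hne]
        show eval p.2 (P.map (evalRingHom x)) = 0
        rw [map_evalRingHom_eval, ← hp'.2]
        exact (hS p hp'.1).1
      · intro p hp q hq hpq
        have hp' := Finset.mem_filter.1 (Finset.mem_coe.1 hp)
        have hq' := Finset.mem_filter.1 (Finset.mem_coe.1 hq)
        exact Prod.ext (hp'.2.trans hq'.2.symm) hpq
    refine h1.trans ((Multiset.toFinset_card_le _).trans ((card_roots' _).trans ?_))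
    exact natDegree_map_le.trans hP
  have h := Finset.card_le_mul_card_image (f := Prod.fst) S D hfib
  calc S.card ≤ D * (S.image Prod.fst).card := h
    _ ≤ D * (2 * D * D) := Nat.mul_le_mul_left _ himg
    _ = 2 * D * D * D := by ring

end TotRen
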