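import Pool.Agent.W_MP_f70009_h24.BezA

/-!
# Weak Bezout, perturbed form
-/

open Polynomial

namespace TotRen

/-- Only finitely many translates of `g` by constants have a common factor with `f`. -/
theorem finite_not_coprime {f : ℝ[X]} (hf : f ≠ 0) (g : ℝ[X]) :
    {t : ℝ | ¬ IsCoprime f (g + C t)}.Finite := by
  classical
  have hfin : (⋃ q ∈ (UniqueFactorizationMonoid.normalizedFactors f).toFinset,
      {t : ℝ | q ∣ g + C t}).Finite := by
    refine Set.Finite.biUnion (Finset.finite_toSet _) fun q hq => ?_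
    have hqirr : Irreducible q :=
      UniqueFactorizationMonoid.irreducible_of_normalized_factor q (Multiset.mem_toFinset.1 hq)
    refine Set.Subsingleton.finite fun t ht t' ht' => ?_
    by_contra hne
    have h1 : q ∣ C (t - t') := by
      have h2 := dvd_sub ht ht'
      have h3 : g + C t - (g + C t') = C (t - t') := by
        rw [C_sub]
        ring
      rw [h3] at h2
      exact h2
    have h4 : IsUnit (C (t - t')) := isUnit_C.2 (isUnit_iff_ne_zero.2 (sub_ne_zero.2 hne))
    exact hqirr.not_isUnit (isUnit_of_dvd_unit h1 h4)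
  refine hfin.subset fun t ht => ?_
  by_contra hno
  refine ht (isCoprime_of_irreducible_dvd (fun h => hf h.1) fun z hz hzf hzg => hno ?_)
  obtain ⟨q, hq, hzq⟩ := UniqueFactorizationMonoid.exists_mem_normalizedFactors_of_dvd hf hz hzf
  refine Set.mem_biUnion (Multiset.mem_toFinset.2 hq) ?_
  exact hzq.symm.dvd.trans hzg

/-- Perturbation: after adding small constants times `Y ^ D` and `1` the resultant is non-zero, so the
number of common zeros is `≤ 2D³`.  Proof: `ε₁ = ε / 2`; specialise at `x = 0`: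
`f = (P + ε₁ Y ^ D)(0, Y) ∈ ℝ[Y]` has degree exactly `D`; choose `|ε₂| < ε` with
`ε₂ ≠ - Q(0, λ)` for all the complex roots `λ` of `f`; then `f` and `Q(0, Y) + ε₂` are coprime
(`Polynomial.isCoprime_iff_aeval_ne_zero_of_isAlgClosed` or similar), so their resultant is
non-zero (`resultant_eq_zero_iff`, `resultant_add_right_deg`), so `resultant P' Q' D D ≠ 0`
(`resultant_map_map`), and `bezout_resultant` applies. -/
theorem bezout_perturb (D : ℕ) (hD : 1 ≤ D) (P Q : ℝ[X][X])
    (hP : P.natDegree < D) (hP' : ∀ i, (P.coeff i).natDegree ≤ D)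
    (hQ : Q.natDegree ≤ D) (hQ' : ∀ i, (Q.coeff i).natDegree ≤ D) {ε : ℝ} (hε : 0 < ε) :
    ∃ ε₁ ε₂ : ℝ, |ε₁| < ε ∧ |ε₂| < ε ∧ ∀ S : Finset (ℝ × ℝ),
      (∀ p ∈ S, evalEval p.1 p.2 P + ε₁ * p.2 ^ D = 0 ∧ evalEval p.1 p.2 Q + ε₂ = 0) →
      S.card ≤ 2 * D * D * D := by
  set ε₁ : ℝ := ε / 2 with hε₁
  have hε₁0 : ε₁ ≠ 0 := by positivity
  set P' : ℝ[X][X] := P + C (C ε₁) * X ^ D with hP'def
  have hPD : P'.coeff D = C ε₁ := by
    rw [hP'def, coeff_add, coeff_eq_zero_of_natDegree_lt hP, zero_add, coeff_C_mul, coeff_X_pow,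
      if_pos rfl, mul_one]
  have hPdeg : P'.natDegree ≤ D := by
    refine (natDegree_add_le _ _).trans (max_le hP.le ?_)
    exact natDegree_C_mul_X_pow_le _ _
  have hPcoef : ∀ i, (P'.coeff i).natDegree ≤ D := by
    intro i
    rw [hP'def, coeff_add, coeff_C_mul, coeff_X_pow]
    refine (natDegree_add_le _ _).trans (max_le (hP' i) ?_)
    split_ifs
    · rw [mul_one, natDegree_C]
      exact Nat.zero_le _
    · rw [mul_zero, natDegree_zero]
      exact Nat.zero_le _
  -- specialisation at 0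
  set f : ℝ[X] := P'.map (evalRingHom 0) with hfdef
  have hfD : f.coeff D = ε₁ := by
    rw [hfdef, coeff_map, hPD]
    simp
  have hf0 : f ≠ 0 := by
    intro h
    rw [h, coeff_zero] at hfD
    exact hε₁0 hfD.symm
  have hfdeg : f.natDegree = D := by
    refine le_antisymm (natDegree_map_le.trans hPdeg) (le_natDegree_of_ne_zero ?_)
    rw [hfD]
    exact hε₁0
  obtain ⟨ε₂, hε₂, hcop⟩ : ∃ ε₂ ∈ Set.Ioo 0 ε, IsCoprime f (Q.map (evalRingHom 0) + C ε₂) := by
    have hinf : (Set.Ioo 0 ε \ {t : ℝ | ¬ IsCoprime f (Q.map (evalRingHom 0) + C t)}).Infinite :=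
      (Set.Ioo_infinite hε).diff (finite_not_coprime hf0 _)
    obtain ⟨t, ht, ht'⟩ := hinf.nonempty
    exact ⟨t, ht, not_not.1 ht'⟩
  set Q' : ℝ[X][X] := Q + C (C ε₂) with hQ'def
  have hQdeg : Q'.natDegree ≤ D := by
    refine (natDegree_add_le _ _).trans (max_le hQ ?_)
    rw [natDegree_C]
    exact Nat.zero_le _
  have hQcoef : ∀ i, (Q'.coeff i).natDegree ≤ D := by
    intro i
    rw [hQ'def, coeff_add, coeff_C]
    refine (natDegree_add_le _ _).trans (max_le (hQ' i) ?_)
    split_ifs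
    · rw [natDegree_C]
      exact Nat.zero_le _
    · rw [natDegree_zero]
      exact Nat.zero_le _
  have hQmap : Q'.map (evalRingHom 0) = Q.map (evalRingHom 0) + C ε₂ := by
    rw [hQ'def, Polynomial.map_add, map_C]
    simp
  have hres : P'.resultant Q' D D ≠ 0 := by
    intro h
    have h1 : f.resultant (Q'.map (evalRingHom 0)) D D = 0 := by
      rw [hfdef, resultant_map_map, h, map_zero]
    have h2 : (Q'.map (evalRingHom 0)).natDegree ≤ D := natDegree_map_le.trans hQdeg
    obtain ⟨k, hk⟩ := Nat.exists_eq_add_of_le h2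
    have h3 : f.resultant (Q'.map (evalRingHom 0)) D D =
        f.coeff D ^ k * f.resultant (Q'.map (evalRingHom 0)) D
          (Q'.map (evalRingHom 0)).natDegree := by
      rw [← resultant_add_right_deg _ _ _ _ _ le_rfl, ← hk]
    rw [h3] at h1
    rcases mul_eq_zero.1 h1 with h4 | h4
    · rw [hfD] at h4
      exact hε₁0 (eq_zero_of_pow_eq_zero h4)
    · have h5 := resultant_ne_zero f (Q'.map (evalRingHom 0)) (by rw [hQmap]; exact hcop)
      rw [hfdeg] at h5
      exact h5 h4
  refine ⟨ε₁, ε₂, ?_, ?_, fun S hS => ?_⟩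
  · rw [abs_of_pos (by positivity)]
    rw [hε₁]
    linarith
  · rw [abs_of_pos hε₂.1]
    exact hε₂.2
  · refine bezout_resultant D P' Q' hε₁0 hPD hPdeg hPcoef hQdeg hQcoef hres S fun p hp => ?_
    obtain ⟨h1, h2⟩ := hS p hp
    constructor
    · rw [hP'def, evalEval_add, evalEval_mul, evalEval_C, eval_C]
      rw [← h1]
      congr 2
      simp [evalEval]
    · rw [hQ'def, evalEval_add, evalEval_C, eval_C]
      exact h2

end TotRen
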