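import Pool.Agent.W_MP_f70009_h24.Cover

/-!
# Cones of directions
-/

open scoped ContDiff Topology
open Set Filter

namespace TotRen

theorem cone_chart {Ψ : OpenPartialHomeomorph ℂ ℂ} (hΨ : IsSmoothChart Ψ) {x : ℂ}
    (hx : x ∈ Ψ.source) : HasFDerivAt Ψ (fderiv ℝ Ψ x) x ∧
      (fderiv ℝ Ψ.symm (Ψ x)).comp (fderiv ℝ Ψ x) = 1 ∧
      (fderiv ℝ Ψ x).comp (fderiv ℝ Ψ.symm (Ψ x)) = 1 := by
  have h1 : DifferentiableAt ℝ Ψ x :=
    (hΨ.smooth.contDiffAt (Ψ.open_source.mem_nhds hx)).differentiableAt (by simp)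
  have hy : Ψ x ∈ Ψ.target := Ψ.map_source hx
  have h2 : DifferentiableAt ℝ Ψ.symm (Ψ x) :=
    (hΨ.smooth_symm.contDiffAt (Ψ.open_target.mem_nhds hy)).differentiableAt (by simp)
  have h1' : DifferentiableAt ℝ Ψ (Ψ.symm (Ψ x)) := by
    rw [Ψ.left_inv hx]
    exact h1
  refine ⟨h1.hasFDerivAt, ?_, ?_⟩
  · rw [← fderiv_comp x h2 h1]
    have h3 : (Ψ.symm ∘ Ψ) =ᶠ[𝓝 x] id := by
      filter_upwards [Ψ.open_source.mem_nhds hx] with z hz
      exact Ψ.left_inv hz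
    rw [h3.fderiv_eq, fderiv_id]
    rfl
  · have h4 : fderiv ℝ (Ψ ∘ Ψ.symm) (Ψ x) =
        (fderiv ℝ Ψ (Ψ.symm (Ψ x))).comp (fderiv ℝ Ψ.symm (Ψ x)) := fderiv_comp (Ψ x) h1' h2
    have h3 : (Ψ ∘ Ψ.symm) =ᶠ[𝓝 (Ψ x)] id := by
      filter_upwards [Ψ.open_target.mem_nhds hy] with z hz
      exact Ψ.right_inv hz
    rw [h3.fderiv_eq, fderiv_id, Ψ.left_inv hx] at h4
    exact h4.symm

/-- the derivative of a smooth chart is invertible -/
theorem det2_chart_ne_zero {Ψ : OpenPartialHomeomorph ℂ ℂ} (hΨ : IsSmoothChart Ψ) {x : ℂ}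
    (hx : x ∈ Ψ.source) : det2 (fderiv ℝ Ψ x) ≠ 0 := by
  intro h
  have h1 := congrArg det2 (cone_chart hΨ hx).2.1
  rw [det2_comp, h, mul_zero, det2_one] at h1
  exact zero_ne_one h1

/-- At every point of a submanifold with corners there is an open cone of directions pointing inside.
Proof: with a corner chart `χ` at `x`, take `C = {e | fderiv ℝ χ x e ∈ interior (corner k)}`,
where the interior is replaced by the strict inequalities; `χ (x + s e') / s → fderiv ℝ χ x e`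
as `s → 0+`, `e' → e`. -/
theorem exists_cone {Δ : Set T2} (hΔ : IsCornerDomain Δ) {x : ℂ} (hx : pr x ∈ Δ) :
    ∃ C : Set ℂ, IsCone Δ x C := by
  obtain ⟨χ, k, hχ, hxs, hχ0, hcor⟩ := hΔ x hx
  obtain ⟨hd, -, hinv⟩ := cone_chart hχ hxs
  set A : ℂ →L[ℝ] ℂ := fderiv ℝ χ x with hA
  have hopen : IsOpen {w : ℂ | (1 ≤ k → 0 < w.re) ∧ (2 ≤ k → 0 < w.im)} := by
    have e : {w : ℂ | (1 ≤ k → 0 < w.re) ∧ (2 ≤ k → 0 < w.im)} =
        {w : ℂ | 1 ≤ k → 0 < w.re} ∩ {w : ℂ | 2 ≤ k → 0 < w.im} := rfl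
    rw [e]
    apply IsOpen.inter
    · by_cases h : 1 ≤ k
      · simp only [h, true_implies]
        exact isOpen_lt continuous_const Complex.continuous_re
      · simp only [h, false_implies]
        exact isOpen_univ
    · by_cases h : 2 ≤ k
      · simp only [h, true_implies]
        exact isOpen_lt continuous_const Complex.continuous_im
      · simp only [h, false_implies]
        exact isOpen_univ
  refine ⟨A ⁻¹' {w : ℂ | (1 ≤ k → 0 < w.re) ∧ (2 ≤ k → 0 < w.im)}, ?_⟩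
  refine ⟨hopen.preimage A.continuous, ?_, ?_, ?_⟩
  · refine ⟨fderiv ℝ χ.symm (χ x) (1 + Complex.I), ?_⟩
    have h1 : A (fderiv ℝ χ.symm (χ x) (1 + Complex.I)) = 1 + Complex.I := by
      have := congrArg (fun T : ℂ →L[ℝ] ℂ => T (1 + Complex.I)) hinv
      simpa using this
    rw [mem_preimage, h1]
    constructor <;> intro _ <;> simp
  · intro e he c hc
    rw [mem_preimage] at he ⊢
    have h1 : A ((c : ℂ) * e) = (c : ℂ) * A e := by
      have := A.map_smul c e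
      rwa [Complex.real_smul, Complex.real_smul] at this
    rw [h1]
    refine ⟨fun h => ?_, fun h => ?_⟩
    · have := he.1 h
      simpa using mul_pos hc this
    · have := he.2 h
      simpa using mul_pos hc this
  · intro e he
    have hfst : Tendsto (fun q : ℝ × ℂ => q.1) ((𝓝[>] (0 : ℝ)) ×ˢ (𝓝 e)) (𝓝[>] 0) := tendsto_fst
    have hsnd : Tendsto (fun q : ℝ × ℂ => q.2) ((𝓝[>] (0 : ℝ)) ×ˢ (𝓝 e)) (𝓝 e) := tendsto_snd
    have hpos : ∀ᶠ q : ℝ × ℂ in (𝓝[>] (0 : ℝ)) ×ˢ (𝓝 e), 0 < q.1 :=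
      hfst.eventually (eventually_mem_nhdsWithin)
    have hfst0 : Tendsto (fun q : ℝ × ℂ => q.1) ((𝓝[>] (0 : ℝ)) ×ˢ (𝓝 e)) (𝓝 0) :=
      hfst.mono_right nhdsWithin_le_nhds
    have hd0 : Tendsto (fun q : ℝ × ℂ => (q.1 : ℂ) * q.2) ((𝓝[>] (0 : ℝ)) ×ˢ (𝓝 e)) (𝓝 0) := by
      have h1 : Tendsto (fun q : ℝ × ℂ => (q.1 : ℂ)) ((𝓝[>] (0 : ℝ)) ×ˢ (𝓝 e)) (𝓝 0) := by
        have h2 := (Complex.continuous_ofReal.tendsto 0).comp hfst0
        rw [Complex.ofReal_zero] at h2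
        exact h2
      simpa using h1.mul hsnd
    have hc0 : Tendsto (fun q : ℝ × ℂ => (q.1)⁻¹ • ((q.1 : ℂ) * q.2))
        ((𝓝[>] (0 : ℝ)) ×ˢ (𝓝 e)) (𝓝 e) := by
      refine hsnd.congr' ?_
      filter_upwards [hpos] with q hq
      rw [Complex.real_smul, ← mul_assoc, ← Complex.ofReal_mul, inv_mul_cancel₀ hq.ne',
        Complex.ofReal_one, one_mul]
    have hlim := hd.hasFDerivWithinAt (s := univ) |>.lim hd0 (Eventually.of_forall fun q => mem_univ _)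
      hc0
    have hsrc : ∀ᶠ q : ℝ × ℂ in (𝓝[>] (0 : ℝ)) ×ˢ (𝓝 e), x + (q.1 : ℂ) * q.2 ∈ χ.source := by
      have h1 : Tendsto (fun q : ℝ × ℂ => x + (q.1 : ℂ) * q.2) ((𝓝[>] (0 : ℝ)) ×ˢ (𝓝 e))
          (𝓝 x) := by
        simpa using tendsto_const_nhds.add hd0
      exact h1.eventually (χ.open_source.mem_nhds hxs)
    have hev := hlim.eventually (hopen.mem_nhds he)
    filter_upwards [hpos, hsrc, hev] with q h1 h2 h3
    rw [hcor _ h2]
    rw [hχ0, sub_zero] at h3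
    refine ⟨fun h => ?_, fun h => ?_⟩
    · have h4 := h3.1 h
      rw [Complex.smul_re, smul_eq_mul] at h4
      have := (mul_pos_iff_of_pos_left (inv_pos.2 h1)).1 h4
      exact this.le
    · have h4 := h3.2 h
      rw [Complex.smul_im, smul_eq_mul] at h4
      have := (mul_pos_iff_of_pos_left (inv_pos.2 h1)).1 h4
      exact this.le

end TotRen
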