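import Pool.Agent.W_MP_f70009_h24.Lin

/-!
# Derivatives of iterates
-/

open scoped ContDiff Topology
open Set Filter

namespace TotRen

/-- The iterated derivatives of positive order of the identity have norm at most one. -/
private theorem norm_iteratedFDeriv_id_le (i : ℕ) (hi : 1 ≤ i) (z : ℂ) :
    ‖iteratedFDeriv ℝ i (fun w : ℂ => w) z‖ ≤ 1 := by
  obtain ⟨j, rfl⟩ : ∃ j, i = j + 1 := ⟨i - 1, by omega⟩
  rw [← norm_iteratedFDeriv_fderiv]
  have h1 : (fderiv ℝ (fun w : ℂ => w)) = fun _ => ContinuousLinearMap.id ℝ ℂ := by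
    funext w
    exact fderiv_fun_id
  rw [h1]
  rcases j with _ | j
  · rw [norm_iteratedFDeriv_zero]
    exact ContinuousLinearMap.norm_id_le
  · rw [iteratedFDeriv_succ_const]
    simp

private theorem contDiff_iter {F : ℂ → ℂ} (hF : ContDiff ℝ ∞ F) (N : ℕ) : ContDiff ℝ ∞ (F^[N]) := by
  induction N with
  | zero => exact contDiff_id
  | succ N ih =>
    rw [Function.iterate_succ']
    exact hF.comp ih

/-- Uniform bounds for the derivatives of iterates.  Induction on `N`, with `F^[N+1] w - w =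
(F^[N] w - w) + u (F^[N] w)`, `u w = F w - w` (or the other order), and `norm_iteratedFDeriv_comp_le`
for `u ∘ F^[N]`. -/
theorem iterate_bound (r N : ℕ) : ∃ K : ℝ, 1 ≤ K ∧ ∀ F : ℂ → ℂ, ContDiff ℝ ∞ F →
    (∀ k ≤ r, ∀ z, ‖iteratedFDeriv ℝ k (fun w => F w - w) z‖ ≤ 1) →
    ∀ k ≤ r, ∀ z, ‖iteratedFDeriv ℝ k (fun w => F^[N] w - w) z‖ ≤ K := by
  induction N with
  | zero =>
    refine ⟨1, le_refl 1, fun F _ _ k _ z => ?_⟩
    have h0 : (fun w : ℂ => F^[0] w - w) = fun _ => (0 : ℂ) := by
      funext w; simp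
    rw [h0, iteratedFDeriv_fun_zero]
    simp
  | succ N ih =>
    obtain ⟨K, hK, hb⟩ := ih
    refine ⟨(r.factorial : ℝ) * 1 * (1 + K) ^ r + K, ?_, ?_⟩
    · have h1 : (0 : ℝ) ≤ (r.factorial : ℝ) * 1 * (1 + K) ^ r := by positivity
      linarith
    · intro F hF hu k hk z
      have hFN : ContDiff ℝ ∞ (F^[N]) := contDiff_iter hF N
      have hu' : ContDiff ℝ ∞ (fun w => F w - w) := hF.sub contDiff_id
      have hv : ContDiff ℝ ∞ (fun w => F^[N] w - w) := hFN.sub contDiff_id
      have hcomp : ContDiff ℝ ∞ ((fun w => F w - w) ∘ F^[N]) := hu'.comp hFN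
      have heq : (fun w => F^[N + 1] w - w) =
          ((fun w => F w - w) ∘ F^[N]) + fun w => F^[N] w - w := by
        funext w
        simp only [Function.iterate_succ_apply', Pi.add_apply, Function.comp_apply]
        ring
      have hki : ((k : ℕ) : ℕ∞ω) ≤ (∞ : ℕ∞ω) := by exact_mod_cast le_top
      rw [heq, iteratedFDeriv_add_apply ((hcomp.of_le hki).contDiffAt)
        ((hv.of_le hki).contDiffAt)]
      refine (norm_add_le _ _).trans (add_le_add ?_ (hb F hF hu k hk z))
      have hD : ∀ i, 1 ≤ i → i ≤ k → ‖iteratedFDeriv ℝ i (F^[N]) z‖ ≤ (1 + K) ^ i := by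
        intro i hi hik
        have hii : ((i : ℕ) : ℕ∞ω) ≤ (∞ : ℕ∞ω) := by exact_mod_cast le_top
        have he : F^[N] = (fun w : ℂ => w) + fun w => F^[N] w - w := by
          funext w
          simp only [Pi.add_apply]
          ring
        have hid : ContDiffAt ℝ i (fun w : ℂ => w) z := contDiffAt_id
        rw [he, iteratedFDeriv_add_apply hid ((hv.of_le hii).contDiffAt)]
        refine (norm_add_le _ _).trans ?_
        have h1 := norm_iteratedFDeriv_id_le i hi z
        have h2 := hb F hF hu i (hik.trans hk) z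
        have h3 : (1 + K) ≤ (1 + K) ^ i := le_self_pow₀ (by linarith) (by omega)
        linarith
      have h4 := norm_iteratedFDeriv_comp_le hu' hFN hki z (C := 1) (D := 1 + K)
        (fun i hi => hu i (hi.trans hk) _) hD
      refine h4.trans ?_
      have h5 : (k.factorial : ℝ) ≤ (r.factorial : ℝ) := by
        exact_mod_cast Nat.factorial_le hk
      have h6 : (1 + K) ^ k ≤ (1 + K) ^ r := pow_le_pow_right₀ (by linarith) hk
      gcongr

end TotRen
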