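import Pool.Agent.W_MP_f70009_h24.Lin

/-!
# Pigeonhole
-/

open scoped ContDiff Topology
open Set Filter

namespace TotRen

theorem pigeon_floor {a b : ℝ} {s : ℕ} (hs : 1 ≤ s) (ha : 0 ≤ a) (hb : 0 ≤ b)
    (h : ⌊(s : ℝ) * a⌋₊ = ⌊(s : ℝ) * b⌋₊) : |a - b| ≤ 1 / s := by
  have hs0 : (0 : ℝ) < s := by exact_mod_cast hs
  have h1 := Nat.floor_le (mul_nonneg hs0.le ha)
  have h2 := Nat.lt_floor_add_one ((s : ℝ) * a)
  have h3 := Nat.floor_le (mul_nonneg hs0.le hb)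
  have h4 := Nat.lt_floor_add_one ((s : ℝ) * b)
  rw [h] at h1 h2
  have h5 : |(s : ℝ) * (a - b)| ≤ 1 := by
    rw [abs_le, mul_sub]
    constructor <;> linarith
  rw [abs_mul, abs_of_pos hs0] at h5
  rw [le_div_iff₀ hs0, mul_comm]
  exact h5

/-- Pigeonhole: more than `m₀ s²` points of the unit square; some small square of side `1/s` contains
more than `m₀` of them. -/
theorem pigeon_square {ι : Type} [Fintype ι] (x : ι → ℂ)
    (hx : ∀ i, 0 ≤ (x i).re ∧ (x i).re < 1 ∧ 0 ≤ (x i).im ∧ (x i).im < 1) {m₀ s : ℕ}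
    (hs : 1 ≤ s) (hcard : m₀ * s ^ 2 < Fintype.card ι) :
    ∃ T : Finset ι, m₀ < T.card ∧ ∀ i ∈ T, ∀ j ∈ T, ‖x i - x j‖ ≤ 2 / s := by
  classical
  have hs0 : (0 : ℝ) < s := by exact_mod_cast hs
  have hfl : ∀ a : ℝ, 0 ≤ a → a < 1 → ⌊(s : ℝ) * a⌋₊ < s := by
    intro a h0 h1
    rw [Nat.floor_lt (mul_nonneg hs0.le h0)]
    calc (s : ℝ) * a < s * 1 := mul_lt_mul_of_pos_left h1 hs0
      _ = s := mul_one _
  let f : ι → Fin s × Fin s := fun i =>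
    (⟨⌊(s : ℝ) * (x i).re⌋₊, hfl _ (hx i).1 (hx i).2.1⟩,
      ⟨⌊(s : ℝ) * (x i).im⌋₊, hfl _ (hx i).2.2.1 (hx i).2.2.2⟩)
  obtain ⟨y, hy⟩ := Fintype.exists_lt_card_fiber_of_mul_lt_card (f := f) (n := m₀) (by
    rw [Fintype.card_prod, Fintype.card_fin, mul_comm, ← sq]
    exact hcard)
  refine ⟨_, hy, ?_⟩
  intro i hi j hj
  have h1 : f i = f j := by
    rw [(Finset.mem_filter.1 hi).2, (Finset.mem_filter.1 hj).2]
  simp only [f, Prod.mk.injEq, Fin.mk.injEq] at h1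
  have h2 := pigeon_floor hs (hx i).1 (hx j).1 h1.1
  have h3 := pigeon_floor hs (hx i).2.2.1 (hx j).2.2.1 h1.2
  have h4 := Complex.norm_le_abs_re_add_abs_im (x i - x j)
  rw [Complex.sub_re, Complex.sub_im] at h4
  calc ‖x i - x j‖ ≤ _ := h4
    _ ≤ 1 / s + 1 / s := add_le_add h2 h3
    _ = 2 / s := by ring

end TotRen
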