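import Pool.Agent.W_MP_f70009_h24.Lin

/-!
# The covering map and lifts
-/

open scoped ContDiff Topology
open Set Filter

namespace TotRen

theorem Cover_coe_eq_iff (x y : ℝ) :
    (x : UnitAddCircle) = (y : UnitAddCircle) ↔ ∃ n : ℤ, x = y + n := by
  rw [← sub_eq_zero, ← AddCircle.coe_sub, AddCircle.coe_eq_zero_iff]
  constructor
  · rintro ⟨n, hn⟩
    refine ⟨n, ?_⟩
    rw [zsmul_eq_mul, mul_one] at hn
    linarith
  · rintro ⟨n, hn⟩
    refine ⟨n, ?_⟩
    rw [zsmul_eq_mul, mul_one]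
    linarith

theorem Cover_int_zero (a b : ℤ) (h : ‖(a : ℂ) + (b : ℂ) * Complex.I‖ < 1) : a = 0 ∧ b = 0 := by
  have h1 := (Complex.abs_re_le_norm ((a : ℂ) + (b : ℂ) * Complex.I)).trans_lt h
  have h2 := (Complex.abs_im_le_norm ((a : ℂ) + (b : ℂ) * Complex.I)).trans_lt h
  simp only [Complex.add_re, Complex.intCast_re, Complex.mul_re, Complex.I_re, mul_zero,
    Complex.intCast_im, Complex.I_im, mul_one, sub_self, add_zero] at h1
  simp only [Complex.add_im, Complex.intCast_re, Complex.mul_im, Complex.I_re, mul_zero,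
    Complex.intCast_im, Complex.I_im, mul_one, add_zero, zero_add] at h2
  constructor
  · rw [← Int.cast_abs, ← Int.cast_one, Int.cast_lt] at h1
    exact Int.abs_lt_one_iff.1 h1
  · rw [← Int.cast_abs, ← Int.cast_one, Int.cast_lt] at h2
    exact Int.abs_lt_one_iff.1 h2

theorem pr_eq_iff (z w : ℂ) : pr z = pr w ↔ ∃ a b : ℤ, z = w + ((a : ℂ) + (b : ℂ) * Complex.I) := by
  unfold pr
  rw [Prod.mk.injEq, Cover_coe_eq_iff, Cover_coe_eq_iff]
  constructor
  · rintro ⟨⟨a, ha⟩, ⟨b, hb⟩⟩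
    refine ⟨a, b, Complex.ext ?_ ?_⟩
    · simp [ha]
    · simp [hb]
  · rintro ⟨a, b, h⟩
    refine ⟨⟨a, ?_⟩, ⟨b, ?_⟩⟩
    · rw [h]; simp
    · rw [h]; simp

theorem pr_add_int (z : ℂ) (a b : ℤ) : pr (z + ((a : ℂ) + (b : ℂ) * Complex.I)) = pr z :=
  (pr_eq_iff _ _).2 ⟨a, b, rfl⟩

/-- `pr` is locally injective. -/
theorem pr_injOn_ball (z w : ℂ) (h : pr z = pr w) (hzw : ‖z - w‖ < 1) : z = w := by
  obtain ⟨a, b, hab⟩ := (pr_eq_iff z w).1 h
  have h1 : z - w = (a : ℂ) + (b : ℂ) * Complex.I := by rw [hab]; ring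
  rw [h1] at hzw
  obtain ⟨ha, hb⟩ := Cover_int_zero a b hzw
  rw [hab, ha, hb]
  simp

theorem continuous_pr : Continuous pr := by
  unfold pr
  exact ((AddCircle.continuous_mk' (1 : ℝ)).comp Complex.continuous_re).prodMk
    ((AddCircle.continuous_mk' (1 : ℝ)).comp Complex.continuous_im)

theorem pr_surjective : Function.Surjective pr := by
  rintro ⟨x, y⟩
  obtain ⟨a, ha⟩ := QuotientAddGroup.mk_surjective x
  obtain ⟨b, hb⟩ := QuotientAddGroup.mk_surjective y
  refine ⟨⟨a, b⟩, ?_⟩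
  unfold pr
  exact Prod.ext ha hb

/-- iterates of a lift are a lift of the iterates -/
theorem IsLift.iterate {F : ℂ → ℂ} {f : T2 → T2} (h : IsLift F f) (n : ℕ) : IsLift (F^[n]) (f^[n]) := by
  intro z
  induction n with
  | zero => rfl
  | succ n ih =>
    rw [Function.iterate_succ_apply', Function.iterate_succ_apply', ih]
    exact h _

/-- two continuous lifts of the same map differ by a constant integer vector
(a continuous function on the plane with values in the integer vectors is constant) -/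
theorem lifts_differ {F F' : ℂ → ℂ} {f : T2 → T2} (hF : Continuous F) (hF' : Continuous F')
    (h : IsLift F f) (h' : IsLift F' f) :
    ∃ a b : ℤ, ∀ z, F z = F' z + ((a : ℂ) + (b : ℂ) * Complex.I) := by
  have hint : ∀ z, ∃ a b : ℤ, F z = F' z + ((a : ℂ) + (b : ℂ) * Complex.I) := by
    intro z
    exact (pr_eq_iff _ _).1 ((h z).symm.trans (h' z))
  have hloc : IsLocallyConstant fun z => F z - F' z := by
    rw [IsLocallyConstant.iff_eventually_eq]
    intro x
    have h1 := (hF.sub hF').continuousAt (x := x)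
    have h2 : ∀ᶠ y in 𝓝 x, dist (F y - F' y) (F x - F' x) < 1 :=
      Metric.continuousAt_iff'.1 h1 1 one_pos
    filter_upwards [h2] with y hy
    obtain ⟨a, b, hab⟩ := hint x
    obtain ⟨c, d, hcd⟩ := hint y
    rw [dist_eq_norm, hab, hcd] at hy
    have h3 : F' y + ((c : ℂ) + (d : ℂ) * Complex.I) - F' y -
        (F' x + ((a : ℂ) + (b : ℂ) * Complex.I) - F' x) =
        ((c - a : ℤ) : ℂ) + ((d - b : ℤ) : ℂ) * Complex.I := by
      push_cast
      ring
    rw [h3] at hy
    obtain ⟨h4, h5⟩ := Cover_int_zero _ _ hy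
    rw [hab, hcd, sub_eq_zero.1 h4, sub_eq_zero.1 h5]
    ring
  obtain ⟨a, b, hab⟩ := hint 0
  refine ⟨a, b, fun z => ?_⟩
  have h6 : F z - F' z = F 0 - F' 0 := hloc.apply_eq_of_preconnectedSpace z 0
  rw [hab] at h6
  have h7 : F z = F' z + (F' 0 + ((a : ℂ) + (b : ℂ) * Complex.I) - F' 0) := by
    rw [← h6]; ring
  rw [h7]
  ring

/-- translates of a lift by integer vectors -/
theorem Cover_translate {F : ℂ → ℂ} {f : T2 → T2} (hF : Continuous F) (h : IsLift F f)
    (a b : ℤ) : ∃ c d : ℤ, ∀ z, F (z + ((a : ℂ) + (b : ℂ) * Complex.I)) =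
      F z + ((c : ℂ) + (d : ℂ) * Complex.I) := by
  refine lifts_differ (F := fun z => F (z + ((a : ℂ) + (b : ℂ) * Complex.I))) (f := f)
    (hF.comp (continuous_id.add continuous_const)) hF ?_ h
  intro z
  rw [← h, pr_add_int]

/-- the derivative of a lift does not depend on the choice of the lift of the point
(by `lifts_differ` applied to `z ↦ F (z + o)` and `F`) -/
theorem fderiv_lift_congr {F : ℂ → ℂ} {f : T2 → T2} (hF : ContDiff ℝ ∞ F) (h : IsLift F f)
    {z w : ℂ} (hzw : pr z = pr w) : fderiv ℝ F z = fderiv ℝ F w := by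
  obtain ⟨a, b, hab⟩ := (pr_eq_iff z w).1 hzw
  obtain ⟨c, d, hcd⟩ := Cover_translate hF.continuous h a b
  have h1 : fderiv ℝ (fun x => F (x + ((a : ℂ) + (b : ℂ) * Complex.I))) w =
      fderiv ℝ F (w + ((a : ℂ) + (b : ℂ) * Complex.I)) := fderiv_comp_add_right _
  have h2 : (fun x => F (x + ((a : ℂ) + (b : ℂ) * Complex.I))) =
      fun x => F x + ((c : ℂ) + (d : ℂ) * Complex.I) := funext hcd
  rw [h2, fderiv_add_const, ← hab] at h1
  exact h1.symm

/-- the derivative of the iterates of `f^n` at a point of period `n` -/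
theorem fderiv_iterate_period {F : ℂ → ℂ} {f : T2 → T2} (hF : ContDiff ℝ ∞ F) (h : IsLift F f)
    {n : ℕ} {x : ℂ} (hx : f^[n] (pr x) = pr x) (k : ℕ) :
    fderiv ℝ (F^[k * n]) x = (fderiv ℝ (F^[n]) x) ^ k := by
  have hit : ∀ m : ℕ, ContDiff ℝ ∞ (F^[m]) := by
    intro m
    induction m with
    | zero => exact contDiff_id
    | succ m ih => rw [Function.iterate_succ']; exact hF.comp ih
  have hper : ∀ k : ℕ, f^[k * n] (pr x) = pr x := by
    intro k
    induction k with
    | zero => rw [zero_mul]; rfl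
    | succ k ih =>
      rw [Nat.succ_mul, Function.iterate_add_apply, hx, ih]
  induction k with
  | zero =>
    rw [zero_mul, pow_zero, Function.iterate_zero]
    exact fderiv_id
  | succ k ih =>
    have h1 : F^[(k + 1) * n] = F^[n] ∘ F^[k * n] := by
      rw [← Function.iterate_add, Nat.succ_mul, add_comm]
    have h2 : pr (F^[k * n] x) = pr x := by
      rw [← (h.iterate (k * n)) x, hper]
    rw [h1, fderiv_comp x ((hit n).differentiable (by simp) _)
      ((hit (k * n)).differentiable (by simp) _), ih,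
      fderiv_lift_congr (hit n) (h.iterate n) h2, pow_succ']
    rfl

/-- a continuous lift with bounded displacement is equivariant.  (`F (z + o) - F z` is a constant
integer vector `c(o)`; `F (k o) = F 0 + k c(o)` is within `1` of `k o` for all `k`.) -/
theorem lift_equiv {F : ℂ → ℂ} {f : T2 → T2} (hF : Continuous F) (h : IsLift F f)
    (hb : ∀ z, ‖F z - z‖ ≤ 1) (z : ℂ) (a b : ℤ) :
    F (z + ((a : ℂ) + (b : ℂ) * Complex.I)) = F z + ((a : ℂ) + (b : ℂ) * Complex.I) := by
  obtain ⟨c, d, hcd⟩ := Cover_translate hF h a b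
  set o : ℂ := (a : ℂ) + (b : ℂ) * Complex.I with ho
  set e : ℂ := (c : ℂ) + (d : ℂ) * Complex.I with he
  have h3 : F (z + 3 * o) = F z + 3 * e := by
    have h1 : z + 3 * o = z + o + o + o := by ring
    rw [h1, hcd, hcd, hcd]
    ring
  have h4 : ‖3 * (e - o)‖ ≤ 2 := by
    have h5 : 3 * (e - o) = (F (z + 3 * o) - (z + 3 * o)) - (F z - z) := by
      rw [h3]; ring
    rw [h5]
    refine (norm_sub_le _ _).trans ?_
    linarith [hb (z + 3 * o), hb z]
  have h6 : ‖e - o‖ < 1 := by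
    rw [norm_mul] at h4
    have h7 : ‖(3 : ℂ)‖ = 3 := by norm_num
    rw [h7] at h4
    linarith
  have h8 : e - o = ((c - a : ℤ) : ℂ) + ((d - b : ℤ) : ℂ) * Complex.I := by
    rw [ho, he]
    push_cast
    ring
  rw [h8] at h6
  obtain ⟨h9, h10⟩ := Cover_int_zero _ _ h6
  rw [hcd z, he, ho, sub_eq_zero.1 h9, sub_eq_zero.1 h10]

end TotRen
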