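import Pool.Agent.W_MP_f70009_h24.CountC
import Pool.Agent.W_MP_f70009_h24.CountD
import Pool.Agent.W_MP_f70009_h24.CountE
import Pool.Agent.W_MP_f70009_h24.Cover

/-!
# Final count
-/

open scoped ContDiff Topology
open Set Filter

namespace TotRen

theorem fc_iter_equiv {F : ℂ → ℂ} (hFe : ∀ z, ∀ a b : ℤ, F (z + ((a : ℂ) + (b : ℂ) * Complex.I))
    = F z + ((a : ℂ) + (b : ℂ) * Complex.I)) (N : ℕ) (z : ℂ) (a b : ℤ) :
    F^[N] (z + ((a : ℂ) + (b : ℂ) * Complex.I)) = F^[N] z + ((a : ℂ) + (b : ℂ) * Complex.I) := by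
  induction N generalizing z with
  | zero => rfl
  | succ N ih => rw [Function.iterate_succ_apply, Function.iterate_succ_apply, hFe, ih]

theorem fc_iter_smooth {F : ℂ → ℂ} (hF : ContDiff ℝ ∞ F) (N : ℕ) : ContDiff ℝ ∞ (F^[N]) := by
  induction N with
  | zero => exact contDiff_id
  | succ N ih =>
    rw [Function.iterate_succ]
    exact ih.comp hF

theorem fc_fderiv {G : ℂ → ℂ} {o : ℂ} (h : ∀ z, G (z + o) = G z + o) (z : ℂ) :
    fderiv ℝ G (z + o) = fderiv ℝ G z := by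
  have h1 : (fun w => G (w + o)) = fun w => G w + o := funext h
  have h2 : fderiv ℝ (fun w => G (w + o)) z = fderiv ℝ G (z + o) := fderiv_comp_add_right o
  rw [← h2, h1, fderiv_add_const]

theorem fc_int {a b a' b' : ℤ} (h : ‖((a : ℂ) + (b : ℂ) * Complex.I) -
    ((a' : ℂ) + (b' : ℂ) * Complex.I)‖ < 1) : a = a' ∧ b = b' := by
  have h1 := (Complex.abs_re_le_norm _).trans_lt h
  have h2 := (Complex.abs_im_le_norm _).trans_lt h
  simp only [Complex.sub_re, Complex.add_re, Complex.intCast_re, Complex.mul_re, Complex.I_re,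
    mul_zero, Complex.intCast_im, Complex.I_im, mul_one, sub_self, add_zero, Complex.sub_im,
    Complex.add_im, Complex.mul_im, zero_add] at h1 h2
  constructor
  · have h3 : |a - a'| < 1 := by exact_mod_cast h1
    have := Int.abs_lt_one_iff.1 h3
    omega
  · have h3 : |b - b'| < 1 := by exact_mod_cast h2
    have := Int.abs_lt_one_iff.1 h3
    omega

/-- The final count.  Proof: `r = 4 R + 2`, `K` from `iterate_bound r N` (enlarged), `m₀, c` from
`count_zeros`; `m₁ = m₀ + 1`, `L = m₁ s` with `s` large.  Translate the `x i` by integers into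
`[0,1)²` (equivariance); `pigeon_square` gives more than `m₀` of them at distances `≤ 2/s`; as
`‖(F^[N] - id)(x i) - (F^[N] - id)(x j)‖ ≤ K · 2/s < 1` they have the same integer vector `o`;
apply `count_zeros` to `f = F^[N] - id - o` with
`δ = (c₁ L / L ^ R)²` (`≤ 1` for large `L`.. or use `min`): `c δ² ≤ (2/s) ^ (4R)`, i.e.
`c c₁⁴ (m₁ s) ^ 4 (m₁ s) ^ (-4R) ≤ 2 ^ (4R) s ^ (-4R)`, false for large `s`. -/
theorem final_count (R N : ℕ) (hR : 1 ≤ R) (c₁ : ℝ) (hc₁ : 0 < c₁) (hc₁' : c₁ ≤ 1) :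
    ∃ L : ℕ, 1 ≤ L ∧ ∀ F : ℂ → ℂ, ContDiff ℝ ∞ F →
      (∀ k ≤ 4 * R + 2, ∀ z, ‖iteratedFDeriv ℝ k (fun w => F w - w) z‖ ≤ 1) →
      (∀ z, ∀ a b : ℤ, F (z + ((a : ℂ) + (b : ℂ) * Complex.I))
        = F z + ((a : ℂ) + (b : ℂ) * Complex.I)) →
      ¬ ∃ x : Fin L × Fin L → ℂ,
        (∀ i j, ∀ a b : ℤ, x i = x j + ((a : ℂ) + (b : ℂ) * Complex.I) → i = j) ∧
        (∀ i, ∃ a b : ℤ, F^[N] (x i) = x i + ((a : ℂ) + (b : ℂ) * Complex.I)) ∧
        (∀ i, (c₁ * L / (L : ℝ) ^ R) ^ 2 ≤ |det2 (fderiv ℝ (F^[N]) (x i) - 1)|) := by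
  obtain ⟨K₀, hK₀, hit⟩ := iterate_bound (4 * R + 2) N
  obtain ⟨m₀, c, hc, hcount⟩ := count_zeros (4 * R + 2) (by omega) (2 * K₀) (by linarith)
  have hden : 0 < c * c₁ ^ 4 := by positivity
  obtain ⟨s, hs⟩ := exists_nat_gt (max (max 2 (2 * K₀)) ((2 * ((m₀ : ℝ) + 1)) ^ (4 * R) / (c * c₁ ^ 4)))
  rw [max_lt_iff, max_lt_iff] at hs
  obtain ⟨⟨hs2, hsK⟩, hsB⟩ := hs
  have hs0 : (0 : ℝ) < s := by linarith
  have hs1 : 1 ≤ s := by
    have : (1 : ℝ) < s := by linarith
    exact_mod_cast this.le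
  obtain ⟨L, hLdef⟩ : ∃ L, L = (m₀ + 1) * s := ⟨_, rfl⟩
  have hL1 : 1 ≤ L := by
    rw [hLdef]
    exact Nat.one_le_iff_ne_zero.2 (by positivity)
  refine ⟨L, hL1, ?_⟩
  rintro F hF hFb hFe ⟨x, hx1, hx2, hx3⟩
  choose a b hab using hx2
  set G : ℂ → ℂ := F^[N] with hG
  have hGs : ContDiff ℝ ∞ G := fc_iter_smooth hF N
  have hGe : ∀ z, ∀ a b : ℤ, G (z + ((a : ℂ) + (b : ℂ) * Complex.I))
      = G z + ((a : ℂ) + (b : ℂ) * Complex.I) := fc_iter_equiv hFe N
  have hub := hit F hF hFb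
  -- the translated points
  set y : Fin L × Fin L → ℂ := fun i =>
    x i + (((-⌊(x i).re⌋ : ℤ) : ℂ) + ((-⌊(x i).im⌋ : ℤ) : ℂ) * Complex.I) with hy
  have hyG : ∀ i, G (y i) = y i + ((a i : ℂ) + (b i : ℂ) * Complex.I) := by
    intro i
    simp only [hy]
    rw [hGe, hab]
    ring
  have hyd : ∀ i, fderiv ℝ G (y i) = fderiv ℝ G (x i) := fun i =>
    fc_fderiv (fun z => hGe z _ _) (x i)
  have hyinj : Function.Injective y := by
    intro i j hij
    refine hx1 i j (⌊(x i).re⌋ - ⌊(x j).re⌋) (⌊(x i).im⌋ - ⌊(x j).im⌋) ?_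
    simp only [hy] at hij
    push_cast at hij ⊢
    linear_combination hij
  have hysq : ∀ i, 0 ≤ (y i).re ∧ (y i).re < 1 ∧ 0 ≤ (y i).im ∧ (y i).im < 1 := by
    intro i
    have e1 : (y i).re = (x i).re - ⌊(x i).re⌋ := by
      simp only [hy, Complex.add_re, Complex.mul_re, Complex.I_re, Complex.I_im, Complex.intCast_re,
        Complex.intCast_im]
      push_cast
      ring
    have e2 : (y i).im = (x i).im - ⌊(x i).im⌋ := by
      simp only [hy, Complex.add_im, Complex.mul_im, Complex.I_re, Complex.I_im, Complex.intCast_re,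
        Complex.intCast_im]
      push_cast
      ring
    rw [e1, e2]
    have h1 := Int.floor_le (x i).re
    have h2 := Int.lt_floor_add_one (x i).re
    have h3 := Int.floor_le (x i).im
    have h4 := Int.lt_floor_add_one (x i).im
    exact ⟨by linarith, by linarith, by linarith, by linarith⟩
  have hcard : m₀ * s ^ 2 < Fintype.card (Fin L × Fin L) := by
    rw [Fintype.card_prod, Fintype.card_fin, hLdef]
    have : 0 < s ^ 2 := by positivity
    nlinarith
  obtain ⟨T, hTc, hTd⟩ := pigeon_square y hysq hs1 hcard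
  have hTne : T.Nonempty := by
    rw [← Finset.card_pos]
    omega
  obtain ⟨i0, hi0⟩ := hTne
  -- Lipschitz estimate
  have hud : Differentiable ℝ (fun w => G w - w) := (hGs.differentiable (by simp)).sub differentiable_id
  have hlip : ∀ z w, ‖(G z - z) - (G w - w)‖ ≤ K₀ * ‖z - w‖ := by
    intro z w
    refine Convex.norm_image_sub_le_of_norm_fderiv_le (𝕜 := ℝ) (f := fun w => G w - w)
      (s := Set.univ) (fun v _ => hud v) (fun v _ => ?_) convex_univ (mem_univ w) (mem_univ z)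
    have := hub 1 (by omega) v
    rwa [norm_iteratedFDeriv_one] at this
  have hsame : ∀ i ∈ T, a i = a i0 ∧ b i = b i0 := by
    intro i hi
    apply fc_int
    have h1 := hlip (y i) (y i0)
    rw [hyG, hyG] at h1
    have h2 := hTd i hi i0 hi0
    have h3 : K₀ * ‖y i - y i0‖ ≤ K₀ * (2 / s) := by gcongr
    have h4 : K₀ * (2 / s) < 1 := by
      rw [← mul_div_assoc, div_lt_one hs0]
      linarith
    have h5 : (y i + ((a i : ℂ) + (b i : ℂ) * Complex.I) - y i) -
        (y i0 + ((a i0 : ℂ) + (b i0 : ℂ) * Complex.I) - y i0) =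
        ((a i : ℂ) + (b i : ℂ) * Complex.I) - ((a i0 : ℂ) + (b i0 : ℂ) * Complex.I) := by ring
    rw [h5] at h1
    linarith
  set o : ℂ := (a i0 : ℂ) + (b i0 : ℂ) * Complex.I with ho
  have hoK : ‖o‖ ≤ K₀ := by
    have h1 := hub 0 (by omega) (y i0)
    rw [norm_iteratedFDeriv_zero] at h1
    change ‖G (y i0) - y i0‖ ≤ K₀ at h1
    rw [hyG] at h1
    simpa [ho] using h1
  set f : ℂ → ℂ := fun w => (G w - w) - o with hf
  have hfs : ContDiff ℝ ∞ f := (hGs.sub contDiff_id).sub contDiff_const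
  have hfb : ∀ k ≤ 4 * R + 2, ∀ z, ‖iteratedFDeriv ℝ k f z‖ ≤ 2 * K₀ := by
    intro k hk z
    have h1 := hub k hk z
    rcases Nat.eq_zero_or_pos k with rfl | hk0
    · rw [norm_iteratedFDeriv_zero] at h1 ⊢
      calc ‖(G z - z) - o‖ ≤ ‖G z - z‖ + ‖o‖ := norm_sub_le _ _
        _ ≤ K₀ + K₀ := add_le_add h1 hoK
        _ = 2 * K₀ := by ring
    · have h2 : iteratedFDeriv ℝ k f z = iteratedFDeriv ℝ k (fun w => G w - w) z := by
        have h3 : f = (fun w => G w - w) - fun _ => o := rfl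
        rw [h3, iteratedFDeriv_sub_apply]
        · rw [iteratedFDeriv_const_of_ne (by omega)]
          simp
        · exact ((hGs.sub contDiff_id).of_le (by exact_mod_cast le_top)).contDiffAt
        · exact contDiffAt_const
      rw [h2]
      linarith
  have hfd : ∀ z, fderiv ℝ f z = fderiv ℝ G z - 1 := by
    intro z
    have h1 : HasFDerivAt G (fderiv ℝ G z) z := (hGs.differentiable (by simp) z).hasFDerivAt
    have h2 := (h1.sub (hasFDerivAt_id z)).sub_const o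
    exact h2.fderiv
  -- the numbers
  have hLs : (L : ℝ) = ((m₀ : ℝ) + 1) * s := by rw [hLdef]; push_cast; ring
  have hLpos : (1 : ℝ) ≤ L := by exact_mod_cast hL1
  have hL0 : (0 : ℝ) < L := by linarith
  have hq0 : 0 < c₁ * L / (L : ℝ) ^ R := by positivity
  have hq1 : c₁ * L / (L : ℝ) ^ R ≤ 1 := by
    rw [div_le_one (by positivity)]
    calc c₁ * L ≤ 1 * L := by gcongr
      _ = (L : ℝ) ^ 1 := by ring
      _ ≤ (L : ℝ) ^ R := pow_le_pow_right₀ hLpos hR
  have hfin := hcount f hfs hfb (2 / s) (by positivity) (by rw [div_le_one hs0]; exact hs2.le)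
    ((c₁ * L / (L : ℝ) ^ R) ^ 2) (by positivity) (pow_le_one₀ hq0.le hq1) (T.image y)
    (by
      intro z hz
      rw [Finset.mem_image] at hz
      obtain ⟨i, hi, rfl⟩ := hz
      obtain ⟨e1, e2⟩ := hsame i hi
      simp only [hf]
      rw [hyG, e1, e2, ho]
      ring)
    (by
      intro z hz w hw
      rw [Finset.mem_image] at hz hw
      obtain ⟨i, hi, rfl⟩ := hz
      obtain ⟨j, hj, rfl⟩ := hw
      exact hTd i hi j hj)
    (by
      intro z hz
      rw [Finset.mem_image] at hz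
      obtain ⟨i, hi, rfl⟩ := hz
      rw [hfd, hyd]
      exact hx3 i)
    (by rwa [Finset.card_image_of_injective _ hyinj])
  rw [show 4 * R + 2 - 2 = 4 * R by omega] at hfin
  have h1 : c * ((c₁ * L / (L : ℝ) ^ R) ^ 2) ^ 2 = (c * c₁ ^ 4) * L ^ 4 / (L : ℝ) ^ (4 * R) := by
    rw [← pow_mul, div_pow, mul_pow, ← pow_mul, show R * (2 * 2) = 4 * R by ring]
    ring
  rw [h1, div_pow, div_le_div_iff₀ (by positivity) (by positivity)] at hfin
  have h2 : (L : ℝ) ^ (4 * R) = ((m₀ : ℝ) + 1) ^ (4 * R) * s ^ (4 * R) := by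
    rw [hLs, mul_pow]
  have h3 : c * c₁ ^ 4 * (L : ℝ) ^ 4 ≤ (2 * ((m₀ : ℝ) + 1)) ^ (4 * R) := by
    have h4 : c * c₁ ^ 4 * (L : ℝ) ^ 4 * s ^ (4 * R) ≤
        (2 * ((m₀ : ℝ) + 1)) ^ (4 * R) * s ^ (4 * R) := by
      refine hfin.trans (le_of_eq ?_)
      rw [h2, mul_pow]
      ring
    exact le_of_mul_le_mul_right h4 (by positivity)
  rw [div_lt_iff₀ hden] at hsB
  have h5 : (s : ℝ) ≤ (L : ℝ) ^ 4 := by
    calc (s : ℝ) = 1 * s := by ring
      _ ≤ ((m₀ : ℝ) + 1) * s := by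
          have : (0 : ℝ) ≤ m₀ := by positivity
          gcongr
          linarith
      _ = (L : ℝ) ^ 1 := by rw [hLs]; ring
      _ ≤ (L : ℝ) ^ 4 := pow_le_pow_right₀ hLpos (by norm_num)
  nlinarith

end TotRen
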