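import Pool.Agent.W_MP_f70009_h24.FamA

/-!
# Local persistence
-/

open scoped ContDiff Topology
open Set Filter

namespace TotRen

/-- Local persistence at good parameters.  Proof: `Fam.ift` for `F.iterate n` gives `φ`; for `s` near `s0`
the discriminant stays negative, the trace stays `< 2`, no `m < n` becomes a period of `pr (φ s)`
(continuity of `s ↦ (g s)^[m] (pr (φ s)) = pr (Γ^m (s, φ s))`, `T2` is Hausdorff), and then
the label hypothesis `hlab` gives the focus formula. -/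
theorem Tn_open {g : ℝ → T2 → T2} {Γ : ℝ × ℂ → ℂ} (F : Fam g Γ) {h : ℝ} (h0 : 0 < h)
    (h1 : h < 1 / 2) {n : ℕ} (hn : 1 ≤ n)
    (hlab : ∀ s, 0 < s → s ≤ Real.pi / 2 → Good (h * Real.sin s) → ∀ z,
      Function.minimalPeriod (g s) (pr z) = n →
      tr2 (fderiv ℝ ((fun w => Γ (s, w))^[n]) z) ^ 2
        < 4 * det2 (fderiv ℝ ((fun w => Γ (s, w))^[n]) z) →
      IsAtt (h * Real.sin s) (fderiv ℝ ((fun w => Γ (s, w))^[n]) z) ∨
      IsRep (h * Real.sin s) (fderiv ℝ ((fun w => Γ (s, w))^[n]) z))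
    {s0 : ℝ} (hs0 : s0 ∈ Tn g Γ h n) :
    ∀ᶠ s in 𝓝 s0, 0 < s → s ≤ Real.pi / 2 → Good (h * Real.sin s) → s ∈ Tn g Γ h n := by
  obtain ⟨hs1, hs2, z0, hper, hatt⟩ := hs0
  have hsin : ∀ s : ℝ, 0 < s → s ≤ Real.pi / 2 → 0 < Real.sin s := fun s h3 h4 =>
    Real.sin_pos_of_pos_of_lt_pi h3 (by linarith [Real.pi_pos])
  have ha0 : 0 < h * Real.sin s0 := mul_pos h0 (hsin s0 hs1 hs2)
  have ha1 : h * Real.sin s0 ≤ 1 / 2 := by
    nlinarith [Real.sin_le_one s0, hsin s0 hs1 hs2]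
  have FG := F.iterate n
  have hit : ∀ s, (fun w => itL Γ n (s, w)) = (fun w => Γ (s, w))^[n] := fun s => rfl
  have hfix : (g s0)^[n] (pr z0) = pr z0 := by
    rw [← hper]
    exact Function.iterate_minimalPeriod
  have hl : (g s0)^[n] (pr z0) = pr (itL Γ n (s0, z0)) := FG.lift s0 z0
  obtain ⟨a, b, hab⟩ := (pr_eq_iff _ _).1 (hl.symm.trans hfix)
  -- the derivative at `s0`
  rw [← hit] at hatt
  have hatt' := (isAtt_iff _ _).1 hatt
  have hdet : det2 (fderiv ℝ (fun w => itL Γ n (s0, w)) z0 - 1) ≠ 0 := by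
    have h3 := det2_pow_sub_one _ _ hatt'.1 hatt'.2 1
    have h4 := normSq_muAtt_pow_sub_one ha0 ha1 (le_refl 1)
    rw [pow_one] at h3
    rw [h3]
    have h5 : 0 < (h * Real.sin s0) ^ 2 / 4 := by positivity
    exact (h5.trans_le h4).ne'
  obtain ⟨φ, hφc, hφ0, hφ, -⟩ := FG.ift hab hdet
  -- continuity of the derivative along `φ`
  have hpc : ContinuousAt (fun s => (s, φ s)) s0 := continuousAt_id.prodMk hφc
  have hA : ContinuousAt (fun s => fderiv ℝ (fun w => itL Γ n (s, w)) (φ s)) s0 :=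
    ContinuousAt.comp (f := fun s => (s, φ s))
      (g := fun q : ℝ × ℂ => fderiv ℝ (fun w => itL Γ n (q.1, w)) q.2)
      FG.continuous_fderiv.continuousAt hpc
  have htr : ContinuousAt (fun s => tr2 (fderiv ℝ (fun w => itL Γ n (s, w)) (φ s))) s0 :=
    continuous_tr2.continuousAt.comp hA
  have hdt : ContinuousAt (fun s => det2 (fderiv ℝ (fun w => itL Γ n (s, w)) (φ s))) s0 :=
    continuous_det2.continuousAt.comp hA
  have e1 : ∀ᶠ s in 𝓝 s0, tr2 (fderiv ℝ (fun w => itL Γ n (s, w)) (φ s)) ^ 2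
      < 4 * det2 (fderiv ℝ (fun w => itL Γ n (s, w)) (φ s)) := by
    refine Filter.Tendsto.eventually_lt (htr.pow 2) (hdt.const_mul 4) ?_
    simp only [Pi.pow_apply, hφ0]
    rw [hatt.1, hatt.2]
    nlinarith
  have e2 : ∀ᶠ s in 𝓝 s0, tr2 (fderiv ℝ (fun w => itL Γ n (s, w)) (φ s)) < 2 := by
    refine Filter.Tendsto.eventually_lt_const ?_ htr
    simp only [hφ0]
    rw [hatt.1]
    linarith
  -- the period
  have e3 : ∀ᶠ s in 𝓝 s0, ∀ m ∈ Finset.range n, 1 ≤ m → (g s)^[m] (pr (φ s)) ≠ pr (φ s) := by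
    rw [Filter.eventually_all_finset]
    intro m hm
    rcases Nat.lt_or_ge m 1 with hm1 | hm1
    · exact Eventually.of_forall fun s h3 => absurd h3 (by omega)
    · have FM := F.iterate m
      have h3 : ContinuousAt (fun s => pr (itL Γ m (s, φ s))) s0 :=
        (continuous_pr.comp FM.smooth.continuous).continuousAt.comp hpc
      have h4 : ContinuousAt (fun s => pr (φ s)) s0 := continuous_pr.continuousAt.comp hφc
      have hne : pr (itL Γ m (s0, φ s0)) ≠ pr (φ s0) := by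
        rw [hφ0]
        intro h5
        have h6 : (g s0)^[m] (pr z0) = pr (itL Γ m (s0, z0)) := FM.lift s0 z0
        have h7 : Function.IsPeriodicPt (g s0) m (pr z0) := h6.trans h5
        have h8 := h7.minimalPeriod_le (by omega)
        rw [hper] at h8
        have h9 := Finset.mem_range.1 hm
        omega
      have h10 : ∀ᶠ q : T2 × T2 in 𝓝 (pr (itL Γ m (s0, φ s0)), pr (φ s0)), q.1 ≠ q.2 :=
        isClosed_diagonal.isOpen_compl.mem_nhds hne
      filter_upwards [(h3.prodMk h4).eventually h10] with s h5 _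
      have h6 : (g s)^[m] (pr (φ s)) = pr (itL Γ m (s, φ s)) := FM.lift s (φ s)
      rw [h6]
      exact h5
  filter_upwards [hφ, e1, e2, e3] with s f1 f2 f3 f4 f5 f6 f7
  have hp : Function.IsPeriodicPt (g s) n (pr (φ s)) := by
    have h3 : (g s)^[n] (pr (φ s)) = pr (itL Γ n (s, φ s)) := FG.lift s (φ s)
    show (g s)^[n] (pr (φ s)) = pr (φ s)
    rw [h3, f1, pr_add_int]
  have hmin : Function.minimalPeriod (g s) (pr (φ s)) = n := by
    have h3 := hp.minimalPeriod_le (by omega)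
    have h4 := hp.minimalPeriod_pos (by omega)
    rcases h3.lt_or_eq with h5 | h5
    · exact absurd Function.iterate_minimalPeriod (f4 _ (Finset.mem_range.2 h5) h4)
    · exact h5
  refine ⟨f5, f6, φ s, hmin, ?_⟩
  rcases hlab s f5 f6 f7 (φ s) hmin f2 with h3 | h3
  · exact h3
  · exfalso
    have h4 : tr2 (fderiv ℝ (fun w => itL Γ n (s, w)) (φ s)) = 2 * (1 + h * Real.sin s) := h3.1
    have h5 := mul_pos h0 (hsin s f5 f6)
    linarith

end TotRen
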