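import Pool.Agent.W_MP_f70009_h24.GoodSet

/-!
# Connectedness
-/

open scoped ContDiff Topology
open Set Filter

namespace TotRen

/-- good parameters are dense -/
theorem exists_good_between {h : ℝ} (h0 : 0 < h) {a b : ℝ} (ha : 0 ≤ a) (hab : a < b)
    (hb : b ≤ Real.pi / 2) : ∃ s, a < s ∧ s < b ∧ Good (h * Real.sin s) := by
  by_contra hn
  push Not at hn
  have hsub : Ioo a b ⊆ {s | s ∈ Ioo a b ∧ ¬ Good (h * Real.sin s)} := fun s hs =>
    ⟨hs, hn s hs.1 hs.2⟩
  have hinj : InjOn (fun s : ℝ => h * Real.sin s) (Ioo a b) := by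
    intro s hs t ht hst
    have h1 : Real.sin s = Real.sin t := mul_left_cancel₀ h0.ne' hst
    refine Real.injOn_sin ?_ ?_ h1
    · constructor
      · linarith [hs.1, Real.pi_pos]
      · linarith [hs.2]
    · constructor
      · linarith [ht.1, Real.pi_pos]
      · linarith [ht.2]
  have hc : (Ioo a b).Countable := by
    refine MapsTo.countable_of_injOn (f := fun s : ℝ => h * Real.sin s)
      (t := {a : ℝ | ¬ Good a}) ?_ hinj countable_not_good
    intro s hs
    exact (hsub hs).2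
  have h1 := Cardinal.mk_Ioo_real hab
  have h2 : Cardinal.mk (Ioo a b) ≤ Cardinal.aleph0 := Cardinal.le_aleph0_iff_set_countable.2 hc
  rw [h1] at h2
  exact absurd h2 (not_le.2 Cardinal.aleph0_lt_continuum)

/-- Connectedness: a subset `T` of `(0, π/2]` which is closed in `(0, π/2]`, and such that near each of
its points all the good parameters belong to it, accumulates at `0` if it is non-empty.
(The bad parameters `{s ∈ (0, π/2] | ¬ Good (h sin s)}` are countable by `countable_not_good` and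
the injectivity of `sin` there, so the good ones are dense.) -/
theorem Tn_connected {h : ℝ} (h0 : 0 < h) {T : Set ℝ} (hT : T ⊆ Ioc 0 (Real.pi / 2))
    (hcl : ∀ s : ℕ → ℝ, (∀ j, s j ∈ T) → ∀ s0, 0 < s0 → Tendsto s atTop (𝓝 s0) → s0 ∈ T)
    (hop : ∀ s0 ∈ T, ∀ᶠ s in 𝓝 s0, 0 < s → s ≤ Real.pi / 2 → Good (h * Real.sin s) → s ∈ T)
    (hne : T.Nonempty) {ε : ℝ} (hε : 0 < ε) : ∃ s ∈ T, s < ε := by
  by_contra hcon
  push Not at hcon
  have hbd : BddBelow T := ⟨ε, fun s hs => hcon s hs⟩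
  have hge : ε ≤ sInf T := le_csInf hne hcon
  have hpos : 0 < sInf T := hε.trans_le hge
  obtain ⟨u, -, hu, huT⟩ := exists_seq_tendsto_sInf hne hbd
  have hmem : sInf T ∈ T := hcl u huT _ hpos hu
  obtain ⟨l, r, ⟨hl, hr⟩, hlr⟩ := (mem_nhds_iff_exists_Ioo_subset).1 (hop _ hmem)
  have h1 : max l 0 < sInf T := max_lt hl hpos
  obtain ⟨s, hs1, hs2, hs3⟩ := exists_good_between h0 (le_max_right l 0) h1 (hT hmem).2
  have h2 : s ∈ Ioo l r := ⟨(le_max_left _ _).trans_lt hs1, hs2.trans hr⟩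
  have h3 : s ∈ T := hlr h2 ((le_max_right _ _).trans_lt hs1) (hs2.le.trans (hT hmem).2) hs3
  exact absurd (csInf_le hbd h3) (not_le.2 hs2)

end TotRen
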