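import Pool.Agent.W_MP_f70009_h24.Lin

/-!
# Hadamard bounds
-/

open scoped ContDiff Topology
open Set Filter

namespace TotRen

theorem famE_lip {E : Type*} [NormedAddCommGroup E] [NormedSpace ℝ E] {g : ℝ × ℂ → E}
    (hg : ContDiff ℝ ∞ g)
    (hper : ∀ s z, ∀ a b : ℤ, g (s, z + ((a : ℂ) + (b : ℂ) * Complex.I)) = g (s, z))
    (hzero : ∀ z, g (0, z) = 0) :
    ∃ C : ℝ, 0 < C ∧ ∀ s ∈ Icc (0 : ℝ) 1, ∀ z : ℂ, ‖g (s, z)‖ ≤ C * s := by
  set K : Set ℂ := Icc (0 : ℝ) 1 ×ℂ Icc (0 : ℝ) 1 with hK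
  have hKc : IsCompact K := isCompact_Icc.reProdIm isCompact_Icc
  have hKconv : Convex ℝ K := by
    have e : K = (Complex.reLm ⁻¹' Icc (0 : ℝ) 1) ∩ (Complex.imLm ⁻¹' Icc (0 : ℝ) 1) := rfl
    rw [e]
    exact ((convex_Icc (0 : ℝ) 1).linear_preimage _).inter
      ((convex_Icc (0 : ℝ) 1).linear_preimage _)
  have hcont : Continuous (fun p : ℝ × ℂ => fderiv ℝ g p) :=
    hg.continuous_fderiv (by simp)
  obtain ⟨C, hC⟩ := (isCompact_Icc (a := (0 : ℝ)) (b := 1)).prod hKc |>.exists_bound_of_continuousOn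
    hcont.continuousOn
  refine ⟨max C 1, lt_of_lt_of_le one_pos (le_max_right _ _), ?_⟩
  have key : ∀ s ∈ Icc (0 : ℝ) 1, ∀ z ∈ K, ‖g (s, z)‖ ≤ max C 1 * s := by
    intro s hs z hz
    have h := Convex.norm_image_sub_le_of_norm_fderiv_le (𝕜 := ℝ) (f := g) (C := max C 1)
      (s := Icc (0 : ℝ) 1 ×ˢ K) (x := ((0 : ℝ), z)) (y := (s, z))
      (fun p _ => hg.contDiffAt.differentiableAt (by simp))
      (fun p hp => (hC p hp).trans (le_max_left _ _))
      ((convex_Icc (0 : ℝ) 1).prod hKconv) ⟨⟨le_rfl, zero_le_one⟩, hz⟩ ⟨hs, hz⟩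
    have h2 : ‖((s, z) : ℝ × ℂ) - (0, z)‖ = s := by
      simp [Prod.norm_def, abs_of_nonneg hs.1, hs.1]
    rw [h2, hzero, sub_zero] at h
    exact h
  intro s hs z
  have h1 := hper s z (-⌊z.re⌋) (-⌊z.im⌋)
  rw [← h1]
  apply key s hs
  rw [hK, Complex.mem_reProdIm]
  simp only [Complex.add_re, Complex.add_im, Complex.mul_re, Complex.mul_im, Complex.I_re,
    Complex.I_im, mul_zero, mul_one, add_zero]
  push_cast
  simp only [Complex.neg_re, Complex.neg_im, Complex.intCast_re, Complex.intCast_im, neg_zero,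
    add_zero, zero_add, sub_zero]
  constructor
  · constructor
    · linarith [Int.floor_le z.re]
    · linarith [Int.lt_floor_add_one z.re]
  · constructor
    · linarith [Int.floor_le z.im]
    · linarith [Int.lt_floor_add_one z.im]

theorem famE_partial {E : Type*} [NormedAddCommGroup E] [NormedSpace ℝ E] {g : ℝ × ℂ → E}
    (hg : ContDiff ℝ ∞ g)
    (hper : ∀ s z, ∀ a b : ℤ, g (s, z + ((a : ℂ) + (b : ℂ) * Complex.I)) = g (s, z))
    (hzero : ∀ z, g (0, z) = 0) :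
    ∃ h : ℝ × ℂ → (ℂ →L[ℝ] E), ContDiff ℝ ∞ h ∧
      (∀ s z, ∀ a b : ℤ, h (s, z + ((a : ℂ) + (b : ℂ) * Complex.I)) = h (s, z)) ∧
      (∀ z, h (0, z) = 0) ∧
      ∀ s z, HasFDerivAt (fun v => g (s, v)) (h (s, z)) z := by
  have hd : ∀ s z, HasFDerivAt (fun v => g (s, v))
      ((fderiv ℝ g (s, z)).comp (ContinuousLinearMap.inr ℝ ℝ ℂ)) z := by
    intro s z
    have h1 : HasFDerivAt g (fderiv ℝ g (s, z)) (s, z) :=
      (hg.contDiffAt.differentiableAt (by simp)).hasFDerivAt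
    exact h1.comp z (hasFDerivAt_prodMk_right s z)
  refine ⟨fun p => (fderiv ℝ g p).comp (ContinuousLinearMap.inr ℝ ℝ ℂ), ?_, ?_, ?_, hd⟩
  · have h1 : ContDiff ℝ ∞ (fderiv ℝ g) := hg.fderiv_right (by simp)
    exact h1.clm_comp contDiff_const
  · intro s z a b
    have h1 : (fun p : ℝ × ℂ => g (p + (0, (a : ℂ) + (b : ℂ) * Complex.I))) = g := by
      funext p
      obtain ⟨s', z'⟩ := p
      simpa using hper s' z' a b
    have h2 := fderiv_comp_add_right (𝕜 := ℝ) (f := g) (x := (s, z))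
      ((0 : ℝ), (a : ℂ) + (b : ℂ) * Complex.I)
    rw [h1] at h2
    simp only [Prod.mk_add_mk, add_zero] at h2
    show (fderiv ℝ g (s, z + ((a : ℂ) + (b : ℂ) * Complex.I))).comp _ = (fderiv ℝ g (s, z)).comp _
    rw [h2]
  · intro z
    have h1 := hd 0 z
    have h2 : (fun v => g ((0 : ℝ), v)) = fun _ => 0 := by
      funext v; exact hzero v
    rw [h2] at h1
    exact h1.unique (hasFDerivAt_const (0 : E) z)

/-- Bounds for a smooth periodic family vanishing at `s = 0`.  Proof: the partial derivative in `z`,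
`(s, z) ↦ (fderiv ℝ f (s, z)).comp (inr ℝ ℝ ℂ)`, is again a smooth periodic family vanishing at
`s = 0`; and for every such family `f`, `‖f (s, z)‖ ≤ C |s|` by the mean value inequality on the
segment from `(0, z)` to `(s, z)` (`z` in the unit square, compactness).  Apply this to `f`, to its
first and to its second `z`-derivative, and the mean value inequality in `z`. -/
theorem hadamard_bounds {f : ℝ × ℂ → ℂ} (hf : ContDiff ℝ ∞ f)
    (hper : ∀ s z, ∀ a b : ℤ, f (s, z + ((a : ℂ) + (b : ℂ) * Complex.I)) = f (s, z))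
    (hzero : ∀ z, f (0, z) = 0) :
    ∃ C : ℝ, 0 < C ∧ ∀ s ∈ Icc (0 : ℝ) 1, ∀ z w : ℂ, ‖f (s, z)‖ ≤ C * s ∧
      ‖fderiv ℝ (fun v => f (s, v)) z‖ ≤ C * s ∧
      ‖f (s, w) - f (s, z) - fderiv ℝ (fun v => f (s, v)) z (w - z)‖ ≤ C * s * ‖w - z‖ ^ 2 := by
  obtain ⟨C0, hC0, h0⟩ := famE_lip hf hper hzero
  obtain ⟨f1, hf1, hper1, hzero1, hd1⟩ := famE_partial hf hper hzero
  obtain ⟨C1, hC1, h1⟩ := famE_lip hf1 hper1 hzero1
  obtain ⟨f2, hf2, hper2, hzero2, hd2⟩ := famE_partial hf1 hper1 hzero1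
  obtain ⟨C2, hC2, h2⟩ := famE_lip hf2 hper2 hzero2
  refine ⟨max C0 (max C1 C2), lt_of_lt_of_le hC0 (le_max_left _ _), ?_⟩
  have e1 : C1 ≤ max C0 (max C1 C2) := (le_max_left _ _).trans (le_max_right _ _)
  have e2 : C2 ≤ max C0 (max C1 C2) := (le_max_right _ _).trans (le_max_right _ _)
  intro s hs z w
  refine ⟨(h0 s hs z).trans (mul_le_mul_of_nonneg_right (le_max_left _ _) hs.1), ?_, ?_⟩
  · rw [(hd1 s z).fderiv]
    exact (h1 s hs z).trans (mul_le_mul_of_nonneg_right e1 hs.1)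
  · rw [(hd1 s z).fderiv]
    have hlip : ∀ x y : ℂ, ‖f1 (s, y) - f1 (s, x)‖ ≤ C2 * s * ‖y - x‖ := by
      intro x y
      exact Convex.norm_image_sub_le_of_norm_hasFDerivWithin_le (𝕜 := ℝ)
        (f := fun v => f1 (s, v)) (f' := fun v => f2 (s, v)) (s := univ)
        (fun v _ => (hd2 s v).hasFDerivWithinAt) (fun v _ => h2 s hs v) convex_univ
        (mem_univ x) (mem_univ y)
    have hball : ∀ x ∈ Metric.closedBall z ‖w - z‖,
        ‖f1 (s, x) - f1 (s, z)‖ ≤ C2 * s * ‖w - z‖ := by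
      intro x hx
      refine (hlip z x).trans ?_
      rw [mem_closedBall_iff_norm] at hx
      exact mul_le_mul_of_nonneg_left hx (mul_nonneg hC2.le hs.1)
    have h3 := Convex.norm_image_sub_le_of_norm_hasFDerivWithin_le' (𝕜 := ℝ)
      (f := fun v => f (s, v)) (f' := fun v => f1 (s, v)) (φ := f1 (s, z))
      (s := Metric.closedBall z ‖w - z‖) (C := C2 * s * ‖w - z‖) (x := z) (y := w)
      (fun v _ => (hd1 s v).hasFDerivWithinAt) hball (convex_closedBall _ _)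
      (Metric.mem_closedBall_self (norm_nonneg _)) (by rw [mem_closedBall_iff_norm])
    refine h3.trans ?_
    rw [pow_two, ← mul_assoc]
    exact mul_le_mul_of_nonneg_right (mul_le_mul_of_nonneg_right
      (mul_le_mul_of_nonneg_right e2 hs.1) (norm_nonneg _)) (norm_nonneg _)

end TotRen
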