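import Pool.Agent.W_MP_f70009_h24.FamA
import Pool.Agent.W_MP_f70009_h24.FamE

/-!
# The limit
-/

open scoped ContDiff Topology
open Set Filter

namespace TotRen

/-- iterates at a point which is moved by an integer vector -/
theorem famF_iter {f : ℂ → ℂ} (hf : ∀ z, ∀ a b : ℤ, f (z + ((a : ℂ) + (b : ℂ) * Complex.I))
    = f z + ((a : ℂ) + (b : ℂ) * Complex.I)) {z : ℂ} {a b : ℤ}
    (h : f z = z + ((a : ℂ) + (b : ℂ) * Complex.I)) (k : ℕ) :
    f^[k] z = z + (k : ℂ) * ((a : ℂ) + (b : ℂ) * Complex.I) := by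
  induction k with
  | zero => simp
  | succ k ih =>
    rw [Function.iterate_succ_apply', ih]
    have h1 := hf z (k * a) (k * b)
    have h2 : (((k * a : ℤ) : ℂ) + ((k * b : ℤ) : ℂ) * Complex.I)
        = (k : ℂ) * ((a : ℂ) + (b : ℂ) * Complex.I) := by
      push_cast; ring
    rw [h2] at h1
    rw [h1, h]
    push_cast; ring

/-- an integer vector of norm less than one vanishes -/
theorem famF_int {a b : ℤ} (h : ‖((a : ℂ) + (b : ℂ) * Complex.I)‖ < 1) :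
    ((a : ℂ) + (b : ℂ) * Complex.I) = 0 := by
  have h1 := (Complex.abs_re_le_norm ((a : ℂ) + (b : ℂ) * Complex.I)).trans_lt h
  have h2 := (Complex.abs_im_le_norm ((a : ℂ) + (b : ℂ) * Complex.I)).trans_lt h
  have h3 : ((a : ℂ) + (b : ℂ) * Complex.I).re = (a : ℝ) := by simp
  have h4 : ((a : ℂ) + (b : ℂ) * Complex.I).im = (b : ℝ) := by simp
  rw [h3] at h1
  rw [h4] at h2
  have h5 : |a| < 1 := by exact_mod_cast h1
  have h6 : |b| < 1 := by exact_mod_cast h2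
  rw [Int.abs_lt_one_iff] at h5 h6
  rw [h5, h6]
  simp

/-- the bounds for the displacement of an iterate which is a translation at `s = 0` -/
theorem famF_bounds {g : ℝ → T2 → T2} {Γ : ℝ × ℂ → ℂ} (F : Fam g Γ) {k : ℕ} {o : ℂ}
    (h : ∀ z, itL Γ k (0, z) = z + o) :
    ∃ C : ℝ, 0 < C ∧ ∀ s ∈ Icc (0 : ℝ) 1, ∀ z w : ℂ, ‖itL Γ k (s, z) - z - o‖ ≤ C * s ∧
      ‖fderiv ℝ (fun v => itL Γ k (s, v) - v - o) z‖ ≤ C * s ∧
      ‖(itL Γ k (s, w) - w - o) - (itL Γ k (s, z) - z - o)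
        - fderiv ℝ (fun v => itL Γ k (s, v) - v - o) z (w - z)‖ ≤ C * s * ‖w - z‖ ^ 2 := by
  have Fk := F.iterate k
  exact hadamard_bounds (f := fun q => itL Γ k q - q.2 - o)
    ((Fk.smooth.sub contDiff_snd).sub contDiff_const)
    (fun s z a b => by
      have := Fk.equiv s z a b
      simp only [this]
      ring)
    (fun z => by simp only [h]; ring)

/-- The limit `s → 0`.  Proof: since `(g 0)^[N] = id`, `itL Γ N (0, z) = z + ω₀` with a constant integer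
vector `ω₀`.  Apply `hadamard_bounds` to `Ψ₁ = itL Γ N - z - ω₀` and to
`Ψ = itL Γ (n N) - z - n ω₀`.  Take `s ∈ Tn` small, with its point `z`: `itL Γ n (s,z) = z + ω`, so
`itL Γ (n N) (s, z) = z + N ω`, and `Ψ (s, z) = N ω - n ω₀` is an integer vector of norm `≤ C s < 1`,
hence `0`.  Put `w = itL Γ N (s, z) - ω₀`; then `‖w - z‖ ≤ C s` and `Ψ (s, w) = 0` as well.
`D_z Ψ (s, z) = A ^ N - 1` with `A` the focus matrix, `det2 ≥ a²/4` with `a = h sin s ≥ h s / 2`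
(`det2_pow_sub_one`, `normSq_muAtt_pow_sub_one`) and norm `≤ C s`, so by `det_bound`
`(a²/4) ‖w - z‖ ≤ 3 C s ‖D_z Ψ (s,z) (w - z)‖ ≤ 3 C s · C s ‖w - z‖²`, so `w = z` if `s` is small.
So `(g s)^[N] (pr z) = pr z` and `n ∣ N`. -/
theorem limit_dvd {g : ℝ → T2 → T2} {Γ : ℝ × ℂ → ℂ} (F : Fam g Γ) {h : ℝ} (h0 : 0 < h)
    (h1 : h < 1 / 2) {n : ℕ} (hn : 1 ≤ n) {N : ℕ} (hN : 1 ≤ N) (hfin : ∀ q, (g 0)^[N] q = q)
    (hacc : ∀ ε > 0, ∃ s ∈ Tn g Γ h n, s < ε) : n ∣ N := by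
  have FN := F.iterate N
  obtain ⟨a0, b0, hab⟩ := lifts_differ (F := fun z => itL Γ N (0, z)) (F' := fun z => z)
    (f := (g 0)^[N]) (FN.smooth.continuous.comp (by fun_prop)) continuous_id (FN.lift 0)
    (fun z => hfin _)
  have hab2 : ∀ z, itL Γ (N * n) (0, z)
      = z + (n : ℂ) * ((a0 : ℂ) + (b0 : ℂ) * Complex.I) := by
    intro z
    have h2 := famF_iter (f := fun w => itL Γ N (0, w)) (FN.equiv 0) (hab z) n
    rw [← h2]
    unfold itL
    rw [Function.iterate_mul]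
  obtain ⟨C1, hC1, hB1⟩ := famF_bounds F hab
  obtain ⟨C2, hC2, hB2⟩ := famF_bounds F hab2
  obtain ⟨s, hs, hse⟩ := hacc (min 1 (min (1 / C2) (h ^ 2 / (48 * C2 ^ 2 * C1)))) (by positivity)
  obtain ⟨hs0, hspi, z, hminz, hatt⟩ := hs
  rw [lt_min_iff, lt_min_iff] at hse
  obtain ⟨hs1, hs2, hs3⟩ := hse
  have hsI : s ∈ Icc (0 : ℝ) 1 := ⟨hs0.le, hs1.le⟩
  rw [lt_div_iff₀ hC2] at hs2
  rw [lt_div_iff₀ (by positivity)] at hs3
  have Fn := F.iterate n
  have hper : (g s)^[n] (pr z) = pr z := by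
    have h := Function.iterate_minimalPeriod (f := g s) (x := pr z)
    rw [hminz] at h
    exact h
  obtain ⟨a1, b1, hz1⟩ : ∃ a b : ℤ, itL Γ n (s, z) = z + ((a : ℂ) + (b : ℂ) * Complex.I) := by
    rw [← pr_eq_iff]
    have := Fn.lift s z
    simp only at this
    rw [← this, hper]
  have hz2 : itL Γ (N * n) (s, z) = z + (N : ℂ) * ((a1 : ℂ) + (b1 : ℂ) * Complex.I) := by
    have h2 := famF_iter (f := fun w => itL Γ n (s, w)) (Fn.equiv s) hz1 N
    rw [← h2]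
    unfold itL
    rw [Nat.mul_comm, Function.iterate_mul]
  have hz3 : itL Γ (N * n) (s, z) - z - (n : ℂ) * ((a0 : ℂ) + (b0 : ℂ) * Complex.I) = 0 := by
    have h3 := (hB2 s hsI z z).1
    have h4 : itL Γ (N * n) (s, z) - z - (n : ℂ) * ((a0 : ℂ) + (b0 : ℂ) * Complex.I)
        = (((N * a1 - n * a0 : ℤ) : ℂ) + ((N * b1 - n * b0 : ℤ) : ℂ) * Complex.I) := by
      rw [hz2]; push_cast; ring
    rw [h4] at h3 ⊢
    exact famF_int (lt_of_le_of_lt h3 (by linarith))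
  have hz4 : itL Γ (N * n) (s, z) = z + (n : ℂ) * ((a0 : ℂ) + (b0 : ℂ) * Complex.I) := by
    linear_combination hz3
  obtain ⟨w, hw⟩ : ∃ w, w = itL Γ N (s, z) - ((a0 : ℂ) + (b0 : ℂ) * Complex.I) := ⟨_, rfl⟩
  have hw1 : ‖w - z‖ ≤ C1 * s := by
    have h3 := (hB1 s hsI z z).1
    have h4 : w - z = itL Γ N (s, z) - z - ((a0 : ℂ) + (b0 : ℂ) * Complex.I) := by
      rw [hw]; ring
    rw [h4]; exact h3
  have hw2 : itL Γ (N * n) (s, w) = w + (n : ℂ) * ((a0 : ℂ) + (b0 : ℂ) * Complex.I) := by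
    have FNn := F.iterate (N * n)
    have e1 : itL Γ N (s, z) = w + ((a0 : ℂ) + (b0 : ℂ) * Complex.I) := by rw [hw]; ring
    have e2 : itL Γ (N * n) (s, itL Γ N (s, z))
        = itL Γ (N * n) (s, w) + ((a0 : ℂ) + (b0 : ℂ) * Complex.I) := by
      rw [e1]; exact FNn.equiv s w a0 b0
    have e3 : itL Γ (N * n) (s, itL Γ N (s, z)) = itL Γ N (s, itL Γ (N * n) (s, z)) := by
      unfold itL
      simp only
      rw [← Function.iterate_add_apply, ← Function.iterate_add_apply, Nat.add_comm]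
    have e4 : itL Γ N (s, itL Γ (N * n) (s, z))
        = itL Γ N (s, z) + (n : ℂ) * ((a0 : ℂ) + (b0 : ℂ) * Complex.I) := by
      rw [hz4]
      have h1 := FN.equiv s z (n * a0) (n * b0)
      have h2 : (((n * a0 : ℤ) : ℂ) + ((n * b0 : ℤ) : ℂ) * Complex.I)
          = (n : ℂ) * ((a0 : ℂ) + (b0 : ℂ) * Complex.I) := by
        push_cast; ring
      rw [h2] at h1
      exact h1
    have e5 := e2.symm.trans (e3.trans e4)
    rw [e1] at e5
    linear_combination e5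
  -- the derivative
  obtain ⟨A, hA⟩ : ∃ A : ℂ →L[ℝ] ℂ, A = fderiv ℝ ((fun w => Γ (s, w))^[n]) z := ⟨_, rfl⟩
  rw [← hA] at hatt
  have hΓs : ContDiff ℝ ∞ (fun w => Γ (s, w)) := F.smooth.comp (by fun_prop)
  have hD : fderiv ℝ (fun v => itL Γ (N * n) (s, v) - v
      - (n : ℂ) * ((a0 : ℂ) + (b0 : ℂ) * Complex.I)) z = A ^ N - 1 := by
    have hd : DifferentiableAt ℝ (fun v => itL Γ (N * n) (s, v)) z := by
      have : Differentiable ℝ ((fun w => Γ (s, w))^[N * n]) :=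
        (hΓs.differentiable (by simp)).iterate _
      exact this z
    rw [fderiv_sub_const, fderiv_fun_sub hd differentiableAt_fun_id]
    have h5 := fderiv_iterate_period hΓs (F.lift s) (n := n) (x := z) hper N
    rw [← hA] at h5
    rw [← h5, fderiv_fun_id]
    rfl
  have hsin : s / 2 ≤ Real.sin s := by
    have h6 := Real.mul_le_sin hs0.le hspi
    have h7 : (1 : ℝ) / 2 ≤ 2 / Real.pi := by
      rw [div_le_div_iff₀ (by norm_num) Real.pi_pos]
      linarith [Real.pi_le_four]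
    calc s / 2 = 1 / 2 * s := by ring
      _ ≤ 2 / Real.pi * s := by gcongr
      _ ≤ Real.sin s := h6
  have hsin1 : Real.sin s ≤ 1 := Real.sin_le_one s
  have hsin0 : 0 < Real.sin s := lt_of_lt_of_le (by positivity) hsin
  have ha0 : 0 < h * Real.sin s := by positivity
  have ha1 : h * Real.sin s ≤ 1 / 2 := by nlinarith
  have hdet : (h * Real.sin s) ^ 2 / 4 ≤ det2 (A ^ N - 1) := by
    obtain ⟨h8, h9⟩ := (isAtt_iff _ _).1 hatt
    rw [det2_pow_sub_one A _ h8 h9 N]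
    exact normSq_muAtt_pow_sub_one ha0 ha1 hN
  have hvz : w = z := by
    by_contra hne
    have hv0 : 0 < ‖w - z‖ := norm_pos_iff.2 (sub_ne_zero.2 hne)
    obtain ⟨-, h10, h11⟩ := hB2 s hsI z w
    rw [hD] at h10 h11
    rw [hz3, hw2] at h11
    have h12 : w + (n : ℂ) * ((a0 : ℂ) + (b0 : ℂ) * Complex.I) - w
        - (n : ℂ) * ((a0 : ℂ) + (b0 : ℂ) * Complex.I) - 0 - (A ^ N - 1) (w - z)
        = - (A ^ N - 1) (w - z) := by ring
    rw [h12, norm_neg] at h11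
    have h13 := det_bound (A ^ N - 1) (w - z)
    have h14 : (h * Real.sin s) ^ 2 / 4 * ‖w - z‖ ≤ 3 * (C2 * s) * (C2 * s * ‖w - z‖ ^ 2) := by
      calc (h * Real.sin s) ^ 2 / 4 * ‖w - z‖ ≤ |det2 (A ^ N - 1)| * ‖w - z‖ := by
            gcongr
            exact hdet.trans (le_abs_self _)
        _ ≤ 3 * ‖A ^ N - 1‖ * ‖(A ^ N - 1) (w - z)‖ := h13
        _ ≤ 3 * (C2 * s) * (C2 * s * ‖w - z‖ ^ 2) := by gcongr
    have h15 : (h * (s / 2)) ^ 2 / 4 * ‖w - z‖ ≤ (h * Real.sin s) ^ 2 / 4 * ‖w - z‖ := by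
      gcongr
    have h16 : (3 * (C2 * s) * (C2 * s * ‖w - z‖ ^ 2))
        ≤ 3 * C2 ^ 2 * s ^ 2 * (C1 * s) * ‖w - z‖ := by
      calc (3 * (C2 * s) * (C2 * s * ‖w - z‖ ^ 2))
          = 3 * C2 ^ 2 * s ^ 2 * ‖w - z‖ * ‖w - z‖ := by ring
        _ ≤ 3 * C2 ^ 2 * s ^ 2 * (C1 * s) * ‖w - z‖ := by gcongr
    have h17 : (h * (s / 2)) ^ 2 / 4 * ‖w - z‖ ≤ 3 * C2 ^ 2 * s ^ 2 * (C1 * s) * ‖w - z‖ :=
      h15.trans (h14.trans h16)
    have h18 := le_of_mul_le_mul_right h17 hv0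
    have h19 : s ^ 2 * h ^ 2 ≤ s ^ 2 * (s * (48 * C2 ^ 2 * C1)) := by nlinarith
    have h20 := le_of_mul_le_mul_left h19 (by positivity)
    linarith
  have hfin2 : (g s)^[N] (pr z) = pr z := by
    have h21 := FN.lift s z
    simp only at h21
    rw [h21]
    have h22 : itL Γ N (s, z) = z + ((a0 : ℂ) + (b0 : ℂ) * Complex.I) := by
      linear_combination hvz - hw
    rw [h22, pr_add_int]
  have := Function.IsPeriodicPt.minimalPeriod_dvd (f := g s) (x := pr z) (n := N) hfin2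
  rwa [hminz] at this

end TotRen
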