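import Pool.Agent.W_MP_f70009_h24.FamilyA

/-!
# The explicit family II
-/

open scoped ContDiff Topology
open Set Filter

namespace TotRen

theorem famB_hasFDerivAt_sin (w : ℝ) (φ : ℂ →L[ℝ] ℝ) (y : ℂ) :
    HasFDerivAt (fun z : ℂ => ((Real.sin (w * φ z) : ℝ) : ℂ))
      (Complex.ofRealCLM.comp (Real.cos (w * φ y) • (w • φ))) y := by
  have h1 : HasFDerivAt (fun z : ℂ => w * φ z) (w • φ) y := φ.hasFDerivAt.const_mul w
  exact Complex.ofRealCLM.hasFDerivAt.comp y h1.sin

theorem famB_hasFDerivAt (L : ℕ) (η : ℝ) (y : ℂ) :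
    HasFDerivAt (liftL L η) (ContinuousLinearMap.id ℝ ℂ + (η : ℂ) • ((1 - Complex.I) •
      (Complex.ofRealCLM.comp (Real.cos (2 * Real.pi * L * y.re) •
        ((2 * Real.pi * L) • Complex.reCLM)) +
      Complex.I • Complex.ofRealCLM.comp (Real.cos (2 * Real.pi * L * y.im) •
        ((2 * Real.pi * L) • Complex.imCLM))))) y := by
  have h1 := famB_hasFDerivAt_sin (2 * Real.pi * L) Complex.reCLM y
  have h2 := famB_hasFDerivAt_sin (2 * Real.pi * L) Complex.imCLM y
  have h3 := ((h1.add (h2.const_mul Complex.I)).const_mul (1 - Complex.I)).const_mul (η : ℂ)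
  exact (hasFDerivAt_id y).add h3

theorem famB_fderiv_apply (L : ℕ) (η : ℝ) (y v : ℂ) :
    fderiv ℝ (liftL L η) y v = v + (η : ℂ) * ((1 - Complex.I) *
      (((Real.cos (2 * Real.pi * L * y.re) * (2 * Real.pi * L * v.re) : ℝ) : ℂ) +
      Complex.I * ((Real.cos (2 * Real.pi * L * y.im) * (2 * Real.pi * L * v.im) : ℝ) : ℂ))) := by
  rw [(famB_hasFDerivAt L η y).fderiv]
  rfl

theorem famB_fderiv {L : ℕ} {η : ℝ} {y : ℂ} :
    (Real.cos (2 * Real.pi * L * y.re) = 1 → Real.cos (2 * Real.pi * L * y.im) = 1 →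
      fderiv ℝ (liftL L η) y = mulL (muRep (2 * Real.pi * L * η))) ∧
    (Real.cos (2 * Real.pi * L * y.re) = -1 → Real.cos (2 * Real.pi * L * y.im) = -1 →
      fderiv ℝ (liftL L η) y = mulL (muAtt (2 * Real.pi * L * η))) ∧
    (Real.cos (2 * Real.pi * L * y.re) = 1 → Real.cos (2 * Real.pi * L * y.im) = -1 →
      fderiv ℝ (liftL L η) y =
        sadL (((2 * Real.pi * L * η : ℝ) : ℂ) * (1 - Complex.I))) ∧
    (Real.cos (2 * Real.pi * L * y.re) = -1 → Real.cos (2 * Real.pi * L * y.im) = 1 →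
      fderiv ℝ (liftL L η) y =
        sadL (-(((2 * Real.pi * L * η : ℝ) : ℂ) * (1 - Complex.I)))) := by
  refine ⟨fun h1 h2 => ?_, fun h1 h2 => ?_, fun h1 h2 => ?_, fun h1 h2 => ?_⟩
  · apply ContinuousLinearMap.ext
    intro v
    rw [famB_fderiv_apply, mulL_apply, h1, h2, muRep]
    apply Complex.ext
    · simp
      ring
    · simp
      ring
  · apply ContinuousLinearMap.ext
    intro v
    rw [famB_fderiv_apply, mulL_apply, h1, h2, muAtt]
    apply Complex.ext
    · simp
      ring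
    · simp
      ring
  · apply ContinuousLinearMap.ext
    intro v
    rw [famB_fderiv_apply, sadL_apply, h1, h2]
    apply Complex.ext
    · simp
      ring
    · simp
      ring
  · apply ContinuousLinearMap.ext
    intro v
    rw [famB_fderiv_apply, sadL_apply, h1, h2]
    apply Complex.ext
    · simp
      ring
    · simp
      ring

/-- At a fixed point `sF L y = 0` (as `‖η sF L y‖ < 1`), so both cosines are `± 1` and the derivative
of the lift at `y` is of one of the four types with `a = 2πLη`. -/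
theorem fam_four {L : ℕ} (hL : 1 ≤ L) {η : ℝ} (h0 : 0 < η)
    (h1 : 2 * Real.pi * L * η < 1 / 2) {G : T2 → T2} (lG : IsLift (liftL L η) G) {y : ℂ}
    (hy : G (pr y) = pr y) : FourTypes (2 * Real.pi * L * η) (fderiv ℝ (liftL L η) y) := by
  have hL1 : (1 : ℝ) ≤ L := by exact_mod_cast hL
  have hη : η < 1 / 2 := by
    have h2 : 3 < Real.pi := Real.pi_gt_three
    have h3 : η ≤ L * η := by nlinarith
    have h4 : 2 * Real.pi * L * η = 2 * Real.pi * (L * η) := by ring
    rw [h4] at h1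
    nlinarith
  have hfix : liftL L η y = y := by
    apply pr_injOn_ball
    · rw [← lG y, hy]
    · have h2 : liftL L η y - y = (η : ℂ) * sF L y := by
        unfold liftL
        ring
      rw [h2, norm_mul, Complex.norm_real, Real.norm_eq_abs, abs_of_pos h0]
      have h3 := norm_sF_le L y
      have h4 := norm_nonneg (sF L y)
      nlinarith
  have hs : sF L y = 0 := by
    have h2 : (η : ℂ) * sF L y = 0 := by
      have h3 : liftL L η y = y + (η : ℂ) * sF L y := rfl
      rw [h3] at hfix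
      simpa using hfix
    rcases mul_eq_zero.1 h2 with h3 | h3
    · exact absurd (Complex.ofReal_eq_zero.1 h3) h0.ne'
    · exact h3
  have hsin : (Real.sin (2 * Real.pi * L * y.re) : ℂ)
      + Complex.I * (Real.sin (2 * Real.pi * L * y.im) : ℂ) = 0 := by
    unfold sF at hs
    rcases mul_eq_zero.1 hs with h3 | h3
    · exfalso
      have h4 := congrArg Complex.re h3
      simp at h4
    · exact h3
  have hs1 : Real.sin (2 * Real.pi * L * y.re) = 0 := by
    have h4 := congrArg Complex.re hsin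
    rw [Complex.add_re, Complex.ofReal_re, Complex.I_mul_re, Complex.ofReal_im, neg_zero,
      add_zero, Complex.zero_re] at h4
    exact h4
  have hs2 : Real.sin (2 * Real.pi * L * y.im) = 0 := by
    have h4 := congrArg Complex.im hsin
    rw [Complex.add_im, Complex.ofReal_im, Complex.I_mul_im, Complex.ofReal_re, zero_add,
      Complex.zero_im] at h4
    exact h4
  obtain ⟨f1, f2, f3, f4⟩ := famB_fderiv (L := L) (η := η) (y := y)
  rcases Real.sin_eq_zero_iff_cos_eq.1 hs1 with c1 | c1 <;>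
    rcases Real.sin_eq_zero_iff_cos_eq.1 hs2 with c2 | c2
  · exact Or.inr (Or.inl (f1 c1 c2))
  · exact Or.inr (Or.inr (Or.inl (f3 c1 c2)))
  · exact Or.inr (Or.inr (Or.inr (f4 c1 c2)))
  · exact Or.inl (f2 c1 c2)

/-- The attracting fixed points `((2j+1)/(2L), (2k+1)/(2L))`. -/
noncomputable def attPt (L : ℕ) (i : Fin L × Fin L) : ℂ :=
  (((2 * (i.1 : ℝ) + 1) / (2 * L) : ℝ) : ℂ) + (((2 * (i.2 : ℝ) + 1) / (2 * L) : ℝ) : ℂ) * Complex.I

theorem attPt_re (L : ℕ) (i : Fin L × Fin L) : (attPt L i).re = (2 * (i.1 : ℝ) + 1) / (2 * L) := by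
  unfold attPt
  rw [Complex.add_re, Complex.ofReal_re, Complex.re_ofReal_mul, Complex.I_re, mul_zero, add_zero]

theorem attPt_im (L : ℕ) (i : Fin L × Fin L) : (attPt L i).im = (2 * (i.2 : ℝ) + 1) / (2 * L) := by
  unfold attPt
  rw [Complex.add_im, Complex.ofReal_im, Complex.im_ofReal_mul, Complex.I_im, mul_one, zero_add]

theorem famB_fin_eq {L : ℕ} {a b : Fin L} {k : ℤ}
    (h : (2 * (a : ℝ) + 1) / (2 * L) = (2 * (b : ℝ) + 1) / (2 * L) + k) : a = b := by
  have hL : 0 < L := lt_of_le_of_lt (Nat.zero_le _) a.2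
  have hL' : (0 : ℝ) < L := by exact_mod_cast hL
  have h1 : (a : ℝ) = (b : ℝ) + k * L := by
    field_simp at h
    linarith
  have h2 : ((a : ℕ) : ℤ) = ((b : ℕ) : ℤ) + k * L := by exact_mod_cast h1
  have ha : ((a : ℕ) : ℤ) < L := by exact_mod_cast a.2
  have hb : ((b : ℕ) : ℤ) < L := by exact_mod_cast b.2
  have ha0 : (0 : ℤ) ≤ ((a : ℕ) : ℤ) := Int.natCast_nonneg _
  have hb0 : (0 : ℤ) ≤ ((b : ℕ) : ℤ) := Int.natCast_nonneg _
  have hLz : (0 : ℤ) < L := by exact_mod_cast hL
  have hk : k = 0 := by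
    rcases lt_trichotomy k 0 with h3 | h3 | h3
    · exfalso
      have h4 : k * L ≤ -1 * L := by nlinarith
      omega
    · exact h3
    · exfalso
      have h4 : 1 * (L : ℤ) ≤ k * L := by nlinarith
      omega
  rw [hk, zero_mul, add_zero] at h2
  apply Fin.ext
  exact_mod_cast h2

theorem attPt_inj (L : ℕ) : Function.Injective (fun i : Fin L × Fin L => pr (attPt L i)) := by
  intro i j hij
  obtain ⟨a, b, h⟩ := (pr_eq_iff _ _).1 hij
  have hre := congrArg Complex.re h
  have him := congrArg Complex.im h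
  rw [Complex.add_re, attPt_re, attPt_re] at hre
  rw [Complex.add_im, attPt_im, attPt_im] at him
  have e1 : ((a : ℂ) + (b : ℂ) * Complex.I).re = a := by simp
  have e2 : ((a : ℂ) + (b : ℂ) * Complex.I).im = b := by simp
  rw [e1] at hre
  rw [e2] at him
  exact Prod.ext (famB_fin_eq hre) (famB_fin_eq him)

theorem famB_cos {L : ℕ} (hL : 1 ≤ L) (m : ℕ) :
    Real.cos (2 * Real.pi * L * ((2 * (m : ℝ) + 1) / (2 * L))) = -1 := by
  have hL' : (L : ℝ) ≠ 0 := by
    have : (1 : ℝ) ≤ L := by exact_mod_cast hL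
    linarith
  have h1 : 2 * Real.pi * L * ((2 * (m : ℝ) + 1) / (2 * L)) =
      (m : ℝ) * (2 * Real.pi) + Real.pi := by
    field_simp
  rw [h1, Real.cos_nat_mul_two_pi_add_pi]

theorem famB_sin {L : ℕ} (hL : 1 ≤ L) (m : ℕ) :
    Real.sin (2 * Real.pi * L * ((2 * (m : ℝ) + 1) / (2 * L))) = 0 := by
  exact Real.sin_eq_zero_iff_cos_eq.2 (Or.inr (famB_cos hL m))

theorem attPt_fix {L : ℕ} (hL : 1 ≤ L) {η : ℝ} {G : T2 → T2} (lG : IsLift (liftL L η) G)
    (i : Fin L × Fin L) : G (pr (attPt L i)) = pr (attPt L i) := by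
  rw [lG]
  have h1 : sF L (attPt L i) = 0 := by
    unfold sF
    rw [attPt_re, attPt_im, famB_sin hL, famB_sin hL]
    simp
  unfold liftL
  rw [h1, mul_zero, add_zero]

theorem attPt_fderiv {L : ℕ} (hL : 1 ≤ L) {η : ℝ} (i : Fin L × Fin L) :
    fderiv ℝ (liftL L η) (attPt L i) = mulL (muAtt (2 * Real.pi * L * η)) := by
  refine (famB_fderiv (L := L) (η := η) (y := attPt L i)).2.1 ?_ ?_
  · rw [attPt_re, famB_cos hL]
  · rw [attPt_im, famB_cos hL]

end TotRen
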