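import Pool.Agent.W_MP_f70009_h24.Ret
import Pool.Agent.W_MP_f70009_h24.Cone

/-!
# Forward germ lemma
-/

open scoped ContDiff Topology
open Set Filter

namespace TotRen

/-- finite pigeonhole for `∃ᶠ` -/
theorem gf_frequently_of_finite {l : Filter ℝ} [l.NeBot] {p : ℕ → ℝ → Prop} {a b : ℕ}
    (h : ∀ᶠ s in l, ∃ k, a ≤ k ∧ k ≤ b ∧ p k s) : ∃ k, a ≤ k ∧ k ≤ b ∧ ∃ᶠ s in l, p k s := by
  by_contra hcon
  have h' : ∀ᶠ s in l, ∀ k ∈ Finset.Icc a b, ¬ p k s := by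
    rw [Filter.eventually_all_finset]
    intro k hk
    rw [Finset.mem_Icc] at hk
    rw [← Filter.not_frequently]
    intro hf
    exact hcon ⟨k, hk.1, hk.2, hf⟩
  obtain ⟨s, h1, h2⟩ := (h.and h').exists
  obtain ⟨k, ha, hb, hp⟩ := h1
  exact h2 k (Finset.mem_Icc.2 ⟨ha, hb⟩) hp

/-- right-hand slopes of a curve -/
theorem gf_tendsto_slope_right {u : ℝ → ℂ} {u' : ℂ} (hu : HasDerivAt u u' 0) :
    Tendsto (fun s : ℝ => s⁻¹ • (u s - u 0)) (𝓝[>] (0 : ℝ)) (𝓝 u') := by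
  have h2 := hasDerivAt_iff_tendsto_slope_zero.1 hu
  have h3 := h2.mono_left (nhdsWithin_mono (0 : ℝ) (fun s hs => ne_of_gt hs) :
    𝓝[>] (0 : ℝ) ≤ 𝓝[≠] 0)
  simpa using h3

/-- two curves which agree frequently as `s → 0+` have the same derivative at `0` -/
theorem gf_deriv_eq_of_frequently {u v : ℝ → ℂ} {u' v' : ℂ} (hu : HasDerivAt u u' 0)
    (hv : HasDerivAt v v' 0) (h0 : u 0 = v 0) (h : ∃ᶠ s in 𝓝[>] (0 : ℝ), u s = v s) :
    u' = v' := by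
  have h3 := gf_tendsto_slope_right (hu.sub hv)
  have h4 : u' - v' ∈ ({0} : Set ℂ) := by
    refine isClosed_singleton.mem_of_frequently_of_tendsto (h.mono fun s hs => ?_) h3
    simp [hs, h0]
  exact sub_eq_zero.1 h4

/-- a curve starting at `x` in a direction of the cone is in `Δ` for small positive times -/
theorem gf_cone_eventually_mem {Δ : Set T2} {x : ℂ} {C : Set ℂ} (hC : IsCone Δ x C) {u : ℝ → ℂ}
    {e : ℂ} (he : e ∈ C) (hu : HasDerivAt u e 0) (h0 : u 0 = x) :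
    ∀ᶠ s in 𝓝[>] (0 : ℝ), pr (u s) ∈ Δ := by
  have h3 := gf_tendsto_slope_right hu
  have h4 : Tendsto (fun s : ℝ => (s, s⁻¹ • (u s - u 0))) (𝓝[>] (0 : ℝ))
      ((𝓝[>] (0 : ℝ)) ×ˢ (𝓝 e)) := tendsto_id.prodMk h3
  filter_upwards [h4.eventually (hC.inside e he), self_mem_nhdsWithin] with s hs hpos
  have hs0 : (s : ℝ) ≠ 0 := ne_of_gt hpos
  have h5 : x + (s : ℂ) * (s⁻¹ • (u s - u 0)) = u s := by
    rw [Complex.real_smul, h0, ← mul_assoc, ← Complex.ofReal_mul, mul_inv_cancel₀ hs0]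
    simp
  have hs' : pr (x + (s : ℂ) * (s⁻¹ • (u s - u 0))) ∈ Δ := hs
  rw [h5] at hs'
  exact hs'

/-- two curves with the same projection, frequently, and the same starting point agree
frequently -/
theorem gf_frequently_eq_of_pr {u v : ℝ → ℂ} (hu : ContinuousAt u 0) (hv : ContinuousAt v 0)
    (h0 : u 0 = v 0) (h : ∃ᶠ s in 𝓝[>] (0 : ℝ), pr (u s) = pr (v s)) :
    ∃ᶠ s in 𝓝[>] (0 : ℝ), u s = v s := by
  have h1 : Tendsto (fun s => ‖u s - v s‖) (𝓝 0) (𝓝 ‖u 0 - v 0‖) := (hu.sub hv).norm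
  rw [h0, sub_self, norm_zero] at h1
  have h2 : ∀ᶠ s in 𝓝[>] (0 : ℝ), ‖u s - v s‖ < 1 :=
    (h1.eventually (gt_mem_nhds one_pos)).filter_mono nhdsWithin_le_nhds
  exact (h.and_eventually h2).mono fun s hs => pr_injOn_ball _ _ hs.1 hs.2

/-- derivative of a smooth function along a curve -/
theorem gf_hasDerivAt_comp_curve {F : ℂ → ℂ} {u : ℝ → ℂ} {u' y : ℂ} (hF : DifferentiableAt ℝ F y)
    (hu : HasDerivAt u u' 0) (hy : u 0 = y) :
    HasDerivAt (fun s => F (u s)) (fderiv ℝ F y u') 0 := by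
  subst hy
  exact hF.hasFDerivAt.comp_hasDerivAt 0 hu

theorem gf_hasDerivAt_ray (x e : ℂ) : HasDerivAt (fun s : ℝ => x + (s : ℂ) * e) e 0 := by
  have h1 : HasDerivAt (fun s : ℝ => (s : ℂ)) 1 0 := Complex.ofRealCLM.hasDerivAt
  simpa using (h1.mul_const e).const_add x

theorem gf_contDiff_iterate {F : ℂ → ℂ} (hF : ContDiff ℝ ∞ F) (n : ℕ) : ContDiff ℝ ∞ (F^[n]) := by
  induction n with
  | zero => exact contDiff_id
  | succ n ih => rw [Function.iterate_succ]; exact ih.comp hF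

theorem gf_fderiv_iterate_fixed {F : ℂ → ℂ} {f : T2 → T2} (hF : ContDiff ℝ ∞ F) (h : IsLift F f)
    {x : ℂ} (hx : f (pr x) = pr x) (k : ℕ) :
    fderiv ℝ (F^[k]) x = (fderiv ℝ F x) ^ k := by
  have h1 := fderiv_iterate_period hF h (n := 1) (x := x) (by simpa using hx) k
  simpa using h1

theorem gf_chart_differentiableAt {Ψ : OpenPartialHomeomorph ℂ ℂ} (hΨ : IsSmoothChart Ψ)
    {x : ℂ} (hx : x ∈ Ψ.source) : DifferentiableAt ℝ Ψ x :=
  ((hΨ.smooth.contDiffAt (Ψ.open_source.mem_nhds hx)).differentiableAt (by simp))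

/-- a periodic point: the lift of the iterate is a translation there -/
theorem gf_exists_translation {F : ℂ → ℂ} {f : T2 → T2} (h : IsLift F f) {x : ℂ} {j : ℕ}
    (hx : f^[j] (pr x) = pr x) :
    ∃ o : ℂ, F^[j] x - o = x ∧ ∀ z, pr (z - o) = pr z := by
  have h1 : pr (F^[j] x) = pr x := by rw [← h.iterate j x, hx]
  obtain ⟨a, b, hab⟩ := (pr_eq_iff _ _).1 h1
  refine ⟨(a : ℂ) + (b : ℂ) * Complex.I, by rw [hab]; ring, fun z => ?_⟩
  have h2 := pr_add_int (z - ((a : ℂ) + (b : ℂ) * Complex.I)) a b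
  rw [sub_add_cancel] at h2
  exact h2.symm

theorem gf_iterate_period_mul {f : T2 → T2} {p : T2} {n : ℕ} (h : f^[n] p = p) (k : ℕ) :
    f^[k * n] p = p := by
  have h1 : Function.IsPeriodicPt f n p := h
  exact (h1.const_mul k)

/-- Forward germ lemma.  `x ∈ ℂ` is a lift of a point of `Δ`, of period `n` for `g`; `H (pr x)` is a
fixed point of `G`; `A = D(gh^n)(x)`, `B = D Gh (Ψ x)`, `M = DΨ(x)`.  If `e` and `A ^ k e` lie in
the cone then `M (A ^ k e) = B ^ k' (M e)` for some `1 ≤ k' ≤ k n`.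

Proof: for small `s > 0` the point `v = x + s e` has `pr v ∈ Δ`, and
`gh^[k n] (x + s e) - ω = x + s (A ^ k e + o(1))` (`ω` the integer vector with
`gh^[k n] x = x + ω`) is in `Δ` as well, so `D.iterate_return` gives `1 ≤ k' ≤ k n` with
`H (pr (..)) = G^[k'] (H (pr v))`; some `k'` occurs for `s` arbitrarily small
(`Filter.Frequently`, finitely many `k'`).  Lifting, `Ψ (gh^[k n] (x + s e) - ω) = Gh^[k'] (Ψ (x + s e)) - ω'`
for those `s` (both sides are close to `Ψ x`, and they have the same projection), now compare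
the one-sided derivatives at `s = 0`. -/
theorem germ_forward {g G : T2 → T2} {gh Gh : ℂ → ℂ} (hg : ContDiff ℝ ∞ gh)
    (hG : ContDiff ℝ ∞ Gh) (lg : IsLift gh g) (lG : IsLift Gh G) {Δ : Set T2} {H : T2 → T2}
    {τ : T2 → ℕ} {m : ℕ} (D : RenData g G Δ H τ m) {x : ℂ} (hx : pr x ∈ Δ) {C : Set ℂ}
    (hC : IsCone Δ x C) {Ψ : OpenPartialHomeomorph ℂ ℂ} (hΨ : IsSmoothChart Ψ)
    (hxΨ : x ∈ Ψ.source) (hH : ∀ w ∈ Ψ.source, pr w ∈ Δ → H (pr w) = pr (Ψ w))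
    (hfix : G (pr (Ψ x)) = pr (Ψ x)) {n : ℕ} (hn : 1 ≤ n) (hper : g^[n] (pr x) = pr x)
    {k : ℕ} (hk : 1 ≤ k) {e : ℂ} (he : e ∈ C) (he' : ((fderiv ℝ (gh^[n]) x) ^ k) e ∈ C) :
    ∃ k', 1 ≤ k' ∧ k' ≤ k * n ∧
      fderiv ℝ Ψ x (((fderiv ℝ (gh^[n]) x) ^ k) e)
        = ((fderiv ℝ Gh (Ψ x)) ^ k') (fderiv ℝ Ψ x e) := by
  have hkn : 1 ≤ k * n := Nat.one_le_iff_ne_zero.2 (by positivity)
  -- the curve and its image
  obtain ⟨o, ho, hpro⟩ := gf_exists_translation lg (gf_iterate_period_mul hper k)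
  set c : ℝ → ℂ := fun s => x + (s : ℂ) * e with hc
  have hc0 : c 0 = x := by simp [hc]
  have hcd : HasDerivAt c e 0 := gf_hasDerivAt_ray x e
  set u : ℝ → ℂ := fun s => gh^[k * n] (c s) - o with hu
  have hu0 : u 0 = x := by simp only [hu, hc0]; exact ho
  have hud : HasDerivAt u (((fderiv ℝ (gh^[n]) x) ^ k) e) 0 := by
    rw [← fderiv_iterate_period hg lg hper k]
    exact (gf_hasDerivAt_comp_curve (((gf_contDiff_iterate hg (k * n)).contDiffAt (x := x)).differentiableAt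
      (by simp)) hcd hc0).sub_const o
  have hpru : ∀ s, pr (u s) = g^[k * n] (pr (c s)) := by
    intro s
    rw [lg.iterate (k * n) (c s)]
    exact hpro _
  have ev1 : ∀ᶠ s in 𝓝[>] (0 : ℝ), pr (c s) ∈ Δ := gf_cone_eventually_mem hC he hcd hc0
  have ev2 : ∀ᶠ s in 𝓝[>] (0 : ℝ), pr (u s) ∈ Δ := gf_cone_eventually_mem hC he' hud hu0
  have ev3 : ∀ᶠ s in 𝓝[>] (0 : ℝ), c s ∈ Ψ.source := by
    have : ∀ᶠ s in 𝓝 (0 : ℝ), c s ∈ Ψ.source :=
      hcd.continuousAt.eventually (by rw [hc0]; exact Ψ.open_source.mem_nhds hxΨ)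
    exact this.filter_mono nhdsWithin_le_nhds
  have ev4 : ∀ᶠ s in 𝓝[>] (0 : ℝ), u s ∈ Ψ.source := by
    have : ∀ᶠ s in 𝓝 (0 : ℝ), u s ∈ Ψ.source :=
      hud.continuousAt.eventually (by rw [hu0]; exact Ψ.open_source.mem_nhds hxΨ)
    exact this.filter_mono nhdsWithin_le_nhds
  have ev : ∀ᶠ s in 𝓝[>] (0 : ℝ), ∃ k', 1 ≤ k' ∧ k' ≤ k * n ∧
      pr (Ψ (u s)) = pr (Gh^[k'] (Ψ (c s))) := by
    filter_upwards [ev1, ev2, ev3, ev4] with s h1 h2 h3 h4
    obtain ⟨k', hk1, hk2, hk3⟩ := D.iterate_return h1 hkn (by rw [← hpru]; exact h2)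
    refine ⟨k', hk1, hk2, ?_⟩
    rw [← hH _ h4 h2, hpru, hk3, hH _ h3 h1, lG.iterate k' (Ψ (c s))]
  obtain ⟨k', hk1, hk2, hfr⟩ := gf_frequently_of_finite ev
  refine ⟨k', hk1, hk2, ?_⟩
  have hfix' : G^[k'] (pr (Ψ x)) = pr (Ψ x) := by
    have := gf_iterate_period_mul (f := G) (p := pr (Ψ x)) (n := 1) (by simpa using hfix) k'
    simpa using this
  obtain ⟨o', ho', hpro'⟩ := gf_exists_translation lG hfix'
  have hΨd := gf_chart_differentiableAt hΨ hxΨ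
  have d1 : HasDerivAt (fun s => Ψ (u s))
      (fderiv ℝ Ψ x (((fderiv ℝ (gh^[n]) x) ^ k) e)) 0 := gf_hasDerivAt_comp_curve hΨd hud hu0
  have d2 : HasDerivAt (fun s => Gh^[k'] (Ψ (c s)) - o')
      (((fderiv ℝ Gh (Ψ x)) ^ k') (fderiv ℝ Ψ x e)) 0 := by
    rw [← gf_fderiv_iterate_fixed hG lG hfix k']
    have h1 : HasDerivAt (fun s => Ψ (c s)) (fderiv ℝ Ψ x e) 0 := gf_hasDerivAt_comp_curve hΨd hcd hc0
    exact (gf_hasDerivAt_comp_curve (F := Gh^[k']) (y := Ψ x)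
      (((gf_contDiff_iterate hG k').contDiffAt).differentiableAt (by simp)) h1
      (by simp only [hc0])).sub_const o'
  have h00 : Ψ (u 0) = Gh^[k'] (Ψ (c 0)) - o' := by rw [hu0, hc0]; exact ho'.symm
  refine gf_deriv_eq_of_frequently d1 d2 h00 ?_
  refine gf_frequently_eq_of_pr d1.continuousAt d2.continuousAt h00 ?_
  exact hfr.mono fun s hs => by simp only [hs, hpro']

end TotRen
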