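import Pool.Agent.W_MP_f70009_h24.Lab3
import Pool.Agent.W_MP_f70009_h24.GermF

/-!
# No saddles
-/

open scoped ContDiff Topology
open Set Filter

namespace TotRen

/-- At a point `pr x ∈ Δ` whose `g ^ n`-derivative has negative discriminant, the fixed point
`H (pr x) = pr y` of `G` is not of saddle type.  (`germ_forward`, `cone_recur_lin`,
`exists_eq_of_open`, `lab_saddle`.) -/
theorem label_not_saddle {g G : T2 → T2} {gh Gh : ℂ → ℂ} (hg : ContDiff ℝ ∞ gh)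
    (hG : ContDiff ℝ ∞ Gh) (lg : IsLift gh g) (lG : IsLift Gh G) {Δ : Set T2} {H : T2 → T2}
    {τ : T2 → ℕ} {m : ℕ} (D : RenData g G Δ H τ m) {x y : ℂ} (hx : pr x ∈ Δ)
    (hxy : H (pr x) = pr y) (hfix : G (pr y) = pr y) {n : ℕ} (hn : 1 ≤ n)
    (hper : g^[n] (pr x) = pr x)
    (hA : tr2 (fderiv ℝ (gh^[n]) x) ^ 2 < 4 * det2 (fderiv ℝ (gh^[n]) x)) {c : ℂ}
    (hc : c ≠ 0) (hc1 : ‖c‖ < 1) : fderiv ℝ Gh y ≠ sadL c := by
  intro hsad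
  obtain ⟨C, hC⟩ := exists_cone D.corners hx
  obtain ⟨Ψ, hΨ, hxΨ, hH⟩ := D.localDiffeo x hx
  have hΨy : pr (Ψ x) = pr y := by rw [← hH x hxΨ hx, hxy]
  have hB : fderiv ℝ Gh (Ψ x) = sadL c := by
    rw [fderiv_lift_congr hG lG hΨy, hsad]
  have hfix' : G (pr (Ψ x)) = pr (Ψ x) := by rw [hΨy, hfix]
  obtain ⟨k, hk, e, he, he'⟩ := cone_recur_lin hC.isOpen hC.nonempty hC.smul_mem hA
  have hU : IsOpen (C ∩ (fun e : ℂ => ((fderiv ℝ (gh^[n]) x) ^ k) e) ⁻¹' C) :=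
    hC.isOpen.inter (hC.isOpen.preimage (ContinuousLinearMap.continuous _))
  obtain ⟨k', hk', hT⟩ := exists_eq_of_open (S := Finset.Icc 1 (k * n))
    (T := fun j => (fderiv ℝ Gh (Ψ x)) ^ j * fderiv ℝ Ψ x)
    (T0 := fderiv ℝ Ψ x * (fderiv ℝ (gh^[n]) x) ^ k) hU ⟨e, he, he'⟩ (by
      rintro e ⟨h1, h2⟩
      obtain ⟨k', hk1, hk2, h3⟩ := germ_forward hg hG lg lG D hx hC hΨ hxΨ hH hfix' hn hper hk
        h1 h2
      refine ⟨k', Finset.mem_Icc.2 ⟨hk1, hk2⟩, ?_⟩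
      exact h3)
  rw [hB] at hT
  exact lab_saddle (det2_chart_ne_zero hΨ hxΨ) hA hc hc1 hk (Finset.mem_Icc.1 hk').1 hT

end TotRen
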