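import Pool.Agent.W_MP_f70009_h24.LabelA
import Pool.Agent.W_MP_f70009_h24.LabelB

/-!
# Label lemma for periodic points
-/

open scoped ContDiff Topology
open Set Filter

namespace TotRen

/-- one step along the orbit does not change the multiplier -/
theorem labelC_step {g : T2 → T2} {gh : ℂ → ℂ} (hg : ContDiff ℝ ∞ gh) (lg : IsLift gh g) {x : ℂ}
    {n : ℕ} (hn : 1 ≤ n) (hper : g^[n] (pr x) = pr x) :
    tr2 (fderiv ℝ (gh^[n]) (gh x)) = tr2 (fderiv ℝ (gh^[n]) x) ∧
      det2 (fderiv ℝ (gh^[n]) (gh x)) = det2 (fderiv ℝ (gh^[n]) x) := by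
  obtain ⟨k, rfl⟩ : ∃ k, n = k + 1 := ⟨n - 1, by omega⟩
  have hgd : Differentiable ℝ gh := hg.differentiable (by simp)
  have hid : ∀ j : ℕ, Differentiable ℝ (gh^[j]) := fun j => hgd.iterate j
  have h1 : fderiv ℝ (gh^[k + 1]) x = (fderiv ℝ (gh^[k]) (gh x)).comp (fderiv ℝ gh x) := by
    rw [Function.iterate_succ]
    exact fderiv_comp x ((hid k) (gh x)) (hgd x)
  have h2 : fderiv ℝ (gh^[k + 1]) (gh x)
      = (fderiv ℝ gh x).comp (fderiv ℝ (gh^[k]) (gh x)) := by
    rw [Function.iterate_succ']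
    have h3 := fderiv_comp (gh x) (hgd (gh^[k] (gh x))) ((hid k) (gh x))
    rw [h3]
    congr 1
    apply fderiv_lift_congr hg lg
    have h4 := (lg.iterate (k + 1)) x
    rw [hper] at h4
    rw [h4, Function.iterate_succ_apply]
  rw [h1, h2]
  exact ⟨tr2_comp_comm _ _, det2_comp_comm _ _⟩

/-- the multiplier does not change along the orbit -/
theorem labelC_iter {g : T2 → T2} {gh : ℂ → ℂ} (hg : ContDiff ℝ ∞ gh) (lg : IsLift gh g) {x : ℂ}
    {n : ℕ} (hn : 1 ≤ n) (hper : g^[n] (pr x) = pr x) (i : ℕ) :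
    tr2 (fderiv ℝ (gh^[n]) (gh^[i] x)) = tr2 (fderiv ℝ (gh^[n]) x) ∧
      det2 (fderiv ℝ (gh^[n]) (gh^[i] x)) = det2 (fderiv ℝ (gh^[n]) x) := by
  induction i with
  | zero => exact ⟨rfl, rfl⟩
  | succ i ih =>
    have hp : g^[n] (pr (gh^[i] x)) = pr (gh^[i] x) := by
      rw [← (lg.iterate i) x, ← Function.iterate_add_apply, Nat.add_comm,
        Function.iterate_add_apply, hper]
    have h := labelC_step hg lg (x := gh^[i] x) hn hp
    rw [Function.iterate_succ_apply']
    exact ⟨h.1.trans ih.1, h.2.trans ih.2⟩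

/-- Label lemma.  All periodic points of `G` are fixed points, with derivative of one of the four types;
`a` is good.  Then a periodic point `pr x` of `g`, of minimal period `n`, whose multiplier has
negative discriminant, satisfies the attracting or the repelling focus formula.

Proof: by `D.total`, `pr x = g^[j] p` with `p ∈ Δ`; `p` is in the (periodic) orbit of `pr x`, has
the same minimal period, and the derivative of `gh^[n]` at a lift of `p` has the same trace and
determinant (`tr2_comp_comm`, `det2_comp_comm`).  `H p` is `G`-periodic (by `D.iterate_return`),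
so it is a fixed point; use `label_not_saddle` and `label_strong`. -/
theorem label_periodic {g G : T2 → T2} {gh Gh : ℂ → ℂ} (hg : ContDiff ℝ ∞ gh)
    (hG : ContDiff ℝ ∞ Gh) (lg : IsLift gh g) (lG : IsLift Gh G)
    (hren : IsTotalRenormalization g G) {a : ℝ} (h0 : 0 < a) (h1 : a < 1 / 2) (ha : Good a)
    (hper : ∀ q, ∀ k : ℕ, 1 ≤ k → G^[k] q = q → G q = q)
    (hfour : ∀ y : ℂ, G (pr y) = pr y → FourTypes a (fderiv ℝ Gh y)) {x : ℂ} {n : ℕ}
    (hn : 1 ≤ n) (hmin : Function.minimalPeriod g (pr x) = n)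
    (hA : tr2 (fderiv ℝ (gh^[n]) x) ^ 2 < 4 * det2 (fderiv ℝ (gh^[n]) x)) :
    IsAtt a (fderiv ℝ (gh^[n]) x) ∨ IsRep a (fderiv ℝ (gh^[n]) x) := by
  obtain ⟨Δ, H, τ, m, D⟩ := hren
  have hper0 : g^[n] (pr x) = pr x := by
    have h := Function.iterate_minimalPeriod (f := g) (x := pr x)
    rw [hmin] at h
    exact h
  have hpp : pr x ∈ Function.periodicPts g := ⟨n, hn, hper0⟩
  obtain ⟨j, p, hp, hj⟩ := D.total (pr x)
  obtain ⟨n', hn', -, hn3, -⟩ := D.exists_time hp (k := max j 1) (le_max_right _ _)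
  have hjn : j ≤ n' := le_trans (le_max_left _ _) hn'
  obtain ⟨i, rfl⟩ : ∃ i, n' = i + j := ⟨n' - j, by omega⟩
  have hz : g^[i + j] p = pr (gh^[i] x) := by
    rw [Function.iterate_add_apply, hj, (lg.iterate i) x]
  have hzΔ : pr (gh^[i] x) ∈ Δ := hz ▸ hn3
  have hminz : Function.minimalPeriod g (pr (gh^[i] x)) = n := by
    rw [← (lg.iterate i) x, Function.minimalPeriod_apply_iterate hpp, hmin]
  have hperz : g^[n] (pr (gh^[i] x)) = pr (gh^[i] x) := by
    have h := Function.iterate_minimalPeriod (f := g) (x := pr (gh^[i] x))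
    rw [hminz] at h
    exact h
  obtain ⟨htr, hdet⟩ := labelC_iter hg lg hn hper0 i
  obtain ⟨y, hy⟩ := pr_surjective (H (pr (gh^[i] x)))
  obtain ⟨k, hk1, -, hk⟩ := D.iterate_return hzΔ hn (by rw [hperz]; exact hzΔ)
  rw [hperz] at hk
  have hfix : G (pr y) = pr y := by
    rw [hy]
    exact hper _ k hk1 hk.symm
  have hAz : tr2 (fderiv ℝ (gh^[n]) (gh^[i] x)) ^ 2
      < 4 * det2 (fderiv ℝ (gh^[n]) (gh^[i] x)) := by
    rw [htr, hdet]; exact hA
  have hns : Complex.normSq ((a : ℂ) * (1 - Complex.I)) = 2 * a ^ 2 := by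
    simp [Complex.normSq_apply]; ring
  have hc0 : (a : ℂ) * (1 - Complex.I) ≠ 0 := by
    intro h
    rw [h] at hns
    simp at hns
    exact h0.ne' hns
  have hc1 : ‖(a : ℂ) * (1 - Complex.I)‖ < 1 := by
    rw [Complex.normSq_eq_norm_sq] at hns
    by_contra hcon
    push Not at hcon
    nlinarith
  rcases hfour y hfix with h | h | h | h
  · left
    have hb1 : ‖muAtt a‖ ≠ 1 := by
      have := norm_muAtt_le h0 h1.le
      linarith
    obtain ⟨-, h3, h4⟩ := label_strong hg hG lg lG D hzΔ hy.symm hfix (fun j hj => (ha j hj).1)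
      hb1 h
    rw [hminz, htr] at h3
    rw [hminz, hdet] at h4
    exact (isAtt_iff a _).2 ⟨h3, h4⟩
  · right
    have hre : (muRep a).re = 1 + a := by simp [muRep]
    have him : (muRep a).im = -a := by simp [muRep]
    have hb1 : ‖muRep a‖ ≠ 1 := by
      have h5 := Complex.re_le_norm (muRep a)
      rw [hre] at h5
      linarith
    obtain ⟨-, h3, h4⟩ := label_strong hg hG lg lG D hzΔ hy.symm hfix (fun j hj => (ha j hj).2)
      hb1 h
    rw [hminz, htr, hre] at h3
    rw [hminz, hdet, Complex.normSq_apply, hre, him] at h4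
    exact ⟨h3, by rw [h4]; ring⟩
  · exact absurd h (label_not_saddle hg hG lg lG D hzΔ hy.symm hfix hn hperz hAz hc0 hc1)
  · exact absurd h (label_not_saddle hg hG lg lG D hzΔ hy.symm hfix hn hperz hAz
      (neg_ne_zero.2 hc0) (by rw [norm_neg]; exact hc1))

end TotRen
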