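import Pool.Agent.W_MP_f70009_h24.LabelA

/-!
# Existence of tracked points
-/

open scoped ContDiff Topology
open Set Filter

namespace TotRen

theorem LabelD_muAtt_re (a : ℝ) : (muAtt a).re = 1 - a := by
  simp [muAtt]

theorem LabelD_muAtt_im (a : ℝ) : (muAtt a).im = a := by
  simp [muAtt]

theorem LabelD_normSq (a : ℝ) : Complex.normSq (muAtt a) = (1 - a) ^ 2 + a ^ 2 := by
  rw [Complex.normSq_apply, LabelD_muAtt_re, LabelD_muAtt_im]
  ring

/-- Existence: a finite family of distinct attracting foci of `G` gives a family of distinct periodic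
points of `g` satisfying the focus formula (the points `pr x i ∈ Δ` with `H (pr (x i)) = pr (y i)`). -/
theorem label_exists {g G : T2 → T2} {gh Gh : ℂ → ℂ} (hg : ContDiff ℝ ∞ gh)
    (hG : ContDiff ℝ ∞ Gh) (lg : IsLift gh g) (lG : IsLift Gh G)
    (hren : IsTotalRenormalization g G) {a : ℝ} (h0 : 0 < a) (h1 : a < 1 / 2) (ha : Good a)
    {ι : Type} (y : ι → ℂ) (hy : Function.Injective (fun i => pr (y i)))
    (hfix : ∀ i, G (pr (y i)) = pr (y i)) (hd : ∀ i, fderiv ℝ Gh (y i) = mulL (muAtt a)) :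
    ∃ x : ι → ℂ, Function.Injective (fun i => pr (x i)) ∧ ∀ i,
      1 ≤ Function.minimalPeriod g (pr (x i)) ∧
      IsAtt a (fderiv ℝ (gh^[Function.minimalPeriod g (pr (x i))]) (x i)) := by
  obtain ⟨Δ, H, τ, m, D⟩ := hren
  have hex : ∀ i, ∃ x : ℂ, pr x ∈ Δ ∧ H (pr x) = pr (y i) := by
    intro i
    obtain ⟨p, hp, hpy⟩ := D.bij.surjOn (mem_univ (pr (y i)))
    obtain ⟨x, rfl⟩ := pr_surjective p
    exact ⟨x, hp, hpy⟩
  choose x hxΔ hxy using hex
  have hβ1 : ‖muAtt a‖ ≠ 1 := by
    intro h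
    have h2 : Complex.normSq (muAtt a) = 1 := by
      rw [Complex.normSq_eq_norm_sq, h, one_pow]
    rw [LabelD_normSq] at h2
    nlinarith
  refine ⟨x, ?_, fun i => ?_⟩
  · intro i j hij
    apply hy
    have h2 : pr (x i) = pr (x j) := hij
    show pr (y i) = pr (y j)
    rw [← hxy i, ← hxy j, h2]
  · obtain ⟨h2, h3, h4⟩ := label_strong hg hG lg lG D (hxΔ i) (hxy i) (hfix i)
      (fun j hj => (ha j hj).1) hβ1 (hd i)
    refine ⟨h2, ?_, ?_⟩
    · rw [h3, LabelD_muAtt_re]
    · rw [h4, LabelD_normSq]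

/-- If the identity is a total renormalization of `g` then `g` has finite order. -/
theorem finite_order {g : T2 → T2} (hren : IsTotalRenormalization g id) :
    ∃ N : ℕ, 1 ≤ N ∧ ∀ q, g^[N] q = q := by
  obtain ⟨Δ, H, τ, m, D⟩ := hren
  refine ⟨m.factorial, Nat.factorial_pos m, fun q => ?_⟩
  obtain ⟨n, p, hp, rfl⟩ := D.total q
  have h1 : g^[τ p] p = p := by
    apply D.bij.injOn (D.return_mem p hp) hp
    have := D.conj p hp
    simpa using this.symm
  have h2 : τ p ∣ m.factorial :=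
    Nat.dvd_factorial (D.one_le p hp) (D.le_bound p hp)
  have h3 : Function.IsPeriodicPt g (m.factorial) p :=
    Function.IsPeriodicPt.trans_dvd (show Function.IsPeriodicPt g (τ p) p from h1) h2
  have h4 : g^[m.factorial] p = p := h3
  rw [← Function.iterate_add_apply, add_comm, Function.iterate_add_apply, h4]

end TotRen
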