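import Pool.Agent.W_MP_f70009_h24.FamB
import Pool.Agent.W_MP_f70009_h24.FamC
import Pool.Agent.W_MP_f70009_h24.FamD
import Pool.Agent.W_MP_f70009_h24.FamF
import Pool.Agent.W_MP_f70009_h24.LabelC
import Pool.Agent.W_MP_f70009_h24.LabelD
import Pool.Agent.W_MP_f70009_h24.FamilyB
import Pool.Agent.W_MP_f70009_h24.CountF

/-!
# The core contradiction
-/

open scoped ContDiff Topology
open Set Filter

namespace TotRen

theorem exists_good {h : ℝ} (h0 : 0 < h) :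
    ∃ s, Real.pi / 4 ≤ s ∧ s ≤ Real.pi / 2 ∧ Good (h * Real.sin s) := by
  by_contra hcon
  push Not at hcon
  have hpi := Real.pi_pos
  -- the map `s ↦ h sin s` is injective on `[π/4, π/2]`
  have hinj : InjOn (fun s => h * Real.sin s) (Icc (Real.pi / 4) (Real.pi / 2)) := by
    intro a ha b hb hab
    have h1 : Real.sin a = Real.sin b := mul_left_cancel₀ h0.ne' hab
    exact Real.injOn_sin ⟨by linarith [ha.1], ha.2⟩ ⟨by linarith [hb.1], hb.2⟩ h1
  have hmaps : MapsTo (fun s => h * Real.sin s) (Icc (Real.pi / 4) (Real.pi / 2))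
      {a : ℝ | ¬ Good a} := fun s hs => hcon s hs.1 hs.2
  have hcount : (Icc (Real.pi / 4) (Real.pi / 2)).Countable :=
    hmaps.countable_of_injOn hinj countable_not_good
  have hlt : Real.pi / 4 < Real.pi / 2 := by linarith
  exact (Cardinal.Real.Icc_countable_iff.mp hcount).not_gt hlt

/-- two smooth lifts of the same map have the same derivatives -/
theorem fderiv_lifts_eq {F F' : ℂ → ℂ} {f : T2 → T2} (hF : Continuous F) (hF' : Continuous F')
    (h : IsLift F f) (h' : IsLift F' f) (z : ℂ) : fderiv ℝ F z = fderiv ℝ F' z := by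
  obtain ⟨a, b, hab⟩ := lifts_differ hF hF' h h'
  have : F = fun z => F' z + ((a : ℂ) + (b : ℂ) * Complex.I) := funext hab
  rw [this, fderiv_add_const]

theorem core (R : ℕ) (hR : 1 ≤ R) (ε₁ : ℝ) (hε₁ : 0 < ε₁) (hε₁' : 2 * Real.pi * ε₁ ≤ 1 / 8)
    (Φ : ℕ → ℝ × ℂ → ℂ) (g G : ℕ → ℝ → T2 → T2) (g₀ : T2 → T2)
    (hΦ : ∀ L, 1 ≤ L → ContDiff ℝ ∞ (Φ L))
    (hlift : ∀ L, 1 ≤ L → ∀ s, IsLift (fun z => Φ L (s, z)) (g L s))
    (hN : ∀ L, 1 ≤ L → ∀ s, ∃ F : ℂ → ℂ, ContDiff ℝ ∞ F ∧ IsLift F (g L s) ∧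
      ∀ k ≤ 4 * R + 2, ∀ z, ‖iteratedFDeriv ℝ k (fun w => F w - w) z‖ ≤ 1)
    (h0 : ∀ L, 1 ≤ L → g L 0 = g₀)
    (hG : ∀ L, 1 ≤ L → ∀ s, IsLift (liftL L (ε₁ / (L : ℝ) ^ R * Real.sin s)) (G L s))
    (hren : ∀ L, 1 ≤ L → ∀ s, IsTotalRenormalization (g L s) (G L s)) : False := by
  have hpi := Real.pi_gt_three
  -- finite order of `g₀`
  have hG0 : G 1 0 = id := by
    funext q
    obtain ⟨z, rfl⟩ := pr_surjective q
    rw [hG 1 le_rfl 0 z]
    simp [liftL]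
  obtain ⟨N, hN1, hNid⟩ : ∃ N : ℕ, 1 ≤ N ∧ ∀ q, g₀^[N] q = q := by
    apply finite_order
    have := hren 1 le_rfl 0
    rwa [hG0, h0 1 le_rfl] at this
  have hε₁1 : ε₁ ≤ 1 := by nlinarith
  obtain ⟨L, hL, hcount⟩ := final_count R N hR ε₁ hε₁ hε₁1
  have hLpos : (0 : ℝ) < L := by exact_mod_cast hL
  have hL1 : (1 : ℝ) ≤ L := by exact_mod_cast hL
  have hLR : (L : ℝ) / (L : ℝ) ^ R ≤ 1 := by
    rw [div_le_one (by positivity)]
    calc (L : ℝ) = (L : ℝ) ^ 1 := (pow_one _).symm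
      _ ≤ (L : ℝ) ^ R := pow_le_pow_right₀ hL1 hR
  have hLR0 : 0 < (L : ℝ) / (L : ℝ) ^ R := by positivity
  -- the family
  set Γ := Φ L with hΓ
  set gg := g L with hgg
  have hgfun : ∀ s, Continuous (fun z => Γ (s, z)) := fun s =>
    (hΦ L hL).continuous.comp (by fun_prop)
  have hbd : ∀ s, ∃ F : ℂ → ℂ, ContDiff ℝ ∞ F ∧ IsLift F (gg s) ∧ (∀ z, ‖F z - z‖ ≤ 1) ∧
      ∀ k ≤ 4 * R + 2, ∀ z, ‖iteratedFDeriv ℝ k (fun w => F w - w) z‖ ≤ 1 := by
    intro s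
    obtain ⟨F, hF1, hF2, hF3⟩ := hN L hL s
    refine ⟨F, hF1, hF2, fun z => ?_, hF3⟩
    have := hF3 0 (Nat.zero_le _) z
    rwa [norm_iteratedFDeriv_zero] at this
  have F : Fam gg Γ := by
    refine ⟨hΦ L hL, hlift L hL, fun s z a b => ?_⟩
    obtain ⟨F, hF1, hF2, hF3, -⟩ := hbd s
    obtain ⟨c, d, hcd⟩ := lifts_differ (hgfun s) hF1.continuous (hlift L hL s) hF2
    have e1 := hcd (z + ((a : ℂ) + (b : ℂ) * Complex.I))
    have e2 := hcd z
    rw [lift_equiv hF1.continuous hF2 hF3] at e1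
    rw [e1, e2]; ring
  set h : ℝ := 2 * Real.pi * L * (ε₁ / (L : ℝ) ^ R) with hh
  have hh' : h = 2 * Real.pi * ε₁ * ((L : ℝ) / (L : ℝ) ^ R) := by rw [hh]; ring
  have hhpos : 0 < h := by rw [hh']; positivity
  have hhlt : h < 1 / 2 := by
    rw [hh']
    calc 2 * Real.pi * ε₁ * ((L : ℝ) / (L : ℝ) ^ R) ≤ 2 * Real.pi * ε₁ * 1 := by gcongr
      _ < 1 / 2 := by linarith
  have hη : ∀ s : ℝ, 2 * Real.pi * L * (ε₁ / (L : ℝ) ^ R * Real.sin s) = h * Real.sin s := by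
    intro s; rw [hh]; ring
  have hsin : ∀ s : ℝ, 0 < s → s ≤ Real.pi / 2 → 0 < Real.sin s := fun s hs hs' =>
    Real.sin_pos_of_pos_of_lt_pi hs (by linarith)
  have ha : ∀ s : ℝ, 0 < s → s ≤ Real.pi / 2 → 0 < h * Real.sin s ∧ h * Real.sin s < 1 / 2 := by
    intro s hs hs'
    have h1 := hsin s hs hs'
    refine ⟨by positivity, ?_⟩
    calc h * Real.sin s ≤ h * 1 := by
          have := Real.sin_le_one s
          gcongr
      _ < 1 / 2 := by linarith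
  have hηpos : ∀ s : ℝ, 0 < s → s ≤ Real.pi / 2 → 0 < ε₁ / (L : ℝ) ^ R * Real.sin s := by
    intro s hs hs'
    have h1 := hsin s hs hs'
    positivity
  have hsmG : ∀ s : ℝ, ContDiff ℝ ∞ (liftL L (ε₁ / (L : ℝ) ^ R * Real.sin s)) := by
    intro s
    have := contDiff_sF L
    unfold liftL
    fun_prop
  -- the label hypothesis
  have hlab : ∀ n : ℕ, 1 ≤ n → ∀ s, 0 < s → s ≤ Real.pi / 2 → Good (h * Real.sin s) → ∀ z,
      Function.minimalPeriod (gg s) (pr z) = n →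
      tr2 (fderiv ℝ ((fun w => Γ (s, w))^[n]) z) ^ 2
        < 4 * det2 (fderiv ℝ ((fun w => Γ (s, w))^[n]) z) →
      IsAtt (h * Real.sin s) (fderiv ℝ ((fun w => Γ (s, w))^[n]) z) ∨
      IsRep (h * Real.sin s) (fderiv ℝ ((fun w => Γ (s, w))^[n]) z) := by
    intro n hn s hs hs' hgood z hz hdisc
    have h1 := ha s hs hs'
    have h2 : 2 * Real.pi * L * (ε₁ / (L : ℝ) ^ R * Real.sin s) < 1 / 2 := by
      rw [hη]; exact h1.2
    refine label_periodic (g := gg s) (G := G L s)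
      (Gh := liftL L (ε₁ / (L : ℝ) ^ R * Real.sin s)) ?_ (hsmG s)
      (hlift L hL s) (hG L hL s) (hren L hL s) h1.1 h1.2 hgood ?_ ?_ hn hz hdisc
    · exact (hΦ L hL).comp (by fun_prop)
    · intro q k hk hq
      exact fam_periodic hL (hηpos s hs hs') h2 (hG L hL s) q hk hq
    · intro y hy
      have := fam_four hL (hηpos s hs hs') h2 (hG L hL s) hy
      rwa [hη] at this
  -- a good parameter
  obtain ⟨s₁, hs1, hs1', hgood⟩ := exists_good hhpos
  have hs1pos : 0 < s₁ := by linarith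
  have hsm1 : ContDiff ℝ ∞ (fun z => Γ (s₁, z)) := (hΦ L hL).comp (by fun_prop)
  obtain ⟨x, hxinj, hx⟩ := label_exists (g := gg s₁) (G := G L s₁)
    (Gh := liftL L (ε₁ / (L : ℝ) ^ R * Real.sin s₁)) hsm1 (hsmG s₁)
    (hlift L hL s₁) (hG L hL s₁) (hren L hL s₁) (ha s₁ hs1pos hs1').1 (ha s₁ hs1pos hs1').2
    hgood (attPt L) (attPt_inj L) (attPt_fix hL (hG L hL s₁))
    (fun i => by rw [attPt_fderiv hL, hη])
  -- the periods divide `N`
  have hdvd : ∀ i, Function.minimalPeriod (gg s₁) (pr (x i)) ∣ N := by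
    intro i
    obtain ⟨hn, hatt⟩ := hx i
    set n := Function.minimalPeriod (gg s₁) (pr (x i)) with hndef
    have hmem : s₁ ∈ Tn gg Γ h n := ⟨hs1pos, hs1', x i, hndef.symm, hatt⟩
    refine limit_dvd F hhpos hhlt hn hN1 ?_ ?_
    · intro q
      have : gg 0 = g₀ := h0 L hL
      rw [this]; exact hNid q
    · intro ε hε
      refine Tn_connected hhpos (T := Tn gg Γ h n) ?_ ?_ ?_ ⟨s₁, hmem⟩ hε
      · rintro s ⟨h1, h2, -⟩
        exact ⟨h1, h2⟩
      · intro s hs s0 hs0 hlim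
        exact Tn_closed F hhpos hhlt hn hs hs0 hlim
      · intro s0 hs0
        exact Tn_open F hhpos hhlt hn (hlab n hn) hs0
  -- the final count
  obtain ⟨F₁, hF1, hF2, hF3, hF4⟩ := hbd s₁
  refine hcount F₁ hF1 hF4 (fun z a b => lift_equiv hF1.continuous hF2 hF3 z a b)
    ⟨x, ?_, ?_, ?_⟩
  · intro i j a b hij
    apply hxinj
    show pr (x i) = pr (x j)
    rw [hij, pr_add_int]
  · intro i
    have h1 : pr (F₁^[N] (x i)) = pr (x i) := by
      rw [← hF2.iterate N (x i)]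
      exact (Function.isPeriodicPt_iff_minimalPeriod_dvd.mpr (hdvd i))
    exact (pr_eq_iff _ _).mp h1
  · intro i
    obtain ⟨hn, hatt⟩ := hx i
    set n := Function.minimalPeriod (gg s₁) (pr (x i)) with hndef
    obtain ⟨m, hm⟩ := hdvd i
    have hm1 : 1 ≤ m := by
      rcases Nat.eq_zero_or_pos m with h | h
      · rw [h, mul_zero] at hm; omega
      · exact h
    have hper : (gg s₁)^[n] (pr (x i)) = pr (x i) := Function.isPeriodicPt_minimalPeriod _ _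
    have e1 : fderiv ℝ (F₁^[N]) (x i) = (fderiv ℝ (F₁^[n]) (x i)) ^ m := by
      rw [hm, mul_comm n m]
      exact fderiv_iterate_period hF1 hF2 hper m
    have e2 : fderiv ℝ (F₁^[n]) (x i) = fderiv ℝ ((fun w => Γ (s₁, w))^[n]) (x i) :=
      fderiv_lifts_eq (hF1.continuous.iterate n) ((hgfun s₁).iterate n) (hF2.iterate n)
        (IsLift.iterate (hlift L hL s₁) n) _
    rw [e1, e2]
    set A := fderiv ℝ ((fun w => Γ (s₁, w))^[n]) (x i)
    have h1 := (isAtt_iff _ _).mp hatt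
    rw [det2_pow_sub_one A _ h1.1 h1.2 m]
    have h2 := ha s₁ hs1pos hs1'
    have h3 := normSq_muAtt_pow_sub_one h2.1 h2.2.le hm1
    rw [abs_of_nonneg (Complex.normSq_nonneg _)]
    refine le_trans ?_ h3
    have h4 : Real.sqrt 2 / 2 ≤ Real.sin s₁ := by
      rw [← Real.sin_pi_div_four]
      exact Real.sin_le_sin_of_le_of_le_pi_div_two (by linarith) hs1' hs1
    have h5 : (Real.sqrt 2) ^ 2 = 2 := Real.sq_sqrt (by norm_num)
    have h6 : h * (Real.sqrt 2 / 2) ≤ h * Real.sin s₁ := by gcongr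
    have h7 : (h * (Real.sqrt 2 / 2)) ^ 2 ≤ (h * Real.sin s₁) ^ 2 := by
      apply pow_le_pow_left₀ (by positivity) h6
    have h8 : (h * (Real.sqrt 2 / 2)) ^ 2 = h ^ 2 / 2 := by
      rw [mul_pow, div_pow, h5]; ring
    have h9 : (ε₁ * L / (L : ℝ) ^ R) ^ 2 ≤ h ^ 2 / 8 := by
      rw [hh']
      have : ε₁ * L / (L : ℝ) ^ R = ε₁ * ((L : ℝ) / (L : ℝ) ^ R) := by ring
      rw [this]
      have h10 : 0 < ε₁ * ((L : ℝ) / (L : ℝ) ^ R) := by positivity
      have h11 : 2 * Real.pi * ε₁ * ((L : ℝ) / (L : ℝ) ^ R)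
          = 2 * Real.pi * (ε₁ * ((L : ℝ) / (L : ℝ) ^ R)) := by ring
      rw [h11, mul_pow, mul_pow]
      have h12 : (9 : ℝ) ≤ Real.pi ^ 2 := by nlinarith
      have h13 := pow_pos h10 2
      nlinarith
    linarith

end TotRen
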