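import Pool.Agent.W_MP_f70009_h24.Lin

/-!
# Taylor polynomials
-/

open scoped ContDiff Topology
open Set Filter

namespace TotRen

/-- directional derivatives -/
noncomputable def tpD (w : ℂ) (f : ℂ → ℝ) (z : ℂ) : ℝ := fderiv ℝ f z w

theorem tpD_contDiff {f : ℂ → ℝ} (hf : ContDiff ℝ ∞ f) (w : ℂ) : ContDiff ℝ ∞ (tpD w f) := by
  have h1 : ContDiff ℝ ∞ (fderiv ℝ f) := hf.fderiv_right (by simp)
  exact h1.clm_apply contDiff_const

theorem tpD_comm {f : ℂ → ℝ} (hf : ContDiff ℝ ∞ f) (v w : ℂ) :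
    tpD v (tpD w f) = tpD w (tpD v f) := by
  have h1 : ContDiff ℝ ∞ (fderiv ℝ f) := hf.fderiv_right (by simp)
  have h2 : Differentiable ℝ (fderiv ℝ f) := h1.differentiable (by simp)
  have key : ∀ v w : ℂ, ∀ z, tpD v (tpD w f) z = fderiv ℝ (fderiv ℝ f) z v w := by
    intro v w z
    have : HasFDerivAt (tpD w f) ((fderiv ℝ (fderiv ℝ f) z).flip w) z := by
      have h3 := (h2 z).hasFDerivAt.clm_apply (hasFDerivAt_const w z)
      refine h3.congr_fderiv ?_
      ext u <;> simp
    rw [tpD, this.fderiv]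
    simp
  funext z
  rw [key, key]
  have h3 : ContDiffAt ℝ ∞ f z := hf.contDiffAt
  refine h3.isSymmSndFDerivAt ?_ v w
  rw [minSmoothness_of_isRCLikeNormedField]
  exact WithTop.coe_le_coe.2 (le_top : (2 : ℕ∞) ≤ ⊤)

theorem tpD_norm {f : ℂ → ℝ} (hf : ContDiff ℝ ∞ f) (w : ℂ) (hw : ‖w‖ ≤ 1) (r : ℕ) (z : ℂ) :
    ‖iteratedFDeriv ℝ r (tpD w f) z‖ ≤ ‖iteratedFDeriv ℝ (r + 1) f z‖ := by
  have h1 : ContDiff ℝ ∞ (fderiv ℝ f) := hf.fderiv_right (by simp)
  rw [← norm_iteratedFDeriv_fderiv]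
  have h3 := norm_iteratedFDeriv_clm_apply_const (c := w) (n := r) (N := ∞)
    (h1.contDiffAt (x := z)) (by exact_mod_cast (le_top : (r : ℕ∞) ≤ ⊤))
  refine h3.trans ?_
  calc _ ≤ 1 * ‖iteratedFDeriv ℝ r (fderiv ℝ f) z‖ := by gcongr
    _ = _ := one_mul _

/-- polynomial function with Taylor coefficients `a i j` -/
noncomputable def tpF (a : ℕ → ℕ → ℝ) (r : ℕ) (x y : ℝ) : ℝ :=
  ∑ i ∈ Finset.range r, ∑ j ∈ Finset.range (r - i), a i j / (i.factorial * j.factorial) * (x ^ i * y ^ j)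

theorem tp_pow (i : ℕ) (x : ℝ) :
    HasDerivAt (fun x : ℝ => x ^ (i + 1) / ((i + 1).factorial : ℝ)) (x ^ i / (i.factorial : ℝ)) x := by
  have h := (hasDerivAt_pow (i + 1) x).div_const ((i + 1).factorial : ℝ)
  refine h.congr_deriv ?_
  rw [Nat.factorial_succ]
  have h1 : (i.factorial : ℝ) ≠ 0 := by positivity
  have h2 : ((i : ℝ) + 1) ≠ 0 := by positivity
  push_cast
  field_simp

theorem tpF_dx (a : ℕ → ℕ → ℝ) (r : ℕ) (x y : ℝ) :
    HasDerivAt (fun x => tpF a (r + 1) x y) (tpF (fun i j => a (i + 1) j) r x y) x := by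
  have h0 : (fun x => tpF a (r + 1) x y) = fun x =>
      (∑ i ∈ Finset.range r, ∑ j ∈ Finset.range (r - i),
        a (i + 1) j / j.factorial * y ^ j * (x ^ (i + 1) / ((i + 1).factorial : ℝ)))
      + ∑ j ∈ Finset.range (r + 1), a 0 j / j.factorial * y ^ j := by
    funext x
    unfold tpF
    rw [Finset.sum_range_succ']
    congr 1
    · refine Finset.sum_congr rfl fun i _ => ?_
      rw [Nat.add_sub_add_right]
      refine Finset.sum_congr rfl fun j _ => ?_
      have h1 : ((i + 1).factorial : ℝ) ≠ 0 := by positivity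
      have h2 : (j.factorial : ℝ) ≠ 0 := by positivity
      field_simp
    · rw [Nat.sub_zero]
      refine Finset.sum_congr rfl fun j _ => ?_
      simp
  rw [h0]
  unfold tpF
  have h1 : HasDerivAt (fun x => ∑ i ∈ Finset.range r, ∑ j ∈ Finset.range (r - i),
        a (i + 1) j / j.factorial * y ^ j * (x ^ (i + 1) / ((i + 1).factorial : ℝ)))
      (∑ i ∈ Finset.range r, ∑ j ∈ Finset.range (r - i),
        a (i + 1) j / j.factorial * y ^ j * (x ^ i / (i.factorial : ℝ))) x := by
    refine HasDerivAt.fun_sum fun i _ => HasDerivAt.fun_sum fun j _ => ?_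
    exact (tp_pow i x).const_mul _
  refine (h1.add_const _).congr_deriv ?_
  refine Finset.sum_congr rfl fun i _ => Finset.sum_congr rfl fun j _ => ?_
  have h1 : (i.factorial : ℝ) ≠ 0 := by positivity
  have h2 : (j.factorial : ℝ) ≠ 0 := by positivity
  field_simp

theorem tpF_dy (a : ℕ → ℕ → ℝ) (r : ℕ) (x y : ℝ) :
    HasDerivAt (fun y => tpF a (r + 1) x y) (tpF (fun i j => a i (j + 1)) r x y) y := by
  have h0 : (fun y => tpF a (r + 1) x y) = fun y =>
      (∑ i ∈ Finset.range (r + 1), ∑ j ∈ Finset.range (r - i),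
        a i (j + 1) / i.factorial * x ^ i * (y ^ (j + 1) / ((j + 1).factorial : ℝ)))
      + ∑ i ∈ Finset.range (r + 1), a i 0 / i.factorial * x ^ i := by
    funext y
    unfold tpF
    rw [← Finset.sum_add_distrib]
    refine Finset.sum_congr rfl fun i hi => ?_
    rw [Finset.mem_range] at hi
    rw [show r + 1 - i = (r - i) + 1 by omega, Finset.sum_range_succ']
    congr 1
    · refine Finset.sum_congr rfl fun j _ => ?_
      have h1 : ((j + 1).factorial : ℝ) ≠ 0 := by positivity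
      have h2 : (i.factorial : ℝ) ≠ 0 := by positivity
      field_simp
    · simp
  rw [h0]
  unfold tpF
  have h1 : HasDerivAt (fun y => ∑ i ∈ Finset.range (r + 1), ∑ j ∈ Finset.range (r - i),
        a i (j + 1) / i.factorial * x ^ i * (y ^ (j + 1) / ((j + 1).factorial : ℝ)))
      (∑ i ∈ Finset.range (r + 1), ∑ j ∈ Finset.range (r - i),
        a i (j + 1) / i.factorial * x ^ i * (y ^ j / (j.factorial : ℝ))) y := by
    refine HasDerivAt.fun_sum fun i _ => HasDerivAt.fun_sum fun j _ => ?_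
    exact (tp_pow j y).const_mul _
  refine (h1.add_const _).congr_deriv ?_
  rw [Finset.sum_range_succ, Nat.sub_self, Finset.range_zero, Finset.sum_empty, add_zero]
  refine Finset.sum_congr rfl fun i _ => Finset.sum_congr rfl fun j _ => ?_
  have h1 : (i.factorial : ℝ) ≠ 0 := by positivity
  have h2 : (j.factorial : ℝ) ≠ 0 := by positivity
  field_simp

theorem tpF_zero (a : ℕ → ℕ → ℝ) (r : ℕ) : tpF a (r + 1) 0 0 = a 0 0 := by
  unfold tpF
  rw [Finset.sum_eq_single 0, Nat.sub_zero, Finset.sum_eq_single 0]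
  · simp
  · intro j _ hj
    simp [hj]
  · simp
  · intro i _ hi
    simp [hi]
  · simp

/-- as a function on the plane -/
noncomputable def tpG (a : ℕ → ℕ → ℝ) (r : ℕ) (c z : ℂ) : ℝ := tpF a r (z - c).re (z - c).im

theorem tpG_diff (a : ℕ → ℕ → ℝ) (r : ℕ) (c : ℂ) : Differentiable ℝ (tpG a r c) := by
  have h1 : Differentiable ℝ (fun z : ℂ => (z - c).re) := by
    have : Differentiable ℝ (fun z : ℂ => z - c) := by fun_prop
    exact Complex.reCLM.differentiable.comp this
  have h2 : Differentiable ℝ (fun z : ℂ => (z - c).im) := by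
    have : Differentiable ℝ (fun z : ℂ => z - c) := by fun_prop
    exact Complex.imCLM.differentiable.comp this
  unfold tpG tpF
  fun_prop

theorem tpG_one (a : ℕ → ℕ → ℝ) (r : ℕ) (c z : ℂ) :
    fderiv ℝ (tpG a (r + 1) c) z 1 = tpG (fun i j => a (i + 1) j) r c z := by
  have h1 : HasDerivAt (fun t : ℝ => z + (t : ℂ)) 1 0 := by
    simpa using (Complex.ofRealCLM.hasDerivAt (x := (0 : ℝ))).const_add z
  have h2 : HasDerivAt (fun t : ℝ => tpG a (r + 1) c (z + (t : ℂ)))
      (fderiv ℝ (tpG a (r + 1) c) z 1) 0 := by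
    have h3 : HasFDerivAt (tpG a (r + 1) c) (fderiv ℝ (tpG a (r + 1) c) z)
        ((fun t : ℝ => z + (t : ℂ)) 0) := by
      simpa using (tpG_diff a (r + 1) c z).hasFDerivAt
    exact h3.comp_hasDerivAt 0 h1
  have h4 : HasDerivAt (fun t : ℝ => tpG a (r + 1) c (z + (t : ℂ)))
      (tpG (fun i j => a (i + 1) j) r c z) 0 := by
    have h5 : (fun t : ℝ => tpG a (r + 1) c (z + (t : ℂ))) =
        fun t : ℝ => (fun x => tpF a (r + 1) x (z - c).im) ((z - c).re + t) := by
      funext t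
      simp only [tpG]
      congr 1
      · simp; ring
      · simp
    rw [h5]
    have h6 := tpF_dx a r (z - c).re (z - c).im
    have h7 : HasDerivAt (fun t : ℝ => (z - c).re + t) 1 0 := by
      simpa using (hasDerivAt_id (0 : ℝ)).const_add (z - c).re
    have h8 := HasDerivAt.comp (0 : ℝ) (h₂ := fun x => tpF a (r + 1) x (z - c).im)
      (h := fun t : ℝ => (z - c).re + t) (by simpa using h6) h7
    exact h8.congr_deriv (by simp [tpG])
  exact h2.unique h4

theorem tpG_I (a : ℕ → ℕ → ℝ) (r : ℕ) (c z : ℂ) :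
    fderiv ℝ (tpG a (r + 1) c) z Complex.I = tpG (fun i j => a i (j + 1)) r c z := by
  have h1 : HasDerivAt (fun t : ℝ => z + (t : ℂ) * Complex.I) Complex.I 0 := by
    simpa using ((Complex.ofRealCLM.hasDerivAt (x := (0 : ℝ))).mul_const Complex.I).const_add z
  have h2 : HasDerivAt (fun t : ℝ => tpG a (r + 1) c (z + (t : ℂ) * Complex.I))
      (fderiv ℝ (tpG a (r + 1) c) z Complex.I) 0 := by
    have h3 : HasFDerivAt (tpG a (r + 1) c) (fderiv ℝ (tpG a (r + 1) c) z)
        ((fun t : ℝ => z + (t : ℂ) * Complex.I) 0) := by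
      simpa using (tpG_diff a (r + 1) c z).hasFDerivAt
    exact h3.comp_hasDerivAt 0 h1
  have h4 : HasDerivAt (fun t : ℝ => tpG a (r + 1) c (z + (t : ℂ) * Complex.I))
      (tpG (fun i j => a i (j + 1)) r c z) 0 := by
    have h5 : (fun t : ℝ => tpG a (r + 1) c (z + (t : ℂ) * Complex.I)) =
        fun t : ℝ => (fun y => tpF a (r + 1) (z - c).re y) ((z - c).im + t) := by
      funext t
      simp only [tpG]
      congr 1
      · simp
      · simp; ring
    rw [h5]
    have h6 := tpF_dy a r (z - c).re (z - c).im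
    have h7 : HasDerivAt (fun t : ℝ => (z - c).im + t) 1 0 := by
      simpa using (hasDerivAt_id (0 : ℝ)).const_add (z - c).im
    have h8 := HasDerivAt.comp (0 : ℝ) (h₂ := fun y => tpF a (r + 1) (z - c).re y)
      (h := fun t : ℝ => (z - c).im + t) (by simpa using h6) h7
    exact h8.congr_deriv (by simp [tpG])
  exact h2.unique h4

/-- Taylor coefficients -/
noncomputable def tpA (f : ℂ → ℝ) (c : ℂ) (i j : ℕ) : ℝ := (tpD 1)^[i] ((tpD Complex.I)^[j] f) c

theorem tpD_iter_contDiff {f : ℂ → ℝ} (hf : ContDiff ℝ ∞ f) (w : ℂ) (j : ℕ) :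
    ContDiff ℝ ∞ ((tpD w)^[j] f) := by
  induction j generalizing f with
  | zero => exact hf
  | succ j ih =>
    rw [Function.iterate_succ_apply]
    exact ih (tpD_contDiff hf w)

theorem tpD_iter_comm {f : ℂ → ℝ} (hf : ContDiff ℝ ∞ f) (v w : ℂ) (j : ℕ) :
    tpD v ((tpD w)^[j] f) = (tpD w)^[j] (tpD v f) := by
  induction j generalizing f with
  | zero => rfl
  | succ j ih =>
    rw [Function.iterate_succ_apply, Function.iterate_succ_apply, ih (tpD_contDiff hf w),
      tpD_comm hf]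

theorem tpA_one {f : ℂ → ℝ} (hf : ContDiff ℝ ∞ f) (c : ℂ) :
    (fun i j => tpA f c (i + 1) j) = tpA (tpD 1 f) c := by
  funext i j
  unfold tpA
  rw [Function.iterate_succ_apply, tpD_iter_comm hf]

theorem tpA_I (f : ℂ → ℝ) (c : ℂ) :
    (fun i j => tpA f c i (j + 1)) = tpA (tpD Complex.I f) c := by
  funext i j
  unfold tpA
  rw [Function.iterate_succ_apply]

theorem tp_main (c : ℂ) (C : ℝ) (r : ℕ) : ∀ f : ℂ → ℝ, ContDiff ℝ ∞ f →
    (∀ z, ‖iteratedFDeriv ℝ r f z‖ ≤ C) → ∀ z,
      |f z - tpG (tpA f c) r c z| ≤ C * (|(z - c).re| + |(z - c).im|) ^ r := by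
  induction r with
  | zero =>
    intro f hf hC z
    have := hC z
    simpa [tpG, tpF] using this
  | succ r ih =>
    intro f hf hC z
    have hC0 : 0 ≤ C := (norm_nonneg _).trans (hC z)
    set v := z - c with hv
    set N := |v.re| + |v.im| with hN
    have hN0 : 0 ≤ N := by positivity
    have h1 := ih (tpD 1 f) (tpD_contDiff hf 1) fun z =>
      (tpD_norm hf 1 (by simp) r z).trans (hC z)
    have h2 := ih (tpD Complex.I f) (tpD_contDiff hf _) fun z =>
      (tpD_norm hf _ (by simp) r z).trans (hC z)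
    have hfd : Differentiable ℝ f := hf.differentiable (by simp)
    set g : ℝ → ℝ := fun t => f (c + (t : ℂ) * v) - tpG (tpA f c) (r + 1) c (c + (t : ℂ) * v)
      with hg
    have hline : ∀ t : ℝ, HasDerivAt (fun t : ℝ => c + (t : ℂ) * v) v t := by
      intro t
      simpa using ((Complex.ofRealCLM.hasDerivAt (x := t)).mul_const v).const_add c
    have hd : ∀ t : ℝ, HasDerivAt g (fderiv ℝ f (c + (t : ℂ) * v) v -
        fderiv ℝ (tpG (tpA f c) (r + 1) c) (c + (t : ℂ) * v) v) t := by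
      intro t
      exact ((hfd _).hasFDerivAt.comp_hasDerivAt t (hline t)).sub
        ((tpG_diff _ _ _ _).hasFDerivAt.comp_hasDerivAt t (hline t))
    have hb : ∀ t ∈ Set.Icc (0 : ℝ) 1, ‖fderiv ℝ f (c + (t : ℂ) * v) v -
        fderiv ℝ (tpG (tpA f c) (r + 1) c) (c + (t : ℂ) * v) v‖ ≤ C * N ^ (r + 1) := by
      intro t ht
      have hvv : v = v.re • (1 : ℂ) + v.im • Complex.I := by
        apply Complex.ext <;> simp
      have e1 : ∀ L : ℂ →L[ℝ] ℝ, L v = v.re * L 1 + v.im * L Complex.I := by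
        intro L
        conv_lhs => rw [hvv, map_add, map_smul, map_smul]
        simp
      rw [e1, e1, tpG_one, tpG_I, tpA_one hf, tpA_I]
      have e2 := h1 (c + (t : ℂ) * v)
      have e3 := h2 (c + (t : ℂ) * v)
      have e4 : |((c + (t : ℂ) * v) - c).re| + |((c + (t : ℂ) * v) - c).im| ≤ N := by
        have : (c + (t : ℂ) * v) - c = (t : ℂ) * v := by ring
        rw [this, Complex.re_ofReal_mul, Complex.im_ofReal_mul, abs_mul, abs_mul,
          abs_of_nonneg ht.1]
        have := ht.2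
        have a1 := abs_nonneg v.re
        have a2 := abs_nonneg v.im
        rw [hN]
        nlinarith
      have e5 : C * (|((c + (t : ℂ) * v) - c).re| + |((c + (t : ℂ) * v) - c).im|) ^ r
          ≤ C * N ^ r := by gcongr
      have e6 := e2.trans e5
      have e7 := e3.trans e5
      rw [Real.norm_eq_abs]
      calc |v.re * fderiv ℝ f (c + (t : ℂ) * v) 1 + v.im * fderiv ℝ f (c + (t : ℂ) * v) Complex.I
            - (v.re * tpG (tpA (tpD 1 f) c) r c (c + (t : ℂ) * v)
              + v.im * tpG (tpA (tpD Complex.I f) c) r c (c + (t : ℂ) * v))|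
          = |v.re * (tpD 1 f (c + (t : ℂ) * v) - tpG (tpA (tpD 1 f) c) r c (c + (t : ℂ) * v))
            + v.im * (tpD Complex.I f (c + (t : ℂ) * v)
              - tpG (tpA (tpD Complex.I f) c) r c (c + (t : ℂ) * v))| := by
            congr 1
            simp only [tpD]
            ring
        _ ≤ |v.re| * (C * N ^ r) + |v.im| * (C * N ^ r) := by
            refine (abs_add_le _ _).trans ?_
            rw [abs_mul, abs_mul]
            gcongr
        _ = C * N ^ (r + 1) := by rw [hN]; ring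
    have hm := (convex_Icc (0 : ℝ) 1).norm_image_sub_le_of_norm_hasDerivWithin_le
      (f := g) (fun t ht => (hd t).hasDerivWithinAt) hb (x := 0) (y := 1) (by simp) (by simp)
    have g1 : g 1 = f z - tpG (tpA f c) (r + 1) c z := by
      simp [hg, hv]
    have g0 : g 0 = 0 := by
      simp [hg, tpG, tpF_zero, tpA]
    rw [g0, g1] at hm
    simpa using hm

open Polynomial in
/-- the polynomial -/
noncomputable def tpP (a : ℕ → ℕ → ℝ) (r : ℕ) : ℝ[X][X] :=
  ∑ i ∈ Finset.range r, ∑ j ∈ Finset.range (r - i),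
    monomial j (monomial i (a i j / (i.factorial * j.factorial)))

open Polynomial in
theorem tpP_eval (a : ℕ → ℕ → ℝ) (r : ℕ) (x y : ℝ) : evalEval x y (tpP a r) = tpF a r x y := by
  unfold tpP tpF
  rw [evalEval_finsetSum]
  refine Finset.sum_congr rfl fun i _ => ?_
  rw [evalEval_finsetSum]
  refine Finset.sum_congr rfl fun j _ => ?_
  simp [evalEval, eval_monomial]
  ring

open Polynomial in
theorem tpP_deg (a : ℕ → ℕ → ℝ) (r : ℕ) : (tpP a r).natDegree ≤ r := by
  unfold tpP
  refine natDegree_sum_le_of_forall_le _ _ fun i _ => ?_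
  refine natDegree_sum_le_of_forall_le _ _ fun j hj => ?_
  refine (natDegree_monomial_le _).trans ?_
  rw [Finset.mem_range] at hj
  omega

open Polynomial in
theorem tpP_coeff (a : ℕ → ℕ → ℝ) (r n : ℕ) : ((tpP a r).coeff n).natDegree ≤ r := by
  unfold tpP
  rw [finsetSum_coeff]
  refine natDegree_sum_le_of_forall_le _ _ fun i hi => ?_
  rw [finsetSum_coeff]
  refine natDegree_sum_le_of_forall_le _ _ fun j hj => ?_
  rw [Finset.mem_range] at hi
  rw [coeff_monomial]
  split_ifs
  · exact (natDegree_monomial_le _).trans hi.le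
  · simp

open Polynomial in
/-- Taylor polynomials in two real variables with the `C¹` estimate.  Proof by induction on `r` (for all
`f`): write `Dx f z = fderiv ℝ f z 1`, `Dy f z = fderiv ℝ f z I`; these commute on smooth functions
and `‖iteratedFDeriv ℝ k (Dx f) z‖ ≤ ‖iteratedFDeriv ℝ (k+1) f z‖` (`norm_iteratedFDeriv_fderiv`,
`ContinuousLinearMap.norm_iteratedFDeriv_comp_left`).  The polynomial is
`P = ∑_{i+j<r} (Dx^i Dy^j f)(c) X^i Y^j / (i! j!)`, so that `∂x P_{r+1}(f) = P_r(Dx f)` and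
`∂y P_{r+1}(f) = P_r(Dy f)`; with `R = f - P_{r+1}(f)`: `R c = 0` and by induction
`|Dx R|, |Dy R| ≤ C |z-c|₁ ^ r`, so `|R z| ≤ C |z-c|₁ ^ (r+1)` by the mean value inequality on the
segment, where `|v|₁ = |re v| + |im v| ≤ 2 ‖v‖`. -/
theorem taylor_poly (r : ℕ) (f : ℂ → ℝ) (hf : ContDiff ℝ ∞ f) (c : ℂ) :
    ∃ P : ℝ[X][X], P.natDegree ≤ r ∧ (∀ i, (P.coeff i).natDegree ≤ r) ∧
      ∀ C : ℝ, (∀ z, ‖iteratedFDeriv ℝ r f z‖ ≤ C) →
        (∀ z, |f z - evalEval (z - c).re (z - c).im P| ≤ C * (2 * ‖z - c‖) ^ r) ∧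
        (1 ≤ r → ∀ z v, |fderiv ℝ f z v
            - fderiv ℝ (fun w : ℂ => evalEval (w - c).re (w - c).im P) z v|
          ≤ 2 * C * (2 * ‖z - c‖) ^ (r - 1) * ‖v‖) := by
  refine ⟨tpP (tpA f c) r, tpP_deg _ _, tpP_coeff _ _, ?_⟩
  intro C hC
  have hC0 : 0 ≤ C := (norm_nonneg _).trans (hC 0)
  have hN : ∀ v : ℂ, |v.re| + |v.im| ≤ 2 * ‖v‖ := by
    intro v
    have h1 := Complex.abs_re_le_norm v
    have h2 := Complex.abs_im_le_norm v
    linarith
  have hG : (fun w : ℂ => evalEval (w - c).re (w - c).im (tpP (tpA f c) r))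
      = tpG (tpA f c) r c := by
    funext w
    rw [tpP_eval, tpG]
  refine ⟨?_, ?_⟩
  · intro z
    rw [tpP_eval]
    refine (tp_main c C r f hf hC z).trans ?_
    have := hN (z - c)
    gcongr
  · intro hr z v
    rw [hG]
    obtain ⟨s, rfl⟩ : ∃ s, r = s + 1 := ⟨r - 1, by omega⟩
    rw [Nat.add_sub_cancel]
    have h1 := tp_main c C s (tpD 1 f) (tpD_contDiff hf 1) (fun z =>
      (tpD_norm hf 1 (by simp) s z).trans (hC z)) z
    have h2 := tp_main c C s (tpD Complex.I f) (tpD_contDiff hf _) (fun z =>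
      (tpD_norm hf _ (by simp) s z).trans (hC z)) z
    have hvv : v = v.re • (1 : ℂ) + v.im • Complex.I := by
      apply Complex.ext <;> simp
    have e1 : ∀ L : ℂ →L[ℝ] ℝ, L v = v.re * L 1 + v.im * L Complex.I := by
      intro L
      conv_lhs => rw [hvv, map_add, map_smul, map_smul]
      simp
    rw [e1, e1, tpG_one, tpG_I, tpA_one hf, tpA_I]
    have h3 : C * (|(z - c).re| + |(z - c).im|) ^ s ≤ C * (2 * ‖z - c‖) ^ s := by
      have := hN (z - c)
      gcongr
    have h4 := h1.trans h3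
    have h5 := h2.trans h3
    calc |v.re * fderiv ℝ f z 1 + v.im * fderiv ℝ f z Complex.I
          - (v.re * tpG (tpA (tpD 1 f) c) s c z
            + v.im * tpG (tpA (tpD Complex.I f) c) s c z)|
        = |v.re * (tpD 1 f z - tpG (tpA (tpD 1 f) c) s c z)
          + v.im * (tpD Complex.I f z - tpG (tpA (tpD Complex.I f) c) s c z)| := by
          congr 1
          simp only [tpD]
          ring
      _ ≤ |v.re| * (C * (2 * ‖z - c‖) ^ s) + |v.im| * (C * (2 * ‖z - c‖) ^ s) := by
          refine (abs_add_le _ _).trans ?_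
          rw [abs_mul, abs_mul]
          gcongr
      _ = (|v.re| + |v.im|) * (C * (2 * ‖z - c‖) ^ s) := by ring
      _ ≤ (2 * ‖v‖) * (C * (2 * ‖z - c‖) ^ s) := by
          have := hN v
          gcongr
      _ = 2 * C * (2 * ‖z - c‖) ^ s * ‖v‖ := by ring

end TotRen
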