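import Pool.Agent.W_MP_f70009_h24.LinB1

/-!
# Persistence and separation of zeros
-/

open scoped ContDiff Topology
open Set Filter

namespace TotRen

/-- lower bound for the derivative -/
theorem lower_of_det {T : ℂ →L[ℝ] ℂ} {K δ : ℝ} (hK : 1 ≤ K) (hdet : δ ≤ |det2 T|)
    (h1 : ‖T‖ ≤ K) (v : ℂ) : δ / (3 * K) * ‖v‖ ≤ ‖T v‖ := by
  have h2 := det_bound T v
  have h3 : δ * ‖v‖ ≤ 3 * K * ‖T v‖ := by
    calc δ * ‖v‖ ≤ |det2 T| * ‖v‖ := mul_le_mul_of_nonneg_right hdet (norm_nonneg _)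
      _ ≤ 3 * ‖T‖ * ‖T v‖ := h2
      _ ≤ 3 * K * ‖T v‖ := by gcongr
  have hK0 : 0 < 3 * K := by linarith
  rw [div_mul_eq_mul_div, div_le_iff₀ hK0]
  linarith

/-- Zeros persist under `C¹`-small perturbations, quantitatively.  Proof: put `T = fderiv ℝ f z` and
`κ = δ / (3K)`; by `det_bound`, `‖T v‖ ≥ κ ‖v‖`, so `T` is a linear equivalence with inverse of norm
`≤ 1/κ`; on the ball, `‖fderiv p w - T‖ ≤ ε + K ρ ≤ κ / 2`, so `ApproximatesLinearOn p T (closedBall z ρ) (κ/2)`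
and `p` maps the closed ball onto a set containing `closedBall (p z) (κ ρ / 2) ∋ 0`
(`ApproximatesLinearOn.surjOn_closedBall_of_nonlinearRightInverse`). -/
theorem zero_persist {f p : ℂ → ℂ} (hf : Differentiable ℝ f) (hp : Differentiable ℝ p)
    {K δ ρ ε : ℝ} {z : ℂ} (hK : 1 ≤ K) (hδ : 0 < δ) (hρ : 0 < ρ) (hρδ : 12 * K ^ 2 * ρ ≤ δ)
    (hdet : δ ≤ |det2 (fderiv ℝ f z)|) (h1 : ‖fderiv ℝ f z‖ ≤ K)
    (h2 : ∀ w ∈ Metric.closedBall z ρ, ‖fderiv ℝ f w - fderiv ℝ f z‖ ≤ K * ‖w - z‖)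
    (hp0 : ‖p z‖ ≤ ε)
    (hp1 : ∀ w ∈ Metric.closedBall z ρ, ‖fderiv ℝ f w - fderiv ℝ p w‖ ≤ ε)
    (hε1 : 12 * K * ε ≤ δ) (hε2 : 6 * K * ε ≤ δ * ρ) :
    ∃ w ∈ Metric.closedBall z ρ, p w = 0 := by
  set T : ℂ →L[ℝ] ℂ := fderiv ℝ f z with hT
  set κ : ℝ := δ / (3 * K) with hκ
  have hK0 : 0 < K := by linarith
  have hκ0 : 0 < κ := by positivity
  have hlow : ∀ v, κ * ‖v‖ ≤ ‖T v‖ := lower_of_det hK hdet h1
  have hdet0 : det2 T ≠ 0 := by
    intro h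
    rw [h, abs_zero] at hdet
    linarith
  obtain ⟨e, he⟩ := exists_equiv T hdet0
  have heT : ∀ v, T (e.symm v) = v := by
    intro v
    rw [← he]
    exact e.apply_symm_apply v
  let R : T.NonlinearRightInverse :=
    { toFun := e.symm
      nnnorm := ⟨κ⁻¹, (inv_pos.2 hκ0).le⟩
      bound' := by
        intro y
        show ‖e.symm y‖ ≤ κ⁻¹ * ‖y‖
        have h3 := hlow (e.symm y)
        rw [heT] at h3
        rw [inv_mul_eq_div, le_div_iff₀ hκ0]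
        linarith
      right_inv' := heT }
  have hbd : ∀ w ∈ Metric.closedBall z ρ, ‖fderiv ℝ p w - T‖ ≤ κ / 2 := by
    intro w hw
    have h3 : ‖w - z‖ ≤ ρ := by
      rw [← dist_eq_norm]
      exact hw
    have h4 : ‖fderiv ℝ p w - T‖ ≤ ε + K * ρ := by
      calc ‖fderiv ℝ p w - T‖ = ‖(fderiv ℝ f w - T) - (fderiv ℝ f w - fderiv ℝ p w)‖ := by
            congr 1
            abel
        _ ≤ ‖fderiv ℝ f w - T‖ + ‖fderiv ℝ f w - fderiv ℝ p w‖ := norm_sub_le _ _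
        _ ≤ K * ‖w - z‖ + ε := add_le_add (h2 w hw) (hp1 w hw)
        _ ≤ ε + K * ρ := by
            have := mul_le_mul_of_nonneg_left h3 hK0.le
            linarith
    refine h4.trans ?_
    rw [hκ, div_div, le_div_iff₀ (by positivity)]
    nlinarith
  have happ : ApproximatesLinearOn p T (Metric.closedBall z ρ) ⟨κ / 2, by positivity⟩ := by
    intro x hx y hy
    have h3 := (convex_closedBall z ρ).norm_image_sub_le_of_norm_hasFDerivWithin_le'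
      (f := p) (f' := fderiv ℝ p) (φ := T) (C := κ / 2)
      (fun w _ => (hp w).hasFDerivAt.hasFDerivWithinAt) hbd hy hx
    exact h3
  have hsurj := happ.surjOn_closedBall_of_nonlinearRightInverse R hρ.le (le_refl _)
  have h0 : (0 : ℂ) ∈ Metric.closedBall (p z) (((R.nnnorm : ℝ)⁻¹ - (⟨κ / 2, by positivity⟩ : NNReal)) * ρ) := by
    rw [Metric.mem_closedBall, dist_eq_norm, zero_sub, norm_neg]
    have h5 : (((R.nnnorm : ℝ)⁻¹ - (⟨κ / 2, by positivity⟩ : NNReal)) * ρ) = κ / 2 * ρ := by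
      show ((κ⁻¹)⁻¹ - κ / 2) * ρ = κ / 2 * ρ
      rw [inv_inv]
      ring
    rw [h5]
    refine hp0.trans ?_
    rw [hκ, div_div, div_mul_eq_mul_div, le_div_iff₀ (by positivity)]
    linarith
  obtain ⟨w, hw, hw0⟩ := hsurj h0
  exact ⟨w, hw, hw0⟩

/-- Non-degenerate zeros are separated. -/
theorem zero_separated {f : ℂ → ℂ} (hf : Differentiable ℝ f)
    {K δ ρ : ℝ} {z z' : ℂ} (hK : 1 ≤ K) (hδ : 0 < δ) (hρ : 0 < ρ) (hρδ : 12 * K ^ 2 * ρ ≤ δ)
    (hdet : δ ≤ |det2 (fderiv ℝ f z)|) (h1 : ‖fderiv ℝ f z‖ ≤ K)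
    (h2 : ∀ w, ‖fderiv ℝ f w - fderiv ℝ f z‖ ≤ K * ‖w - z‖)
    (hz : f z = 0) (hz' : f z' = 0) (hne : z ≠ z') : 2 * ρ < ‖z - z'‖ := by
  by_contra hno
  push Not at hno
  have hK0 : 0 < K := by linarith
  set d : ℝ := ‖z' - z‖ with hd
  have hd0 : 0 < d := norm_pos_iff.2 (sub_ne_zero.2 hne.symm)
  have hd2 : d ≤ 2 * ρ := by
    rw [hd, norm_sub_rev]
    exact hno
  have hbd : ∀ w ∈ Metric.closedBall z d, ‖fderiv ℝ f w - fderiv ℝ f z‖ ≤ K * d := by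
    intro w hw
    refine (h2 w).trans (mul_le_mul_of_nonneg_left ?_ hK0.le)
    rw [← dist_eq_norm]
    exact hw
  have h3 := (convex_closedBall z d).norm_image_sub_le_of_norm_hasFDerivWithin_le'
    (f := f) (f' := fderiv ℝ f) (φ := fderiv ℝ f z) (C := K * d)
    (fun w _ => (hf w).hasFDerivAt.hasFDerivWithinAt) hbd (Metric.mem_closedBall_self hd0.le)
    (y := z') (by rw [Metric.mem_closedBall, dist_eq_norm])
  rw [hz, hz', sub_zero, zero_sub, norm_neg, ← hd] at h3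
  have h4 := lower_of_det hK hdet h1 (z' - z)
  rw [← hd] at h4
  have h5 : δ / (3 * K) * d ≤ K * d * d := h4.trans h3
  have h6 : δ / (3 * K) ≤ K * d := le_of_mul_le_mul_right h5 hd0
  rw [div_le_iff₀ (by positivity)] at h6
  have h7 : K * d * (3 * K) ≤ 6 * K ^ 2 * ρ := by nlinarith
  linarith

end TotRen
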