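import Pool.Agent.W_MP_f70009_h24.CountA
import Pool.Agent.W_MP_f70009_h24.CountB
import Pool.Agent.W_MP_f70009_h24.BezB

/-!
# Yomdin type count
-/

open scoped ContDiff Topology
open Set Filter

namespace TotRen

open Polynomial in
theorem cntC_evalEval (P : ℝ[X][X]) (x y : ℝ) : evalEval x y P =
    ∑ i ∈ Finset.range (P.natDegree + 1), (P.coeff i).eval x * y ^ i := by
  unfold evalEval
  rw [eval_eq_sum_range (p := P) (C y), eval_finsetSum]
  refine Finset.sum_congr rfl fun i _ => ?_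
  rw [eval_mul, eval_pow, eval_C]

open Polynomial in
theorem cntC_diff (P : ℝ[X][X]) (c : ℂ) :
    Differentiable ℝ fun w : ℂ => evalEval (w - c).re (w - c).im P := by
  simp only [cntC_evalEval]
  refine Differentiable.fun_sum fun i _ => ?_
  have hsub : Differentiable ℝ fun w : ℂ => w - c := differentiable_id.sub_const c
  have hre : Differentiable ℝ fun w : ℂ => (w - c).re := Complex.reCLM.differentiable.comp hsub
  have him : Differentiable ℝ fun w : ℂ => (w - c).im := Complex.imCLM.differentiable.comp hsub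
  exact ((P.coeff i).differentiable.comp hre).mul (him.pow i)

theorem cntC_re {g : ℂ → ℂ} (hg : Differentiable ℝ g) (w v : ℂ) :
    (fderiv ℝ g w v).re = fderiv ℝ (fun z => (g z).re) w v := by
  have h : HasFDerivAt (fun z => (g z).re) (Complex.reCLM.comp (fderiv ℝ g w)) w :=
    Complex.reCLM.hasFDerivAt.comp w (hg w).hasFDerivAt
  rw [h.fderiv]
  rfl

theorem cntC_im {g : ℂ → ℂ} (hg : Differentiable ℝ g) (w v : ℂ) :
    (fderiv ℝ g w v).im = fderiv ℝ (fun z => (g z).im) w v := by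
  have h : HasFDerivAt (fun z => (g z).im) (Complex.imCLM.comp (fderiv ℝ g w)) w :=
    Complex.imCLM.hasFDerivAt.comp w (hg w).hasFDerivAt
  rw [h.fderiv]
  rfl

/-- the perturbation term -/
theorem cntC_pert (ε₁ : ℝ) (D : ℕ) (c w : ℂ) : HasFDerivAt (fun w : ℂ => ε₁ * (w - c).im ^ D)
    ((ε₁ * (D * (w - c).im ^ (D - 1))) • Complex.imCLM) w := by
  have h1 : HasFDerivAt (fun w : ℂ => (w - c).im) Complex.imCLM w := by
    have := Complex.imCLM.hasFDerivAt.comp w ((hasFDerivAt_id w).sub_const c)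
    exact this
  have h2 : HasDerivAt (fun y : ℝ => ε₁ * y ^ D) (ε₁ * (D * (w - c).im ^ (D - 1))) (w - c).im :=
    (hasDerivAt_pow D _).const_mul ε₁
  exact HasDerivAt.comp_hasFDerivAt (h₂ := fun y : ℝ => ε₁ * y ^ D) w h2 h1

theorem cntC_real {K ρ : ℝ} (hK : 1 ≤ K) (hρ : 0 < ρ) (hρ1 : ρ ≤ 1) {r : ℕ} (hr : 2 ≤ r) :
    K * (2 * ρ) ^ r ≤ 2 * K * (4 * ρ) ^ (r - 1) := by
  obtain ⟨m, rfl⟩ : ∃ m, r = m + 1 := ⟨r - 1, by omega⟩
  rw [Nat.add_sub_cancel, pow_succ]
  have h1 : (2 * ρ) ^ m ≤ (4 * ρ) ^ m := pow_le_pow_left₀ (by positivity) (by linarith) m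
  have h2 : 0 ≤ (2 * ρ) ^ m := by positivity
  have h3 : (2 * ρ) ^ m * (2 * ρ) ≤ (4 * ρ) ^ m * 2 := by nlinarith
  nlinarith

/-- Yomdin type count.  A map with derivatives up to order `r` bounded by `K` cannot have more than
`m₀ = m₀(r)` zeros with `|det| ≥ δ` at mutual distances `≤ ρ` if `ρ ^ (r-2) < c δ²`.

Proof: `D = r + 1`, `m₀ = 2 D³`.  Assume `ρ ^ (r-2) < c δ²`.  Take `c₀ ∈ S`, the Taylor polynomials
`P, Q` of order `r` of `re f`, `im f` at `c₀` (`taylor_poly`), perturbed by `bezout_perturb` with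
a tiny `ε`; `p(z) = P'(re (z-c₀), im (z-c₀)) + i Q'(..)`.  With `ρ₁ = min ρ (δ/(12K²))`, on
`closedBall z ρ₁`, `z ∈ S`, `f` and `p` are `C¹`-close with error `≤ C' ρ ^ (r-1) ≤ C' c δ²`
(and `≤ C' ρ · c δ²`), so `zero_persist` gives a zero of `p` in each ball; they are distinct by
`zero_separated`.  So `S.card ≤ m₀`. -/
theorem count_zeros (r : ℕ) (hr : 2 ≤ r) (K : ℝ) (hK : 1 ≤ K) :
    ∃ m₀ : ℕ, ∃ c : ℝ, 0 < c ∧ ∀ f : ℂ → ℂ, ContDiff ℝ ∞ f →
      (∀ k ≤ r, ∀ z, ‖iteratedFDeriv ℝ k f z‖ ≤ K) →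
      ∀ ρ : ℝ, 0 < ρ → ρ ≤ 1 → ∀ δ : ℝ, 0 < δ → δ ≤ 1 → ∀ S : Finset ℂ,
        (∀ z ∈ S, f z = 0) → (∀ z ∈ S, ∀ w ∈ S, ‖z - w‖ ≤ ρ) →
        (∀ z ∈ S, δ ≤ |det2 (fderiv ℝ f z)|) → m₀ < S.card → c * δ ^ 2 ≤ ρ ^ (r - 2) := by
  classical
  have hK0 : 0 < K := by linarith
  refine ⟨2 * (r + 1) * (r + 1) * (r + 1), 1 / (576 * K ^ 4 * 4 ^ (r - 1)), by positivity, ?_⟩
  intro f hf hfK ρ hρ hρ1 δ hδ hδ1 S hS0 hSρ hSδ hcard
  by_contra hcon
  push Not at hcon
  have hne : S.Nonempty := Finset.card_pos.1 (by omega)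
  obtain ⟨c₀, hc₀⟩ := hne
  have hfd : Differentiable ℝ f := hf.differentiable (by simp)
  have hf1 : ContDiff ℝ ∞ (fun z => (f z).re) := Complex.reCLM.contDiff.comp hf
  have hf2 : ContDiff ℝ ∞ (fun z => (f z).im) := Complex.imCLM.contDiff.comp hf
  have hK1 : ∀ z, ‖iteratedFDeriv ℝ r (fun z => (f z).re) z‖ ≤ K := by
    intro z
    have h1 := ContinuousLinearMap.norm_iteratedFDeriv_comp_left Complex.reCLM
      (hf.contDiffAt (x := z)) (n := r) (by exact_mod_cast le_top)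
    rw [Complex.reCLM_norm, one_mul] at h1
    exact h1.trans (hfK r le_rfl z)
  have hK2 : ∀ z, ‖iteratedFDeriv ℝ r (fun z => (f z).im) z‖ ≤ K := by
    intro z
    have h1 := ContinuousLinearMap.norm_iteratedFDeriv_comp_left Complex.imCLM
      (hf.contDiffAt (x := z)) (n := r) (by exact_mod_cast le_top)
    rw [Complex.imCLM_norm, one_mul] at h1
    exact h1.trans (hfK r le_rfl z)
  obtain ⟨P, hP1, hP2, hP3⟩ := taylor_poly r _ hf1 c₀
  obtain ⟨Q, hQ1, hQ2, hQ3⟩ := taylor_poly r _ hf2 c₀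
  obtain ⟨hPa, hPb⟩ := hP3 K hK1
  obtain ⟨hQa, hQb⟩ := hQ3 K hK2
  have hPb := hPb (by omega)
  have hQb := hQb (by omega)
  -- the size of the perturbation
  set ε : ℝ := 4 * K * (4 * ρ) ^ (r - 1) / ((r + 1 : ℕ) * 2 ^ (r + 1)) with hε
  have hεpos : 0 < ε := by positivity
  have hεe : ε * ((r + 1 : ℕ) * 2 ^ (r + 1)) = 4 * K * (4 * ρ) ^ (r - 1) := by
    rw [hε]
    field_simp
  obtain ⟨ε₁, ε₂, hε₁, hε₂, hbez⟩ := bezout_perturb (r + 1) (by omega) P Q (by omega)
    (fun i => (hP2 i).trans (by omega)) (by omega) (fun i => (hQ2 i).trans (by omega)) hεpos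
  -- the polynomial map
  set p1 : ℂ → ℝ := fun w => Polynomial.evalEval (w - c₀).re (w - c₀).im P +
    ε₁ * (w - c₀).im ^ (r + 1) with hp1
  set p2 : ℂ → ℝ := fun w => Polynomial.evalEval (w - c₀).re (w - c₀).im Q + ε₂ with hp2
  set p : ℂ → ℂ := fun w => (p1 w : ℂ) + (p2 w : ℂ) * Complex.I with hp
  have hp1d : Differentiable ℝ p1 := (cntC_diff P c₀).add
    (fun w => (cntC_pert ε₁ (r + 1) c₀ w).differentiableAt)
  have hp2d : Differentiable ℝ p2 := (cntC_diff Q c₀).add_const ε₂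
  have hpd : Differentiable ℝ p :=
    (Complex.ofRealCLM.differentiable.comp hp1d).add
      ((Complex.ofRealCLM.differentiable.comp hp2d).mul_const Complex.I)
  have hpre : (fun z => (p z).re) = p1 := by
    funext z
    simp [hp]
  have hpim : (fun z => (p z).im) = p2 := by
    funext z
    simp [hp]
  -- constants
  set e : ℝ := 8 * K * (4 * ρ) ^ (r - 1) with he
  have he0 : 0 < e := by positivity
  set ρ₁ : ℝ := min ρ (δ / (12 * K ^ 2)) with hρ₁
  have hρ₁0 : 0 < ρ₁ := lt_min hρ (by positivity)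
  have hρ₁ρ : ρ₁ ≤ ρ := min_le_left _ _
  have hρ₁δ : 12 * K ^ 2 * ρ₁ ≤ δ := by
    have := min_le_right ρ (δ / (12 * K ^ 2))
    rw [← hρ₁, le_div_iff₀ (by positivity)] at this
    linarith
  have hpow : ρ ^ (r - 1) = ρ ^ (r - 2) * ρ := by
    rw [← pow_succ]
    congr 1
    omega
  have hA : 0 < (4 : ℝ) ^ (r - 1) := by positivity
  have hcδ : 576 * K ^ 4 * 4 ^ (r - 1) * ρ ^ (r - 2) < δ ^ 2 := by
    rw [one_div, inv_mul_eq_div, lt_div_iff₀ (by positivity)] at hcon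
    linarith
  have hK2 : 1 ≤ K ^ 2 := one_le_pow₀ hK
  have hρp : 0 < ρ ^ (r - 2) := by positivity
  have hδ2 : δ ^ 2 ≤ δ := by nlinarith
  have hkey : 6 * K * e ≤ δ * ρ₁ := by
    have h1 : 6 * K * e = 48 * K ^ 2 * 4 ^ (r - 1) * ρ ^ (r - 2) * ρ := by
      rw [he, mul_pow, hpow]
      ring
    have h2 : 48 * K ^ 2 * 4 ^ (r - 1) * ρ ^ (r - 2) * (12 * K ^ 2) ≤ δ ^ 2 := by
      have : 48 * K ^ 2 * 4 ^ (r - 1) * ρ ^ (r - 2) * (12 * K ^ 2) =
          576 * K ^ 4 * 4 ^ (r - 1) * ρ ^ (r - 2) := by ring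
      rw [this]
      exact hcδ.le
    have h3 : 0 < 48 * K ^ 2 * 4 ^ (r - 1) * ρ ^ (r - 2) := by positivity
    have h4 : 48 * K ^ 2 * 4 ^ (r - 1) * ρ ^ (r - 2) ≤ δ := by nlinarith
    rw [h1, hρ₁, mul_min_of_nonneg _ _ hδ.le]
    apply le_min
    · exact mul_le_mul_of_nonneg_right h4 hρ.le
    · rw [mul_div_assoc', le_div_iff₀ (by positivity)]
      calc 48 * K ^ 2 * 4 ^ (r - 1) * ρ ^ (r - 2) * ρ * (12 * K ^ 2)
          = 48 * K ^ 2 * 4 ^ (r - 1) * ρ ^ (r - 2) * (12 * K ^ 2) * ρ := by ring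
        _ ≤ 48 * K ^ 2 * 4 ^ (r - 1) * ρ ^ (r - 2) * (12 * K ^ 2) * 1 :=
            mul_le_mul_of_nonneg_left hρ1 (by positivity)
        _ ≤ δ * δ := by
            rw [mul_one, ← pow_two]
            exact h2
  have hkey2 : 12 * K * e ≤ δ := by
    have h1 : ρ₁ ≤ 1 / 12 := by
      have h2 : ρ₁ * (12 * K ^ 2) ≤ 1 := by linarith
      nlinarith
    nlinarith
  -- first derivatives
  have hd1 : ∀ z, ‖fderiv ℝ f z‖ ≤ K := by
    intro z
    have h1 := hfK 1 (by omega) z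
    rwa [norm_iteratedFDeriv_one] at h1
  have hd2 : ∀ z w, ‖fderiv ℝ f w - fderiv ℝ f z‖ ≤ K * ‖w - z‖ := by
    intro z w
    have hdd : Differentiable ℝ (fderiv ℝ f) :=
      (hf.fderiv_right (m := ∞) (by simp)).differentiable (by simp)
    refine Convex.norm_image_sub_le_of_norm_fderiv_le (s := univ) (fun x _ => hdd x) ?_
      convex_univ (mem_univ _) (mem_univ _)
    intro x _
    have h1 := hfK 2 hr x
    rw [← norm_iteratedFDeriv_one, norm_iteratedFDeriv_fderiv]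
    exact h1
  -- closeness
  have hclose0 : ∀ z ∈ S, ‖p z‖ ≤ e := by
    intro z hz
    have hzc : ‖z - c₀‖ ≤ ρ := hSρ z hz c₀ hc₀
    have h1 := hPa z
    have h2 := hQa z
    have hf0 := hS0 z hz
    rw [hf0, Complex.zero_re, zero_sub, abs_neg] at h1
    rw [hf0, Complex.zero_im, zero_sub, abs_neg] at h2
    have h3 : K * (2 * ‖z - c₀‖) ^ r ≤ K * (2 * ρ) ^ r :=
      mul_le_mul_of_nonneg_left (pow_le_pow_left₀ (by positivity) (by linarith) r) hK0.le
    have h4 := cntC_real hK hρ hρ1 hr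
    have him : |(z - c₀).im| ≤ 1 := (Complex.abs_im_le_norm _).trans (hzc.trans hρ1)
    have h5 : |ε₁ * (z - c₀).im ^ (r + 1)| ≤ ε := by
      rw [abs_mul, abs_pow]
      calc |ε₁| * |(z - c₀).im| ^ (r + 1) ≤ ε * 1 :=
            mul_le_mul hε₁.le (pow_le_one₀ (abs_nonneg _) him) (by positivity) hεpos.le
        _ = ε := mul_one _
    have h6 : |p1 z| ≤ 2 * K * (4 * ρ) ^ (r - 1) + ε :=
      (abs_add_le _ _).trans (add_le_add (h1.trans (h3.trans h4)) h5)
    have h7 : |p2 z| ≤ 2 * K * (4 * ρ) ^ (r - 1) + ε :=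
      (abs_add_le _ _).trans (add_le_add (h2.trans (h3.trans h4)) hε₂.le)
    have h8 : ‖p z‖ ≤ |p1 z| + |p2 z| := by
      have := Complex.norm_le_abs_re_add_abs_im (p z)
      rwa [show (p z).re = p1 z from congrFun hpre z, show (p z).im = p2 z from congrFun hpim z]
        at this
    have h9 : 2 * ε ≤ 4 * K * (4 * ρ) ^ (r - 1) := by
      rw [← hεe]
      have h10 : (2 : ℝ) ≤ (r + 1 : ℕ) * 2 ^ (r + 1) := by
        have h11 : (1 : ℝ) ≤ (r + 1 : ℕ) := by
          push_cast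
          have : (0 : ℝ) ≤ r := Nat.cast_nonneg r
          linarith
        have h12 : (2 : ℝ) ≤ 2 ^ (r + 1) := by
          calc (2 : ℝ) = 2 ^ 1 := (pow_one 2).symm
            _ ≤ 2 ^ (r + 1) := pow_le_pow_right₀ (by norm_num) (by omega)
        nlinarith
      nlinarith
    rw [he]
    linarith
  have hclose1 : ∀ z ∈ S, ∀ w ∈ Metric.closedBall z ρ₁, ‖fderiv ℝ f w - fderiv ℝ p w‖ ≤ e := by
    intro z hz w hw
    have hzc : ‖z - c₀‖ ≤ ρ := hSρ z hz c₀ hc₀
    have hwz : ‖w - z‖ ≤ ρ := by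
      rw [← dist_eq_norm]
      exact (Metric.mem_closedBall.1 hw).trans hρ₁ρ
    have hwc : ‖w - c₀‖ ≤ 2 * ρ := by
      have : w - c₀ = (w - z) + (z - c₀) := by ring
      rw [this]
      exact (norm_add_le _ _).trans (by linarith)
    refine ContinuousLinearMap.opNorm_le_bound _ he0.le fun v => ?_
    have hb : 2 * K * (2 * ‖w - c₀‖) ^ (r - 1) * ‖v‖ ≤ 2 * K * (4 * ρ) ^ (r - 1) * ‖v‖ := by
      apply mul_le_mul_of_nonneg_right _ (norm_nonneg v)
      apply mul_le_mul_of_nonneg_left _ (by positivity)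
      exact pow_le_pow_left₀ (by positivity) (by linarith) _
    have h1 := (hPb w v).trans hb
    have h2 := (hQb w v).trans hb
    have hre : ((fderiv ℝ f w - fderiv ℝ p w) v).re =
        (fderiv ℝ (fun z => (f z).re) w v -
          fderiv ℝ (fun w : ℂ => Polynomial.evalEval (w - c₀).re (w - c₀).im P) w v) -
        ε₁ * ((r + 1 : ℕ) * (w - c₀).im ^ r) * v.im := by
      rw [ContinuousLinearMap.sub_apply, Complex.sub_re, cntC_re hfd, cntC_re hpd, hpre]
      have h3 : HasFDerivAt p1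
          (fderiv ℝ (fun w : ℂ => Polynomial.evalEval (w - c₀).re (w - c₀).im P) w +
            (ε₁ * ((r + 1 : ℕ) * (w - c₀).im ^ (r + 1 - 1))) • Complex.imCLM) w :=
        ((cntC_diff P c₀) w).hasFDerivAt.add (cntC_pert ε₁ (r + 1) c₀ w)
      rw [h3.fderiv, ContinuousLinearMap.add_apply, ContinuousLinearMap.smul_apply,
        Nat.add_sub_cancel]
      simp only [Complex.imCLM_apply, smul_eq_mul]
      ring
    have him : ((fderiv ℝ f w - fderiv ℝ p w) v).im =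
        (fderiv ℝ (fun z => (f z).im) w v -
          fderiv ℝ (fun w : ℂ => Polynomial.evalEval (w - c₀).re (w - c₀).im Q) w v) := by
      rw [ContinuousLinearMap.sub_apply, Complex.sub_im, cntC_im hfd, cntC_im hpd, hpim]
      have h3 : HasFDerivAt p2
          (fderiv ℝ (fun w : ℂ => Polynomial.evalEval (w - c₀).re (w - c₀).im Q) w) w :=
        ((cntC_diff Q c₀) w).hasFDerivAt.add_const ε₂
      rw [h3.fderiv]
    have h4 : |ε₁ * ((r + 1 : ℕ) * (w - c₀).im ^ r) * v.im| ≤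
        4 * K * (4 * ρ) ^ (r - 1) * ‖v‖ := by
      have hi : |(w - c₀).im| ≤ 2 := (Complex.abs_im_le_norm _).trans (by linarith)
      rw [abs_mul, abs_mul, abs_mul, abs_pow, Nat.abs_cast]
      have h5 : |(w - c₀).im| ^ r ≤ 2 ^ (r + 1) := by
        calc |(w - c₀).im| ^ r ≤ 2 ^ r := pow_le_pow_left₀ (abs_nonneg _) hi r
          _ ≤ 2 ^ (r + 1) := pow_le_pow_right₀ (by norm_num) (by omega)
      rw [← hεe]
      have h6 : ((r + 1 : ℕ) : ℝ) * |(w - c₀).im| ^ r ≤ (r + 1 : ℕ) * 2 ^ (r + 1) :=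
        mul_le_mul_of_nonneg_left h5 (Nat.cast_nonneg _)
      exact mul_le_mul (mul_le_mul hε₁.le h6 (by positivity) hεpos.le)
        (Complex.abs_im_le_norm v) (abs_nonneg _) (by positivity)
    have h7 := Complex.norm_le_abs_re_add_abs_im ((fderiv ℝ f w - fderiv ℝ p w) v)
    rw [hre, him] at h7
    have h8 := abs_sub (fderiv ℝ (fun z => (f z).re) w v -
          fderiv ℝ (fun w : ℂ => Polynomial.evalEval (w - c₀).re (w - c₀).im P) w v)
        (ε₁ * ((r + 1 : ℕ) * (w - c₀).im ^ r) * v.im)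
    rw [he]
    linarith
  -- zeros of the polynomial map
  have hz : ∀ z : S, ∃ w ∈ Metric.closedBall (z : ℂ) ρ₁, p w = 0 := by
    rintro ⟨z, hz⟩
    exact zero_persist hfd hpd hK hδ hρ₁0 hρ₁δ (hSδ z hz) (hd1 z) (fun w _ => hd2 z w)
      (hclose0 z hz) (hclose1 z hz) hkey2 hkey
  choose w hw hw0 using hz
  have hwinj : Function.Injective w := by
    intro z z' hzz
    by_contra hne
    have hne' : (z : ℂ) ≠ z' := fun h => hne (Subtype.ext h)
    have h1 := zero_separated hfd hK hδ hρ₁0 hρ₁δ (hSδ z z.2) (hd1 z) (hd2 z)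
      (hS0 z z.2) (hS0 z' z'.2) hne'
    have h2 := Metric.mem_closedBall.1 (hw z)
    have h3 := Metric.mem_closedBall.1 (hw z')
    rw [← hzz] at h3
    have h4 : dist (z : ℂ) z' ≤ 2 * ρ₁ := by
      have := dist_triangle_left (z : ℂ) z' (w z)
      linarith
    rw [dist_eq_norm] at h4
    linarith
  let F : S → ℝ × ℝ := fun z => ((w z - c₀).re, (w z - c₀).im)
  have hFinj : Function.Injective F := by
    intro z z' hzz
    apply hwinj
    have h1 : (w z - c₀).re = (w z' - c₀).re := congrArg Prod.fst hzz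
    have h2 : (w z - c₀).im = (w z' - c₀).im := congrArg Prod.snd hzz
    have h3 : w z - c₀ = w z' - c₀ := Complex.ext h1 h2
    exact sub_left_injective h3
  have hfin := hbez (Finset.univ.image F) (by
    intro q hq
    obtain ⟨z, -, rfl⟩ := Finset.mem_image.1 hq
    have h1 := hw0 z
    constructor
    · have h2 : (p (w z)).re = 0 := by rw [h1]; rfl
      rw [show (p (w z)).re = p1 (w z) from congrFun hpre (w z)] at h2
      exact h2
    · have h2 : (p (w z)).im = 0 := by rw [h1]; rfl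
      rw [show (p (w z)).im = p2 (w z) from congrFun hpim (w z)] at h2
      exact h2)
  rw [Finset.card_image_of_injective _ hFinj, Finset.card_univ, Fintype.card_coe] at hfin
  omega

end TotRen
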