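import Pool.Agent.W_MP_f70009_h24.Defs

/-!
# Fréchet smooth curves are jointly smooth
-/

open scoped ContDiff Topology
open Set Filter

namespace TotRen

/-- `C^r`-size less than `ε` -/
def CkLt (r : ℕ) (ε : ℝ) (u : ℂ → ℂ) : Prop := ∀ k ≤ r, ∀ z, ‖iteratedFDeriv ℝ k u z‖ < ε

section Aux

variable {a b : ℝ} {v : ℕ → ℝ → ℂ → ℂ}

/-- the `k`-th derivative in `z` of the `j`-th derivative in `t` -/
noncomputable def jsW (v : ℕ → ℝ → ℂ → ℂ) (j k : ℕ) (q : ℝ × ℂ) :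
    ContinuousMultilinearMap ℝ (fun _ : Fin k => ℂ) ℂ := iteratedFDeriv ℝ k (v j q.1) q.2

theorem js_diff_eq (hsm : ∀ j, ∀ t ∈ Ioo a b, ContDiff ℝ ∞ (v j t)) (j k : ℕ) {t t' : ℝ}
    (ht : t ∈ Ioo a b) (ht' : t' ∈ Ioo a b) (z : ℂ) :
    iteratedFDeriv ℝ k (fun z => v j t' z - v j t z) z = jsW v j k (t', z) - jsW v j k (t, z) := by
  have h1 : ContDiffAt ℝ k (v j t') z := ((hsm j t' ht').of_le (by exact_mod_cast le_top)).contDiffAt
  have h2 : ContDiffAt ℝ k (v j t) z := ((hsm j t ht).of_le (by exact_mod_cast le_top)).contDiffAt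
  exact iteratedFDeriv_sub_apply h1 h2

theorem js_quot_eq (hsm : ∀ j, ∀ t ∈ Ioo a b, ContDiff ℝ ∞ (v j t)) (j k : ℕ) {t t' : ℝ}
    (ht : t ∈ Ioo a b) (ht' : t' ∈ Ioo a b) (c : ℝ) (z : ℂ) :
    iteratedFDeriv ℝ k (fun z => c • (v j t' z - v j t z) - v (j + 1) t z) z
      = c • (jsW v j k (t', z) - jsW v j k (t, z)) - jsW v (j + 1) k (t, z) := by
  have h1 : ContDiffAt ℝ k (v j t') z := ((hsm j t' ht').of_le (by exact_mod_cast le_top)).contDiffAt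
  have h2 : ContDiffAt ℝ k (v j t) z := ((hsm j t ht).of_le (by exact_mod_cast le_top)).contDiffAt
  have h3 : ContDiffAt ℝ k (v (j + 1) t) z :=
    ((hsm (j + 1) t ht).of_le (by exact_mod_cast le_top)).contDiffAt
  have h12 : ContDiffAt ℝ k (fun z => v j t' z - v j t z) z := h1.sub h2
  have h12' : ContDiffAt ℝ k (fun z => c • (v j t' z - v j t z)) z := h12.const_smul c
  have e1 : iteratedFDeriv ℝ k (fun z => c • (v j t' z - v j t z) - v (j + 1) t z) z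
      = iteratedFDeriv ℝ k (fun z => c • (v j t' z - v j t z)) z
        - iteratedFDeriv ℝ k (v (j + 1) t) z := iteratedFDeriv_sub_apply h12' h3
  rw [e1]
  have e2 : iteratedFDeriv ℝ k (fun z => c • (v j t' z - v j t z)) z
      = c • iteratedFDeriv ℝ k (fun z => v j t' z - v j t z) z :=
    iteratedFDeriv_const_smul_apply' h12
  rw [e2, js_diff_eq hsm j k ht ht' z]
  rfl

theorem js_continuousOn (hsm : ∀ j, ∀ t ∈ Ioo a b, ContDiff ℝ ∞ (v j t))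
    (hcont : ∀ j, ∀ t ∈ Ioo a b, ∀ r : ℕ, ∀ ε > 0, ∃ δ > 0, ∀ t' ∈ Ioo a b, |t' - t| < δ →
      CkLt r ε (fun z => v j t' z - v j t z)) (j k : ℕ) {q : ℝ × ℂ} (hq : q.1 ∈ Ioo a b) :
    ContinuousAt (jsW v j k) q := by
  obtain ⟨t, z⟩ := q
  replace hq : t ∈ Ioo a b := hq
  rw [Metric.continuousAt_iff]
  intro ε hε
  obtain ⟨δ, hδ, h1⟩ := hcont j t hq k (ε / 2) (by positivity)
  have hc : Continuous (fun x => iteratedFDeriv ℝ k (v j t) x) :=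
    (hsm j t hq).continuous_iteratedFDeriv (by exact_mod_cast le_top)
  obtain ⟨δ2, hδ2, h2⟩ := Metric.continuousAt_iff.1 (hc.continuousAt (x := z)) (ε / 2) (by positivity)
  obtain ⟨δ3, hδ3, h3⟩ := Metric.isOpen_iff.1 (isOpen_Ioo (a := a) (b := b)) t hq
  refine ⟨min δ (min δ2 δ3), by positivity, ?_⟩
  rintro ⟨t', z'⟩ hd
  have hd1 : dist t' t < min δ (min δ2 δ3) := lt_of_le_of_lt (le_max_left _ _) hd
  have hd2 : dist z' z < min δ (min δ2 δ3) := lt_of_le_of_lt (le_max_right _ _) hd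
  have ht' : t' ∈ Ioo a b := h3 (lt_of_lt_of_le hd1 ((min_le_right _ _).trans (min_le_right _ _)))
  have hA := h1 t' ht' (by
    rw [← Real.dist_eq]; exact lt_of_lt_of_le hd1 (min_le_left _ _)) k le_rfl z'
  rw [js_diff_eq hsm j k hq ht' z', ← dist_eq_norm] at hA
  have hB : dist (jsW v j k (t, z')) (jsW v j k (t, z)) < ε / 2 :=
    h2 (lt_of_lt_of_le hd2 ((min_le_right _ _).trans (min_le_left _ _)))
  calc dist (jsW v j k (t', z')) (jsW v j k (t, z))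
      ≤ dist (jsW v j k (t', z')) (jsW v j k (t, z'))
        + dist (jsW v j k (t, z')) (jsW v j k (t, z)) := dist_triangle _ _ _
    _ < ε := by linarith

theorem js_hasDerivAt (hsm : ∀ j, ∀ t ∈ Ioo a b, ContDiff ℝ ∞ (v j t))
    (hder : ∀ j, ∀ t ∈ Ioo a b, ∀ r : ℕ, ∀ ε > 0, ∃ δ > 0, ∀ t' ∈ Ioo a b, t' ≠ t →
      |t' - t| < δ →
      CkLt r ε (fun z => ((t' - t)⁻¹ : ℝ) • (v j t' z - v j t z) - v (j + 1) t z))
    (j k : ℕ) {t : ℝ} (ht : t ∈ Ioo a b) (z : ℂ) :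
    HasDerivAt (fun s => jsW v j k (s, z)) (jsW v (j + 1) k (t, z)) t := by
  rw [hasDerivAt_iff_tendsto_slope, Metric.tendsto_nhdsWithin_nhds]
  intro ε hε
  obtain ⟨δ, hδ, h1⟩ := hder j t ht k ε hε
  obtain ⟨δ3, hδ3, h3⟩ := Metric.isOpen_iff.1 (isOpen_Ioo (a := a) (b := b)) t ht
  refine ⟨min δ δ3, by positivity, ?_⟩
  intro t' hne hd
  have ht' : t' ∈ Ioo a b := h3 (lt_of_lt_of_le hd (min_le_right _ _))
  have hA := h1 t' ht' hne (by
    rw [← Real.dist_eq]; exact lt_of_lt_of_le hd (min_le_left _ _)) k le_rfl z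
  rw [js_quot_eq hsm j k ht ht' _ z, ← dist_eq_norm] at hA
  rw [slope_def_module]
  exact hA

theorem js_hasFDerivAt (hsm : ∀ j, ∀ t ∈ Ioo a b, ContDiff ℝ ∞ (v j t)) (j k : ℕ) {t : ℝ}
    (ht : t ∈ Ioo a b) (z : ℂ) :
    HasFDerivAt (fun w => jsW v j k (t, w))
      (continuousMultilinearCurryLeftEquiv ℝ (fun _ : Fin (k + 1) => ℂ) ℂ (jsW v j (k + 1) (t, z)))
      z := by
  have h1 : Differentiable ℝ (fun x => iteratedFDeriv ℝ k (v j t) x) :=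
    (hsm j t ht).differentiable_iteratedFDeriv (by exact_mod_cast WithTop.coe_lt_top _)
  have h2 := (h1 z).hasFDerivAt
  have h3 : fderiv ℝ (fun x => iteratedFDeriv ℝ k (v j t) x) z
      = continuousMultilinearCurryLeftEquiv ℝ (fun _ : Fin (k + 1) => ℂ) ℂ (jsW v j (k + 1) (t, z)) :=
    congrFun (fderiv_iteratedFDeriv (𝕜 := ℝ) (f := v j t) (n := k)) z
  rw [h3] at h2
  exact h2

/-- the derivative of `jsW` -/
noncomputable def jsD (v : ℕ → ℝ → ℂ → ℂ) (j k : ℕ) (q : ℝ × ℂ) :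
    (ℝ × ℂ) →L[ℝ] ContinuousMultilinearMap ℝ (fun _ : Fin k => ℂ) ℂ :=
  ContinuousLinearMap.coprod
    (ContinuousLinearMap.toSpanSingletonCLE (𝕜 := ℝ) (jsW v (j + 1) k q))
    (continuousMultilinearCurryLeftEquiv ℝ (fun _ : Fin (k + 1) => ℂ) ℂ (jsW v j (k + 1) q))

theorem js_total (hsm : ∀ j, ∀ t ∈ Ioo a b, ContDiff ℝ ∞ (v j t))
    (hcont : ∀ j, ∀ t ∈ Ioo a b, ∀ r : ℕ, ∀ ε > 0, ∃ δ > 0, ∀ t' ∈ Ioo a b, |t' - t| < δ →
      CkLt r ε (fun z => v j t' z - v j t z))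
    (hder : ∀ j, ∀ t ∈ Ioo a b, ∀ r : ℕ, ∀ ε > 0, ∃ δ > 0, ∀ t' ∈ Ioo a b, t' ≠ t →
      |t' - t| < δ →
      CkLt r ε (fun z => ((t' - t)⁻¹ : ℝ) • (v j t' z - v j t z) - v (j + 1) t z))
    (j k : ℕ) {q : ℝ × ℂ} (hq : q.1 ∈ Ioo a b) :
    HasFDerivAt (jsW v j k) (jsD v j k q) q := by
  have hev : ∀ᶠ p : ℝ × ℂ in 𝓝 q, p.1 ∈ Ioo a b :=
    continuous_fst.continuousAt.eventually (isOpen_Ioo.mem_nhds hq)
  have key := hasStrictFDerivAt_uncurry_coprod (𝕜 := ℝ) (u := q)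
    (f := fun s w => jsW v j k (s, w))
    (f₁ := fun s w => (ContinuousLinearMap.toSpanSingletonCLE (𝕜 := ℝ) (jsW v (j + 1) k (s, w))))
    (f₂ := fun s w => ((continuousMultilinearCurryLeftEquiv ℝ (fun _ : Fin (k + 1) => ℂ) ℂ
      (jsW v j (k + 1) (s, w))))) ?_ ?_ ?_ ?_
  · exact key.hasFDerivAt
  · filter_upwards [hev] with p hp
    exact (js_hasDerivAt hsm hder j k hp p.2).hasFDerivAt
  · filter_upwards [hev] with p hp
    exact js_hasFDerivAt hsm j k hp p.2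
  · exact (ContinuousLinearMap.toSpanSingletonCLE (𝕜 := ℝ)).continuous.continuousAt.comp
      (js_continuousOn hsm hcont (j + 1) k hq)
  · exact (continuousMultilinearCurryLeftEquiv ℝ (fun _ : Fin (k + 1) => ℂ) ℂ
      ).continuous.continuousAt.comp (js_continuousOn hsm hcont j (k + 1) hq)

theorem js_span {M : Type*} [NormedAddCommGroup M] [NormedSpace ℝ M] {n : ℕ} {f : ℝ × ℂ → M}
    {s : Set (ℝ × ℂ)} (hf : ContDiffOn ℝ n f s) :
    ContDiffOn ℝ n (fun q => (ContinuousLinearMap.toSpanSingletonCLE (𝕜 := ℝ) (f q) : ℝ →L[ℝ] M)) s := by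
  let A : M →L[ℝ] (ℝ →L[ℝ] M) :=
    (ContinuousLinearMap.toSpanSingletonCLE (𝕜 := ℝ)).toContinuousLinearMap
  exact A.contDiff.comp_contDiffOn hf

theorem js_comp {M N : Type*} [NormedAddCommGroup M] [NormedSpace ℝ M] [NormedAddCommGroup N]
    [NormedSpace ℝ N] {n : ℕ} {f : ℝ × ℂ → M} {s : Set (ℝ × ℂ)} (B : M ≃ₗᵢ[ℝ] N)
    (hf : ContDiffOn ℝ n f s) : ContDiffOn ℝ n (fun q => B (f q)) s :=
  B.contDiff.comp_contDiffOn hf

theorem js_curry {k n : ℕ} {f : ℝ × ℂ → ContinuousMultilinearMap ℝ (fun _ : Fin (k + 1) => ℂ) ℂ}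
    {s : Set (ℝ × ℂ)} (hf : ContDiffOn ℝ n f s) :
    ContDiffOn ℝ n (fun q => (continuousMultilinearCurryLeftEquiv ℝ
      (fun _ : Fin (k + 1) => ℂ) ℂ (f q) :
        ℂ →L[ℝ] ContinuousMultilinearMap ℝ (fun _ : Fin k => ℂ) ℂ)) s := by
  have h := js_comp (M := ContinuousMultilinearMap ℝ (fun _ : Fin (k + 1) => ℂ) ℂ)
    (N := ℂ →L[ℝ] ContinuousMultilinearMap ℝ (fun _ : Fin k => ℂ) ℂ)
    (continuousMultilinearCurryLeftEquiv ℝ (fun _ : Fin (k + 1) => ℂ) ℂ) hf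
  exact h

theorem js_contDiffOn (hsm : ∀ j, ∀ t ∈ Ioo a b, ContDiff ℝ ∞ (v j t))
    (hcont : ∀ j, ∀ t ∈ Ioo a b, ∀ r : ℕ, ∀ ε > 0, ∃ δ > 0, ∀ t' ∈ Ioo a b, |t' - t| < δ →
      CkLt r ε (fun z => v j t' z - v j t z))
    (hder : ∀ j, ∀ t ∈ Ioo a b, ∀ r : ℕ, ∀ ε > 0, ∃ δ > 0, ∀ t' ∈ Ioo a b, t' ≠ t →
      |t' - t| < δ →
      CkLt r ε (fun z => ((t' - t)⁻¹ : ℝ) • (v j t' z - v j t z) - v (j + 1) t z)) (n : ℕ) :
    ∀ j k : ℕ, ContDiffOn ℝ n (jsW v j k) (Ioo a b ×ˢ univ) := by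
  have hS : IsOpen (Ioo a b ×ˢ (univ : Set ℂ)) := isOpen_Ioo.prod isOpen_univ
  induction n with
  | zero =>
    intro j k
    rw [Nat.cast_zero, contDiffOn_zero]
    intro q hq
    exact (js_continuousOn hsm hcont j k hq.1).continuousWithinAt
  | succ n ih =>
    intro j k
    rw [Nat.cast_succ, contDiffOn_succ_iff_fderiv_of_isOpen hS]
    refine ⟨fun q hq => (js_total hsm hcont hder j k hq.1).differentiableAt.differentiableWithinAt,
      fun h => absurd h (by simp), ?_⟩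
    have hD : ContDiffOn ℝ n (jsD v j k) (Ioo a b ×ˢ univ) := by
      have h1 := js_span (ih (j + 1) k)
      have h2 := js_curry (ih j (k + 1))
      exact (ContinuousLinearMap.coprodEquivL (S := ℝ) (𝕜 := ℝ)).contDiff.comp_contDiffOn
        (h1.prodMk h2)
    exact hD.congr fun q hq => (js_total hsm hcont hder j k hq.1).fderiv

end Aux

/-- A smooth curve in the Fréchet space of smooth maps (with the seminorms `sup ‖D^k u‖`) is jointly
smooth.  `v j t` is the `j`-th derivative of the curve at `t`.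

Proof: show by induction on `n` that for all `j, k` the map
`(t, z) ↦ iteratedFDeriv ℝ k (v j t) z` is `C^n` on `J × ℂ`: it is continuous (uniform convergence
in `t`, and continuity in `z`), its partial derivative in `t` is `iteratedFDeriv ℝ k (v (j+1) t) z` and
its partial derivative in `z` is (up to currying) `iteratedFDeriv ℝ (k+1) (v j t) z`; use
`hasStrictFDerivAt_uncurry_coprod` (Mathlib `Analysis/Calculus/FDeriv/Partial`) and
`contDiffOn_succ_iff_fderiv_of_isOpen`/`contDiffOn_succ_of_fderiv..`. -/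
theorem jointly_smooth {a b : ℝ} (v : ℕ → ℝ → ℂ → ℂ)
    (hsm : ∀ j, ∀ t ∈ Ioo a b, ContDiff ℝ ∞ (v j t))
    (hcont : ∀ j, ∀ t ∈ Ioo a b, ∀ r : ℕ, ∀ ε > 0, ∃ δ > 0, ∀ t' ∈ Ioo a b, |t' - t| < δ →
      CkLt r ε (fun z => v j t' z - v j t z))
    (hder : ∀ j, ∀ t ∈ Ioo a b, ∀ r : ℕ, ∀ ε > 0, ∃ δ > 0, ∀ t' ∈ Ioo a b, t' ≠ t →
      |t' - t| < δ →
      CkLt r ε (fun z => ((t' - t)⁻¹ : ℝ) • (v j t' z - v j t z) - v (j + 1) t z)) :
    ContDiffOn ℝ ∞ (fun q : ℝ × ℂ => v 0 q.1 q.2) (Ioo a b ×ˢ univ) := by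
  rw [contDiffOn_infty]
  intro n
  have h1 := js_contDiffOn hsm hcont hder n 0 0
  have h2 : ContDiffOn ℝ n (fun q => continuousMultilinearCurryFin0 ℝ ℂ ℂ (jsW v 0 0 q))
      (Ioo a b ×ˢ univ) :=
    (continuousMultilinearCurryFin0 ℝ ℂ ℂ).contDiff.comp_contDiffOn h1
  refine h2.congr fun q hq => ?_
  simp [jsW]

end TotRen
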