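import Pool.Agent.W_MP_f70009_h24.Base

/-!
# Auxiliary definitions for the proof
-/

open scoped ContDiff Topology
open Set Filter

namespace TotRen

/-- trace of a real-linear endomorphism of `ℂ` -/
noncomputable def tr2 (T : ℂ →L[ℝ] ℂ) : ℝ := (T 1).re + (T Complex.I).im

/-- determinant of a real-linear endomorphism of `ℂ` -/
noncomputable def det2 (T : ℂ →L[ℝ] ℂ) : ℝ := (T 1).re * (T Complex.I).im - (T 1).im * (T Complex.I).re

/-- multiplication by `μ` as a real-linear map -/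
noncomputable def mulL (μ : ℂ) : ℂ →L[ℝ] ℂ := ContinuousLinearMap.mul ℝ ℂ μ

/-- the real-linear map `v ↦ v + c * conj v` -/
noncomputable def sadL (c : ℂ) : ℂ →L[ℝ] ℂ :=
  ContinuousLinearMap.id ℝ ℂ + (mulL c).comp (Complex.conjCLE : ℂ →L[ℝ] ℂ)

/-- An (eventual) open cone of directions at the point `x` pointing into `Δ`. -/
structure IsCone (Δ : Set T2) (x : ℂ) (C : Set ℂ) : Prop where
  isOpen : IsOpen C
  nonempty : C.Nonempty
  smul_mem : ∀ e ∈ C, ∀ c : ℝ, 0 < c → (c : ℂ) * e ∈ C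
  inside : ∀ e ∈ C, ∀ᶠ q : ℝ × ℂ in (𝓝[>] (0 : ℝ)) ×ˢ (𝓝 e), pr (x + (q.1 : ℂ) * q.2) ∈ Δ

/-- The attracting focus formula: the linear map has the eigenvalues `1 - a ± a i`. -/
def IsAtt (a : ℝ) (T : ℂ →L[ℝ] ℂ) : Prop := tr2 T = 2 * (1 - a) ∧ det2 T = (1 - a) ^ 2 + a ^ 2

/-- The repelling focus formula: the linear map has the eigenvalues `1 + a ± a i`. -/
def IsRep (a : ℝ) (T : ℂ →L[ℝ] ℂ) : Prop := tr2 T = 2 * (1 + a) ∧ det2 T = (1 + a) ^ 2 + a ^ 2

/-- the multiplier of an attracting focus -/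
noncomputable def muAtt (a : ℝ) : ℂ := 1 - a * (1 - Complex.I)

/-- the multiplier of a repelling focus -/
noncomputable def muRep (a : ℝ) : ℂ := 1 + a * (1 - Complex.I)

/-- The four possible derivatives of `G` at its fixed points -/
def FourTypes (a : ℝ) (T : ℂ →L[ℝ] ℂ) : Prop :=
  T = mulL (muAtt a) ∨ T = mulL (muRep a) ∨ T = sadL (a * (1 - Complex.I)) ∨
    T = sadL (-(a * (1 - Complex.I)))

/-- `a` is good: no power of the two multipliers is real -/
def Good (a : ℝ) : Prop := ∀ j : ℕ, 1 ≤ j → (muAtt a ^ j).im ≠ 0 ∧ (muRep a ^ j).im ≠ 0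

/-- the trigonometric displacement field with frequency `L` -/
noncomputable def sF (L : ℕ) (z : ℂ) : ℂ :=
  (1 - Complex.I) * ((Real.sin (2 * Real.pi * L * z.re) : ℂ)
    + Complex.I * (Real.sin (2 * Real.pi * L * z.im) : ℂ))

/-- the lift `z ↦ z + η sF L z` -/
noncomputable def liftL (L : ℕ) (η : ℝ) (z : ℂ) : ℂ := z + (η : ℂ) * sF L z

end TotRen
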