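import Pool.Agent.W_MP_f70009_h24.Lin

/-!
# Linear algebra I
-/

open scoped ContDiff Topology
open Set Filter

namespace TotRen

theorem cayley_apply (T : ℂ →L[ℝ] ℂ) (v : ℂ) : T (T v) = tr2 T • T v - det2 T • v := by
  have h := congrArg (fun S : ℂ →L[ℝ] ℂ => S v) (cayley T)
  exact h

theorem abs_tr2_le (T : ℂ →L[ℝ] ℂ) : |tr2 T| ≤ 2 * ‖T‖ := by
  have h1 : ‖T 1‖ ≤ ‖T‖ := by simpa using T.le_opNorm 1
  have h2 : ‖T Complex.I‖ ≤ ‖T‖ := by simpa using T.le_opNorm Complex.I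
  have h3 := (Complex.abs_re_le_norm (T 1)).trans h1
  have h4 := (Complex.abs_im_le_norm (T Complex.I)).trans h2
  calc |tr2 T| ≤ |(T 1).re| + |(T Complex.I).im| := abs_add_le _ _
    _ ≤ 2 * ‖T‖ := by linarith

/-- Proof: by Cayley–Hamilton `(tr2 T • 1 - T) (T v) = det2 T • v`; and `|tr2 T| ≤ 2 ‖T‖`. -/
theorem det_bound (T : ℂ →L[ℝ] ℂ) (v : ℂ) : |det2 T| * ‖v‖ ≤ 3 * ‖T‖ * ‖T v‖ := by
  have h : det2 T • v = tr2 T • T v - T (T v) := by rw [cayley_apply]; abel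
  have h2 : |det2 T| * ‖v‖ = ‖tr2 T • T v - T (T v)‖ := by
    rw [← h, norm_smul, Real.norm_eq_abs]
  rw [h2]
  calc ‖tr2 T • T v - T (T v)‖ ≤ ‖tr2 T • T v‖ + ‖T (T v)‖ := norm_sub_le _ _
    _ ≤ |tr2 T| * ‖T v‖ + ‖T‖ * ‖T v‖ := by
        rw [norm_smul, Real.norm_eq_abs]
        gcongr
        exact T.le_opNorm _
    _ ≤ 2 * ‖T‖ * ‖T v‖ + ‖T‖ * ‖T v‖ := by
        gcongr
        exact abs_tr2_le T
    _ = 3 * ‖T‖ * ‖T v‖ := by ring

theorem injective_of_det2 (T : ℂ →L[ℝ] ℂ) (h : det2 T ≠ 0) : Function.Injective T := by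
  intro v w hvw
  have h1 := det_bound T (v - w)
  rw [map_sub, hvw, sub_self, norm_zero, mul_zero] at h1
  have h2 : 0 < |det2 T| := abs_pos.mpr h
  have h3 : ‖v - w‖ ≤ 0 := by
    by_contra hc
    push Not at hc
    have := mul_pos h2 hc
    linarith
  exact sub_eq_zero.mp (norm_le_zero_iff.mp h3)

/-- A real-linear endomorphism with nonzero determinant is a continuous linear equivalence. -/
theorem exists_equiv (T : ℂ →L[ℝ] ℂ) (h : det2 T ≠ 0) :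
    ∃ e : ℂ ≃L[ℝ] ℂ, (e : ℂ →L[ℝ] ℂ) = T := by
  have hinj : Function.Injective (T : ℂ →ₗ[ℝ] ℂ) := injective_of_det2 T h
  refine ⟨(LinearEquiv.ofInjectiveEndo (T : ℂ →ₗ[ℝ] ℂ) hinj).toContinuousLinearEquiv, ?_⟩
  apply ContinuousLinearMap.ext
  intro v
  rfl

theorem similar_of_comp (M A B : ℂ →L[ℝ] ℂ) (hM : det2 M ≠ 0) (h : M.comp A = B.comp M) :
    tr2 A = tr2 B ∧ det2 A = det2 B := by
  obtain ⟨e, he⟩ := exists_equiv M hM
  have hA : A = (e.symm : ℂ →L[ℝ] ℂ).comp (B.comp M) := by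
    rw [← h, ← he]
    apply ContinuousLinearMap.ext
    intro v
    simp
  have hMe : M.comp (e.symm : ℂ →L[ℝ] ℂ) = 1 := by
    rw [← he]
    apply ContinuousLinearMap.ext
    intro v
    simp
  constructor
  · rw [hA, tr2_comp_comm, ContinuousLinearMap.comp_assoc, hMe]
    rfl
  · have h1 := congrArg det2 h
    rw [det2_comp, det2_comp, mul_comm (det2 B)] at h1
    exact mul_left_cancel₀ hM h1

theorem isAtt_iff (a : ℝ) (T : ℂ →L[ℝ] ℂ) :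
    IsAtt a T ↔ tr2 T = 2 * (muAtt a).re ∧ det2 T = Complex.normSq (muAtt a) := by
  have h1 : (muAtt a).re = 1 - a := by simp [muAtt]
  have h2 : (muAtt a).im = a := by simp [muAtt]
  rw [IsAtt, h1, Complex.normSq_apply, h1, h2]
  constructor
  · rintro ⟨h, h'⟩
    exact ⟨h, by rw [h']; ring⟩
  · rintro ⟨h, h'⟩
    exact ⟨h, by rw [h']; ring⟩

theorem norm_muAtt_le {a : ℝ} (h0 : 0 < a) (h1 : a ≤ 1 / 2) : ‖muAtt a‖ ≤ 1 - a / 2 := by
  have h2 : Complex.normSq (muAtt a) = (1 - a) ^ 2 + a ^ 2 := by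
    have h1 : (muAtt a).re = 1 - a := by simp [muAtt]
    have h2 : (muAtt a).im = a := by simp [muAtt]
    rw [Complex.normSq_apply, h1, h2]; ring
  rw [Complex.normSq_eq_norm_sq] at h2
  apply le_of_sq_le_sq _ (by linarith)
  rw [h2]
  nlinarith

/-- `|μ|² = 1 - 2a + 2a² ≤ 1 - a`, so `|μ| ≤ 1 - a / 2` and `|μ ^ N - 1| ≥ 1 - |μ| ≥ a / 2`. -/
theorem normSq_muAtt_pow_sub_one {a : ℝ} (h0 : 0 < a) (h1 : a ≤ 1 / 2) {N : ℕ} (hN : 1 ≤ N) :
    a ^ 2 / 4 ≤ Complex.normSq (muAtt a ^ N - 1) := by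
  have h2 := norm_muAtt_le h0 h1
  have h3 : ‖muAtt a ^ N‖ ≤ 1 - a / 2 := by
    rw [norm_pow]
    calc ‖muAtt a‖ ^ N ≤ ‖muAtt a‖ ^ 1 :=
          pow_le_pow_of_le_one (norm_nonneg _) (by linarith) hN
      _ ≤ 1 - a / 2 := by rw [pow_one]; exact h2
  have h4 : a / 2 ≤ ‖muAtt a ^ N - 1‖ := by
    have := norm_sub_norm_le (1 : ℂ) (muAtt a ^ N)
    rw [norm_one, norm_sub_rev] at this
    linarith
  rw [Complex.normSq_eq_norm_sq]
  nlinarith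

end TotRen
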