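import Pool.Agent.W_MP_f70009_h24.Lin

/-!
# Linear algebra II
-/

open scoped ContDiff Topology
open Set Filter

namespace TotRen

theorem linB2_det (T : ℂ →L[ℝ] ℂ) (p r : ℝ) :
    det2 (p • T + r • (1 : ℂ →L[ℝ] ℂ)) = p ^ 2 * det2 T + p * r * tr2 T + r ^ 2 := by
  simp only [det2, tr2, add_apply, smul_apply,
    one_apply_eq_self, Complex.add_re, Complex.add_im, Complex.smul_re,
    Complex.smul_im, smul_eq_mul, Complex.one_re, Complex.one_im, Complex.I_re, Complex.I_im]
  ring

/-- If `T` has the eigenvalues `μ, conj μ` then `det (T ^ N - 1) = |μ ^ N - 1|²`.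
Proof: by `cayley`, induction gives real `p q` with `T ^ N = p • T + q • 1` and
`μ ^ N = p * μ + q`. -/
theorem det2_pow_sub_one (T : ℂ →L[ℝ] ℂ) (μ : ℂ) (htr : tr2 T = 2 * μ.re)
    (hdet : det2 T = Complex.normSq μ) (N : ℕ) :
    det2 (T ^ N - 1) = Complex.normSq (μ ^ N - 1) := by
  have hμ : μ * μ = (tr2 T : ℂ) * μ - (det2 T : ℂ) := by
    rw [htr, hdet]
    apply Complex.ext
    · simp [Complex.normSq_apply]
      ring
    · simp [Complex.normSq_apply]
      ring
  have key : ∀ N : ℕ, ∃ p q : ℝ, T ^ N = p • T + q • (1 : ℂ →L[ℝ] ℂ) ∧ μ ^ N = p * μ + q := by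
    intro N
    induction N with
    | zero =>
      refine ⟨0, 1, ?_, by simp⟩
      ext v
      simp
    | succ N ih =>
      obtain ⟨p, q, h1, h2⟩ := ih
      refine ⟨p * tr2 T + q, -(p * det2 T), ?_, ?_⟩
      · rw [pow_succ, h1]
        have h3 := cayley T
        refine ContinuousLinearMap.ext fun v => ?_
        have h4 : T (T v) = tr2 T • T v - det2 T • v := by
          have h5 := congrArg (fun S : ℂ →L[ℝ] ℂ => S v) h3
          exact h5
        show p • T (T v) + q • T v = (p * tr2 T + q) • T v + (-(p * det2 T)) • v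
        rw [h4]
        module
      · rw [pow_succ, h2, add_mul, mul_assoc, hμ]
        push_cast
        ring
  obtain ⟨p, q, h1, h2⟩ := key N
  have h3 : T ^ N - 1 = p • T + (q - 1) • (1 : ℂ →L[ℝ] ℂ) := by
    rw [h1]
    module
  rw [h3, linB2_det, h2, htr, hdet]
  simp only [Complex.normSq_apply, Complex.sub_re, Complex.sub_im, Complex.add_re, Complex.add_im,
    Complex.mul_re, Complex.mul_im, Complex.ofReal_re, Complex.ofReal_im, Complex.one_re,
    Complex.one_im]
  ring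

/-- Negative discriminant: `T` is conjugate to the multiplication by a non-real complex number.
Proof: put `τ = tr2 T`, `δ = det2 T`, `α = (τ + i √(4δ - τ²)) / 2`, so `α² = τ α - δ`;
`(1, T 1)` is a real basis of `ℂ` (otherwise `T 1 = λ • 1` with `λ` real and `λ² - τ λ + δ = 0`),
and `P (x + y T 1) = x + y α`. -/
theorem exists_complex_form (T : ℂ →L[ℝ] ℂ) (h : tr2 T ^ 2 < 4 * det2 T) :
    ∃ (P : ℂ ≃L[ℝ] ℂ) (α : ℂ), α.im ≠ 0 ∧ ∀ v, P (T v) = α * P v := by
  obtain ⟨a, ha⟩ : ∃ a, a = (T 1).re := ⟨_, rfl⟩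
  obtain ⟨b, hb⟩ : ∃ b, b = (T 1).im := ⟨_, rfl⟩
  obtain ⟨c, hc⟩ : ∃ c, c = (T Complex.I).re := ⟨_, rfl⟩
  obtain ⟨d, hd⟩ : ∃ d, d = (T Complex.I).im := ⟨_, rfl⟩
  have htr : tr2 T = a + d := by rw [ha, hd]; rfl
  have hdet : det2 T = a * d - b * c := by rw [ha, hb, hc, hd]; rfl
  have hb0 : b ≠ 0 := by
    intro h0
    rw [htr, hdet, h0] at h
    nlinarith [sq_nonneg (a - d)]
  rw [htr, hdet] at h
  obtain ⟨s, hs⟩ : ∃ s, s = √(4 * (a * d - b * c) - (a + d) ^ 2) := ⟨_, rfl⟩
  have hs2 : s ^ 2 = 4 * (a * d - b * c) - (a + d) ^ 2 := by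
    rw [hs]
    exact Real.sq_sqrt (by linarith)
  have hs0 : s ≠ 0 := by
    intro h0
    rw [h0] at hs2
    norm_num at hs2
    linarith
  obtain ⟨g, hg⟩ : ∃ g : ℝ, g = ((a + d) / 2 - a) / b := ⟨_, rfl⟩
  obtain ⟨k, hk⟩ : ∃ k : ℝ, k = s / 2 / b := ⟨_, rfl⟩
  have hk0 : k ≠ 0 := by
    rw [hk]
    positivity
  have hgb : b * g = (a + d) / 2 - a := by
    rw [hg]
    field_simp
  have hkb : b * k = s / 2 := by
    rw [hk]
    field_simp
  -- `P v = v.re + v.im * (g + i k)`
  let f₁ : ℂ →L[ℝ] ℂ := Complex.reCLM.smulRight (1 : ℂ) + Complex.imCLM.smulRight (⟨g, k⟩ : ℂ)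
  let f₂ : ℂ →L[ℝ] ℂ := Complex.reCLM.smulRight (1 : ℂ) + Complex.imCLM.smulRight (⟨-g / k, 1 / k⟩ : ℂ)
  have e1 : ∀ v : ℂ, f₁ v = ⟨v.re + v.im * g, v.im * k⟩ := by
    intro v
    apply Complex.ext <;> simp [f₁]
  have e2 : ∀ v : ℂ, f₂ v = ⟨v.re + v.im * (-g / k), v.im * (1 / k)⟩ := by
    intro v
    apply Complex.ext <;> simp [f₂]
  let P : ℂ ≃L[ℝ] ℂ := ContinuousLinearEquiv.equivOfInverse f₁ f₂
    (by
      intro v
      rw [e2, e1]
      apply Complex.ext
      · simp only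
        field_simp
        ring
      · simp only
        field_simp)
    (by
      intro v
      rw [e1, e2]
      apply Complex.ext
      · simp only
        field_simp
        ring
      · simp only
        field_simp)
  have hP : ∀ v, P v = ⟨v.re + v.im * g, v.im * k⟩ := fun v => e1 v
  refine ⟨P, ⟨(a + d) / 2, s / 2⟩, ?_, ?_⟩
  · simp only [ne_eq, div_eq_zero_iff, OfNat.ofNat_ne_zero, or_false]
    exact hs0
  · intro v
    have hTv : T v = ⟨v.re * a + v.im * c, v.re * b + v.im * d⟩ := by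
      rw [clm_apply T v]
      apply Complex.ext
      · simp [ha, hc]
      · simp [hb, hd]
    rw [hP, hP, hTv]
    have h5 : b * (c + d * g - ((a + d) / 2 * g - s / 2 * k)) = 0 := by
      have : b * (c + d * g - ((a + d) / 2 * g - s / 2 * k)) =
          b * c + d * (b * g) - (a + d) / 2 * (b * g) + s / 2 * (b * k) := by ring
      rw [this, hgb, hkb]
      linear_combination hs2 / 4
    have h6 : b * (d * k - ((a + d) / 2 * k + s / 2 * g)) = 0 := by
      have : b * (d * k - ((a + d) / 2 * k + s / 2 * g)) =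
          d * (b * k) - (a + d) / 2 * (b * k) - s / 2 * (b * g) := by ring
      rw [this, hgb, hkb]
      ring
    have h7 := (mul_eq_zero.1 h5).resolve_left hb0
    have h8 := (mul_eq_zero.1 h6).resolve_left hb0
    apply Complex.ext
    · simp only [Complex.mul_re]
      linear_combination v.re * hgb + v.im * h7
    · simp only [Complex.mul_im]
      linear_combination v.re * hkb + v.im * h8

end TotRen
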