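import Pool.Agent.W_MP_f70009_h24.Cover
import Pool.Agent.W_MP_f70009_h24.LinB1
import Pool.Agent.W_MP_f70009_h24.LinB2

/-!
# One-parameter families
-/

open scoped ContDiff Topology
open Set Filter

namespace TotRen

/-- A smooth one-parameter family of torus maps, with an equivariant jointly smooth lift. -/
structure Fam (g : ℝ → T2 → T2) (Γ : ℝ × ℂ → ℂ) : Prop where
  smooth : ContDiff ℝ ∞ Γ
  lift : ∀ s, IsLift (fun z => Γ (s, z)) (g s)
  equiv : ∀ s z, ∀ a b : ℤ, Γ (s, z + ((a : ℂ) + (b : ℂ) * Complex.I))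
    = Γ (s, z) + ((a : ℂ) + (b : ℂ) * Complex.I)

/-- the lift of the `n`-th iterates -/
def itL (Γ : ℝ × ℂ → ℂ) (n : ℕ) (q : ℝ × ℂ) : ℂ := (fun w => Γ (q.1, w))^[n] q.2

theorem Fam.iterate {g : ℝ → T2 → T2} {Γ : ℝ × ℂ → ℂ} (F : Fam g Γ) (n : ℕ) :
    Fam (fun s => (g s)^[n]) (itL Γ n) := by
  have hsucc : ∀ (n : ℕ) (q : ℝ × ℂ), itL Γ (n + 1) q = Γ (q.1, itL Γ n q) := by
    intro n q
    exact Function.iterate_succ_apply' (fun w => Γ (q.1, w)) n q.2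
  refine ⟨?_, ?_, ?_⟩
  · induction n with
    | zero => exact contDiff_snd
    | succ n ih =>
      have h1 : itL Γ (n + 1) = fun q => Γ (q.1, itL Γ n q) := funext (hsucc n)
      rw [h1]
      exact F.smooth.comp (contDiff_fst.prodMk ih)
  · intro s
    exact (F.lift s).iterate n
  · intro s z a b
    induction n with
    | zero => rfl
    | succ n ih =>
      rw [hsucc, hsucc]
      show Γ (s, itL Γ n (s, z + ((a : ℂ) + (b : ℂ) * Complex.I))) = _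
      rw [ih, F.equiv]

/-- The partial derivative of the family. -/
theorem Fam.fderiv_eq {g : ℝ → T2 → T2} {Γ : ℝ × ℂ → ℂ} (F : Fam g Γ) (q : ℝ × ℂ) :
    fderiv ℝ (fun w => Γ (q.1, w)) q.2 =
      (fderiv ℝ Γ q).comp (ContinuousLinearMap.inr ℝ ℝ ℂ) := by
  have h1 : HasFDerivAt Γ (fderiv ℝ Γ q) (q.1, q.2) :=
    (F.smooth.differentiable (by simp) q).hasFDerivAt
  have h2 := h1.comp q.2 (hasFDerivAt_prodMk_right q.1 q.2)
  exact h2.fderiv

theorem Fam.continuous_fderiv {g : ℝ → T2 → T2} {Γ : ℝ × ℂ → ℂ} (F : Fam g Γ) :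
    Continuous (fun q : ℝ × ℂ => fderiv ℝ (fun w => Γ (q.1, w)) q.2) := by
  have h1 : (fun q : ℝ × ℂ => fderiv ℝ (fun w => Γ (q.1, w)) q.2) =
      fun q => (fderiv ℝ Γ q).comp (ContinuousLinearMap.inr ℝ ℝ ℂ) := by
    funext q
    exact F.fderiv_eq q
  rw [h1]
  exact (F.smooth.continuous_fderiv (by simp)).clm_comp continuous_const

/-- Implicit function theorem for fixed points of the family
(`ContDiffAt.implicitFunction` applied to `Γ q - q.2`, see Mathlib `Analysis/Calculus/ImplicitContDiff`;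
`exists_equiv` gives the invertibility). -/
theorem Fam.ift {g : ℝ → T2 → T2} {Γ : ℝ × ℂ → ℂ} (F : Fam g Γ) {s0 : ℝ} {z0 o : ℂ}
    (hfix : Γ (s0, z0) = z0 + o) (hdet : det2 (fderiv ℝ (fun w => Γ (s0, w)) z0 - 1) ≠ 0) :
    ∃ φ : ℝ → ℂ, ContinuousAt φ s0 ∧ φ s0 = z0 ∧ (∀ᶠ s in 𝓝 s0, Γ (s, φ s) = φ s + o) ∧
      (∀ᶠ q : ℝ × ℂ in 𝓝 (s0, z0), Γ q = q.2 + o → q.2 = φ q.1) := by
  have hsm : ContDiff ℝ ∞ (fun q : ℝ × ℂ => Γ q - q.2) := F.smooth.sub contDiff_snd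
  have cdf : ContDiffAt ℝ ∞ (fun q : ℝ × ℂ => Γ q - q.2) (s0, z0) := hsm.contDiffAt
  have hne : (∞ : WithTop ℕ∞) ≠ 0 := by simp
  have hfd : (fderiv ℝ (fun q : ℝ × ℂ => Γ q - q.2) (s0, z0)) ∘L
      (ContinuousLinearMap.inr ℝ ℝ ℂ) = fderiv ℝ (fun w => Γ (s0, w)) z0 - 1 := by
    have h1 : DifferentiableAt ℝ Γ (s0, z0) := F.smooth.differentiable (by simp) (s0, z0)
    have h2 : HasFDerivAt (fun q : ℝ × ℂ => Γ q - q.2)
        (fderiv ℝ Γ (s0, z0) - ContinuousLinearMap.snd ℝ ℝ ℂ) (s0, z0) :=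
      h1.hasFDerivAt.sub hasFDerivAt_snd
    rw [h2.fderiv, F.fderiv_eq (s0, z0)]
    apply ContinuousLinearMap.ext
    intro v
    simp
  have hinv : ((fderiv ℝ (fun q : ℝ × ℂ => Γ q - q.2) (s0, z0)) ∘L
      (ContinuousLinearMap.inr ℝ ℝ ℂ)).IsInvertible := by
    rw [hfd]
    obtain ⟨e, he⟩ := exists_equiv _ hdet
    exact ⟨e, he⟩
  have hu : Γ (s0, z0) - z0 = o := by
    rw [hfix, add_sub_cancel_left]
  refine ⟨cdf.implicitFunction hne hinv,
    (cdf.hasStrictFDerivAt_implicitFunction hne hinv).continuousAt,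
    cdf.implicitFunction_apply_self hne hinv, ?_, ?_⟩
  · filter_upwards [cdf.eventually_apply_implicitFunction hne hinv] with s hs
    rw [hu] at hs
    exact sub_eq_iff_eq_add'.1 hs
  · filter_upwards [cdf.eventually_apply_eq_iff_implicitFunction hne hinv] with q hq hΓ
    rw [hu] at hq
    exact (hq.1 (sub_eq_iff_eq_add'.2 hΓ)).symm

/-- parameters `s ∈ (0, π/2]` at which `g s` has a periodic point of minimal period `n` satisfying the
attracting focus formula with `a = h sin s`. -/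
def Tn (g : ℝ → T2 → T2) (Γ : ℝ × ℂ → ℂ) (h : ℝ) (n : ℕ) : Set ℝ :=
  {s | 0 < s ∧ s ≤ Real.pi / 2 ∧ ∃ z, Function.minimalPeriod (g s) (pr z) = n ∧
    IsAtt (h * Real.sin s) (fderiv ℝ ((fun w => Γ (s, w))^[n]) z)}

end TotRen
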