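import Pool.Agent.W_MP_f70009_h24.FamA

/-!
# Tn is closed
-/

open scoped ContDiff Topology
open Set Filter

namespace TotRen

theorem FamB_fderiv {g : ℝ → T2 → T2} {Γ : ℝ × ℂ → ℂ} (F : Fam g Γ) (s : ℝ) (z : ℂ) (a b : ℤ) :
    fderiv ℝ (fun w => Γ (s, w)) (z + ((a : ℂ) + (b : ℂ) * Complex.I)) =
      fderiv ℝ (fun w => Γ (s, w)) z := by
  have h1 : fderiv ℝ (fun w => Γ (s, w + ((a : ℂ) + (b : ℂ) * Complex.I))) z =
      fderiv ℝ (fun w => Γ (s, w)) (z + ((a : ℂ) + (b : ℂ) * Complex.I)) :=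
    fderiv_comp_add_right (f := fun w => Γ (s, w)) _
  rw [← h1]
  simp only [F.equiv s]
  exact fderiv_add_const _

/-- points may be taken in a ball -/
theorem FamB_rep (z : ℂ) : ∃ (w : ℂ) (a b : ℤ), ‖w‖ ≤ 2 ∧
    z = w + ((a : ℂ) + (b : ℂ) * Complex.I) := by
  refine ⟨⟨Int.fract z.re, Int.fract z.im⟩, ⌊z.re⌋, ⌊z.im⌋, ?_, ?_⟩
  · refine (Complex.norm_le_abs_re_add_abs_im _).trans ?_
    change |Int.fract z.re| + |Int.fract z.im| ≤ 2
    rw [abs_of_nonneg (Int.fract_nonneg _), abs_of_nonneg (Int.fract_nonneg _)]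
    have h1 := Int.fract_lt_one z.re
    have h2 := Int.fract_lt_one z.im
    linarith
  · have h1 := Int.fract_add_floor z.re
    have h2 := Int.fract_add_floor z.im
    apply Complex.ext
    · simp
    · simp

/-- the lifts of the iterates commute -/
theorem FamB_comm (Γ : ℝ × ℂ → ℂ) (m n : ℕ) (s : ℝ) (z : ℂ) :
    itL Γ n (s, itL Γ m (s, z)) = itL Γ m (s, itL Γ n (s, z)) := by
  change (fun w => Γ (s, w))^[n] ((fun w => Γ (s, w))^[m] z) =
    (fun w => Γ (s, w))^[m] ((fun w => Γ (s, w))^[n] z)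
  rw [← Function.iterate_add_apply, ← Function.iterate_add_apply, Nat.add_comm]

/-- `Tn` is closed in `(0, π/2]`.  Proof: `s_j → s`, `z_j` may be taken in `[0,1]²` (translate by
integers, `F.equiv`), `Γ^n(s_j, z_j) = z_j + ω_j` with `ω_j` bounded integer vectors; pass to a
subsequence with `ω_j = ω` constant and `z_j → z`.  The focus formula passes to the limit
(`continuous_fderiv`), so `det2 (A - 1) ≠ 0` (`det2_pow_sub_one` with `N = 1` and
`normSq_muAtt_pow_sub_one`).  Minimality: if `1 ≤ m < n` and `(g s)^[m] (pr z) = pr z`, i.e.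
`Γ^m(s, z) = z + ω'`, then `z_j' = Γ^m(s_j, z_j) - ω'` and `z_j` are both zeros of
`Γ^n(s_j, w) - w - ω` near `z`, so by the local uniqueness in `Fam.ift` (for the family
`F.iterate n`) they are equal, and `(g s_j)^[m] (pr z_j) = pr z_j`, contradiction. -/
theorem Tn_closed {g : ℝ → T2 → T2} {Γ : ℝ × ℂ → ℂ} (F : Fam g Γ) {h : ℝ} (h0 : 0 < h)
    (h1 : h < 1 / 2) {n : ℕ} (hn : 1 ≤ n) {s : ℕ → ℝ} (hs : ∀ j, s j ∈ Tn g Γ h n) {s0 : ℝ}
    (hs0 : 0 < s0) (hlim : Tendsto s atTop (𝓝 s0)) : s0 ∈ Tn g Γ h n := by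
  have hch : ∀ j, ∃ z : ℂ, ‖z‖ ≤ 2 ∧ Function.minimalPeriod (g (s j)) (pr z) = n ∧
      IsAtt (h * Real.sin (s j)) (fderiv ℝ (fun w => itL Γ n (s j, w)) z) := by
    intro j
    obtain ⟨-, -, z, hz, hA⟩ := hs j
    obtain ⟨w, a, b, hw, rfl⟩ := FamB_rep z
    refine ⟨w, hw, ?_, ?_⟩
    · rw [pr_add_int] at hz
      exact hz
    · have h2 := FamB_fderiv (F.iterate n) (s j) w a b
      rw [← h2]
      exact hA
  choose z hz1 hz2 hz3 using hch
  have hper : ∀ j, ∃ a b : ℤ, itL Γ n (s j, z j) = z j + ((a : ℂ) + (b : ℂ) * Complex.I) := by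
    intro j
    have h1 : (g (s j))^[n] (pr (z j)) = pr (itL Γ n (s j, z j)) := (F.iterate n).lift (s j) (z j)
    have h2 : (g (s j))^[n] (pr (z j)) = pr (z j) := by
      have h3 := Function.iterate_minimalPeriod (f := g (s j)) (x := pr (z j))
      rwa [hz2 j] at h3
    exact (pr_eq_iff _ _).1 (h1.symm.trans h2)
  choose a b hab using hper
  obtain ⟨z0, -, φ, hφ, hzlim⟩ := (isCompact_closedBall (0 : ℂ) 2).tendsto_subseq
    (fun j => mem_closedBall_zero_iff.2 (hz1 j))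
  have hslim : Tendsto (fun j => s (φ j)) atTop (𝓝 s0) := hlim.comp hφ.tendsto_atTop
  have hzlim' : Tendsto (fun j => z (φ j)) atTop (𝓝 z0) := hzlim
  have hq : Tendsto (fun j => (s (φ j), z (φ j))) atTop (𝓝 (s0, z0)) :=
    hslim.prodMk_nhds hzlim'
  have hcont : ∀ m, Continuous (itL Γ m) := fun m => (F.iterate m).smooth.continuous
  have hI : ∀ m, Tendsto (fun j => itL Γ m (s (φ j), z (φ j))) atTop (𝓝 (itL Γ m (s0, z0))) :=
    fun m => ((hcont m).tendsto _).comp hq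
  obtain ⟨o, ho⟩ : ∃ o, o = itL Γ n (s0, z0) - z0 := ⟨_, rfl⟩
  have hω : Tendsto (fun j => ((a (φ j) : ℂ) + (b (φ j) : ℂ) * Complex.I)) atTop (𝓝 o) := by
    rw [ho]
    refine ((hI n).sub hzlim').congr fun j => ?_
    rw [hab]
    ring
  obtain ⟨N, hN⟩ := Metric.tendsto_atTop.1 hω (1 / 2) (by norm_num)
  have hconst : ∀ j, N ≤ j → ((a (φ j) : ℂ) + (b (φ j) : ℂ) * Complex.I) =
      ((a (φ N) : ℂ) + (b (φ N) : ℂ) * Complex.I) := by
    intro j hj
    apply pr_injOn_ball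
    · have h1 := pr_add_int 0 (a (φ j)) (b (φ j))
      have h2 := pr_add_int 0 (a (φ N)) (b (φ N))
      rw [zero_add] at h1 h2
      rw [h1, h2]
    · rw [← dist_eq_norm]
      refine (dist_triangle_right _ _ o).trans_lt ?_
      linarith [hN j hj, hN N le_rfl]
  have hoN : o = ((a (φ N) : ℂ) + (b (φ N) : ℂ) * Complex.I) := by
    refine tendsto_nhds_unique hω (tendsto_const_nhds.congr' ?_)
    filter_upwards [eventually_ge_atTop N] with j hj
    exact (hconst j hj).symm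
  have hfix : ∀ j, N ≤ j → itL Γ n (s (φ j), z (φ j)) = z (φ j) + o := by
    intro j hj
    rw [hab, hconst j hj, hoN]
  have hfix0 : itL Γ n (s0, z0) = z0 + o := by rw [ho]; ring
  -- the derivative
  have hfd : Tendsto (fun j => fderiv ℝ (fun w => itL Γ n (s (φ j), w)) (z (φ j))) atTop
      (𝓝 (fderiv ℝ (fun w => itL Γ n (s0, w)) z0)) :=
    ((F.iterate n).continuous_fderiv.tendsto (s0, z0)).comp hq
  have hsin : Tendsto (fun j => h * Real.sin (s (φ j))) atTop (𝓝 (h * Real.sin s0)) :=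
    ((Real.continuous_sin.tendsto s0).comp hslim).const_mul h
  have hatt : IsAtt (h * Real.sin s0) (fderiv ℝ (fun w => itL Γ n (s0, w)) z0) := by
    constructor
    · have h3 := (continuous_tr2.tendsto _).comp hfd
      have h2 : Tendsto (fun j => 2 * (1 - h * Real.sin (s (φ j)))) atTop
          (𝓝 (2 * (1 - h * Real.sin s0))) := (tendsto_const_nhds.sub hsin).const_mul 2
      exact tendsto_nhds_unique h3 (h2.congr fun j => ((hz3 (φ j)).1).symm)
    · have h3 := (continuous_det2.tendsto _).comp hfd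
      have h2 : Tendsto (fun j => (1 - h * Real.sin (s (φ j))) ^ 2 +
          (h * Real.sin (s (φ j))) ^ 2) atTop
          (𝓝 ((1 - h * Real.sin s0) ^ 2 + (h * Real.sin s0) ^ 2)) :=
        ((tendsto_const_nhds.sub hsin).pow 2).add (hsin.pow 2)
      exact tendsto_nhds_unique h3 (h2.congr fun j => ((hz3 (φ j)).2).symm)
  have hs0' : s0 ≤ Real.pi / 2 := le_of_tendsto hlim (Eventually.of_forall fun j => (hs j).2.1)
  have hsin0 : 0 < Real.sin s0 := Real.sin_pos_of_pos_of_lt_pi hs0 (by linarith [Real.pi_pos])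
  have ha0 : 0 < h * Real.sin s0 := mul_pos h0 hsin0
  have ha1 : h * Real.sin s0 ≤ 1 / 2 := by
    have h2 := Real.sin_le_one s0
    nlinarith
  have hdet : det2 (fderiv ℝ (fun w => itL Γ n (s0, w)) z0 - 1) ≠ 0 := by
    obtain ⟨e1, e2⟩ := (isAtt_iff _ _).1 hatt
    have h2 := det2_pow_sub_one _ _ e1 e2 1
    rw [pow_one] at h2
    rw [h2]
    have h3 := normSq_muAtt_pow_sub_one ha0 ha1 (N := 1) le_rfl
    have h4 : 0 < (h * Real.sin s0) ^ 2 / 4 := by positivity
    exact (lt_of_lt_of_le h4 h3).ne'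
  obtain ⟨ψ, -, -, -, hloc⟩ := (F.iterate n).ift hfix0 hdet
  refine ⟨hs0, hs0', z0, ?_, hatt⟩
  -- minimality
  have hpern : Function.IsPeriodicPt (g s0) n (pr z0) := by
    change (g s0)^[n] (pr z0) = pr z0
    have h2 : (g s0)^[n] (pr z0) = pr (itL Γ n (s0, z0)) := (F.iterate n).lift s0 z0
    rw [h2, hfix0, hoN, pr_add_int]
  have hmle := hpern.minimalPeriod_le hn
  have hmpos := hpern.minimalPeriod_pos hn
  rcases hmle.eq_or_lt with hmn | hmn
  · exact hmn
  exfalso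
  obtain ⟨m, hm⟩ : ∃ m, m = Function.minimalPeriod (g s0) (pr z0) := ⟨_, rfl⟩
  rw [← hm] at hmn hmpos
  have hperm : (g s0)^[m] (pr z0) = pr z0 := by
    rw [hm]
    exact Function.iterate_minimalPeriod
  obtain ⟨a', b', hab'⟩ := (pr_eq_iff _ _).1 (((F.iterate m).lift s0 z0).symm.trans hperm)
  change itL Γ m (s0, z0) = _ at hab'
  have hz' : Tendsto (fun j => itL Γ m (s (φ j), z (φ j)) - ((a' : ℂ) + (b' : ℂ) * Complex.I))
      atTop (𝓝 z0) := by
    have h2 := (hI m).sub (tendsto_const_nhds (x := ((a' : ℂ) + (b' : ℂ) * Complex.I)))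
    rw [hab', add_sub_cancel_right] at h2
    exact h2
  have hev1 := hq.eventually hloc
  have hev2 := (hslim.prodMk_nhds hz').eventually hloc
  obtain ⟨j, hj1, hj2, hj⟩ := (hev1.and (hev2.and (eventually_ge_atTop N))).exists
  have e1 := hj1 (hfix j hj)
  have e2 := hj2 (by
    change itL Γ n (s (φ j), itL Γ m (s (φ j), z (φ j)) - ((a' : ℂ) + (b' : ℂ) * Complex.I)) = _
    have h2 := (F.iterate n).equiv (s (φ j))
      (itL Γ m (s (φ j), z (φ j)) - ((a' : ℂ) + (b' : ℂ) * Complex.I)) a' b'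
    rw [sub_add_cancel, FamB_comm, hfix j hj, hoN, (F.iterate m).equiv] at h2
    rw [hoN]
    linear_combination -h2)
  change z (φ j) = ψ (s (φ j)) at e1
  change itL Γ m (s (φ j), z (φ j)) - ((a' : ℂ) + (b' : ℂ) * Complex.I) = ψ (s (φ j)) at e2
  have e3 : itL Γ m (s (φ j), z (φ j)) = z (φ j) + ((a' : ℂ) + (b' : ℂ) * Complex.I) := by
    linear_combination e2 - e1
  have e4 : Function.IsPeriodicPt (g (s (φ j))) m (pr (z (φ j))) := by
    change (g (s (φ j)))^[m] (pr (z (φ j))) = pr (z (φ j))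
    have h2 : (g (s (φ j)))^[m] (pr (z (φ j))) = pr (itL Γ m (s (φ j), z (φ j))) :=
      (F.iterate m).lift (s (φ j)) (z (φ j))
    rw [h2, e3, pr_add_int]
  have e5 := e4.minimalPeriod_le hmpos
  rw [hz2] at e5
  omega

end TotRen
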