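import Pool.Agent.W_MP_f70009_h24.Cover

/-!
# The explicit family I
-/

open scoped ContDiff Topology
open Set Filter

namespace TotRen

theorem contDiff_sF (L : ℕ) : ContDiff ℝ ∞ (sF L) := by
  unfold sF
  have hre : ContDiff ℝ ∞ (fun z : ℂ => ((Real.sin (2 * Real.pi * L * z.re) : ℝ) : ℂ)) := by
    refine Complex.ofRealCLM.contDiff.comp (Real.contDiff_sin.comp ?_)
    exact contDiff_const.mul Complex.reCLM.contDiff
  have him : ContDiff ℝ ∞ (fun z : ℂ => ((Real.sin (2 * Real.pi * L * z.im) : ℝ) : ℂ)) := by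
    refine Complex.ofRealCLM.contDiff.comp (Real.contDiff_sin.comp ?_)
    exact contDiff_const.mul Complex.imCLM.contDiff
  exact contDiff_const.mul (hre.add (contDiff_const.mul him))

theorem famA_trig (L : ℕ) (x : ℝ) (a : ℤ) :
    Real.sin (2 * Real.pi * L * (x + a)) = Real.sin (2 * Real.pi * L * x) ∧
    Real.cos (2 * Real.pi * L * (x + a)) = Real.cos (2 * Real.pi * L * x) := by
  have e : 2 * Real.pi * L * (x + a) = 2 * Real.pi * L * x + (((L : ℤ) * a : ℤ) : ℝ) *
      (2 * Real.pi) := by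
    push_cast
    ring
  rw [e]
  exact ⟨Real.sin_add_int_mul_two_pi _ _, Real.cos_add_int_mul_two_pi _ _⟩

theorem famA_re (z : ℂ) (a b : ℤ) : (z + ((a : ℂ) + (b : ℂ) * Complex.I)).re = z.re + a := by
  simp

theorem famA_im (z : ℂ) (a b : ℤ) : (z + ((a : ℂ) + (b : ℂ) * Complex.I)).im = z.im + b := by
  simp

theorem sF_add_int (L : ℕ) (z : ℂ) (a b : ℤ) :
    sF L (z + ((a : ℂ) + (b : ℂ) * Complex.I)) = sF L z := by
  unfold sF
  rw [famA_re, famA_im, (famA_trig L z.re a).1, (famA_trig L z.im b).1]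

theorem famA_sF_re (L : ℕ) (z : ℂ) : (sF L z).re =
    Real.sin (2 * Real.pi * L * z.re) + Real.sin (2 * Real.pi * L * z.im) := by
  unfold sF
  simp only [Complex.mul_re, Complex.sub_re, Complex.one_re, Complex.I_re, Complex.add_re,
    Complex.ofReal_re, Complex.ofReal_im, Complex.I_im, Complex.sub_im, Complex.one_im,
    Complex.add_im, Complex.mul_im]
  ring

theorem famA_sF_im (L : ℕ) (z : ℂ) : (sF L z).im =
    Real.sin (2 * Real.pi * L * z.im) - Real.sin (2 * Real.pi * L * z.re) := by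
  unfold sF
  simp only [Complex.mul_re, Complex.sub_re, Complex.one_re, Complex.I_re, Complex.add_re,
    Complex.ofReal_re, Complex.ofReal_im, Complex.I_im, Complex.sub_im, Complex.one_im,
    Complex.add_im, Complex.mul_im]
  ring

theorem norm_sF_le (L : ℕ) (z : ℂ) : ‖sF L z‖ ≤ 2 := by
  have h1 : ‖sF L z‖ ^ 2 = (sF L z).re ^ 2 + (sF L z).im ^ 2 := by
    rw [Complex.sq_norm, Complex.normSq_apply]
    ring
  rw [famA_sF_re, famA_sF_im] at h1
  have h2 := Real.sin_sq_le_one (2 * Real.pi * L * z.re)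
  have h3 := Real.sin_sq_le_one (2 * Real.pi * L * z.im)
  have h4 : ‖sF L z‖ ^ 2 ≤ 2 ^ 2 := by
    rw [h1]
    nlinarith
  exact (pow_le_pow_iff_left₀ (norm_nonneg _) (by norm_num) two_ne_zero).1 h4

theorem famA_cos {u w : ℝ} (hw : |w| ≤ 1) :
    Real.cos (u + w) ≤ Real.cos u - w * Real.sin u + w ^ 2 := by
  have h1 := Real.sin_bound hw
  have h2 := Real.one_sub_sq_div_two_le_cos (x := w)
  have h3 := Real.cos_le_one w
  have hu1 := Real.neg_one_le_cos u
  have hu2 := Real.cos_le_one u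
  have hs1 := Real.neg_one_le_sin u
  have hs2 := Real.sin_le_one u
  have hw0 := abs_nonneg w
  have hw2 : |w| ^ 2 = w ^ 2 := sq_abs w
  have h4 : |Real.sin w - w| ≤ w ^ 2 / 2 := by
    have h5 : |Real.sin w - w| ≤ |Real.sin w - (w - w ^ 3 / 6)| + |w ^ 3 / 6| := by
      have : Real.sin w - w = (Real.sin w - (w - w ^ 3 / 6)) + (-(w ^ 3 / 6)) := by ring
      rw [this]
      refine (abs_add_le _ _).trans ?_
      rw [abs_neg]
    have h6 : |w ^ 3 / 6| = |w| ^ 3 / 6 := by
      rw [abs_div, abs_pow]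
      norm_num
    have h7 : |w| ^ 3 ≤ |w| ^ 2 := by
      apply pow_le_pow_of_le_one hw0 hw (by norm_num)
    have h8 : |w| ^ 5 ≤ |w| ^ 2 := by
      apply pow_le_pow_of_le_one hw0 hw (by norm_num)
    rw [h6] at h5
    rw [← hw2]
    have h9 : 0 ≤ |w| ^ 2 := by positivity
    linarith
  rw [Real.cos_add]
  have h10 := abs_le.1 h4
  have h11 : Real.cos u * Real.cos w ≤ Real.cos u + w ^ 2 / 2 := by nlinarith
  have h12 : -(Real.sin u * Real.sin w) ≤ -(w * Real.sin u) + w ^ 2 / 2 := by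
    have h13 : -(Real.sin u * (Real.sin w - w)) ≤ w ^ 2 / 2 := by
      have : |Real.sin u * (Real.sin w - w)| ≤ w ^ 2 / 2 := by
        rw [abs_mul]
        calc |Real.sin u| * |Real.sin w - w| ≤ 1 * (w ^ 2 / 2) :=
              mul_le_mul (Real.abs_sin_le_one u) h4 (abs_nonneg _) (by norm_num)
          _ = _ := one_mul _
      have h14 := neg_le_abs (Real.sin u * (Real.sin w - w))
      linarith
    linarith
  linarith

/-- The Lyapunov function `E z = cos (2πL re z) + cos (2πL im z)` decreases strictly along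
`z ↦ z + η sF L z` unless `sF L z = 0`, if `2 π L η < 1`: with `a, b` the two sines,
`E(G z) ≤ E z - 2πLη (a² + b²) + (2πLη)² (a² + b²)`
(use `cos (u + v) ≤ cos u - v sin u + v² / 2`). -/
theorem lyapunov {L : ℕ} (hL : 1 ≤ L) {η : ℝ} (h0 : 0 < η) (h1 : 2 * Real.pi * L * η < 1 / 2)
    {z : ℂ} (hz : sF L z ≠ 0) :
    Real.cos (2 * Real.pi * L * (liftL L η z).re) + Real.cos (2 * Real.pi * L * (liftL L η z).im)
      < Real.cos (2 * Real.pi * L * z.re) + Real.cos (2 * Real.pi * L * z.im) := by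
  have hL' : (1 : ℝ) ≤ L := by exact_mod_cast hL
  have hpi := Real.pi_pos
  set u : ℝ := 2 * Real.pi * L * z.re with hu
  set v : ℝ := 2 * Real.pi * L * z.im with hv
  set t : ℝ := 2 * Real.pi * L * η with ht
  have ht0 : 0 < t := by positivity
  set a := Real.sin u with ha
  set b := Real.sin v with hb
  have e1 : 2 * Real.pi * L * (liftL L η z).re = u + t * (a + b) := by
    unfold liftL
    rw [Complex.add_re, Complex.re_ofReal_mul, famA_sF_re]
    rw [hu, ht, ha, hb, hv]
    ring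
  have e2 : 2 * Real.pi * L * (liftL L η z).im = v + t * (b - a) := by
    unfold liftL
    rw [Complex.add_im, Complex.im_ofReal_mul, famA_sF_im]
    rw [hv, ht, ha, hb, hu]
    ring
  rw [e1, e2]
  have hab : 0 < a ^ 2 + b ^ 2 := by
    rcases eq_or_ne a 0 with h2 | h2
    · rcases eq_or_ne b 0 with h3 | h3
      · exfalso
        apply hz
        apply Complex.ext
        · rw [famA_sF_re, ← hu, ← hv, ← ha, ← hb, h2, h3]
          simp
        · rw [famA_sF_im, ← hu, ← hv, ← ha, ← hb, h2, h3]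
          simp
      · have := pow_pos (abs_pos.2 h3) 2
        rw [sq_abs] at this
        nlinarith [sq_nonneg a]
    · have := pow_pos (abs_pos.2 h2) 2
      rw [sq_abs] at this
      nlinarith [sq_nonneg b]
  have ha1 : |a| ≤ 1 := Real.abs_sin_le_one u
  have hb1 : |b| ≤ 1 := Real.abs_sin_le_one v
  have hw1 : |t * (a + b)| ≤ 1 := by
    rw [abs_mul, abs_of_pos ht0]
    have : |a + b| ≤ 2 := (abs_add_le _ _).trans (by linarith)
    nlinarith [abs_nonneg (a + b)]
  have hw2 : |t * (b - a)| ≤ 1 := by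
    rw [abs_mul, abs_of_pos ht0]
    have : |b - a| ≤ 2 := (abs_sub _ _).trans (by linarith)
    nlinarith [abs_nonneg (b - a)]
  have c1 := famA_cos (u := u) hw1
  have c2 := famA_cos (u := v) hw2
  rw [← ha] at c1
  rw [← hb] at c2
  have c3 : -(t * (a + b) * a) + (t * (a + b)) ^ 2 + (-(t * (b - a) * b) + (t * (b - a)) ^ 2) =
      - (t * (1 - 2 * t) * (a ^ 2 + b ^ 2)) := by ring
  have c4 : 0 < t * (1 - 2 * t) * (a ^ 2 + b ^ 2) := by
    apply mul_pos (mul_pos ht0 (by linarith)) hab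
  linarith

/-- All periodic points of the torus map with lift `liftL L η` are fixed points (by `lyapunov`). -/
theorem fam_periodic {L : ℕ} (hL : 1 ≤ L) {η : ℝ} (h0 : 0 < η)
    (h1 : 2 * Real.pi * L * η < 1 / 2) {G : T2 → T2} (lG : IsLift (liftL L η) G) (q : T2)
    {k : ℕ} (hk : 1 ≤ k) (hq : G^[k] q = q) : G q = q := by
  obtain ⟨z, rfl⟩ := pr_surjective q
  by_cases hz : sF L z = 0
  · rw [lG z]
    unfold liftL
    rw [hz, mul_zero, add_zero]
  exfalso
  let E : ℂ → ℝ := fun z => Real.cos (2 * Real.pi * L * z.re) + Real.cos (2 * Real.pi * L * z.im)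
  have hstep : ∀ w : ℂ, E (liftL L η w) ≤ E w := by
    intro w
    by_cases hw : sF L w = 0
    · have : liftL L η w = w := by
        unfold liftL
        rw [hw, mul_zero, add_zero]
      rw [this]
    · exact (lyapunov hL h0 h1 hw).le
  have hiter : ∀ (j : ℕ) (w : ℂ), E ((liftL L η)^[j] w) ≤ E w := by
    intro j
    induction j with
    | zero => intro w; exact le_refl _
    | succ j ih =>
      intro w
      rw [Function.iterate_succ_apply]
      exact (ih _).trans (hstep w)
  have hlt : E ((liftL L η)^[k] z) < E z := by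
    obtain ⟨j, rfl⟩ : ∃ j, k = j + 1 := ⟨k - 1, by omega⟩
    rw [Function.iterate_succ_apply]
    exact (hiter j _).trans_lt (lyapunov hL h0 h1 hz)
  have hpr : pr ((liftL L η)^[k] z) = pr z := by
    rw [← lG.iterate k z, hq]
  obtain ⟨a, b, hab⟩ := (pr_eq_iff _ _).1 hpr
  have hE : E ((liftL L η)^[k] z) = E z := by
    rw [hab]
    change Real.cos (2 * Real.pi * L * (z + ((a : ℂ) + (b : ℂ) * Complex.I)).re) +
      Real.cos (2 * Real.pi * L * (z + ((a : ℂ) + (b : ℂ) * Complex.I)).im) = _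
    rw [famA_re, famA_im, (famA_trig L z.re a).2, (famA_trig L z.im b).2]
  rw [hE] at hlt
  exact lt_irrefl _ hlt

end TotRen
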