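import Pool.Agent.W_MP_f70009_h24.FamilyA

/-!
# The explicit family III
-/

open scoped ContDiff Topology
open Set Filter

namespace TotRen

/-- the derivatives of `sF 1` are periodic, hence bounded -/
theorem sF_one_bound (k : ℕ) : ∃ M : ℝ, ∀ z : ℂ, ‖iteratedFDeriv ℝ k (sF 1) z‖ ≤ M := by
  have hcont : Continuous (fun z : ℂ => iteratedFDeriv ℝ k (sF 1) z) :=
    (contDiff_sF 1).continuous_iteratedFDeriv (by exact_mod_cast le_top)
  have hK : IsCompact ((Icc (0 : ℝ) 1) ×ℂ (Icc (0 : ℝ) 1)) := isCompact_Icc.reProdIm isCompact_Icc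
  obtain ⟨M, hM⟩ := hK.exists_bound_of_continuousOn hcont.continuousOn
  refine ⟨M, fun z => ?_⟩
  obtain ⟨c, hc⟩ : ∃ c : ℂ, c = ((⌊z.re⌋ : ℤ) : ℂ) + ((⌊z.im⌋ : ℤ) : ℂ) * Complex.I := ⟨_, rfl⟩
  have hper : (fun w : ℂ => sF 1 (w + c)) = sF 1 := by
    funext w
    rw [hc]
    exact sF_add_int 1 w _ _
  have h1 := iteratedFDeriv_comp_add_right (𝕜 := ℝ) (f := sF 1) k c (z - c)
  rw [hper, sub_add_cancel] at h1
  rw [← h1]
  refine hM (z - c) ?_
  rw [Complex.mem_reProdIm]
  have e1 : (z - c).re = z.re - ⌊z.re⌋ := by rw [hc]; simp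
  have e2 : (z - c).im = z.im - ⌊z.im⌋ := by rw [hc]; simp
  rw [e1, e2]
  have f1 := Int.floor_le z.re
  have f2 := Int.lt_floor_add_one z.re
  have f3 := Int.floor_le z.im
  have f4 := Int.lt_floor_add_one z.im
  exact ⟨⟨by linarith, by linarith⟩, ⟨by linarith, by linarith⟩⟩

/-- Uniform smallness: all the derivatives of order `≤ R` of `η sF L` are `≤ K η L ^ R`, with `K`
depending only on `R` (`sF L z = sF 1 (L z)` and `sF 1` has bounded derivatives by periodicity). -/
theorem sF_small (R : ℕ) : ∃ K : ℝ, 0 < K ∧ ∀ L : ℕ, 1 ≤ L → ∀ k ≤ R, ∀ z : ℂ,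
    ‖iteratedFDeriv ℝ k (sF L) z‖ ≤ K * (L : ℝ) ^ R := by
  choose M hM using sF_one_bound
  have hM0 : ∀ k, 0 ≤ M k := fun k => (norm_nonneg _).trans (hM k 0)
  refine ⟨∑ k ∈ Finset.range (R + 1), M k + 1, ?_, ?_⟩
  · have := Finset.sum_nonneg fun k (_ : k ∈ Finset.range (R + 1)) => hM0 k
    linarith
  · intro L hL k hk z
    have hL1 : (1 : ℝ) ≤ L := by exact_mod_cast hL
    let g : ℂ →L[ℝ] ℂ := (L : ℝ) • ContinuousLinearMap.id ℝ ℂ
    have hg : ‖g‖ ≤ L := by
      refine ContinuousLinearMap.opNorm_le_bound _ (by positivity) fun x => ?_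
      show ‖(L : ℝ) • x‖ ≤ L * ‖x‖
      rw [norm_smul, Real.norm_of_nonneg (by positivity)]
    have e1 : sF L = sF 1 ∘ g := by
      funext w
      have h1 : (g w).re = L * w.re := by simp [g]
      have h2 : (g w).im = L * w.im := by simp [g]
      simp only [Function.comp_apply, sF]
      rw [h1, h2]
      have h3 : 2 * Real.pi * (1 : ℕ) * (L * w.re) = 2 * Real.pi * L * w.re := by push_cast; ring
      have h4 : 2 * Real.pi * (1 : ℕ) * (L * w.im) = 2 * Real.pi * L * w.im := by push_cast; ring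
      rw [h3, h4]
    rw [e1, g.iteratedFDeriv_comp_right (contDiff_sF 1) z (by exact_mod_cast le_top)]
    refine (ContinuousMultilinearMap.norm_compContinuousLinearMap_le _ _).trans ?_
    rw [Finset.prod_const, Finset.card_univ, Fintype.card_fin]
    have h5 : M k ≤ ∑ k ∈ Finset.range (R + 1), M k :=
      Finset.single_le_sum (f := M) (fun i _ => hM0 i) (Finset.mem_range.2 (by omega))
    have h6 : ‖g‖ ^ k ≤ (L : ℝ) ^ R :=
      (pow_le_pow_left₀ (norm_nonneg _) hg k).trans (pow_le_pow_right₀ hL1 hk)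
    refine mul_le_mul ((hM k _).trans (by linarith)) h6 (by positivity) ?_
    have := hM0 k
    linarith

end TotRen
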