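import Pool.Agent.W_MP_f70009_h24.FamilyA

/-!
# The explicit family IV
-/

open scoped ContDiff Topology
open Set Filter

namespace TotRen

theorem famD_sin (x y : ℝ) : |Real.sin x - Real.sin y| ≤ |x - y| := by
  have h := Real.lipschitzWith_sin.dist_le_mul x y
  simpa [Real.dist_eq] using h

/-- the displacement is Lipschitz with constant `1/2` -/
theorem famD_lip {L : ℕ} {η : ℝ} (h : 2 * Real.pi * L * |η| ≤ 1 / 8) (z w : ℂ) :
    ‖(η : ℂ) * sF L z - (η : ℂ) * sF L w‖ ≤ 1 / 2 * ‖z - w‖ := by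
  have h1 : (η : ℂ) * sF L z - (η : ℂ) * sF L w = (η : ℂ) * ((1 - Complex.I) *
      (((Real.sin (2 * Real.pi * L * z.re) - Real.sin (2 * Real.pi * L * w.re) : ℝ) : ℂ)
        + Complex.I * ((Real.sin (2 * Real.pi * L * z.im) - Real.sin (2 * Real.pi * L * w.im) : ℝ) : ℂ))) := by
    unfold sF
    push_cast
    ring
  have h2 : ‖(1 - Complex.I : ℂ)‖ ≤ 2 := by
    refine (norm_sub_le _ _).trans ?_
    rw [norm_one, Complex.norm_I]
    norm_num
  have hK : (0 : ℝ) ≤ 2 * Real.pi * L := by positivity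
  have h3 : |Real.sin (2 * Real.pi * L * z.re) - Real.sin (2 * Real.pi * L * w.re)| ≤
      2 * Real.pi * L * ‖z - w‖ := by
    refine (famD_sin _ _).trans ?_
    rw [← mul_sub, abs_mul, abs_of_nonneg hK]
    refine mul_le_mul_of_nonneg_left ?_ hK
    have := Complex.abs_re_le_norm (z - w)
    rwa [Complex.sub_re] at this
  have h4 : |Real.sin (2 * Real.pi * L * z.im) - Real.sin (2 * Real.pi * L * w.im)| ≤
      2 * Real.pi * L * ‖z - w‖ := by
    refine (famD_sin _ _).trans ?_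
    rw [← mul_sub, abs_mul, abs_of_nonneg hK]
    refine mul_le_mul_of_nonneg_left ?_ hK
    have := Complex.abs_im_le_norm (z - w)
    rwa [Complex.sub_im] at this
  have h5 : ‖(((Real.sin (2 * Real.pi * L * z.re) - Real.sin (2 * Real.pi * L * w.re) : ℝ) : ℂ)
      + Complex.I * ((Real.sin (2 * Real.pi * L * z.im) - Real.sin (2 * Real.pi * L * w.im) : ℝ) : ℂ))‖
      ≤ 2 * (2 * Real.pi * L * ‖z - w‖) := by
    refine (norm_add_le _ _).trans ?_
    rw [norm_mul, Complex.norm_I, one_mul, Complex.norm_real, Complex.norm_real, Real.norm_eq_abs,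
      Real.norm_eq_abs]
    linarith
  rw [h1, norm_mul, norm_mul, Complex.norm_real, Real.norm_eq_abs]
  have h6 : 0 ≤ ‖z - w‖ := norm_nonneg _
  calc |η| * (‖(1 - Complex.I : ℂ)‖ * _) ≤ |η| * (2 * (2 * (2 * Real.pi * L * ‖z - w‖))) := by
        refine mul_le_mul_of_nonneg_left ?_ (abs_nonneg _)
        exact mul_le_mul h2 h5 (norm_nonneg _) (by norm_num)
    _ = (2 * Real.pi * L * |η|) * (4 * ‖z - w‖) := by ring
    _ ≤ 1 / 8 * (4 * ‖z - w‖) := mul_le_mul_of_nonneg_right h (by positivity)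
    _ = 1 / 2 * ‖z - w‖ := by ring

theorem famD_smooth (L : ℕ) (η : ℝ) : ContDiff ℝ ∞ (liftL L η) :=
  contDiff_id.add (contDiff_const.mul (contDiff_sF L))

theorem famD_equiv (L : ℕ) (η : ℝ) (z : ℂ) (a b : ℤ) :
    liftL L η (z + ((a : ℂ) + (b : ℂ) * Complex.I)) = liftL L η z + ((a : ℂ) + (b : ℂ) * Complex.I) := by
  unfold liftL
  rw [sF_add_int]
  ring

/-- an equivariant map of the plane descends to the torus -/
theorem famD_descend {F : ℂ → ℂ} (h : ∀ (z : ℂ) (a b : ℤ),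
    F (z + ((a : ℂ) + (b : ℂ) * Complex.I)) = F z + ((a : ℂ) + (b : ℂ) * Complex.I)) :
    ∃ G : T2 → T2, IsLift F G := by
  choose s hs using pr_surjective
  refine ⟨fun p => pr (F (s p)), fun z => ?_⟩
  obtain ⟨a, b, hab⟩ := (pr_eq_iff (s (pr z)) z).1 (hs (pr z))
  show pr (F (s (pr z))) = pr (F z)
  rw [hab, h, pr_add_int]

/-- The torus map with lift `liftL L η` is a smooth diffeomorphism with smooth inverse if
`2πLη` is small: the lift is `id` plus a Lipschitz map with constant `< 1`, so it is a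
homeomorphism of the plane (e.g. `ApproximatesLinearOn.toHomeomorph`), its inverse is smooth
(`OpenPartialHomeomorph.contDiffAt_symm` or `ContDiffAt.to_localInverse`) and commutes
with the integer translations. -/
theorem fam_diffeo {L : ℕ} {η : ℝ} (h : 2 * Real.pi * L * |η| ≤ 1 / 8) :
    ∃ (G G' : T2 → T2) (Gh' : ℂ → ℂ), IsLift (liftL L η) G ∧ ContDiff ℝ ∞ Gh' ∧ IsLift Gh' G' ∧
      (∀ p, G' (G p) = p) ∧ (∀ p, G (G' p) = p) := by
  have hF : ApproximatesLinearOn (liftL L η) ((ContinuousLinearEquiv.refl ℝ ℂ : ℂ ≃L[ℝ] ℂ) : ℂ →L[ℝ] ℂ)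
      univ (1 / 2 : NNReal) := by
    intro z _ w _
    have h1 : liftL L η z - liftL L η w -
        ((ContinuousLinearEquiv.refl ℝ ℂ : ℂ ≃L[ℝ] ℂ) : ℂ →L[ℝ] ℂ) (z - w) =
        (η : ℂ) * sF L z - (η : ℂ) * sF L w := by
      show liftL L η z - liftL L η w - (z - w) = _
      unfold liftL
      ring
    rw [h1]
    have h2 : ((1 / 2 : NNReal) : ℝ) = 1 / 2 := by push_cast; rfl
    rw [h2]
    exact famD_lip h z w
  have hc : Subsingleton ℂ ∨ (1 / 2 : NNReal) <
      ‖((ContinuousLinearEquiv.refl ℝ ℂ : ℂ ≃L[ℝ] ℂ).symm : ℂ →L[ℝ] ℂ)‖₊⁻¹ := by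
    right
    have h1 : ((ContinuousLinearEquiv.refl ℝ ℂ : ℂ ≃L[ℝ] ℂ).symm : ℂ →L[ℝ] ℂ) =
        ContinuousLinearMap.id ℝ ℂ := rfl
    rw [h1]
    have h2 : ‖ContinuousLinearMap.id ℝ ℂ‖₊ = 1 := by
      apply NNReal.eq
      exact ContinuousLinearMap.norm_id
    rw [h2, inv_one]
    exact NNReal.half_lt_self one_ne_zero
  let e : ℂ ≃ₜ ℂ := hF.toHomeomorph (liftL L η) hc
  have he : ∀ z, e z = liftL L η z := fun z => rfl
  have hsm : ContDiff ℝ ∞ (e : ℂ → ℂ) := famD_smooth L η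
  have hinj : ∀ a : ℂ, Function.Injective (fderiv ℝ (liftL L η) a : ℂ →L[ℝ] ℂ) := by
    intro a
    have hd : DifferentiableAt ℝ (fun z => (η : ℂ) * sF L z) a :=
      ((contDiff_const.mul (contDiff_sF L)).differentiable (by simp)) a
    have h1 : fderiv ℝ (liftL L η) a = ContinuousLinearMap.id ℝ ℂ +
        fderiv ℝ (fun z => (η : ℂ) * sF L z) a := by
      have h2 : HasFDerivAt (fun z : ℂ => z + (η : ℂ) * sF L z) (ContinuousLinearMap.id ℝ ℂ +
        fderiv ℝ (fun z => (η : ℂ) * sF L z) a) a := (hasFDerivAt_id a).add hd.hasFDerivAt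
      exact h2.fderiv
    have hlip : LipschitzWith (1 / 2 : NNReal) (fun z => (η : ℂ) * sF L z) := by
      refine LipschitzWith.of_dist_le_mul fun z w => ?_
      rw [dist_eq_norm, dist_eq_norm]
      have h2 : ((1 / 2 : NNReal) : ℝ) = 1 / 2 := by push_cast; rfl
      rw [h2]
      exact famD_lip h z w
    have h3 : ‖fderiv ℝ (fun z => (η : ℂ) * sF L z) a‖ ≤ 1 / 2 := by
      have := norm_fderiv_le_of_lipschitz ℝ hlip (x₀ := a)
      have h2 : ((1 / 2 : NNReal) : ℝ) = 1 / 2 := by push_cast; rfl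
      rwa [h2] at this
    refine (injective_iff_map_eq_zero _).2 fun v hv => ?_
    rw [h1] at hv
    have h4 : v = -(fderiv ℝ (fun z => (η : ℂ) * sF L z) a v) := eq_neg_of_add_eq_zero_left hv
    have h5 : ‖v‖ ≤ 1 / 2 * ‖v‖ := by
      calc ‖v‖ = ‖fderiv ℝ (fun z => (η : ℂ) * sF L z) a v‖ := by
            conv_lhs => rw [h4]
            rw [norm_neg]
        _ ≤ ‖fderiv ℝ (fun z => (η : ℂ) * sF L z) a‖ * ‖v‖ := ContinuousLinearMap.le_opNorm _ _
        _ ≤ 1 / 2 * ‖v‖ := mul_le_mul_of_nonneg_right h3 (norm_nonneg _)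
    have h6 : ‖v‖ = 0 := by
      have := norm_nonneg v
      linarith
    exact norm_eq_zero.1 h6
  let A : ℂ → ℂ ≃L[ℝ] ℂ := fun a =>
    (LinearEquiv.ofInjectiveEndo (fderiv ℝ (liftL L η) a : ℂ →ₗ[ℝ] ℂ) (hinj a)).toContinuousLinearEquiv
  have hA : ∀ a, HasFDerivAt e (A a : ℂ →L[ℝ] ℂ) a := by
    intro a
    have h1 : HasFDerivAt (liftL L η) (fderiv ℝ (liftL L η) a) a :=
      (((famD_smooth L η).differentiable (by simp)) a).hasFDerivAt
    have h2 : (A a : ℂ →L[ℝ] ℂ) = fderiv ℝ (liftL L η) a := by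
      ext v
      rfl
    rw [h2]
    exact h1
  have hsm' : ContDiff ℝ ∞ (e.symm : ℂ → ℂ) := e.contDiff_symm hA hsm
  obtain ⟨G, hG⟩ := famD_descend (famD_equiv L η)
  have heq' : ∀ (z : ℂ) (a b : ℤ),
      e.symm (z + ((a : ℂ) + (b : ℂ) * Complex.I)) = e.symm z + ((a : ℂ) + (b : ℂ) * Complex.I) := by
    intro z a b
    rw [Homeomorph.symm_apply_eq, he, famD_equiv, ← he, e.apply_symm_apply]
  obtain ⟨G', hG'⟩ := famD_descend heq'
  refine ⟨G, G', e.symm, hG, hsm', hG', ?_, ?_⟩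
  · intro p
    obtain ⟨z, rfl⟩ := pr_surjective p
    rw [hG z, hG', ← he, e.symm_apply_apply]
  · intro p
    obtain ⟨z, rfl⟩ := pr_surjective p
    rw [hG' z, hG, ← he, e.apply_symm_apply]

end TotRen
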