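import Pool.Agent.W_MP_f70009_h24.Statement

/-!
# Basic lemmas on `C^∞(𝕋², ℝ²)` and `Diff^∞(𝕋²)`
-/

open scoped ContDiff Topology
open Set Filter

namespace TotRen

theorem up_smooth (u : Fld) : ContDiff ℝ ∞ (up u) := u.smooth

theorem Fld.ext' {u v : Fld} (h : u.val = v.val) : u = v := by
  cases u; cases v; simpa using h

theorem up_add (u v : Fld) : up (u + v) = up u + up v := rfl
theorem up_sub (u v : Fld) : up (u - v) = up u - up v := rfl
theorem up_smul (c : ℝ) (u : Fld) : up (c • u) = c • up u := rfl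

noncomputable instance : AddCommGroup Fld where
  add_assoc u v w := Fld.ext' (by funext q; exact add_assoc (u.val q) (v.val q) (w.val q))
  zero_add u := Fld.ext' (by funext q; exact zero_add (u.val q))
  add_zero u := Fld.ext' (by funext q; exact add_zero (u.val q))
  neg_add_cancel u := Fld.ext' (by funext q; exact neg_add_cancel (u.val q))
  add_comm u v := Fld.ext' (by funext q; exact add_comm (u.val q) (v.val q))
  sub := Sub.sub
  sub_eq_add_neg u v := Fld.ext' (by funext q; exact sub_eq_add_neg (u.val q) (v.val q))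
  nsmul := nsmulRec
  zsmul := zsmulRec

noncomputable instance : Module ℝ Fld where
  one_smul u := Fld.ext' (by funext q; exact one_smul ℝ (u.val q))
  mul_smul a b u := Fld.ext' (by funext q; exact mul_smul a b (u.val q))
  smul_zero a := Fld.ext' (by funext q; exact smul_zero a)
  smul_add a u v := Fld.ext' (by funext q; exact smul_add a (u.val q) (v.val q))
  add_smul a b u := Fld.ext' (by funext q; exact add_smul a b (u.val q))
  zero_smul u := Fld.ext' (by funext q; exact zero_smul ℝ (u.val q))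

theorem SmallC.add {r : ℕ} {ε ε' : ℝ} {u v : Fld} (h : SmallC r ε u) (h' : SmallC r ε' v) :
    SmallC r (ε + ε') (u + v) := by
  intro k hk z
  rw [up_add]
  have h1 : iteratedFDeriv ℝ k (up u + up v) z
      = iteratedFDeriv ℝ k (up u) z + iteratedFDeriv ℝ k (up v) z := by
    apply iteratedFDeriv_add_apply
    · exact ((up_smooth u).of_le (by exact_mod_cast le_top)).contDiffAt
    · exact ((up_smooth v).of_le (by exact_mod_cast le_top)).contDiffAt
  rw [h1]
  exact (norm_add_le _ _).trans_lt (add_lt_add (h k hk z) (h' k hk z))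

theorem SmallC.zero (r : ℕ) {ε : ℝ} (hε : 0 < ε) : SmallC r ε 0 := by
  intro k hk z
  have : up (0 : Fld) = fun _ => 0 := rfl
  rw [this]
  have h : iteratedFDeriv ℝ k (fun _ : ℂ => (0 : ℂ)) = 0 := iteratedFDeriv_fun_zero
  rw [h]
  simpa using hε

theorem isOpen_fld_iff {U : Set Fld} :
    IsOpen U ↔ ∀ u ∈ U, ∃ (r : ℕ) (ε : ℝ), 0 < ε ∧ ∀ w, SmallC r ε (w - u) → w ∈ U := Iff.rfl

theorem mem_nhds_fld_iff {u : Fld} {N : Set Fld} :
    N ∈ 𝓝 u ↔ ∃ (r : ℕ) (ε : ℝ), 0 < ε ∧ ∀ w, SmallC r ε (w - u) → w ∈ N := by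
  rw [_root_.mem_nhds_iff]
  constructor
  · rintro ⟨U, hUN, hU, hu⟩
    obtain ⟨r, ε, hε, h⟩ := hU u hu
    exact ⟨r, ε, hε, fun w hw => hUN (h w hw)⟩
  · rintro ⟨r, ε, hε, h⟩
    refine ⟨{w | ∃ θ, θ < ε ∧ SmallC r θ (w - u)}, ?_, ?_, ?_⟩
    · rintro w ⟨θ, hθ, hw⟩
      exact h w (hw.mono le_rfl hθ.le)
    · rintro w ⟨θ, hθ, hw⟩
      refine ⟨r, (ε - θ) / 2, by linarith, fun w' hw' => ⟨θ + (ε - θ) / 2, by linarith, ?_⟩⟩
      have : w' - u = (w - u) + (w' - w) := by abel
      rw [this]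
      exact hw.add hw'
    · refine ⟨ε / 2, by linarith, ?_⟩
      rw [sub_self]
      exact SmallC.zero r (by linarith)

theorem Diffeo.ext' {f g : Diffeo} (h : f.toFun = g.toFun) : f = g := by
  have h2 : f.invFun = g.invFun := by
    funext p
    have h3 := g.right_inv p
    rw [← h] at h3
    calc f.invFun p = f.invFun (f.toFun (g.invFun p)) := by rw [h3]
      _ = g.invFun p := f.left_inv _
  cases f; cases g
  simp only [Diffeo.mk.injEq]
  exact ⟨h, h2⟩

theorem isOpen_diffeo_iff {U : Set Diffeo} : IsOpen U ↔ ∀ f ∈ U, ∃ (r : ℕ) (ε : ℝ), 0 < ε ∧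
    ∀ u g, SmallC r ε u → IsTranslate f u g → g ∈ U := Iff.rfl

end TotRen
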