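import Pool.Agent.W_MP_f70009_h24.Core
import Pool.Agent.W_MP_f70009_h24.StatementB
import Pool.Agent.W_MP_f70009_h24.FamilyC
import Pool.Agent.W_MP_f70009_h24.FamilyD

/-!
# The explicit curves in `Diff^∞(𝕋²)` and the theorem for curve-smooth maps
-/

open scoped ContDiff Topology
open Set Filter

namespace TotRen

theorem pr_add (z w : ℂ) : pr (z + w) = pr z + pr w := by
  simp only [pr, Complex.add_re, Complex.add_im, AddCircle.coe_add]
  rfl

theorem pr_zero : pr 0 = 0 := by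
  simp only [pr, Complex.zero_re, Complex.zero_im, AddCircle.coe_zero]
  rfl

/-- a smooth `ℤ²`-periodic function descends to an element of `C^∞(𝕋², ℝ²)` -/
noncomputable def toFld (u : ℂ → ℂ) (hu : ContDiff ℝ ∞ u)
    (hper : ∀ z, ∀ a b : ℤ, u (z + ((a : ℂ) + (b : ℂ) * Complex.I)) = u z) : Fld :=
  ⟨fun q => u (Function.surjInv pr_surjective q), by
    show ContDiff ℝ ∞ (fun z => u (Function.surjInv pr_surjective (pr z)))
    have h : (fun z => u (Function.surjInv pr_surjective (pr z))) = u := by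
      funext z
      obtain ⟨a, b, hab⟩ := (pr_eq_iff _ _).mp (Function.surjInv_eq pr_surjective (pr z))
      rw [hab, hper]
    rw [h]; exact hu⟩

theorem up_toFld (u : ℂ → ℂ) (hu : ContDiff ℝ ∞ u)
    (hper : ∀ z, ∀ a b : ℤ, u (z + ((a : ℂ) + (b : ℂ) * Complex.I)) = u z) :
    up (toFld u hu hper) = u := by
  funext z
  show u (Function.surjInv pr_surjective (pr z)) = u z
  obtain ⟨a, b, hab⟩ := (pr_eq_iff _ _).mp (Function.surjInv_eq pr_surjective (pr z))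
  rw [hab, hper]

/-- the trigonometric field as an element of `C^∞(𝕋², ℝ²)` -/
noncomputable def sFld (L : ℕ) : Fld := toFld (sF L) (contDiff_sF L) (sF_add_int L)

theorem up_sFld (L : ℕ) : up (sFld L) = sF L := up_toFld _ _ _

/-- the torus diffeomorphism with lift `liftL L η` -/
noncomputable def famMap (L : ℕ) (η : ℝ) (h : 2 * Real.pi * L * |η| ≤ 1 / 8) : Diffeo :=
  let G := (fam_diffeo h).choose
  let G' := (fam_diffeo h).choose_spec.choose
  let Gh' := (fam_diffeo h).choose_spec.choose_spec.choose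
  have hs := (fam_diffeo h).choose_spec.choose_spec.choose_spec
  { toFun := G
    invFun := G'
    left_inv := hs.2.2.2.1
    right_inv := hs.2.2.2.2
    smooth_toFun := ⟨liftL L η, by
      have := contDiff_sF L
      unfold liftL
      fun_prop, hs.1⟩
    smooth_invFun := ⟨Gh', hs.2.1, hs.2.2.1⟩ }

theorem famMap_lift (L : ℕ) (η : ℝ) (h : 2 * Real.pi * L * |η| ≤ 1 / 8) :
    IsLift (liftL L η) (famMap L η h).toFun :=
  (fam_diffeo h).choose_spec.choose_spec.choose_spec.1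

theorem famMap_translate (L : ℕ) (η : ℝ) (h : 2 * Real.pi * L * |η| ≤ 1 / 8) :
    IsTranslate Diffeo.one (η • sFld L) (famMap L η h) := by
  intro q
  obtain ⟨z, rfl⟩ := pr_surjective q
  rw [famMap_lift L η h z, liftL, pr_add]
  congr 1
  show pr ((η : ℂ) * sF L z) = pr (up (η • sFld L) z)
  rw [up_smul, up_sFld]
  simp [Complex.real_smul]

/-- The neighbourhood `{g | g = id ⊕ u, ‖D^k u‖ < ρ for k ≤ r}` of the identity. -/
def ballN (r : ℕ) (ρ : ℝ) : Set Diffeo := {g | ∃ u, SmallC r ρ u ∧ IsTranslate Diffeo.one u g}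

theorem ballN_mem_nhds (r : ℕ) {ρ : ℝ} (hρ : 0 < ρ) : ballN r ρ ∈ 𝓝 Diffeo.one := by
  rw [_root_.mem_nhds_iff]
  refine ⟨{g | ∃ θ, θ < ρ ∧ ∃ u, SmallC r θ u ∧ IsTranslate Diffeo.one u g}, ?_, ?_, ?_⟩
  · rintro g ⟨θ, hθ, u, hu, hg⟩
    exact ⟨u, hu.mono le_rfl hθ.le, hg⟩
  · rw [isOpen_diffeo_iff]
    rintro g ⟨θ, hθ, u, hu, hg⟩
    refine ⟨r, (ρ - θ) / 2, by linarith, fun w g' hw hg' =>
      ⟨θ + (ρ - θ) / 2, by linarith, u + w, hu.add hw, fun q => ?_⟩⟩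
    rw [hg' q, hg q]
    show Diffeo.one.toFun q + pr (u.val q) + pr (w.val q) = Diffeo.one.toFun q + pr (u.val q + w.val q)
    rw [pr_add, add_assoc]
  · exact ⟨ρ / 2, by linarith, 0, SmallC.zero r (by linarith), fun q => by
      show Diffeo.one.toFun q = Diffeo.one.toFun q + pr 0
      rw [pr_zero, add_zero]⟩

/-- The explicit curves: for every neighbourhood `N₀` of the identity there are `R` and `ε₁` such that
all the maps with lift `liftL L (ε₁ / L ^ R * sin s)` are in the interior of `N₀`. -/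
theorem exists_params {N₀ : Set Diffeo} (hN₀ : N₀ ∈ 𝓝 Diffeo.one) :
    ∃ (R : ℕ) (ε₁ : ℝ), 1 ≤ R ∧ 0 < ε₁ ∧ 2 * Real.pi * ε₁ ≤ 1 / 8 ∧
      ∀ L : ℕ, 1 ≤ L → ∀ s : ℝ, ∃ h : 2 * Real.pi * L * |ε₁ / (L : ℝ) ^ R * Real.sin s| ≤ 1 / 8,
        famMap L (ε₁ / (L : ℝ) ^ R * Real.sin s) h ∈ interior N₀ := by
  have hint : interior N₀ ∈ 𝓝 Diffeo.one := interior_mem_nhds.mpr hN₀
  obtain ⟨r, ε, hε, hr⟩ := (isOpen_diffeo_iff.mp isOpen_interior) Diffeo.one
    (mem_of_mem_nhds hint)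
  set R := max r 1 with hR
  have hR1 : 1 ≤ R := le_max_right _ _
  have hrR : r ≤ R := le_max_left _ _
  obtain ⟨K, hK, hsm⟩ := sF_small R
  have hpi := Real.pi_pos
  set ε₁ := min (ε / (2 * K)) (1 / (16 * Real.pi)) with hε₁
  have hε₁0 : 0 < ε₁ := lt_min (by positivity) (by positivity)
  have hε₁1 : ε₁ ≤ 1 / (16 * Real.pi) := min_le_right _ _
  have hε₁2 : ε₁ ≤ ε / (2 * K) := min_le_left _ _
  have h16 : 2 * Real.pi * ε₁ ≤ 1 / 8 := by
    calc 2 * Real.pi * ε₁ ≤ 2 * Real.pi * (1 / (16 * Real.pi)) := by gcongr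
      _ = 1 / 8 := by field_simp; norm_num
  refine ⟨R, ε₁, hR1, hε₁0, h16, fun L hL s => ?_⟩
  have hL1 : (1 : ℝ) ≤ L := by exact_mod_cast hL
  have hLR : (L : ℝ) / (L : ℝ) ^ R ≤ 1 := by
    rw [div_le_one (by positivity)]
    calc (L : ℝ) = (L : ℝ) ^ 1 := (pow_one _).symm
      _ ≤ (L : ℝ) ^ R := pow_le_pow_right₀ hL1 hR1
  have habs : |ε₁ / (L : ℝ) ^ R * Real.sin s| ≤ ε₁ / (L : ℝ) ^ R := by
    rw [abs_mul, abs_of_nonneg (by positivity : 0 ≤ ε₁ / (L : ℝ) ^ R)]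
    calc ε₁ / (L : ℝ) ^ R * |Real.sin s| ≤ ε₁ / (L : ℝ) ^ R * 1 := by
          have := Real.abs_sin_le_one s
          gcongr
      _ = _ := mul_one _
  have hle : 2 * Real.pi * L * |ε₁ / (L : ℝ) ^ R * Real.sin s| ≤ 1 / 8 := by
    calc 2 * Real.pi * L * |ε₁ / (L : ℝ) ^ R * Real.sin s|
        ≤ 2 * Real.pi * L * (ε₁ / (L : ℝ) ^ R) := by gcongr
      _ = 2 * Real.pi * ε₁ * ((L : ℝ) / (L : ℝ) ^ R) := by ring
      _ ≤ 2 * Real.pi * ε₁ * 1 := by gcongr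
      _ ≤ 1 / 8 := by linarith
  refine ⟨hle, hr _ _ ?_ (famMap_translate L _ hle)⟩
  intro k hk z
  rw [up_smul, up_sFld]
  have h1 : iteratedFDeriv ℝ k ((ε₁ / (L : ℝ) ^ R * Real.sin s) • sF L) z
      = (ε₁ / (L : ℝ) ^ R * Real.sin s) • iteratedFDeriv ℝ k (sF L) z := by
    apply iteratedFDeriv_const_smul_apply
    exact ((contDiff_sF L).of_le (by exact_mod_cast le_top)).contDiffAt
  rw [h1, norm_smul, Real.norm_eq_abs]
  have h2 := hsm L hL k (hk.trans hrR) z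
  calc |ε₁ / (L : ℝ) ^ R * Real.sin s| * ‖iteratedFDeriv ℝ k (sF L) z‖
      ≤ (ε₁ / (L : ℝ) ^ R) * (K * (L : ℝ) ^ R) := by gcongr
    _ = ε₁ * K := by field_simp
    _ ≤ ε / (2 * K) * K := by gcongr
    _ = ε / 2 := by field_simp
    _ < ε := by linarith

/-- the main contradiction in terms of the curves in `Diff^∞(𝕋²)` -/
theorem main_contradiction {R : ℕ} {ε₁ : ℝ} (hR : 1 ≤ R) (hε₁ : 0 < ε₁)
    (h16 : 2 * Real.pi * ε₁ ≤ 1 / 8)
    (hle : ∀ L : ℕ, 1 ≤ L → ∀ s : ℝ, 2 * Real.pi * L * |ε₁ / (L : ℝ) ^ R * Real.sin s| ≤ 1 / 8)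
    {ρ : ℝ} (hρ : ρ ≤ 1) (I : Diffeo → Diffeo)
    (hI : ∀ L (hL : 1 ≤ L) (s : ℝ),
      I (famMap L (ε₁ / (L : ℝ) ^ R * Real.sin s) (hle L hL s)) ∈ ballN (4 * R + 2) ρ ∧
      IsTotalRenormalization (I (famMap L (ε₁ / (L : ℝ) ^ R * Real.sin s) (hle L hL s))).toFun
        (famMap L (ε₁ / (L : ℝ) ^ R * Real.sin s) (hle L hL s)).toFun)
    (hc : ∀ L (hL : 1 ≤ L),
      SmoothCurve (fun s => I (famMap L (ε₁ / (L : ℝ) ^ R * Real.sin s) (hle L hL s)))) :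
    False := by
  classical
  choose! Φ hΦ using hc
  have hone : ∀ L (hL : 1 ≤ L), famMap L (ε₁ / (L : ℝ) ^ R * Real.sin 0) (hle L hL 0)
      = Diffeo.one := by
    intro L hL
    apply Diffeo.ext'
    funext q
    obtain ⟨z, rfl⟩ := pr_surjective q
    rw [famMap_lift L _ (hle L hL 0) z]
    simp [liftL, Diffeo.one]
  refine core R hR ε₁ hε₁ h16 Φ
    (fun L s => if hL : 1 ≤ L then
      (I (famMap L (ε₁ / (L : ℝ) ^ R * Real.sin s) (hle L hL s))).toFun else id)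
    (fun L s => if hL : 1 ≤ L then
      (famMap L (ε₁ / (L : ℝ) ^ R * Real.sin s) (hle L hL s)).toFun else id)
    (I Diffeo.one).toFun ?_ ?_ ?_ ?_ ?_ ?_
  · intro L hL
    exact (hΦ L hL).1
  · intro L hL s
    simp only [dif_pos hL]
    exact (hΦ L hL).2 s
  · intro L hL s
    simp only [dif_pos hL]
    obtain ⟨u, hu, htr⟩ := (hI L hL s).1
    refine ⟨fun z => z + up u z, contDiff_id.add (up_smooth u), ?_, ?_⟩
    · intro z
      rw [htr (pr z), pr_add]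
      rfl
    · intro k hk z
      have : (fun w => (w + up u w) - w) = up u := by
        funext w; ring
      rw [this]
      exact ((hu k hk z).trans_le hρ).le
  · intro L hL
    simp only [dif_pos hL]
    rw [hone L hL]
  · intro L hL s
    simp only [dif_pos hL]
    exact famMap_lift L _ _
  · intro L hL s
    simp only [dif_pos hL]
    exact (hI L hL s).2

/-- smooth curves of the explicit maps -/
theorem smoothCurve_fam {R : ℕ} {ε₁ : ℝ} (L : ℕ)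
    (hle : ∀ s : ℝ, 2 * Real.pi * L * |ε₁ / (L : ℝ) ^ R * Real.sin s| ≤ 1 / 8) :
    SmoothCurve (fun s => famMap L (ε₁ / (L : ℝ) ^ R * Real.sin s) (hle s)) := by
  refine ⟨fun q => liftL L (ε₁ / (L : ℝ) ^ R * Real.sin q.1) q.2, ?_, fun s => famMap_lift L _ _⟩
  have h := contDiff_sF L
  unfold liftL
  have h1 : ContDiff ℝ ∞ (fun q : ℝ × ℂ => sF L q.2) := h.comp contDiff_snd
  have h2 : ContDiff ℝ ∞ (fun q : ℝ × ℂ => ((ε₁ / (L : ℝ) ^ R * Real.sin q.1 : ℝ) : ℂ)) := by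
    have h3 : ContDiff ℝ ∞ (fun q : ℝ × ℂ => ε₁ / (L : ℝ) ^ R * Real.sin q.1) :=
      contDiff_const.mul (Real.contDiff_sin.comp contDiff_fst)
    exact Complex.ofRealCLM.contDiff.comp h3
  exact contDiff_snd.add (h2.mul h1)

/-- **Negative answer, curve-smooth maps.** -/
theorem result_curve (N₀ : Set Diffeo) (hN₀ : N₀ ∈ 𝓝 Diffeo.one) :
    ∃ r : ℕ, ∀ ρ : ℝ, 0 < ρ → ρ ≤ 1 → ∀ I : Diffeo → Diffeo,
      (∀ G ∈ N₀, I G ∈ ballN r ρ ∧ IsTotalRenormalization (I G).toFun G.toFun) →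
      ¬ CurveSmoothOn N₀ I := by
  obtain ⟨R, ε₁, hR, hε₁, h16, hfam⟩ := exists_params hN₀
  refine ⟨4 * R + 2, fun ρ hρ hρ1 => ?_⟩
  intro I hI hcurve
  have hle : ∀ L : ℕ, 1 ≤ L → ∀ s : ℝ,
      2 * Real.pi * L * |ε₁ / (L : ℝ) ^ R * Real.sin s| ≤ 1 / 8 := fun L hL s => (hfam L hL s).1
  have hmem : ∀ L (hL : 1 ≤ L) (s : ℝ),
      famMap L (ε₁ / (L : ℝ) ^ R * Real.sin s) (hle L hL s) ∈ N₀ := fun L hL s =>
    interior_subset (hfam L hL s).2
  exact main_contradiction hR hε₁ h16 hle hρ1 I (fun L hL s => hI _ (hmem L hL s))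
    (fun L hL => hcurve _ (smoothCurve_fam L (hle L hL)) (hmem L hL))

end TotRen
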