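import Pool.Agent.W_MP_f70009_h24.FinalA
import Pool.Agent.W_MP_f70009_h24.Curve

/-!
# Fréchet-smooth maps of `Diff^∞(𝕋²)` map the explicit curves to smooth curves
-/

open scoped ContDiff Topology
open Set Filter

namespace TotRen

theorem up_add_int (u : Fld) (z : ℂ) (a b : ℤ) :
    up u (z + ((a : ℂ) + (b : ℂ) * Complex.I)) = up u z := by
  show u.val (pr _) = u.val (pr z)
  rw [pr_add_int]

theorem fld_bound_k (u : Fld) (k : ℕ) : ∃ M : ℝ, ∀ z : ℂ, ‖iteratedFDeriv ℝ k (up u) z‖ ≤ M := by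
  have hcont : Continuous (fun z : ℂ => iteratedFDeriv ℝ k (up u) z) :=
    (up_smooth u).continuous_iteratedFDeriv (by exact_mod_cast le_top)
  have hK : IsCompact ((Icc (0 : ℝ) 1) ×ℂ (Icc (0 : ℝ) 1)) := isCompact_Icc.reProdIm isCompact_Icc
  obtain ⟨M, hM⟩ := hK.exists_bound_of_continuousOn hcont.continuousOn
  refine ⟨M, fun z => ?_⟩
  obtain ⟨c, hc⟩ : ∃ c : ℂ, c = ((⌊z.re⌋ : ℤ) : ℂ) + ((⌊z.im⌋ : ℤ) : ℂ) * Complex.I := ⟨_, rfl⟩
  have hper : (fun w : ℂ => up u (w + c)) = up u := by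
    funext w
    rw [hc]
    exact up_add_int u w _ _
  have h1 := iteratedFDeriv_comp_add_right (𝕜 := ℝ) (f := up u) k c (z - c)
  rw [hper, sub_add_cancel] at h1
  rw [← h1]
  refine hM (z - c) ?_
  rw [Complex.mem_reProdIm]
  have e1 : (z - c).re = z.re - ⌊z.re⌋ := by rw [hc]; simp
  have e2 : (z - c).im = z.im - ⌊z.im⌋ := by rw [hc]; simp
  rw [e1, e2]
  have f1 := Int.floor_le z.re
  have f2 := Int.lt_floor_add_one z.re
  have f3 := Int.floor_le z.im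
  have f4 := Int.lt_floor_add_one z.im
  exact ⟨⟨by linarith, by linarith⟩, ⟨by linarith, by linarith⟩⟩

theorem fld_bound (u : Fld) (r : ℕ) : ∃ M : ℝ, 0 < M ∧ ∀ k ≤ r, ∀ z : ℂ,
    ‖iteratedFDeriv ℝ k (up u) z‖ ≤ M := by
  choose M hM using fld_bound_k u
  have hM0 : ∀ k, 0 ≤ M k := fun k => (norm_nonneg _).trans (hM k 0)
  refine ⟨∑ k ∈ Finset.range (r + 1), M k + 1, ?_, fun k hk z => ?_⟩
  · have := Finset.sum_nonneg fun k (_ : k ∈ Finset.range (r + 1)) => hM0 k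
    linarith
  · have h5 : M k ≤ ∑ k ∈ Finset.range (r + 1), M k :=
      Finset.single_le_sum (f := M) (fun i _ => hM0 i) (Finset.mem_range.2 (by omega))
    linarith [hM k z]

theorem smul_small (u : Fld) (r : ℕ) {ε : ℝ} (hε : 0 < ε) :
    ∃ δ > 0, ∀ t : ℝ, |t| < δ → SmallC r ε (t • u) := by
  obtain ⟨M, hM0, hM⟩ := fld_bound u r
  refine ⟨ε / M, by positivity, fun t ht k hk z => ?_⟩
  rw [up_smul]
  have h1 : iteratedFDeriv ℝ k (t • up u) z = t • iteratedFDeriv ℝ k (up u) z := by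
    apply iteratedFDeriv_const_smul_apply
    exact ((up_smooth u).of_le (by exact_mod_cast le_top)).contDiffAt
  rw [h1, norm_smul, Real.norm_eq_abs]
  calc |t| * ‖iteratedFDeriv ℝ k (up u) z‖ ≤ |t| * M := by gcongr; exact hM k hk z
    _ < ε / M * M := by gcongr
    _ = ε := by field_simp

theorem continuous_line (w : Fld) : Continuous (fun t : ℝ => t • w) := by
  rw [continuous_iff_continuousAt]
  intro t N hN
  obtain ⟨r, ε, hε, h⟩ := mem_nhds_fld_iff.mp hN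
  obtain ⟨δ, hδ, hsm⟩ := smul_small w r hε
  rw [mem_map, Metric.mem_nhds_iff]
  refine ⟨δ, hδ, fun t' ht' => h _ ?_⟩
  have h3 : (t' - t) • w = t' • w - t • w := sub_smul t' t w
  have h4 : SmallC r ε ((t' - t) • w) := hsm _ (by
    rwa [Metric.mem_ball, Real.dist_eq] at ht')
  rw [h3] at h4
  exact h4

theorem snoc_const (k : ℕ) (w : Fld) :
    (Fin.snoc (fun _ : Fin k => w) w : Fin (k + 1) → Fld) = fun _ => w := by
  funext i
  unfold Fin.snoc
  split_ifs <;> rfl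

/-- A Hamilton-smooth map sends line segments to jointly smooth curves. -/
theorem hamilton_curve {U : Set Fld} {v : Fld → Fld} (hv : HamiltonSmoothOn U v)
    (w : Fld) {a b : ℝ} (hseg : ∀ t ∈ Ioo a b, t • w ∈ U) :
    ContDiffOn ℝ ∞ (fun q : ℝ × ℂ => up (v (q.1 • w)) q.2) (Ioo a b ×ˢ univ) := by
  obtain ⟨D, hD0, hDc, hDd⟩ := hv
  have key : ContDiffOn ℝ ∞
      (fun q : ℝ × ℂ => (fun j t => up (D j (t • w) (fun _ => w))) 0 q.1 q.2)
      (Ioo a b ×ˢ univ) := by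
    apply jointly_smooth (fun j t => up (D j (t • w) (fun _ => w)))
    · intro j t _
      exact up_smooth _
    · intro j t ht r ε hε
      have hc : ContinuousWithinAt (fun p : Fld × (Fin j → Fld) => D j p.1 p.2) (U ×ˢ univ)
          (t • w, fun _ => w) := hDc j _ ⟨hseg t ht, mem_univ _⟩
      have hline : ContinuousAt (fun s : ℝ => ((s • w, fun _ => w) : Fld × (Fin j → Fld))) t :=
        ((continuous_line w).prodMk continuous_const).continuousAt
      have hmem : ∀ᶠ s in 𝓝 t, ((s • w, fun _ => w) : Fld × (Fin j → Fld)) ∈ U ×ˢ univ := by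
        filter_upwards [Ioo_mem_nhds ht.1 ht.2] with s hs
        exact ⟨hseg s hs, mem_univ _⟩
      have h1 : Tendsto (fun s : ℝ => D j (s • w) (fun _ => w)) (𝓝 t)
          (𝓝 (D j (t • w) (fun _ => w))) :=
        hc.tendsto.comp (tendsto_nhdsWithin_iff.mpr ⟨hline, hmem⟩)
      have h2 : {x | SmallC r ε (x - D j (t • w) (fun _ => w))} ∈ 𝓝 (D j (t • w) (fun _ => w)) :=
        mem_nhds_fld_iff.mpr ⟨r, ε, hε, fun x hx => hx⟩
      obtain ⟨δ, hδ, hball⟩ := Metric.mem_nhds_iff.mp (h1 h2)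
      exact ⟨δ, hδ, fun t' _ htt => hball (by rwa [Metric.mem_ball, Real.dist_eq])⟩
    · intro j t ht r ε hε
      have h1 := hDd j (t • w) (hseg t ht) (fun _ => w) w
      rw [snoc_const] at h1
      have h2 : {x | SmallC r ε (x - D (j + 1) (t • w) (fun _ => w))}
          ∈ 𝓝 (D (j + 1) (t • w) (fun _ => w)) :=
        mem_nhds_fld_iff.mpr ⟨r, ε, hε, fun x hx => hx⟩
      obtain ⟨δ, hδ, hball⟩ := Metric.mem_nhdsWithin_iff.mp (h1 h2)
      refine ⟨δ, hδ, fun t' _ hne htt => ?_⟩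
      have h3 : t' - t ∈ Metric.ball (0 : ℝ) δ ∩ {0}ᶜ := by
        refine ⟨by rw [Metric.mem_ball, Real.dist_eq, sub_zero]; exact htt, ?_⟩
        simp only [mem_compl_iff, mem_singleton_iff]
        exact sub_ne_zero.mpr hne
      have h4 := hball h3
      have h5 : t • w + (t' - t) • w = t' • w := by
        rw [← add_smul]; congr 1; ring
      have h6 : SmallC r ε ((t' - t)⁻¹ • (D j (t • w + (t' - t) • w) (fun _ => w)
          - D j (t • w) (fun _ => w)) - D (j + 1) (t • w) (fun _ => w)) := h4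
      rw [h5] at h6
      exact h6
  refine key.congr fun q hq => ?_
  have h7 : D 0 (q.1 • w) (fun _ => w) = v (q.1 • w) := by
    rw [← hD0 _ (hseg q.1 hq.1)]
    congr 1
    exact Subsingleton.elim _ _
  show up (v (q.1 • w)) q.2 = up (D 0 (q.1 • w) (fun _ => w)) q.2
  rw [h7]

/-- A Fréchet-smooth map sends the curves `s ↦ id ⊕ κ(s) w` (`κ` a smooth function) to smooth
curves, if its values are `C⁰`-close to the identity. -/
theorem frechet_curve {N₀ : Set Diffeo} {I : Diffeo → Diffeo} (hI : FrechetSmoothOn N₀ I)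
    (w : Fld) {κ : ℝ → ℝ} (hκ : ContDiff ℝ ∞ κ) (c : ℝ → Diffeo)
    (hc : ∀ s, IsTranslate Diffeo.one (κ s • w) (c s)) (hmem : ∀ s, c s ∈ interior N₀)
    (hball : ∀ s, I (c s) ∈ ballN 0 (1 / 4)) : SmoothCurve (fun s => I (c s)) := by
  choose u hu htr using hball
  refine ⟨fun q => q.2 + up (u q.1) q.2, ?_, fun s z => ?_⟩
  · -- joint smoothness at each point
    rw [contDiff_iff_contDiffAt]
    rintro ⟨s₀, z₀⟩
    obtain ⟨U, v, hU, hU0, hvsm, hv0, hchart⟩ := hI (c s₀) (hmem s₀)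
    -- a neighbourhood of `0` on the line
    obtain ⟨r, ε, hε, hUb⟩ := hU 0 hU0
    obtain ⟨δ, hδ, hsm⟩ := smul_small w r hε
    have hseg : ∀ t ∈ Ioo (-δ) δ, t • w ∈ U := by
      intro t ht
      apply hUb
      rw [sub_zero]
      exact hsm t (abs_lt.mpr ht)
    have hjs := hamilton_curve hvsm w hseg
    have hopen : IsOpen (Ioo (-δ) δ ×ˢ (univ : Set ℂ)) := isOpen_Ioo.prod isOpen_univ
    -- `v (t • w)` is `C⁰`-small for small `t`
    have hvc : ∃ δ' > 0, ∀ t : ℝ, |t| < δ' → t • w ∈ U ∧ ∀ z, ‖up (v (t • w)) z‖ < 1 / 4 := by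
      obtain ⟨D, hD0, hDc, -⟩ := hvsm
      have hcw : ContinuousWithinAt (fun p : Fld × (Fin 0 → Fld) => D 0 p.1 p.2) (U ×ˢ univ)
          (((0 : ℝ) • w, ![]) : Fld × (Fin 0 → Fld)) :=
        hDc 0 _ ⟨by rw [zero_smul]; exact hU0, mem_univ _⟩
      have hline : ContinuousAt (fun s : ℝ => ((s • w, ![]) : Fld × (Fin 0 → Fld))) 0 :=
        ((continuous_line w).prodMk continuous_const).continuousAt
      have hmemU : ∀ᶠ s in 𝓝 (0 : ℝ), ((s • w, ![]) : Fld × (Fin 0 → Fld)) ∈ U ×ˢ univ := by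
        filter_upwards [Ioo_mem_nhds (neg_lt_zero.mpr hδ) hδ] with s hs
        exact ⟨hseg s hs, mem_univ _⟩
      have h1 : Tendsto (fun s : ℝ => D 0 (s • w) ![]) (𝓝 0) (𝓝 (D 0 ((0 : ℝ) • w) ![])) :=
        hcw.tendsto.comp (tendsto_nhdsWithin_iff.mpr ⟨hline, hmemU⟩)
      have h2 : {x | SmallC 0 (1 / 4) (x - D 0 ((0 : ℝ) • w) ![])} ∈ 𝓝 (D 0 ((0 : ℝ) • w) ![]) :=
        mem_nhds_fld_iff.mpr ⟨0, 1 / 4, by norm_num, fun x hx => hx⟩
      have h3 := (h1 h2)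
      have h4 : ∀ᶠ s in 𝓝 (0 : ℝ), s • w ∈ U ∧ ∀ z, ‖up (v (s • w)) z‖ < 1 / 4 := by
        filter_upwards [h3, Ioo_mem_nhds (neg_lt_zero.mpr hδ) hδ] with s hs hs'
        refine ⟨hseg s hs', fun z => ?_⟩
        have h5 : SmallC 0 (1 / 4) (D 0 (s • w) ![] - D 0 ((0 : ℝ) • w) ![]) := hs
        rw [zero_smul, hD0 0 hU0, hD0 _ (hseg s hs'), hv0, sub_zero] at h5
        have := h5 0 le_rfl z
        rwa [norm_iteratedFDeriv_zero] at this
      obtain ⟨δ', hδ', hb⟩ := Metric.eventually_nhds_iff.mp h4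
      exact ⟨δ', hδ', fun t ht => hb (by rwa [Real.dist_eq, sub_zero])⟩
    obtain ⟨δ', hδ', hv'⟩ := hvc
    -- near `s₀` the lift is given by the chart
    have hnear : ∀ᶠ q : ℝ × ℂ in 𝓝 (s₀, z₀), q.2 + up (u q.1) q.2
        = q.2 + up (u s₀) q.2 + up (v ((κ q.1 - κ s₀) • w)) q.2 := by
      have hκc : Tendsto (fun q : ℝ × ℂ => κ q.1 - κ s₀) (𝓝 (s₀, z₀)) (𝓝 0) := by
        have : Continuous (fun q : ℝ × ℂ => κ q.1 - κ s₀) :=
          (hκ.continuous.comp continuous_fst).sub continuous_const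
        have h := this.tendsto (s₀, z₀)
        simpa using h
      have h1 : ∀ᶠ q : ℝ × ℂ in 𝓝 (s₀, z₀), |κ q.1 - κ s₀| < δ' := by
        have := hκc.eventually (Metric.ball_mem_nhds (0 : ℝ) hδ')
        filter_upwards [this] with q hq
        have hq' : dist (κ q.1 - κ s₀) 0 < δ' := hq
        rwa [Real.dist_eq, sub_zero] at hq'
      filter_upwards [h1] with q hq
      obtain ⟨hqU, hqv⟩ := hv' _ hq
      have htrans : IsTranslate (c s₀) ((κ q.1 - κ s₀) • w) (c q.1) := by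
        intro p
        rw [hc q.1 p, hc s₀ p]
        have h2 : (κ q.1 • w).val p = (κ s₀ • w).val p + ((κ q.1 - κ s₀) • w).val p := by
          have h3 : κ q.1 • w = κ s₀ • w + (κ q.1 - κ s₀) • w := by
            rw [← add_smul]; congr 1; ring
          rw [h3]; rfl
        rw [h2, pr_add, add_assoc]
      have h4 := (hchart _ hqU _ htrans).2
      have h5 : pr (q.2 + up (u q.1) q.2)
          = pr (q.2 + up (u s₀) q.2 + up (v ((κ q.1 - κ s₀) • w)) q.2) := by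
        have e1 : (I (c q.1)).toFun (pr q.2) = pr (q.2 + up (u q.1) q.2) := by
          rw [htr q.1 (pr q.2), pr_add]; rfl
        have e2 : (I (c s₀)).toFun (pr q.2) = pr (q.2 + up (u s₀) q.2) := by
          rw [htr s₀ (pr q.2), pr_add]; rfl
        rw [← e1, h4 (pr q.2), e2, pr_add (q.2 + up (u s₀) q.2)]; rfl
      apply pr_injOn_ball _ _ h5
      have b1 := hu q.1 0 le_rfl q.2
      have b2 := hu s₀ 0 le_rfl q.2
      rw [norm_iteratedFDeriv_zero] at b1 b2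
      have b3 := hqv q.2
      have e3 : q.2 + up (u q.1) q.2 - (q.2 + up (u s₀) q.2 + up (v ((κ q.1 - κ s₀) • w)) q.2)
          = up (u q.1) q.2 - up (u s₀) q.2 - up (v ((κ q.1 - κ s₀) • w)) q.2 := by ring
      rw [e3]
      calc ‖up (u q.1) q.2 - up (u s₀) q.2 - up (v ((κ q.1 - κ s₀) • w)) q.2‖
          ≤ ‖up (u q.1) q.2‖ + ‖up (u s₀) q.2‖ + ‖up (v ((κ q.1 - κ s₀) • w)) q.2‖ :=
            (norm_sub_le _ _).trans (add_le_add_left (norm_sub_le _ _) _)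
        _ < 1 := by linarith
    refine ContDiffAt.congr_of_eventuallyEq ?_ hnear
    have g1 : ContDiffAt ℝ ∞ (fun q : ℝ × ℂ => q.2 + up (u s₀) q.2) (s₀, z₀) :=
      (contDiff_snd.add ((up_smooth (u s₀)).comp contDiff_snd)).contDiffAt
    have g2 : ContDiffAt ℝ ∞ (fun q : ℝ × ℂ => up (v (q.1 • w)) q.2) ((0 : ℝ), z₀) :=
      hjs.contDiffAt (hopen.mem_nhds ⟨⟨by linarith, hδ⟩, mem_univ _⟩)
    have g3 : ContDiffAt ℝ ∞ (fun q : ℝ × ℂ => ((κ q.1 - κ s₀, q.2) : ℝ × ℂ)) (s₀, z₀) := by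
      have : ContDiff ℝ ∞ (fun q : ℝ × ℂ => ((κ q.1 - κ s₀, q.2) : ℝ × ℂ)) :=
        ((hκ.comp contDiff_fst).sub contDiff_const).prodMk contDiff_snd
      exact this.contDiffAt
    have g4 : ContDiffAt ℝ ∞ (fun q : ℝ × ℂ => up (v ((κ q.1 - κ s₀) • w)) q.2) (s₀, z₀) := by
      have := ContDiffAt.comp (s₀, z₀) (g := fun q : ℝ × ℂ => up (v (q.1 • w)) q.2)
        (f := fun q : ℝ × ℂ => ((κ q.1 - κ s₀, q.2) : ℝ × ℂ)) (by simpa using g2) g3
      exact this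
    exact g1.add g4
  · -- it is a lift
    show (I (c s)).toFun (pr z) = pr (z + up (u s) z)
    rw [htr s (pr z), pr_add]; rfl

/-- **Negative answer, Fréchet-smooth maps.** -/
theorem result_frechet (N₀ : Set Diffeo) (hN₀ : N₀ ∈ 𝓝 Diffeo.one) :
    ∃ r : ℕ, ∀ ρ : ℝ, 0 < ρ → ρ ≤ 1 / 4 → ∀ I : Diffeo → Diffeo,
      (∀ G ∈ N₀, I G ∈ ballN r ρ ∧ IsTotalRenormalization (I G).toFun G.toFun) →
      ¬ FrechetSmoothOn N₀ I := by
  obtain ⟨R, ε₁, hR, hε₁, h16, hfam⟩ := exists_params hN₀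
  refine ⟨4 * R + 2, fun ρ hρ hρ1 => ?_⟩
  intro I hI hfre
  have hle : ∀ L : ℕ, 1 ≤ L → ∀ s : ℝ,
      2 * Real.pi * L * |ε₁ / (L : ℝ) ^ R * Real.sin s| ≤ 1 / 8 := fun L hL s => (hfam L hL s).1
  have hint : ∀ L (hL : 1 ≤ L) (s : ℝ),
      famMap L (ε₁ / (L : ℝ) ^ R * Real.sin s) (hle L hL s) ∈ interior N₀ := fun L hL s =>
    (hfam L hL s).2
  have hmem : ∀ L (hL : 1 ≤ L) (s : ℝ),
      famMap L (ε₁ / (L : ℝ) ^ R * Real.sin s) (hle L hL s) ∈ N₀ := fun L hL s =>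
    interior_subset (hint L hL s)
  refine main_contradiction hR hε₁ h16 hle (by linarith : ρ ≤ 1) I
    (fun L hL s => hI _ (hmem L hL s)) (fun L hL => ?_)
  refine frechet_curve hfre (sFld L) (κ := fun s => ε₁ / (L : ℝ) ^ R * Real.sin s)
    (contDiff_const.mul Real.contDiff_sin) _ (fun s => famMap_translate L _ _) (hint L hL) ?_
  intro s
  obtain ⟨u, hu, htr⟩ := (hI _ (hmem L hL s)).1
  exact ⟨u, hu.mono (Nat.zero_le _) hρ1, htr⟩

/-- **Negative answer to Q1** for `M = 𝕋` (`V = 𝕋²`): for every neighbourhood `N₀` of the identity in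
`Diff^∞(𝕋²)` there is a neighbourhood `N` of the identity such that there is no smooth map
`I : N₀ → N` (in either of the two senses of `IsSmoothOn`) with `G` a total renormalization of `I G`
for all `G ∈ N₀`. -/
theorem negative_answer : ∀ N₀ ∈ 𝓝 Diffeo.one, ∃ N ∈ 𝓝 Diffeo.one,
    ¬ ∃ I : Diffeo → Diffeo, IsSmoothOn N₀ I ∧
      ∀ G ∈ N₀, I G ∈ N ∧ IsTotalRenormalization (I G).toFun G.toFun := by
  intro N₀ hN₀
  obtain ⟨r₁, h₁⟩ := result_frechet N₀ hN₀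
  obtain ⟨r₂, h₂⟩ := result_curve N₀ hN₀
  refine ⟨ballN (max r₁ r₂) (1 / 4), ballN_mem_nhds _ (by norm_num), ?_⟩
  rintro ⟨I, hsm | hsm, hI⟩
  · refine h₁ (1 / 4) (by norm_num) le_rfl I (fun G hG => ⟨?_, (hI G hG).2⟩) hsm
    obtain ⟨u, hu, htr⟩ := (hI G hG).1
    exact ⟨u, hu.mono (le_max_left _ _) le_rfl, htr⟩
  · refine h₂ (1 / 4) (by norm_num) (by norm_num) I (fun G hG => ⟨?_, (hI G hG).2⟩) hsm
    obtain ⟨u, hu, htr⟩ := (hI G hG).1
    exact ⟨u, hu.mono (le_max_right _ _) le_rfl, htr⟩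

end TotRen
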