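import Pool.Agent.W_MP_f70009_h24.GermF

/-!
# Backward germ lemma
-/

open scoped ContDiff Topology
open Set Filter

namespace TotRen

/-- continuous dependence: frequent equality of projections passes to the limit -/
theorem gf_pr_eq_of_frequently {u v : ℝ → ℂ} (hu : ContinuousAt u 0) (hv : ContinuousAt v 0)
    (h : ∃ᶠ s in 𝓝[>] (0 : ℝ), pr (u s) = pr (v s)) : pr (u 0) = pr (v 0) := by
  have h1 : Tendsto (fun s => (pr (u s), pr (v s))) (𝓝[>] (0 : ℝ)) (𝓝 (pr (u 0), pr (v 0))) := by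
    refine Tendsto.prodMk_nhds ?_ ?_
    · exact ((continuous_pr.continuousAt (x := u 0)).comp hu).mono_left nhdsWithin_le_nhds
    · exact ((continuous_pr.continuousAt (x := v 0)).comp hv).mono_left nhdsWithin_le_nhds
  have h2 : IsClosed {q : T2 × T2 | q.1 = q.2} := isClosed_diagonal
  exact h2.mem_of_frequently_of_tendsto h h1

/-- Backward germ lemma.  Now `n` is the minimal period of `pr x`.  If `e, e' ∈ C` and
`B ^ k' (M e) = M e'` then `M (A ^ k e) = B ^ k' (M e)` for some `1 ≤ k ≤ k' m`.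

Proof: for small `s > 0`, `v = x + s e` is in `Δ`, and the point `v'' = Ψ.symm (Gh^[k'] (Ψ v) - ω')`
(`ω'` the integer vector with `Gh^[k'] (Ψ x) = Ψ x + ω'`) is `x + s (e' + o(1))`, so it is in `Δ`
as well and `H (pr v'') = G^[k'] (H (pr v))`.  By `D.exists_time` and the injectivity of `H` on
`Δ`, `pr v'' = g^[T] (pr v)` with `k' ≤ T ≤ k' m`; some `T` occurs for `s` arbitrarily small;
letting `s → 0`, `g^[T] (pr x) = pr x`, so `T = k n` with `k ≥ 1`.  Lifting and comparing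
derivatives at `s = 0`: `e' = A ^ k e`. -/
theorem germ_backward {g G : T2 → T2} {gh Gh : ℂ → ℂ} (hg : ContDiff ℝ ∞ gh)
    (hG : ContDiff ℝ ∞ Gh) (lg : IsLift gh g) (lG : IsLift Gh G) {Δ : Set T2} {H : T2 → T2}
    {τ : T2 → ℕ} {m : ℕ} (D : RenData g G Δ H τ m) {x : ℂ} (hx : pr x ∈ Δ) {C : Set ℂ}
    (hC : IsCone Δ x C) {Ψ : OpenPartialHomeomorph ℂ ℂ} (hΨ : IsSmoothChart Ψ)
    (hxΨ : x ∈ Ψ.source) (hH : ∀ w ∈ Ψ.source, pr w ∈ Δ → H (pr w) = pr (Ψ w))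
    (hfix : G (pr (Ψ x)) = pr (Ψ x)) {n : ℕ} (hn : 1 ≤ n)
    (hper : Function.minimalPeriod g (pr x) = n)
    {k' : ℕ} (hk' : 1 ≤ k') {e e' : ℂ} (he : e ∈ C) (he' : e' ∈ C)
    (h : ((fderiv ℝ Gh (Ψ x)) ^ k') (fderiv ℝ Ψ x e) = fderiv ℝ Ψ x e') :
    ∃ k, 1 ≤ k ∧ k ≤ k' * m ∧
      fderiv ℝ Ψ x (((fderiv ℝ (gh^[n]) x) ^ k) e)
        = ((fderiv ℝ Gh (Ψ x)) ^ k') (fderiv ℝ Ψ x e) := by
  have hfix' : G^[k'] (pr (Ψ x)) = pr (Ψ x) := by
    have := gf_iterate_period_mul (f := G) (p := pr (Ψ x)) (n := 1) (by simpa using hfix) k'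
    simpa using this
  obtain ⟨o', ho', hpro'⟩ := gf_exists_translation lG hfix'
  have hΨd := gf_chart_differentiableAt hΨ hxΨ
  have hyT : Ψ x ∈ Ψ.target := Ψ.map_source hxΨ
  have hSd : DifferentiableAt ℝ Ψ.symm (Ψ x) :=
    (hΨ.smooth_symm.contDiffAt (Ψ.open_target.mem_nhds hyT)).differentiableAt (by simp)
  -- the curve and its image
  set c : ℝ → ℂ := fun s => x + (s : ℂ) * e with hc
  have hc0 : c 0 = x := by simp [hc]
  have hcd : HasDerivAt c e 0 := gf_hasDerivAt_ray x e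
  set w : ℝ → ℂ := fun s => Gh^[k'] (Ψ (c s)) - o' with hw
  have hw0 : w 0 = Ψ x := by simp only [hw, hc0]; exact ho'
  have hwd : HasDerivAt w (fderiv ℝ Ψ x e') 0 := by
    rw [← h, ← gf_fderiv_iterate_fixed hG lG hfix k']
    have h1 : HasDerivAt (fun s => Ψ (c s)) (fderiv ℝ Ψ x e) 0 := gf_hasDerivAt_comp_curve hΨd hcd hc0
    exact (gf_hasDerivAt_comp_curve (F := Gh^[k']) (y := Ψ x)
      (((gf_contDiff_iterate hG k').contDiffAt).differentiableAt (by simp)) h1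
      (by simp only [hc0])).sub_const o'
  set u : ℝ → ℂ := fun s => Ψ.symm (w s) with hu
  have hu0 : u 0 = x := by simp only [hu, hw0]; exact Ψ.left_inv hxΨ
  have hud : HasDerivAt u e' 0 := by
    have h1 : HasDerivAt u (fderiv ℝ Ψ.symm (Ψ x) (fderiv ℝ Ψ x e')) 0 :=
      gf_hasDerivAt_comp_curve hSd hwd hw0
    have h2 : fderiv ℝ Ψ.symm (Ψ x) (fderiv ℝ Ψ x e') = e' := by
      have h3 : HasFDerivAt (fun z => Ψ.symm (Ψ z))
          ((fderiv ℝ Ψ.symm (Ψ x)).comp (fderiv ℝ Ψ x)) x :=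
        hSd.hasFDerivAt.comp x hΨd.hasFDerivAt
      have h4 : (fun z => Ψ.symm (Ψ z)) =ᶠ[𝓝 x] (fun z => z) := by
        filter_upwards [Ψ.open_source.mem_nhds hxΨ] with z hz
        exact Ψ.left_inv hz
      have h5 : HasFDerivAt (fun z : ℂ => z) ((fderiv ℝ Ψ.symm (Ψ x)).comp (fderiv ℝ Ψ x)) x :=
        h3.congr_of_eventuallyEq h4.symm
      have h6 := h5.unique (hasFDerivAt_id x)
      have h7 := congrArg (fun T : ℂ →L[ℝ] ℂ => T e') h6
      simpa using h7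
    rwa [h2] at h1
  have ev1 : ∀ᶠ s in 𝓝[>] (0 : ℝ), pr (c s) ∈ Δ := gf_cone_eventually_mem hC he hcd hc0
  have ev2 : ∀ᶠ s in 𝓝[>] (0 : ℝ), pr (u s) ∈ Δ := gf_cone_eventually_mem hC he' hud hu0
  have ev3 : ∀ᶠ s in 𝓝[>] (0 : ℝ), c s ∈ Ψ.source := by
    have : ∀ᶠ s in 𝓝 (0 : ℝ), c s ∈ Ψ.source :=
      hcd.continuousAt.eventually (by rw [hc0]; exact Ψ.open_source.mem_nhds hxΨ)
    exact this.filter_mono nhdsWithin_le_nhds
  have ev4 : ∀ᶠ s in 𝓝[>] (0 : ℝ), w s ∈ Ψ.target := by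
    have : ∀ᶠ s in 𝓝 (0 : ℝ), w s ∈ Ψ.target :=
      hwd.continuousAt.eventually (by rw [hw0]; exact Ψ.open_target.mem_nhds hyT)
    exact this.filter_mono nhdsWithin_le_nhds
  have ev : ∀ᶠ s in 𝓝[>] (0 : ℝ), ∃ T, k' ≤ T ∧ T ≤ k' * m ∧
      pr (gh^[T] (c s)) = pr (u s) := by
    filter_upwards [ev1, ev2, ev3, ev4] with s h1 h2 h3 h4
    obtain ⟨T, hT1, hT2, hT3, hT4⟩ := D.exists_time h1 hk'
    refine ⟨T, hT1, hT2, ?_⟩
    rw [← lg.iterate T (c s)]
    refine D.bij.injOn hT3 h2 ?_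
    rw [hT4, hH _ h3 h1, hH _ (Ψ.map_target h4) h2]
    have h5 : Ψ (u s) = w s := Ψ.right_inv h4
    rw [h5, lG.iterate k' (Ψ (c s))]
    exact (hpro' _).symm
  obtain ⟨T, hT1, hT2, hfr⟩ := gf_frequently_of_finite ev
  have hcT : HasDerivAt (fun s => gh^[T] (c s)) (fderiv ℝ (gh^[T]) x e) 0 :=
    gf_hasDerivAt_comp_curve (((gf_contDiff_iterate hg T).contDiffAt (x := x)).differentiableAt
      (by simp)) hcd hc0
  have hprT : pr (gh^[T] x) = pr x := by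
    have h1 := gf_pr_eq_of_frequently hcT.continuousAt hud.continuousAt hfr
    rw [hu0] at h1
    simpa only [hc0] using h1
  have hgT : g^[T] (pr x) = pr x := by rw [lg.iterate T x]; exact hprT
  have hdvd : n ∣ T := by
    rw [← hper]
    exact Function.IsPeriodicPt.minimalPeriod_dvd hgT
  obtain ⟨k, hk⟩ := hdvd
  have hk0 : 1 ≤ k := by
    rcases Nat.eq_zero_or_pos k with h0 | h0
    · subst h0; omega
    · exact h0
  have hkT : k ≤ T := by rw [hk]; exact Nat.le_mul_of_pos_left k hn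
  refine ⟨k, hk0, hkT.trans hT2, ?_⟩
  have hper' : g^[n] (pr x) = pr x := by
    rw [← hper]; exact Function.isPeriodicPt_minimalPeriod g (pr x)
  have hkn : T = k * n := by rw [hk, mul_comm]
  obtain ⟨o, ho, hpro⟩ := gf_exists_translation lg hgT
  have d1 : HasDerivAt (fun s => gh^[T] (c s) - o) (fderiv ℝ (gh^[T]) x e) 0 := hcT.sub_const o
  have h00 : gh^[T] (c 0) - o = u 0 := by rw [hu0, hc0]; exact ho
  have h8 : fderiv ℝ (gh^[T]) x e = e' := by
    refine gf_deriv_eq_of_frequently d1 hud h00 ?_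
    refine gf_frequently_eq_of_pr d1.continuousAt hud.continuousAt h00 ?_
    exact hfr.mono fun s hs => by simp only [hs, hpro]
  rw [hkn, fderiv_iterate_period hg lg hper' k] at h8
  rw [h8, h]

end TotRen
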