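import Pool.Agent.W_MP_f70009_h24.Lin

/-!
# Good parameters
-/

open scoped ContDiff Topology
open Set Filter

namespace TotRen

/-- For a sign `s = ±1` and `j ≥ 1`, the power `(1 + s a (1 - i)) ^ j` is real for only finitely
many real numbers `a`. -/
theorem finite_real_power (s : ℂ) (hs : s = 1 ∨ s = -1) (j : ℕ) :
    j ≠ 0 → {a : ℝ | (((1 : ℂ) + s * (a * (1 - Complex.I))) ^ j).im = 0}.Finite := by
  intro hj
  have hI : (1 : ℂ) - Complex.I ≠ 0 := by
    intro h
    have := congrArg Complex.re h
    simp at this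
  let P : Polynomial ℂ :=
    (1 + Polynomial.C s * (Polynomial.X * Polynomial.C (1 - Complex.I))) ^ j
      - (1 + Polynomial.C s * (Polynomial.X * Polynomial.C (1 + Complex.I))) ^ j
  have hP : P ≠ 0 := by
    intro h0
    have h1 : P.eval (-s / (1 - Complex.I)) = 0 := by rw [h0]; simp
    have hss : s * s = 1 := by rcases hs with h | h <;> rw [h] <;> norm_num
    have e1 : (1 : ℂ) + s * (-s / (1 - Complex.I) * (1 - Complex.I)) = 0 := by
      rw [div_mul_cancel₀ _ hI]
      linear_combination -hss
    have e2 : (1 : ℂ) + s * (-s / (1 - Complex.I) * (1 + Complex.I)) = 1 - Complex.I := by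
      have h3 : (1 + Complex.I) = Complex.I * (1 - Complex.I) := by
        rw [mul_sub, Complex.I_mul_I]; ring
      rw [h3]
      have h4 : -s / (1 - Complex.I) * (Complex.I * (1 - Complex.I)) = -s * Complex.I := by
        field_simp
      rw [h4]
      linear_combination -Complex.I * hss
    simp only [P, Polynomial.eval_sub, Polynomial.eval_pow, Polynomial.eval_add,
      Polynomial.eval_one, Polynomial.eval_mul, Polynomial.eval_C, Polynomial.eval_X] at h1
    rw [e1, e2, zero_pow hj, zero_sub, neg_eq_zero] at h1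
    exact pow_ne_zero j hI h1
  have hfin : {z : ℂ | P.IsRoot z}.Finite := Polynomial.finite_setOfPred_isRoot hP
  have hsub : {a : ℝ | (((1 : ℂ) + s * (a * (1 - Complex.I))) ^ j).im = 0} ⊆
      (fun a : ℝ => (a : ℂ)) ⁻¹' {z : ℂ | P.IsRoot z} := by
    intro a ha
    simp only [mem_ofPred_eq] at ha
    simp only [mem_preimage, mem_ofPred_eq, Polynomial.IsRoot.def, P, Polynomial.eval_sub,
      Polynomial.eval_pow, Polynomial.eval_add, Polynomial.eval_one, Polynomial.eval_mul,
      Polynomial.eval_C, Polynomial.eval_X]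
    have hc : (starRingEnd ℂ) (((1 : ℂ) + s * (a * (1 - Complex.I))) ^ j)
        = ((1 : ℂ) + s * (a * (1 - Complex.I))) ^ j := Complex.conj_eq_iff_im.mpr ha
    have hsc : (starRingEnd ℂ) s = s := by
      rcases hs with h | h <;> rw [h] <;> simp
    have hd : (starRingEnd ℂ) (((1 : ℂ) + s * (a * (1 - Complex.I))) ^ j)
        = ((1 : ℂ) + s * (a * (1 + Complex.I))) ^ j := by
      rw [map_pow, map_add, map_mul, map_mul, map_sub, map_one, hsc, Complex.conj_ofReal,
        Complex.conj_I]
      ring_nf
    rw [← hd, hc, sub_self]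
  exact (hfin.preimage (Complex.ofReal_injective.injOn)).subset hsub

/-- all `a > 0` outside a countable set are good: for each `j ≥ 1` the polynomials
`Im (1 - a (1 - i)) ^ j` and `Im (1 + a (1 - i)) ^ j` in `a` are non-zero (their derivative at
`a = 0` is `± j`), so they have finitely many zeros. -/
theorem countable_not_good : {a : ℝ | ¬ Good a}.Countable := by
  have hsub : {a : ℝ | ¬ Good a} ⊆ ⋃ j : ℕ,
      ({a : ℝ | j ≠ 0 ∧ (((1 : ℂ) + (-1) * (a * (1 - Complex.I))) ^ j).im = 0} ∪
        {a : ℝ | j ≠ 0 ∧ (((1 : ℂ) + 1 * (a * (1 - Complex.I))) ^ j).im = 0}) := by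
    intro a ha
    simp only [mem_ofPred_eq, Good, not_forall, not_and_or, not_not] at ha
    obtain ⟨j, hj, h⟩ := ha
    refine mem_iUnion.mpr ⟨j, ?_⟩
    rcases h with h | h
    · left
      refine ⟨by omega, ?_⟩
      rw [← h, muAtt]
      congr 2
      ring
    · right
      refine ⟨by omega, ?_⟩
      rw [← h, muRep]
      congr 2
      ring
  refine (countable_iUnion fun j => ?_).mono hsub
  refine Countable.union ?_ ?_
  · by_cases hj : j = 0
    · simp [hj]
    · exact ((finite_real_power (-1) (Or.inr rfl) j hj).subset fun a ha => ha.2).countable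
  · by_cases hj : j = 0
    · simp [hj]
    · exact ((finite_real_power 1 (Or.inl rfl) j hj).subset fun a ha => ha.2).countable

end TotRen
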