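import Pool.Agent.W_MP_f70009_h24.Recur2

/-!
# Label lemma, complex version
-/

open scoped ContDiff Topology
open Set Filter

namespace TotRen

/-- Complex version.  Let `r = log |α| / log |β|` (after `h0`, `|α| ≠ 1` and `r > 0` is rational):
`α ^ k = β ^ k'` implies `k' = r k`.  Write `r = p / q` in lowest terms: then `p ∣ k'` and `q ∣ k`.
If `p ≥ 2`, `cone_recur` with `d = p` gives `k'` with `¬ p ∣ k'` and `β ^ k' * e ∈ C`, so
`h2` contradicts; so `p = 1`; in the same way `q = 1` from `h1`.  So `r = 1` and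
`α ^ k' = β ^ k'` for every recurrence time `k'`; `ζ = α / β` is a root of unity; if its order
is `d ≥ 2`, `cone_recur` with this `d` contradicts.  So `ζ = 1`. -/
theorem lab_complex {C : Set ℂ} (hC : IsOpen C) (hne : C.Nonempty)
    (hsm : ∀ e ∈ C, ∀ c : ℝ, 0 < c → (c : ℂ) * e ∈ C) {α β : ℂ}
    (hβ : ∀ j : ℕ, 1 ≤ j → (β ^ j).im ≠ 0) (hβ1 : ‖β‖ ≠ 1)
    (h1 : ∀ k : ℕ, 1 ≤ k → (∃ e ∈ C, α ^ k * e ∈ C) → ∃ k' : ℕ, 1 ≤ k' ∧ α ^ k = β ^ k')
    (h2 : ∀ k' : ℕ, 1 ≤ k' → (∃ e ∈ C, β ^ k' * e ∈ C) → ∃ k : ℕ, 1 ≤ k ∧ α ^ k = β ^ k') :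
    α = β := by
  have hβ0 : β ≠ 0 := by
    rintro rfl
    exact hβ 1 le_rfl (by simp)
  obtain ⟨k1, hk1, hrec1⟩ := cone_recur' hC hne hsm hβ0
  obtain ⟨k0, hk0, hab⟩ := h2 k1 hk1 hrec1
  have hα0 : α ≠ 0 := by
    rintro rfl
    rw [zero_pow (by omega)] at hab
    exact pow_ne_zero _ hβ0 hab.symm
  have hα : ∀ j : ℕ, 1 ≤ j → (α ^ j).im ≠ 0 := by
    intro j hj h
    have h3 : ((α ^ j) ^ k0).im = 0 := by
      have h4 : α ^ j = ((α ^ j).re : ℂ) := Complex.ext (by simp) (by simp [h])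
      rw [h4, ← Complex.ofReal_pow]
      exact Complex.ofReal_im _
    rw [← pow_mul, mul_comm, pow_mul, hab, ← pow_mul] at h3
    exact hβ (k1 * j) (Nat.mul_pos hk1 hj) h3
  have hb : Real.log ‖β‖ ≠ 0 := Real.log_ne_zero_of_pos_of_ne_one (norm_pos_iff.2 hβ0) hβ1
  have hlog : ∀ K K' : ℕ, α ^ K = β ^ K' →
      (K : ℝ) * Real.log ‖α‖ = (K' : ℝ) * Real.log ‖β‖ := by
    intro K K' h
    have h3 := congrArg (fun z : ℂ => Real.log ‖z‖) h
    simp only [norm_pow, Real.log_pow] at h3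
    exact h3
  have hrel : ∀ K K' : ℕ, α ^ K = β ^ K' → K * k1 = K' * k0 := by
    intro K K' h
    have h3 := hlog K K' h
    have h4 := hlog k0 k1 hab
    have h5 : ((K * k1 : ℕ) : ℝ) * Real.log ‖β‖ = ((K' * k0 : ℕ) : ℝ) * Real.log ‖β‖ := by
      push_cast
      linear_combination (k0 : ℝ) * h3 - (K : ℝ) * h4
    exact_mod_cast mul_right_cancel₀ hb h5
  have hg : 0 < Nat.gcd k0 k1 := Nat.gcd_pos_of_pos_left _ hk0
  obtain ⟨q, p, hcop, hq, hp⟩ := Nat.exists_coprime k0 k1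
  have hrel2 : ∀ K K' : ℕ, α ^ K = β ^ K' → K * p = K' * q := by
    intro K K' h
    have h3 := hrel K K' h
    have h4 : K * p * Nat.gcd k0 k1 = K' * q * Nat.gcd k0 k1 := by
      rw [mul_assoc, mul_assoc, ← hp, ← hq]
      exact h3
    exact Nat.eq_of_mul_eq_mul_right hg h4
  have hp0 : 0 < p := by
    rcases Nat.eq_zero_or_pos p with h | h
    · rw [h, zero_mul] at hp
      omega
    · exact h
  have hq0 : 0 < q := by
    rcases Nat.eq_zero_or_pos q with h | h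
    · rw [h, zero_mul] at hq
      omega
    · exact h
  have hp1 : p = 1 := by
    by_contra hcon
    obtain ⟨K', hK', hdvd, hrec⟩ := cone_recur hC hne hsm hβ (d := p) (by omega)
    obtain ⟨K, hK, hKK⟩ := h2 K' hK' hrec
    have h3 := hrel2 K K' hKK
    exact hdvd (hcop.symm.dvd_of_dvd_mul_right (Dvd.intro_left K h3))
  have hq1 : q = 1 := by
    by_contra hcon
    obtain ⟨K, hK, hdvd, hrec⟩ := cone_recur hC hne hsm hα (d := q) (by omega)
    obtain ⟨K', hK', hKK⟩ := h1 K hK hrec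
    have h3 := hrel2 K K' hKK
    exact hdvd (hcop.dvd_of_dvd_mul_right (Dvd.intro_left K' h3.symm))
  have heq : ∀ K' : ℕ, 1 ≤ K' → (∃ e ∈ C, β ^ K' * e ∈ C) → (α / β) ^ K' = 1 := by
    intro K' hK' hrec
    obtain ⟨K, hK, hKK⟩ := h2 K' hK' hrec
    have h3 := hrel2 K K' hKK
    rw [hp1, hq1, mul_one, mul_one] at h3
    subst h3
    rw [div_pow, hKK]
    exact div_self (pow_ne_zero _ hβ0)
  by_contra hne'
  have hζ : α / β ≠ 1 := fun h => hne' ((div_eq_one_iff_eq hβ0).1 h)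
  have hfin : IsOfFinOrder (α / β) := isOfFinOrder_iff_pow_eq_one.2 ⟨k1, hk1, heq k1 hk1 hrec1⟩
  have hord : 2 ≤ orderOf (α / β) := by
    have h3 := hfin.orderOf_pos
    have h4 : orderOf (α / β) ≠ 1 := fun h => hζ (orderOf_eq_one_iff.1 h)
    omega
  obtain ⟨K', hK', hdvd, hrec⟩ := cone_recur hC hne hsm hβ hord
  exact hdvd (orderOf_dvd_of_pow_eq_one (heq K' hK' hrec))

end TotRen
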