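import Pool.Agent.W_MP_f70009_h24.Lab1
import Pool.Agent.W_MP_f70009_h24.LinB1
import Pool.Agent.W_MP_f70009_h24.LinB2

/-!
# Label lemma, linear version
-/

open scoped ContDiff Topology
open Set Filter

namespace TotRen

theorem lab2_mulL_mul (μ ν : ℂ) : mulL μ * mulL ν = mulL (μ * ν) := by
  apply ContinuousLinearMap.ext
  intro v
  show mulL μ (mulL ν v) = mulL (μ * ν) v
  rw [mulL_apply, mulL_apply, mulL_apply, mul_assoc]

theorem lab2_mulL_pow (μ : ℂ) (k : ℕ) : mulL μ ^ k = mulL (μ ^ k) := by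
  induction k with
  | zero =>
    rw [pow_zero, pow_zero]
    apply ContinuousLinearMap.ext
    intro v
    rw [mulL_apply, one_mul]
    rfl
  | succ k ih => rw [pow_succ, ih, lab2_mulL_mul, pow_succ]

/-- a real-linear map commuting with a non-real multiplication is a multiplication -/
theorem lab2_eq_mulL {T : ℂ →L[ℝ] ℂ} {γ : ℂ} (hγ : γ.im ≠ 0)
    (h : T * mulL γ = mulL γ * T) : T = mulL (T 1) := by
  have h1 : ∀ v, T (γ * v) = γ * T v := by
    intro v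
    have h2 := congrArg (fun S : ℂ →L[ℝ] ℂ => S v) h
    have h3 : T (mulL γ v) = mulL γ (T v) := h2
    rwa [mulL_apply, mulL_apply] at h3
  have hI : T Complex.I = Complex.I * T 1 := by
    have h2 := h1 1
    rw [mul_one, clm_apply T γ] at h2
    have h3 : (γ.im : ℂ) * T Complex.I = (γ.im : ℂ) * (Complex.I * T 1) := by
      have h4 : γ * T 1 = ((γ.re : ℂ) + (γ.im : ℂ) * Complex.I) * T 1 := by
        rw [Complex.re_add_im]
      rw [h4] at h2
      linear_combination h2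
    exact mul_left_cancel₀ (Complex.ofReal_ne_zero.2 hγ) h3
  apply ContinuousLinearMap.ext
  intro v
  rw [mulL_apply, clm_apply T v, hI]
  have h4 : T 1 * v = T 1 * ((v.re : ℂ) + (v.im : ℂ) * Complex.I) := by
    rw [Complex.re_add_im]
  rw [h4]
  ring

theorem lab2_pow {A M : ℂ →L[ℝ] ℂ} {α : ℂ} (h : M * A = mulL α * M) (k : ℕ) :
    M * A ^ k = mulL (α ^ k) * M := by
  induction k with
  | zero =>
    rw [pow_zero, pow_zero, mul_one]
    apply ContinuousLinearMap.ext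
    intro v
    show M v = mulL 1 (M v)
    rw [mulL_apply, one_mul]
  | succ k ih =>
    rw [pow_succ, ← mul_assoc, ih, mul_assoc, h, ← mul_assoc, lab2_mulL_mul, pow_succ]

/-- Reduction to `lab_complex`: put `A' = M A M⁻¹`; by `h2` and `cone_recur'` (for `β`) some
`A' ^ k = mulL (β ^ k')`, a non-real multiplication; `A'` commutes with it, so `A' = mulL α`;
then apply `lab_complex` to the cone `M '' C`. -/
theorem lab_main {C : Set ℂ} (hC : IsOpen C) (hne : C.Nonempty)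
    (hsm : ∀ e ∈ C, ∀ c : ℝ, 0 < c → (c : ℂ) * e ∈ C) {A M : ℂ →L[ℝ] ℂ} (hM : det2 M ≠ 0)
    {β : ℂ} (hβ : ∀ j : ℕ, 1 ≤ j → (β ^ j).im ≠ 0) (hβ1 : ‖β‖ ≠ 1)
    (h1 : ∀ k : ℕ, 1 ≤ k → (∃ e ∈ C, (A ^ k) e ∈ C) →
      ∃ k' : ℕ, 1 ≤ k' ∧ M * A ^ k = mulL β ^ k' * M)
    (h2 : ∀ k' : ℕ, 1 ≤ k' → (∃ e ∈ C, ∃ e' ∈ C, (mulL β ^ k') (M e) = M e') →
      ∃ k : ℕ, 1 ≤ k ∧ M * A ^ k = mulL β ^ k' * M) :
    M * A = mulL β * M := by
  obtain ⟨e, he⟩ := exists_equiv M hM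
  have hMe : ∀ v, e v = M v := fun v => by rw [← he]; rfl
  have hMN : M * (e.symm : ℂ →L[ℝ] ℂ) = 1 := by
    apply ContinuousLinearMap.ext
    intro v
    show M (e.symm v) = v
    rw [← hMe, ContinuousLinearEquiv.apply_symm_apply]
  have hNM : (e.symm : ℂ →L[ℝ] ℂ) * M = 1 := by
    apply ContinuousLinearMap.ext
    intro v
    show e.symm (M v) = v
    rw [← hMe, ContinuousLinearEquiv.symm_apply_apply]
  have hinj : Function.Injective M := injective_of_det2 M hM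
  have hβ0 : β ≠ 0 := by
    rintro rfl
    exact hβ 1 le_rfl (by simp)
  -- the image cone
  have hC' : IsOpen (M '' C) := by
    have h3 : M '' C = e '' C := by
      ext v
      simp only [mem_image, hMe]
    rw [h3]
    exact e.toHomeomorph.isOpenMap C hC
  have hne' : (M '' C).Nonempty := hne.image M
  have hsm' : ∀ v ∈ M '' C, ∀ c : ℝ, 0 < c → (c : ℂ) * v ∈ M '' C := by
    rintro _ ⟨v, hv, rfl⟩ c hc
    refine ⟨(c : ℂ) * v, hsm v hv c hc, ?_⟩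
    have h3 : ∀ w : ℂ, (c : ℂ) * w = c • w := fun w => (Complex.real_smul).symm
    rw [h3, h3, map_smul]
  -- `A` is conjugate to a complex multiplication
  obtain ⟨k', hk', v, hv, hv'⟩ := cone_recur' hC' hne' hsm' hβ0
  obtain ⟨a, ha, rfl⟩ := hv
  obtain ⟨b, hb, hab⟩ := hv'
  obtain ⟨k, hk, hkM⟩ := h2 k' hk' ⟨a, ha, b, hb, by
    rw [lab2_mulL_pow, mulL_apply]
    exact hab.symm⟩
  rw [lab2_mulL_pow] at hkM
  have hγ : mulL (β ^ k') = M * A ^ k * (e.symm : ℂ →L[ℝ] ℂ) := by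
    rw [hkM, mul_assoc, hMN, mul_one]
  have hcomm : (M * A * (e.symm : ℂ →L[ℝ] ℂ)) * mulL (β ^ k') =
      mulL (β ^ k') * (M * A * (e.symm : ℂ →L[ℝ] ℂ)) := by
    rw [hγ]
    have e1 : (M * A * (e.symm : ℂ →L[ℝ] ℂ)) * (M * A ^ k * (e.symm : ℂ →L[ℝ] ℂ)) =
        M * A * ((e.symm : ℂ →L[ℝ] ℂ) * M) * (A ^ k * (e.symm : ℂ →L[ℝ] ℂ)) := by
      simp only [mul_assoc]
    have e2 : (M * A ^ k * (e.symm : ℂ →L[ℝ] ℂ)) * (M * A * (e.symm : ℂ →L[ℝ] ℂ)) =
        M * A ^ k * ((e.symm : ℂ →L[ℝ] ℂ) * M) * (A * (e.symm : ℂ →L[ℝ] ℂ)) := by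
      simp only [mul_assoc]
    rw [e1, e2, hNM, mul_one, mul_one]
    have e3 : M * A * (A ^ k * (e.symm : ℂ →L[ℝ] ℂ)) = M * (A ^ (k + 1)) *
        (e.symm : ℂ →L[ℝ] ℂ) := by
      rw [pow_succ']
      simp only [mul_assoc]
    have e4 : M * A ^ k * (A * (e.symm : ℂ →L[ℝ] ℂ)) = M * (A ^ (k + 1)) *
        (e.symm : ℂ →L[ℝ] ℂ) := by
      rw [pow_succ]
      simp only [mul_assoc]
    rw [e3, e4]
  have hA' := lab2_eq_mulL (hβ k' hk') hcomm
  obtain ⟨α, hα⟩ : ∃ α, α = (M * A * (e.symm : ℂ →L[ℝ] ℂ)) 1 := ⟨_, rfl⟩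
  rw [← hα] at hA'
  have hMA : M * A = mulL α * M := by
    rw [← hA', mul_assoc, hNM, mul_one]
  have hpow := lab2_pow hMA
  -- cancellation of `M`
  have hcancel : ∀ μ ν : ℂ, mulL μ * M = mulL ν * M → μ = ν := by
    intro μ ν h
    have h3 : mulL μ = mulL ν := by
      have h4 := congrArg (fun S => S * (e.symm : ℂ →L[ℝ] ℂ)) h
      simp only [mul_assoc, hMN, mul_one] at h4
      exact h4
    have h5 := congrArg (fun S : ℂ →L[ℝ] ℂ => S 1) h3
    simp only [mulL_apply, mul_one] at h5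
    exact h5
  have hαβ : α = β := by
    refine lab_complex hC' hne' hsm' hβ hβ1 ?_ ?_
    · rintro j hj ⟨_, ⟨x, hx, rfl⟩, ⟨y, hy, hxy⟩⟩
      have h3 : M ((A ^ j) x) = α ^ j * M x := by
        have h4 := congrArg (fun S : ℂ →L[ℝ] ℂ => S x) (hpow j)
        have h5 : M ((A ^ j) x) = mulL (α ^ j) (M x) := h4
        rwa [mulL_apply] at h5
      have h6 : (A ^ j) x = y := hinj (by rw [h3, hxy])
      obtain ⟨j', hj', hjj⟩ := h1 j hj ⟨x, hx, by rw [h6]; exact hy⟩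
      refine ⟨j', hj', hcancel _ _ ?_⟩
      rw [← hpow j, hjj, lab2_mulL_pow]
    · rintro j' hj' ⟨_, ⟨x, hx, rfl⟩, ⟨y, hy, hxy⟩⟩
      obtain ⟨j, hj, hjj⟩ := h2 j' hj' ⟨x, hx, y, hy, by
        rw [lab2_mulL_pow, mulL_apply]
        exact hxy.symm⟩
      refine ⟨j, hj, hcancel _ _ ?_⟩
      rw [← hpow j, hjj, lab2_mulL_pow]
  rw [hMA, hαβ]

end TotRen
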