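import Pool.Agent.W_MP_f70009_h24.Recur2
import Pool.Agent.W_MP_f70009_h24.LinB1
import Pool.Agent.W_MP_f70009_h24.LinB2

/-!
# Label lemma, saddles
-/

open scoped ContDiff Topology
open Set Filter

namespace TotRen

theorem lab3_pow {A : ℂ →L[ℝ] ℂ} {P : ℂ ≃L[ℝ] ℂ} {α : ℂ} (h : ∀ v, P (A v) = α * P v) (k : ℕ)
    (v : ℂ) : P ((A ^ k) v) = α ^ k * P v := by
  induction k with
  | zero => simp
  | succ k ih =>
    rw [pow_succ', pow_succ']
    change P (A ((A ^ k) v)) = _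
    rw [h, ih, mul_assoc]

theorem lab3_eig {S : ℂ →L[ℝ] ℂ} {r : ℝ} {v : ℂ} (h : S v = r • v) (k : ℕ) :
    (S ^ k) v = r ^ k • v := by
  induction k with
  | zero => simp
  | succ k ih =>
    rw [pow_succ', pow_succ']
    change S ((S ^ k) v) = _
    rw [ih, map_smul, h, smul_smul, mul_comm]

/-- An eigenvector of `S ^ k'` gives a real value of `α ^ k`. -/
theorem lab3_key {A M S : ℂ →L[ℝ] ℂ} (hM : det2 M ≠ 0) {P : ℂ ≃L[ℝ] ℂ} {α : ℂ}
    (hP : ∀ v, P (A v) = α * P v) {k k' : ℕ} (h : M * A ^ k = S ^ k' * M) {r : ℝ} {v : ℂ}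
    (hv : v ≠ 0) (hS : S v = r • v) : α ^ k = ((r ^ k' : ℝ) : ℂ) := by
  obtain ⟨e, he⟩ := exists_equiv M hM
  obtain ⟨u, hu⟩ : ∃ u, M u = v := ⟨e.symm v, by rw [← he]; exact e.apply_symm_apply v⟩
  have hu0 : u ≠ 0 := by
    rintro rfl
    rw [map_zero] at hu
    exact hv hu.symm
  have h1 : M ((A ^ k) u) = (S ^ k') (M u) := congrArg (fun T : ℂ →L[ℝ] ℂ => T u) h
  rw [hu, lab3_eig hS, ← hu, ← map_smul] at h1
  have h2 := injective_of_det2 M hM h1
  have h3 := lab3_pow hP k u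
  rw [h2, map_smul, Complex.real_smul] at h3
  have h4 : P u ≠ 0 := by
    intro h5
    exact hu0 (P.injective (h5.trans (map_zero P).symm))
  exact (mul_right_cancel₀ h4 h3).symm

/-- A map with negative discriminant has no power conjugate to a power of the hyperbolic map
`sadL c`, `0 < |c| < 1` (which has the real eigenvalues `1 ± |c|`, with eigenvectors `v`, `i v`
where `v² = c`). -/
theorem lab_saddle {A M : ℂ →L[ℝ] ℂ} (hM : det2 M ≠ 0) (hA : tr2 A ^ 2 < 4 * det2 A) {c : ℂ}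
    (hc : c ≠ 0) (hc1 : ‖c‖ < 1) {k k' : ℕ} (hk : 1 ≤ k) (hk' : 1 ≤ k') :
    M * A ^ k ≠ sadL c ^ k' * M := by
  intro h
  obtain ⟨P, α, -, hP⟩ := exists_complex_form A hA
  obtain ⟨v, hv⟩ := IsAlgClosed.exists_pow_nat_eq c (n := 2) (by norm_num)
  have hv0 : v ≠ 0 := by
    rintro rfl
    rw [zero_pow (by norm_num)] at hv
    exact hc hv.symm
  have hcv : c * (starRingEnd ℂ) v = ((‖c‖ : ℝ) : ℂ) * v := by
    have h1 : ‖c‖ = ‖v‖ ^ 2 := by rw [← hv, norm_pow]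
    rw [h1, ← Complex.normSq_eq_norm_sq, Complex.normSq_eq_conj_mul_self, ← hv]
    ring
  have h1 : sadL c v = (1 + ‖c‖) • v := by
    rw [sadL_apply, hcv, Complex.real_smul]
    push_cast
    ring
  have h2 : sadL c (Complex.I * v) = (1 - ‖c‖) • (Complex.I * v) := by
    rw [sadL_apply, map_mul, Complex.conj_I, Complex.real_smul]
    have h3 : c * (-Complex.I * (starRingEnd ℂ) v) = -Complex.I * (c * (starRingEnd ℂ) v) := by
      ring
    rw [h3, hcv]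
    push_cast
    ring
  have e1 := lab3_key hM hP h hv0 h1
  have e2 := lab3_key hM hP h (mul_ne_zero Complex.I_ne_zero hv0) h2
  rw [e1] at e2
  have e3 : (1 + ‖c‖) ^ k' = (1 - ‖c‖) ^ k' := by exact_mod_cast e2
  have hc0 : 0 < ‖c‖ := norm_pos_iff.2 hc
  have e4 : (1 - ‖c‖) ^ k' < (1 + ‖c‖) ^ k' :=
    pow_lt_pow_left₀ (by linarith) (by linarith) (by omega)
  exact absurd e3 e4.ne'

/-- recurrence of directions for a map with negative discriminant
(`exists_complex_form` and `cone_recur'`) -/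
theorem cone_recur_lin {C : Set ℂ} (hC : IsOpen C) (hne : C.Nonempty)
    (hsm : ∀ e ∈ C, ∀ c : ℝ, 0 < c → (c : ℂ) * e ∈ C) {A : ℂ →L[ℝ] ℂ}
    (hA : tr2 A ^ 2 < 4 * det2 A) : ∃ k : ℕ, 1 ≤ k ∧ ∃ e ∈ C, (A ^ k) e ∈ C := by
  obtain ⟨P, α, hα, hP⟩ := exists_complex_form A hA
  have hα0 : α ≠ 0 := by
    rintro rfl
    exact hα Complex.zero_im
  have hC' : IsOpen (P '' C) := P.toHomeomorph.isOpenMap C hC
  obtain ⟨k, hk, e', ⟨e, he, rfl⟩, hke⟩ := cone_recur' hC' (hne.image P) (by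
    rintro e' ⟨e, he, rfl⟩ c hc
    refine ⟨(c : ℂ) * e, hsm e he c hc, ?_⟩
    rw [← Complex.real_smul, map_smul, Complex.real_smul]) hα0
  refine ⟨k, hk, e, he, ?_⟩
  rw [← lab3_pow hP k e] at hke
  obtain ⟨e2, he2, h3⟩ := hke
  rwa [← P.injective h3]

end TotRen
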