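import Pool.Agent.W_MP_f70009_h24.Lab2
import Pool.Agent.W_MP_f70009_h24.GermF
import Pool.Agent.W_MP_f70009_h24.GermB

/-!
# Strong label lemma
-/

open scoped ContDiff Topology
open Set Filter

namespace TotRen

/-- Strong label lemma at a point of `Δ`: if `H (pr x)` is a fixed point of `G` at which the derivative
of `G` is the multiplication by `β` (`|β| ≠ 1`, no power of `β` real), then the derivative of
`g ^ n` at `x`, `n` the minimal period of `pr x`, is conjugate to the multiplication by `β`.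
(`exists_cone`, `germ_forward`, `germ_backward`, `exists_eq_of_open`, `lab_main`; the period is
`≥ 1` by `D.exists_time` and `G (H (pr x)) = H (pr x)`.) -/
theorem label_strong {g G : T2 → T2} {gh Gh : ℂ → ℂ} (hg : ContDiff ℝ ∞ gh)
    (hG : ContDiff ℝ ∞ Gh) (lg : IsLift gh g) (lG : IsLift Gh G) {Δ : Set T2} {H : T2 → T2}
    {τ : T2 → ℕ} {m : ℕ} (D : RenData g G Δ H τ m) {x y : ℂ} (hx : pr x ∈ Δ)
    (hxy : H (pr x) = pr y) (hfix : G (pr y) = pr y) {β : ℂ}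
    (hβ : ∀ j : ℕ, 1 ≤ j → (β ^ j).im ≠ 0) (hβ1 : ‖β‖ ≠ 1) (hd : fderiv ℝ Gh y = mulL β) :
    1 ≤ Function.minimalPeriod g (pr x) ∧
      tr2 (fderiv ℝ (gh^[Function.minimalPeriod g (pr x)]) x) = 2 * β.re ∧
      det2 (fderiv ℝ (gh^[Function.minimalPeriod g (pr x)]) x) = Complex.normSq β := by
  obtain ⟨Ψ, hΨ, hxΨ, hH⟩ := D.localDiffeo x hx
  have hpy : pr (Ψ x) = pr y := (hH x hxΨ hx).symm.trans hxy
  have hfix' : G (pr (Ψ x)) = pr (Ψ x) := by rw [hpy, hfix]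
  have hB : fderiv ℝ Gh (Ψ x) = mulL β := (fderiv_lift_congr hG lG hpy).trans hd
  -- `pr x` is periodic
  obtain ⟨n₀, hn₀, -, hn₁, hn₂⟩ := D.exists_time hx (k := 1) le_rfl
  have hper₀ : g^[n₀] (pr x) = pr x := by
    refine D.bij.injOn hn₁ hx ?_
    rw [hn₂, Function.iterate_one, hxy, hfix]
  have hpos : 0 < Function.minimalPeriod g (pr x) :=
    Function.minimalPeriod_pos_of_mem_periodicPts
      (Function.mk_mem_periodicPts (by omega) hper₀)
  obtain ⟨n, hn⟩ : ∃ n, n = Function.minimalPeriod g (pr x) := ⟨_, rfl⟩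
  have hn1 : 1 ≤ n := by rw [hn]; exact hpos
  have hper : g^[n] (pr x) = pr x := by
    rw [hn]
    exact Function.isPeriodicPt_minimalPeriod g (pr x)
  rw [← hn]
  obtain ⟨C, hC⟩ := exists_cone D.corners hx
  obtain ⟨M, hMdef⟩ : ∃ M, M = fderiv ℝ Ψ x := ⟨_, rfl⟩
  obtain ⟨A, hAdef⟩ : ∃ A, A = fderiv ℝ (gh^[n]) x := ⟨_, rfl⟩
  have hM : det2 M ≠ 0 := by
    rw [hMdef]
    exact det2_chart_ne_zero hΨ hxΨ
  have h1 : ∀ k : ℕ, 1 ≤ k → (∃ e ∈ C, (A ^ k) e ∈ C) →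
      ∃ k' : ℕ, 1 ≤ k' ∧ M * A ^ k = mulL β ^ k' * M := by
    rintro k hk ⟨e, he, he'⟩
    obtain ⟨k', hk', h3⟩ := exists_eq_of_open (S := Finset.Icc 1 (k * n))
      (T := fun k' => mulL β ^ k' * M) (T0 := M * A ^ k) (U := C ∩ (A ^ k) ⁻¹' C)
      (hC.isOpen.inter (hC.isOpen.preimage (A ^ k).continuous)) ⟨e, he, he'⟩ (by
        rintro e ⟨he, he'⟩
        rw [mem_preimage, hAdef] at he'
        obtain ⟨k', hk1, hk2, h3⟩ := germ_forward hg hG lg lG D hx hC hΨ hxΨ hH hfix' hn1 hper hk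
          he he'
        refine ⟨k', Finset.mem_Icc.2 ⟨hk1, hk2⟩, ?_⟩
        rw [hB] at h3
        rw [hMdef, hAdef]
        exact h3)
    exact ⟨k', (Finset.mem_Icc.1 hk').1, h3⟩
  have h2 : ∀ k' : ℕ, 1 ≤ k' → (∃ e ∈ C, ∃ e' ∈ C, (mulL β ^ k') (M e) = M e') →
      ∃ k : ℕ, 1 ≤ k ∧ M * A ^ k = mulL β ^ k' * M := by
    rintro k' hk' ⟨e, he, e', he', h3⟩
    obtain ⟨E, hE⟩ := exists_equiv M hM
    have hE' : ∀ v, E v = M v := fun v => by rw [← hE]; rfl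
    have hMe : ∀ v, M (E.symm v) = v := fun v => by rw [← hE', E.apply_symm_apply]
    obtain ⟨k, hk, h4⟩ := exists_eq_of_open (S := Finset.Icc 1 (k' * m))
      (T := fun k => M * A ^ k) (T0 := mulL β ^ k' * M)
      (U := C ∩ (fun e => E.symm ((mulL β ^ k') (M e))) ⁻¹' C)
      (hC.isOpen.inter (hC.isOpen.preimage
        (E.symm.continuous.comp ((mulL β ^ k').continuous.comp M.continuous)))) (by
        refine ⟨e, he, ?_⟩
        rw [mem_preimage, h3, ← hE', E.symm_apply_apply]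
        exact he') (by
        rintro e ⟨he, he'⟩
        rw [mem_preimage] at he'
        obtain ⟨k, hk1, hk2, h5⟩ := germ_backward hg hG lg lG D hx hC hΨ hxΨ hH hfix' hn1 hn.symm
          hk' he he' (by rw [hB, ← hMdef, hMe])
        refine ⟨k, Finset.mem_Icc.2 ⟨hk1, hk2⟩, ?_⟩
        rw [hB] at h5
        rw [hMdef, hAdef]
        exact h5.symm)
    exact ⟨k, (Finset.mem_Icc.1 hk).1, h4.symm⟩
  have h3 := lab_main hC.isOpen hC.nonempty hC.smul_mem hM hβ hβ1 h1 h2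
  have h4 := similar_of_comp M A (mulL β) hM h3
  rw [tr2_mulL, det2_mulL] at h4
  rw [← hAdef]
  exact ⟨hn1, h4.1, h4.2⟩

end TotRen
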