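import Pool.Agent.W_MP_f70009_h24.Defs

/-!
# Real-linear endomorphisms of `ℂ`: trace, determinant
-/

open scoped ContDiff Topology
open Set Filter

namespace TotRen

theorem clm_apply (T : ℂ →L[ℝ] ℂ) (v : ℂ) : T v = (v.re : ℂ) * T 1 + (v.im : ℂ) * T Complex.I := by
  have h : v = v.re • (1 : ℂ) + v.im • Complex.I := by
    apply Complex.ext <;> simp
  conv_lhs => rw [h, map_add, map_smul, map_smul]
  simp [Complex.real_smul]

theorem det2_comp (S T : ℂ →L[ℝ] ℂ) : det2 (S.comp T) = det2 S * det2 T := by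
  simp only [det2, ContinuousLinearMap.comp_apply]
  rw [clm_apply S (T 1), clm_apply S (T Complex.I)]
  simp only [Complex.add_re, Complex.add_im, Complex.mul_re, Complex.mul_im, Complex.ofReal_re,
    Complex.ofReal_im, zero_mul, sub_zero, add_zero]
  ring

theorem tr2_comp_comm (S T : ℂ →L[ℝ] ℂ) : tr2 (S.comp T) = tr2 (T.comp S) := by
  simp only [tr2, ContinuousLinearMap.comp_apply]
  rw [clm_apply S (T 1), clm_apply S (T Complex.I), clm_apply T (S 1), clm_apply T (S Complex.I)]
  simp only [Complex.add_re, Complex.add_im, Complex.mul_re, Complex.mul_im, Complex.ofReal_re,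
    Complex.ofReal_im, zero_mul, sub_zero, add_zero]
  ring

theorem det2_comp_comm (S T : ℂ →L[ℝ] ℂ) : det2 (S.comp T) = det2 (T.comp S) := by
  rw [det2_comp, det2_comp, mul_comm]

@[simp] theorem det2_one : det2 1 = 1 := by simp [det2]
@[simp] theorem tr2_one : tr2 1 = 2 := by simp [tr2]; norm_num

@[simp] theorem mulL_apply (μ v : ℂ) : mulL μ v = μ * v := by simp [mulL]

theorem det2_mulL (μ : ℂ) : det2 (mulL μ) = Complex.normSq μ := by
  simp [det2, Complex.normSq_apply]

theorem tr2_mulL (μ : ℂ) : tr2 (mulL μ) = 2 * μ.re := by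
  simp [tr2]; ring

@[simp] theorem sadL_apply (c v : ℂ) : sadL c v = v + c * (starRingEnd ℂ) v := by
  simp [sadL]

theorem det2_sadL (c : ℂ) : det2 (sadL c) = 1 - Complex.normSq c := by
  simp [det2, Complex.normSq_apply]; ring

theorem tr2_sadL (c : ℂ) : tr2 (sadL c) = 2 := by
  simp [tr2]; ring

/-- Cayley–Hamilton -/
theorem cayley (T : ℂ →L[ℝ] ℂ) : T * T = tr2 T • T - det2 T • (1 : ℂ →L[ℝ] ℂ) := by
  apply ContinuousLinearMap.ext
  intro v
  rw [mul_apply_eq_comp, clm_apply T (T v), clm_apply T v]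
  simp only [tr2, det2, sub_apply, smul_apply,
    one_apply_eq_self]
  rw [clm_apply T v]
  apply Complex.ext
  · simp only [Complex.add_re, Complex.add_im, Complex.mul_re, Complex.mul_im, Complex.ofReal_re,
      Complex.ofReal_im, zero_mul, sub_zero, add_zero, Complex.sub_re, Complex.smul_re, smul_eq_mul]
    ring
  · simp only [Complex.add_re, Complex.add_im, Complex.mul_re, Complex.mul_im, Complex.ofReal_re,
      Complex.ofReal_im, zero_mul, sub_zero, add_zero, Complex.sub_im, Complex.smul_im, smul_eq_mul]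
    ring

theorem continuous_tr2 : Continuous (tr2 : (ℂ →L[ℝ] ℂ) → ℝ) := by
  unfold tr2; fun_prop

theorem continuous_det2 : Continuous (det2 : (ℂ →L[ℝ] ℂ) → ℝ) := by
  unfold det2; fun_prop

end TotRen
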