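import Pool.Agent.W_MP_f70009_h24.Defs

/-!
# Recurrence of powers
-/

open scoped ContDiff Topology
open Set Filter

namespace TotRen

/-- If `w` is on the unit circle and is not a root of unity then some power `w ^ k`, with `k ≥ 1` not
divisible by `d`, is close to `1`.  Proof: the multiples of an element of infinite order are dense
in the circle group (look for `dense_zmultiples_iff`, `AddSubgroup.dense_or_cyclic`,
`AddCircle` in Mathlib); apply this to `w ^ d`: there is an integer `j` with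
`‖w ^ (1 + d * j) - 1‖ < δ`; take `k = |1 + d * j|` (which is not divisible by `d` since `d ≥ 2`). -/
theorem exists_pow_near_one {w : ℂ} (hw : ‖w‖ = 1) (hroot : ∀ k : ℕ, 1 ≤ k → w ^ k ≠ 1)
    {δ : ℝ} (hδ : 0 < δ) {d : ℕ} (hd : 2 ≤ d) :
    ∃ k : ℕ, 1 ≤ k ∧ ¬ d ∣ k ∧ ‖w ^ k - 1‖ < δ := by
  have hpi : Fact (0 < 2 * Real.pi) := ⟨by positivity⟩
  have hw0 : w ≠ 0 := by
    rintro rfl
    rw [norm_zero] at hw
    exact zero_ne_one hw
  have hwd : ‖w ^ d‖ = 1 := by rw [norm_pow, hw, one_pow]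
  have hwi : ‖w⁻¹‖ = 1 := by rw [norm_inv, hw, inv_one]
  let zd : Circle := ⟨w ^ d, mem_sphere_zero_iff_norm.2 hwd⟩
  let zi : Circle := ⟨w⁻¹, mem_sphere_zero_iff_norm.2 hwi⟩
  let e := AddCircle.homeomorphCircle'
  obtain ⟨a, ha⟩ := e.surjective zd
  obtain ⟨s, hs⟩ := e.surjective zi
  have hea : ∀ n : ℕ, (e (n • a) : Circle) = zd ^ n := by
    intro n
    rw [← ha]
    induction n with
    | zero =>
      simp only [zero_smul, pow_zero]
      exact Real.Angle.toCircle_zero
    | succ n ih =>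
      rw [succ_nsmul, pow_succ, ← ih]
      exact Real.Angle.toCircle_add _ _
  have hpow : ∀ n : ℕ, ((e (n • a) : Circle) : ℂ) = w ^ (d * n) := by
    intro n
    rw [hea, Circle.coe_pow, pow_mul]
  have hord : addOrderOf a = 0 := by
    by_contra h
    have h1 := addOrderOf_nsmul_eq_zero a
    have h2 := hpow (addOrderOf a)
    rw [h1] at h2
    have h3 := hpow 0
    rw [zero_smul, mul_zero, pow_zero] at h3
    rw [h3] at h2
    exact hroot _ (Nat.mul_pos (by omega) (Nat.pos_of_ne_zero h)) h2.symm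
  have hdr : DenseRange (fun n : ℕ => n • a) :=
    denseRange_zsmul_iff_nsmul.1 (AddCircle.denseRange_zsmul_iff.2 hord)
  have hcont : Continuous (fun y : AddCircle (2 * Real.pi) => ((e y : Circle) : ℂ)) :=
    continuous_subtype_val.comp e.continuous
  obtain ⟨n, hn⟩ := hdr.exists_mem_open
    (Metric.isOpen_ball.preimage hcont (t := Metric.ball (w⁻¹) δ)) ⟨s, by
      simp only [Set.mem_preimage, Metric.mem_ball]
      rw [hs]
      show dist (w⁻¹) (w⁻¹) < δ
      rw [dist_self]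
      exact hδ⟩
  simp only [Set.mem_preimage, Metric.mem_ball] at hn
  rw [hpow] at hn
  refine ⟨1 + d * n, by omega, ?_, ?_⟩
  · intro h
    have h1 : d ∣ 1 := (Nat.dvd_add_left (dvd_mul_right d n)).1 h
    have := Nat.le_of_dvd one_pos h1
    omega
  · have e1 : w ^ (1 + d * n) - 1 = w * (w ^ (d * n) - w⁻¹) := by
      rw [pow_add, pow_one, mul_sub, mul_inv_cancel₀ hw0]
    rw [e1, norm_mul, hw, one_mul]
    rwa [dist_eq_norm] at hn

/-- Simple recurrence (no condition on `w`): Dirichlet / pigeonhole / compactness of the circle. -/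
theorem exists_pow_near_one' {w : ℂ} (hw : ‖w‖ = 1) {δ : ℝ} (hδ : 0 < δ) :
    ∃ k : ℕ, 1 ≤ k ∧ ‖w ^ k - 1‖ < δ := by
  by_cases h : ∀ k : ℕ, 1 ≤ k → w ^ k ≠ 1
  · obtain ⟨k, hk, -, hk'⟩ := exists_pow_near_one hw h hδ le_rfl
    exact ⟨k, hk, hk'⟩
  · push Not at h
    obtain ⟨k, hk, hk'⟩ := h
    exact ⟨k, hk, by rw [hk', sub_self, norm_zero]; exact hδ⟩

end TotRen
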