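import Pool.Agent.W_MP_f70009_h24.Recur1

/-!
# Recurrence of directions
-/

open scoped ContDiff Topology
open Set Filter

namespace TotRen

/-- a power of the direction of `β` close to `1` maps a point of the open cone into the cone -/
theorem recur2_aux {C : Set ℂ} (hC : IsOpen C) (hne : C.Nonempty)
    (hsm : ∀ e ∈ C, ∀ c : ℝ, 0 < c → (c : ℂ) * e ∈ C) {β : ℂ} (hβ : β ≠ 0) :
    ∃ δ : ℝ, 0 < δ ∧ ∀ k : ℕ, ‖(β / (‖β‖ : ℂ)) ^ k - 1‖ < δ → ∃ e ∈ C, β ^ k * e ∈ C := by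
  obtain ⟨e, he⟩ := hne
  obtain ⟨r, hr, hball⟩ := Metric.isOpen_iff.1 hC e he
  have hpos : 0 < ‖e‖ + 1 := by positivity
  refine ⟨r / (‖e‖ + 1), div_pos hr hpos, fun k hk => ⟨e, he, ?_⟩⟩
  have hn : (0 : ℝ) < ‖β‖ := norm_pos_iff.2 hβ
  have hn' : (‖β‖ : ℂ) ≠ 0 := by exact_mod_cast hn.ne'
  have h1 : (β / (‖β‖ : ℂ)) ^ k * e ∈ C := by
    apply hball
    rw [Metric.mem_ball, dist_eq_norm]
    have h2 : (β / (‖β‖ : ℂ)) ^ k * e - e = ((β / (‖β‖ : ℂ)) ^ k - 1) * e := by ring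
    rw [h2, norm_mul]
    rw [lt_div_iff₀ hpos] at hk
    nlinarith [norm_nonneg ((β / (‖β‖ : ℂ)) ^ k - 1), norm_nonneg e]
  have h3 := hsm _ h1 (‖β‖ ^ k) (by positivity)
  have h4 : ((‖β‖ ^ k : ℝ) : ℂ) * ((β / (‖β‖ : ℂ)) ^ k * e) = β ^ k * e := by
    rw [div_pow]
    push_cast
    field_simp
  rw [h4] at h3
  exact h3

theorem recur2_norm {β : ℂ} (hβ : β ≠ 0) : ‖β / (‖β‖ : ℂ)‖ = 1 := by
  rw [norm_div, Complex.norm_real, norm_norm, div_self (norm_ne_zero_iff.2 hβ)]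

/-- For every `β ≠ 0` and every non-empty open cone `C` some power of `β` maps a point of `C` into `C`
(apply the previous lemma to `β / ‖β‖`). -/
theorem cone_recur' {C : Set ℂ} (hC : IsOpen C) (hne : C.Nonempty)
    (hsm : ∀ e ∈ C, ∀ c : ℝ, 0 < c → (c : ℂ) * e ∈ C) {β : ℂ} (hβ : β ≠ 0) :
    ∃ k : ℕ, 1 ≤ k ∧ ∃ e ∈ C, β ^ k * e ∈ C := by
  obtain ⟨δ, hδ, h⟩ := recur2_aux hC hne hsm hβ
  obtain ⟨k, hk, hk'⟩ := exists_pow_near_one' (recur2_norm hβ) hδ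
  exact ⟨k, hk, h k hk'⟩

/-- The same with `d ∤ k`, if no power of `β` is real. -/
theorem cone_recur {C : Set ℂ} (hC : IsOpen C) (hne : C.Nonempty)
    (hsm : ∀ e ∈ C, ∀ c : ℝ, 0 < c → (c : ℂ) * e ∈ C) {β : ℂ}
    (hβ : ∀ j : ℕ, 1 ≤ j → (β ^ j).im ≠ 0) {d : ℕ} (hd : 2 ≤ d) :
    ∃ k : ℕ, 1 ≤ k ∧ ¬ d ∣ k ∧ ∃ e ∈ C, β ^ k * e ∈ C := by
  have hβ0 : β ≠ 0 := by
    rintro rfl
    exact hβ 1 le_rfl (by simp)
  obtain ⟨δ, hδ, h⟩ := recur2_aux hC hne hsm hβ0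
  have hroot : ∀ k : ℕ, 1 ≤ k → (β / (‖β‖ : ℂ)) ^ k ≠ 1 := by
    intro k hk h1
    apply hβ k hk
    have hn' : (‖β‖ : ℂ) ^ k ≠ 0 := pow_ne_zero _ (by exact_mod_cast (norm_pos_iff.2 hβ0).ne')
    rw [div_pow, div_eq_one_iff_eq hn'] at h1
    rw [h1, ← Complex.ofReal_pow, Complex.ofReal_im]
  obtain ⟨k, hk, hd', hk'⟩ := exists_pow_near_one (recur2_norm hβ0) hroot hδ hd
  exact ⟨k, hk, hd', h k hk'⟩

/-- A finite family of real-linear maps: if at each point of a non-empty open set `T0` agrees with one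
of them, then `T0` is one of them.  (Each `{e | T0 e = T k e}` is a linear subspace; a finite union
of proper subspaces has measure zero, `MeasureTheory.Measure.addHaar_submodule`.) -/
theorem exists_eq_of_open {S : Finset ℕ} {T : ℕ → ℂ →L[ℝ] ℂ} {T0 : ℂ →L[ℝ] ℂ} {U : Set ℂ}
    (hU : IsOpen U) (hne : U.Nonempty) (h : ∀ e ∈ U, ∃ k ∈ S, T0 e = T k e) :
    ∃ k ∈ S, T0 = T k := by
  by_contra hno
  push Not at hno
  have hsub : U ⊆ ⋃ k ∈ S, ((T0 - T k).toLinearMap.ker : Set ℂ) := by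
    intro e he
    obtain ⟨k, hk, hek⟩ := h e he
    refine mem_biUnion hk ?_
    change (T0 - T k) e = 0
    rw [sub_apply, hek, sub_self]
  have h0 : MeasureTheory.volume (⋃ k ∈ S, ((T0 - T k).toLinearMap.ker : Set ℂ)) = 0 := by
    refine (MeasureTheory.measure_biUnion_null_iff (I := (S : Set ℕ)) S.countable_toSet).2 ?_
    intro k hk
    refine MeasureTheory.Measure.addHaar_submodule _ _ ?_
    intro htop
    apply hno k hk
    ext1 e
    have h1 : e ∈ (T0 - T k).toLinearMap.ker := by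
      rw [htop]
      exact Submodule.mem_top
    have h2 : (T0 - T k) e = 0 := h1
    rw [sub_apply, sub_eq_zero] at h2
    exact h2
  have h2 := hU.measure_pos MeasureTheory.volume hne
  exact absurd (MeasureTheory.measure_mono_null hsub h0) h2.ne'

end TotRen
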