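import Pool.Agent.W_MP_f70009_h24.Defs

/-!
# First return combinatorics
-/

open scoped ContDiff Topology
open Set Filter

namespace TotRen

/-- If `p ∈ Δ` returns to `Δ` at time `n ≥ 1` then this is the `k`-th return for some `1 ≤ k ≤ n`.
(Strong induction on `n`.) -/
theorem RenData.iterate_return {g G : T2 → T2} {Δ : Set T2} {H : T2 → T2} {τ : T2 → ℕ} {m : ℕ}
    (D : RenData g G Δ H τ m) {p : T2} (hp : p ∈ Δ) {n : ℕ} (hn : 1 ≤ n) (hr : g^[n] p ∈ Δ) :
    ∃ k, 1 ≤ k ∧ k ≤ n ∧ H (g^[n] p) = G^[k] (H p) := by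
  induction n using Nat.strong_induction_on generalizing p with
  | _ n ih =>
    have h1 : τ p ≤ n := by
      by_contra hlt
      exact D.first p hp n hn (not_le.1 hlt) hr
    have h2 := D.one_le p hp
    rcases h1.eq_or_lt with h3 | h3
    · refine ⟨1, le_rfl, hn, ?_⟩
      rw [← h3, Function.iterate_one]
      exact (D.conj p hp).symm
    · have h4 : g^[n - τ p] (g^[τ p] p) = g^[n] p := by
        rw [← Function.iterate_add_apply]
        congr 2
        omega
      obtain ⟨k, hk1, hk2, hk3⟩ := ih (n - τ p) (by omega) (D.return_mem p hp) (by omega)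
        (by rw [h4]; exact hr)
      refine ⟨k + 1, by omega, by omega, ?_⟩
      rw [← h4, hk3, Function.iterate_succ_apply, D.conj p hp]

/-- The `k`-th return of `p ∈ Δ`, `k ≥ 1`. -/
theorem RenData.exists_time {g G : T2 → T2} {Δ : Set T2} {H : T2 → T2} {τ : T2 → ℕ} {m : ℕ}
    (D : RenData g G Δ H τ m) {p : T2} (hp : p ∈ Δ) {k : ℕ} (hk : 1 ≤ k) :
    ∃ n, k ≤ n ∧ n ≤ k * m ∧ g^[n] p ∈ Δ ∧ H (g^[n] p) = G^[k] (H p) := by
  induction k, hk using Nat.le_induction with
  | base =>
    refine ⟨τ p, D.one_le p hp, by rw [one_mul]; exact D.le_bound p hp, D.return_mem p hp, ?_⟩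
    rw [Function.iterate_one]
    exact (D.conj p hp).symm
  | succ k hk ih =>
    obtain ⟨n, h1, h2, h3, h4⟩ := ih
    have h5 : g^[τ (g^[n] p)] (g^[n] p) = g^[τ (g^[n] p) + n] p :=
      (Function.iterate_add_apply g _ n p).symm
    have h6 := D.one_le _ h3
    have h7 := D.le_bound _ h3
    refine ⟨τ (g^[n] p) + n, by omega, by rw [add_mul, one_mul]; omega, ?_, ?_⟩
    · rw [← h5]
      exact D.return_mem _ h3
    · rw [← h5, ← D.conj _ h3, h4, Function.iterate_succ_apply']

end TotRen
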