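import Pool.Agent.W_MP_f70009_h24.Base

/-!
# A check of the definitions (not used by the hand-in)

The identity of `𝕋²` is a total renormalization of the rotation `(x, y) ↦ (x + 1/q, y)`, `q ≥ 2`.
-/

open scoped ContDiff Topology
open Set Filter

namespace TotRen

/-- the rotation by `1/q` in the first coordinate -/
noncomputable def rot (q : ℕ) (p : T2) : T2 := (p.1 + (((1 : ℝ) / q : ℝ) : UnitAddCircle), p.2)

/-- the strip `[0, 1/q) × 𝕋` -/
def strip (q : ℕ) : Set T2 := {p | ∃ x : ℝ, x ∈ Ico (0 : ℝ) (1 / q) ∧ p.1 = (x : UnitAddCircle)}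

/-- `(x, y) ↦ (q x, y)` -/
def mulq (q : ℕ) (p : T2) : T2 := (q • p.1, p.2)

theorem coe_inj_Ico {a x y : ℝ} (hx : x ∈ Ico a (a + 1)) (hy : y ∈ Ico a (a + 1))
    (h : (x : UnitAddCircle) = (y : UnitAddCircle)) : x = y :=
  (AddCircle.coe_eq_coe_iff_of_mem_Ico hx hy).mp h

theorem rot_iterate (q j : ℕ) (p : T2) :
    (rot q)^[j] p = (p.1 + (((j : ℝ) / q : ℝ) : UnitAddCircle), p.2) := by
  induction j with
  | zero => simp
  | succ j ih =>
    rw [Function.iterate_succ_apply', ih, rot]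
    refine Prod.ext ?_ rfl
    show p.1 + (((j : ℝ) / q : ℝ) : UnitAddCircle) + (((1 : ℝ) / q : ℝ) : UnitAddCircle)
      = p.1 + ((((j + 1 : ℕ) : ℝ) / q : ℝ) : UnitAddCircle)
    rw [add_assoc, ← AddCircle.coe_add]
    congr 2
    push_cast
    ring

theorem mem_strip_iff {q : ℕ} (hq : 2 ≤ q) {w : ℂ} {n : ℤ}
    (h : w.re - n ∈ Ico (-(1 / 2) : ℝ) (1 / q)) : pr w ∈ strip q ↔ 0 ≤ w.re - n := by
  have hq' : (2 : ℝ) ≤ q := by exact_mod_cast hq
  have hq1 : (1 : ℝ) / q ≤ 1 / 2 := one_div_le_one_div_of_le (by norm_num) hq'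
  have hcoe : ((w.re : ℝ) : UnitAddCircle) = ((w.re - n : ℝ) : UnitAddCircle) := by
    rw [AddCircle.coe_sub]
    have : (((n : ℝ)) : UnitAddCircle) = 0 := by
      have := AddCircle.coe_eq_zero_iff (p := (1 : ℝ)) (x := (n : ℝ))
      rw [this]
      exact ⟨n, by simp⟩
    rw [this, sub_zero]
  constructor
  · rintro ⟨x, hx, hxw⟩
    have h1 : w.re - n = x := by
      apply coe_inj_Ico (a := -(1 / 2)) ⟨h.1, by linarith [h.2]⟩
        ⟨by linarith [hx.1], by linarith [hx.2]⟩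
      rw [← hcoe]; exact hxw
    rw [h1]; exact hx.1
  · intro h0
    exact ⟨w.re - n, ⟨h0, h.2⟩, hcoe⟩

/-- the chart `w ↦ w - z` on the ball of radius `δ` about `z` -/
noncomputable def ballChart (z : ℂ) (δ : ℝ) : OpenPartialHomeomorph ℂ ℂ :=
  (Homeomorph.addRight (-z)).toOpenPartialHomeomorph.restrOpen (Metric.ball z δ) Metric.isOpen_ball

theorem ballChart_apply (z w : ℂ) (δ : ℝ) : ballChart z δ w = w - z := by
  show w + -z = w - z
  ring

theorem ballChart_source (z : ℂ) (δ : ℝ) : (ballChart z δ).source = Metric.ball z δ := by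
  simp [ballChart]

theorem ballChart_smooth (z : ℂ) (δ : ℝ) : IsSmoothChart (ballChart z δ) where
  smooth := by
    have : ContDiff ℝ ∞ (fun w : ℂ => w + -z) := contDiff_id.add contDiff_const
    exact this.contDiffOn
  smooth_symm := by
    have : ContDiff ℝ ∞ (fun w : ℂ => w + - -z) := contDiff_id.add contDiff_const
    exact this.contDiffOn

theorem strip_corner {q : ℕ} (hq : 2 ≤ q) : IsCornerDomain (strip q) := by
  have hq' : (2 : ℝ) ≤ q := by exact_mod_cast hq
  have hq1 : (1 : ℝ) / q ≤ 1 / 2 := one_div_le_one_div_of_le (by norm_num) hq'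
  have hq0 : (0 : ℝ) < 1 / q := by positivity
  rintro z ⟨x, hx, hxz⟩
  -- `z.re = x + n`
  obtain ⟨n, hn⟩ : ∃ n : ℤ, z.re - n = x := by
    have h1 : ((z.re : ℝ) : UnitAddCircle) = (x : UnitAddCircle) := hxz
    have h2 : ((z.re - x : ℝ) : UnitAddCircle) = 0 := by rw [AddCircle.coe_sub, h1, sub_self]
    obtain ⟨n, hn⟩ := (AddCircle.coe_eq_zero_iff (p := (1 : ℝ))).mp h2
    exact ⟨n, by simp at hn; linarith⟩
  have hre : ∀ w : ℂ, |w.re - z.re| ≤ ‖w - z‖ := fun w => by
    rw [← Complex.sub_re]; exact Complex.abs_re_le_norm _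
  rcases hx.1.eq_or_lt with h0 | h0
  · refine ⟨ballChart z (1 / q), 1, ballChart_smooth _ _, ?_, ?_, ?_⟩
    · rw [ballChart_source]; exact Metric.mem_ball_self hq0
    · rw [ballChart_apply, sub_self]
    · intro w hw
      rw [ballChart_source, Metric.mem_ball, dist_eq_norm] at hw
      have h1 := abs_lt.mp ((hre w).trans_lt hw)
      rw [mem_strip_iff hq (n := n) ⟨by linarith, by linarith⟩, ballChart_apply]
      constructor
      · intro h2
        exact ⟨fun _ => by rw [Complex.sub_re]; linarith, fun h3 => by omega⟩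
      · intro h2
        have := h2.1 le_rfl
        rw [Complex.sub_re] at this
        linarith
  · refine ⟨ballChart z (min x (1 / q - x)), 0, ballChart_smooth _ _, ?_, ?_, ?_⟩
    · rw [ballChart_source]; exact Metric.mem_ball_self (lt_min h0 (by linarith [hx.2]))
    · rw [ballChart_apply, sub_self]
    · intro w hw
      rw [ballChart_source, Metric.mem_ball, dist_eq_norm] at hw
      have h1 := abs_lt.mp ((hre w).trans_lt hw)
      have m1 := min_le_left x (1 / q - x)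
      have m2 := min_le_right x (1 / q - x)
      rw [mem_strip_iff hq (n := n) ⟨by linarith, by linarith⟩]
      exact ⟨fun _ => ⟨fun h3 => by omega, fun h3 => by omega⟩, fun _ => by linarith⟩

/-- `w ↦ (q Re w, Im w)` as a homeomorphism of the plane -/
noncomputable def stretch (q : ℕ) (hq : 2 ≤ q) : ℂ ≃ₜ ℂ where
  toFun w := ⟨q * w.re, w.im⟩
  invFun w := ⟨(q : ℝ)⁻¹ * w.re, w.im⟩
  left_inv w := by
    have : (q : ℝ) ≠ 0 := by positivity
    apply Complex.ext
    · show (q : ℝ)⁻¹ * (q * w.re) = w.re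
      field_simp
    · rfl
  right_inv w := by
    have : (q : ℝ) ≠ 0 := by positivity
    apply Complex.ext
    · show (q : ℝ) * ((q : ℝ)⁻¹ * w.re) = w.re
      field_simp
    · rfl
  continuous_toFun := by
    have : Continuous fun w : ℂ => Complex.equivRealProdCLM.symm ((q : ℝ) * w.re, w.im) := by
      fun_prop
    exact this
  continuous_invFun := by
    have : Continuous fun w : ℂ => Complex.equivRealProdCLM.symm ((q : ℝ)⁻¹ * w.re, w.im) := by
      fun_prop
    exact this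

theorem contDiff_stretch (c : ℝ) : ContDiff ℝ ∞ (fun w : ℂ => (⟨c * w.re, w.im⟩ : ℂ)) := by
  have h1 : ContDiff ℝ ∞ (fun w : ℂ => ((c * w.re, w.im) : ℝ × ℝ)) :=
    (contDiff_const.mul Complex.reCLM.contDiff).prodMk Complex.imCLM.contDiff
  exact Complex.equivRealProdCLM.symm.contDiff.comp h1

/-- The identity is a total renormalization of the rotation by `1/q`. -/
theorem id_isTotalRenormalization {q : ℕ} (hq : 2 ≤ q) : IsTotalRenormalization (rot q) id := by
  have hq' : (2 : ℝ) ≤ q := by exact_mod_cast hq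
  have hq1 : (1 : ℝ) / q ≤ 1 / 2 := one_div_le_one_div_of_le (by norm_num) hq'
  have hq0 : (0 : ℝ) < 1 / q := by positivity
  have hqne : (q : ℝ) ≠ 0 := by positivity
  have hret : ∀ p, (rot q)^[q] p = p := by
    intro p
    rw [rot_iterate, div_self hqne]
    refine Prod.ext ?_ rfl
    show p.1 + ((1 : ℝ) : UnitAddCircle) = p.1
    rw [AddCircle.coe_period, add_zero]
  refine ⟨strip q, mulq q, fun _ => q, q, ?_⟩
  refine ⟨?_, strip_corner hq, ?_, ⟨?_, ?_, ?_⟩, ?_, ?_, ?_, ?_, ?_, ?_⟩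
  · -- not everything
    intro h
    have h1 : (((1 / q : ℝ) : UnitAddCircle), (0 : UnitAddCircle)) ∈ strip q := by
      rw [h]; exact mem_univ _
    obtain ⟨x, hx, hxe⟩ := h1
    have := coe_inj_Ico (a := 0) (x := 1 / q) (y := x) ⟨hq0.le, by linarith⟩
      ⟨hx.1, by linarith [hx.2]⟩ hxe
    linarith [hx.2]
  · -- local diffeo
    intro z _
    refine ⟨(stretch q hq).toOpenPartialHomeomorph, ⟨?_, ?_⟩, mem_univ _, ?_⟩
    · exact (contDiff_stretch q).contDiffOn
    · exact (contDiff_stretch (q : ℝ)⁻¹).contDiffOn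
    · intro w _ _
      show (q • (w.re : UnitAddCircle), (w.im : UnitAddCircle))
        = (((q * w.re : ℝ) : UnitAddCircle), (w.im : UnitAddCircle))
      refine Prod.ext ?_ rfl
      show q • (w.re : UnitAddCircle) = ((q * w.re : ℝ) : UnitAddCircle)
      rw [← AddCircle.coe_nsmul, nsmul_eq_mul]
  · exact fun _ _ => mem_univ _
  · -- injective
    rintro ⟨p1, p2⟩ ⟨x, hx, hxe⟩ ⟨p1', p2'⟩ ⟨x', hx', hxe'⟩ h
    simp only at hxe hxe'
    subst hxe hxe'
    have h1 : q • (x : UnitAddCircle) = q • (x' : UnitAddCircle) := congrArg Prod.fst h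
    have h2 : p2 = p2' := congrArg Prod.snd h
    rw [← AddCircle.coe_nsmul, ← AddCircle.coe_nsmul, nsmul_eq_mul, nsmul_eq_mul] at h1
    have b : ∀ y ∈ Ico (0 : ℝ) (1 / q), (q : ℝ) * y ∈ Ico (0 : ℝ) (0 + 1) := by
      intro y hy
      refine ⟨mul_nonneg (by positivity) hy.1, ?_⟩
      have : (q : ℝ) * y < q * (1 / q) := by
        have := hy.2
        gcongr
      rw [mul_one_div, div_self hqne] at this
      linarith
    have h3 := coe_inj_Ico (b x hx) (b x' hx') h1
    have h4 : x = x' := mul_left_cancel₀ hqne h3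
    rw [h4, h2]
  · -- surjective
    rintro ⟨p1, p2⟩ _
    obtain ⟨y, hy, rfl⟩ : ∃ y ∈ Ico (0 : ℝ) 1, (y : UnitAddCircle) = p1 := by
      obtain ⟨y, hy⟩ := QuotientAddGroup.mk_surjective p1
      refine ⟨Int.fract y, ⟨Int.fract_nonneg _, Int.fract_lt_one _⟩, ?_⟩
      rw [Int.fract, AddCircle.coe_sub]
      have : (((⌊y⌋ : ℤ) : ℝ) : UnitAddCircle) = 0 := by
        rw [AddCircle.coe_eq_zero_iff]
        exact ⟨⌊y⌋, by simp⟩
      rw [this, sub_zero]; exact hy
    refine ⟨(((y / q : ℝ) : UnitAddCircle), p2), ⟨y / q, ⟨div_nonneg hy.1 (by positivity), ?_⟩, rfl⟩, ?_⟩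
    · have := hy.2
      gcongr
    · refine Prod.ext ?_ rfl
      show q • ((y / q : ℝ) : UnitAddCircle) = (y : UnitAddCircle)
      rw [← AddCircle.coe_nsmul, nsmul_eq_mul, mul_div_cancel₀ _ hqne]
  · intro p _; show 1 ≤ q; omega
  · intro p _; exact le_rfl
  · intro p hp; show (rot q)^[q] p ∈ strip q; rw [hret]; exact hp
  · -- first return
    rintro p ⟨x, hx, hxe⟩ j hj1 hjq
    rintro ⟨y, hy, hye⟩
    rw [rot_iterate] at hye
    simp only at hye
    rw [hxe, ← AddCircle.coe_add] at hye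
    have hj1' : (1 : ℝ) ≤ j := by exact_mod_cast hj1
    have hjq' : (j : ℝ) + 1 ≤ q := by exact_mod_cast hjq
    have e1 : (1 : ℝ) / q ≤ j / q := by gcongr
    have e2 : (j : ℝ) / q + 1 / q ≤ 1 := by
      rw [← add_div, div_le_one (by positivity)]; exact hjq'
    have := coe_inj_Ico (a := 0) ⟨by linarith [hx.1], by linarith [hx.2]⟩
      ⟨hy.1, by linarith [hy.2]⟩ hye
    linarith [hx.1, hy.2]
  · intro p _; show mulq q p = mulq q ((rot q)^[q] p); rw [hret]
  · -- the orbit of the strip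
    rintro ⟨p1, p2⟩
    obtain ⟨y, hy, rfl⟩ : ∃ y ∈ Ico (0 : ℝ) 1, (y : UnitAddCircle) = p1 := by
      obtain ⟨y, hy⟩ := QuotientAddGroup.mk_surjective p1
      refine ⟨Int.fract y, ⟨Int.fract_nonneg _, Int.fract_lt_one _⟩, ?_⟩
      rw [Int.fract, AddCircle.coe_sub]
      have : (((⌊y⌋ : ℤ) : ℝ) : UnitAddCircle) = 0 := by
        rw [AddCircle.coe_eq_zero_iff]
        exact ⟨⌊y⌋, by simp⟩
      rw [this, sub_zero]; exact hy
    have f0 : 0 ≤ (q : ℝ) * y := mul_nonneg (by positivity) hy.1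
    refine ⟨⌊(q : ℝ) * y⌋₊, (((y - (⌊(q : ℝ) * y⌋₊ : ℝ) / q : ℝ) : UnitAddCircle), p2),
      ⟨_, ⟨?_, ?_⟩, rfl⟩, ?_⟩
    · have := Nat.floor_le f0
      rw [sub_nonneg, div_le_iff₀ (by positivity)]
      linarith
    · have := Nat.lt_floor_add_one ((q : ℝ) * y)
      rw [sub_lt_iff_lt_add, ← add_div, lt_div_iff₀ (by positivity)]
      linarith
    · rw [rot_iterate]
      refine Prod.ext ?_ rfl
      show ((y - (⌊(q : ℝ) * y⌋₊ : ℝ) / q : ℝ) : UnitAddCircle)
        + (((⌊(q : ℝ) * y⌋₊ : ℝ) / q : ℝ) : UnitAddCircle) = (y : UnitAddCircle)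
      rw [← AddCircle.coe_add, sub_add_cancel]

end TotRen
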