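import Pool.Agent.W_MP_f70009_h24.Base

/-!
# `Diff^∞(𝕋²)`, its `C^∞` topology, and smooth maps
-/

open scoped ContDiff Topology
open Set Filter

namespace TotRen

/-! ### The Fréchet space `C^∞(𝕋², ℝ²)` -/

/-- An element of `C^∞(𝕋², ℝ²)` (with `ℝ² = ℂ`): a map `𝕋² → ℂ` whose lift to the universal cover is
`C^∞`. -/
structure Fld where
  /-- the map `𝕋² → ℂ` -/
  val : T2 → ℂ
  smooth : ContDiff ℝ ∞ (fun z => val (pr z))

/-- `u ∈ C^∞(𝕋², ℝ²)` on the universal cover -/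
noncomputable def up (u : Fld) (z : ℂ) : ℂ := u.val (pr z)

instance : Zero Fld := ⟨⟨fun _ => 0, contDiff_const⟩⟩

instance : Add Fld := ⟨fun u v => ⟨fun q => u.val q + v.val q, u.smooth.add v.smooth⟩⟩

instance : Neg Fld := ⟨fun u => ⟨fun q => - u.val q, u.smooth.neg⟩⟩

instance : Sub Fld := ⟨fun u v => ⟨fun q => u.val q - v.val q, u.smooth.sub v.smooth⟩⟩

noncomputable instance : SMul ℝ Fld := ⟨fun c u => ⟨fun q => c • u.val q, u.smooth.const_smul c⟩⟩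

/-- all the derivatives of `u` of order `≤ r` are `< ε` -/
def SmallC (r : ℕ) (ε : ℝ) (u : Fld) : Prop := ∀ k ≤ r, ∀ z, ‖iteratedFDeriv ℝ k (up u) z‖ < ε

theorem SmallC.mono {r r' : ℕ} {ε ε' : ℝ} {u : Fld} (h : SmallC r' ε' u) (hr : r ≤ r')
    (hε : ε' ≤ ε) : SmallC r ε u := fun k hk z => (h k (hk.trans hr) z).trans_le hε

/-- The `C^∞` topology on `C^∞(𝕋², ℝ²)`: uniform convergence of all derivatives. -/
instance : TopologicalSpace Fld where
  IsOpen U := ∀ u ∈ U, ∃ (r : ℕ) (ε : ℝ), 0 < ε ∧ ∀ w, SmallC r ε (w - u) → w ∈ U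
  isOpen_univ := fun u _ => ⟨0, 1, one_pos, fun _ _ => mem_univ _⟩
  isOpen_inter := by
    rintro s t hs ht u ⟨h1, h2⟩
    obtain ⟨r, ε, hε, h⟩ := hs u h1
    obtain ⟨r', ε', hε', h'⟩ := ht u h2
    exact ⟨max r r', min ε ε', lt_min hε hε', fun w hw =>
      ⟨h w (hw.mono (le_max_left _ _) (min_le_left _ _)),
        h' w (hw.mono (le_max_right _ _) (min_le_right _ _))⟩⟩
  isOpen_sUnion := by
    rintro S hS u ⟨s, hs, hus⟩
    obtain ⟨r, ε, hε, h⟩ := hS s hs u hus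
    exact ⟨r, ε, hε, fun w hw => ⟨s, hs, h w hw⟩⟩

/-- A map `f : U → C^∞(𝕋², ℝ²)`, `U` open, is `C^∞` in the sense of Hamilton (Michal, Bastiani): the
iterated directional derivatives `D k u (h₁, …, h_k)` exist for all `u ∈ U`, and they are
(jointly) continuous on `U × C^∞(𝕋², ℝ²)^k`. -/
def HamiltonSmoothOn (U : Set Fld) (f : Fld → Fld) : Prop :=
  ∃ D : (k : ℕ) → Fld → (Fin k → Fld) → Fld,
    (∀ u ∈ U, D 0 u ![] = f u) ∧
    (∀ k, ContinuousOn (fun p : Fld × (Fin k → Fld) => D k p.1 p.2) (U ×ˢ univ)) ∧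
    (∀ k, ∀ u ∈ U, ∀ h w, Tendsto (fun t : ℝ => t⁻¹ • (D k (u + t • w) h - D k u h)) (𝓝[≠] 0)
      (𝓝 (D (k + 1) u (Fin.snoc h w))))

/-! ### The group `Diff^∞(𝕋²)` -/

/-- A `C^∞` diffeomorphism of the torus. -/
structure Diffeo where
  toFun : T2 → T2
  invFun : T2 → T2
  left_inv : ∀ p, invFun (toFun p) = p
  right_inv : ∀ p, toFun (invFun p) = p
  smooth_toFun : ∃ F : ℂ → ℂ, ContDiff ℝ ∞ F ∧ IsLift F toFun
  smooth_invFun : ∃ F : ℂ → ℂ, ContDiff ℝ ∞ F ∧ IsLift F invFun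

/-- the identity -/
def Diffeo.one : Diffeo where
  toFun := id
  invFun := id
  left_inv := fun _ => rfl
  right_inv := fun _ => rfl
  smooth_toFun := ⟨id, contDiff_id, fun _ => rfl⟩
  smooth_invFun := ⟨id, contDiff_id, fun _ => rfl⟩

/-- `g = f ⊕ u`: the diffeomorphism `g` is the translate `q ↦ f q + u q (mod ℤ²)` of `f` by the
displacement field `u ∈ C^∞(𝕋², ℝ²)`.  For fixed `f`, `u ↦ f ⊕ u` (`u` small) is the standard
chart of the Fréchet manifold `Diff^∞(𝕋²)` at `f`. -/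
def IsTranslate (f : Diffeo) (u : Fld) (g : Diffeo) : Prop := ∀ q, g.toFun q = f.toFun q + pr (u.val q)

/-- The `C^∞` topology of `Diff^∞(𝕋²)`: `U` is open if for every `f ∈ U` it contains all the
diffeomorphisms `f ⊕ u` with `u` small in `C^∞(𝕋², ℝ²)`. -/
instance : TopologicalSpace Diffeo where
  IsOpen U := ∀ f ∈ U, ∃ (r : ℕ) (ε : ℝ), 0 < ε ∧
    ∀ u g, SmallC r ε u → IsTranslate f u g → g ∈ U
  isOpen_univ := fun u _ => ⟨0, 1, one_pos, fun _ _ _ _ => mem_univ _⟩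
  isOpen_inter := by
    rintro s t hs ht u ⟨h1, h2⟩
    obtain ⟨r, ε, hε, h⟩ := hs u h1
    obtain ⟨r', ε', hε', h'⟩ := ht u h2
    exact ⟨max r r', min ε ε', lt_min hε hε', fun v g hv hg =>
      ⟨h v g (hv.mono (le_max_left _ _) (min_le_left _ _)) hg,
        h' v g (hv.mono (le_max_right _ _) (min_le_right _ _)) hg⟩⟩
  isOpen_sUnion := by
    rintro S hS u ⟨s, hs, hus⟩
    obtain ⟨r, ε, hε, h⟩ := hS s hs u hus
    exact ⟨r, ε, hε, fun w g hw hg => ⟨s, hs, h w g hw hg⟩⟩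

/-- A curve `c : ℝ → Diff^∞(𝕋²)` is smooth if `(t, q) ↦ c t q` is `C^∞` (it has a `C^∞` lift to the
universal cover). -/
def SmoothCurve (c : ℝ → Diffeo) : Prop :=
  ∃ Φ : ℝ × ℂ → ℂ, ContDiff ℝ ∞ Φ ∧ ∀ t, IsLift (fun z => Φ (t, z)) (c t).toFun

/-- `I`, defined on a neighbourhood `N₀`, is a `C^∞` map between Fréchet manifolds (in the charts of
`Diff^∞(𝕋²)` at `f` and at `I f`, for each `f` in the interior of `N₀`). -/
def FrechetSmoothOn (N₀ : Set Diffeo) (I : Diffeo → Diffeo) : Prop :=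
  ∀ f ∈ interior N₀, ∃ (U : Set Fld) (v : Fld → Fld), IsOpen U ∧ 0 ∈ U ∧ HamiltonSmoothOn U v ∧
    v 0 = 0 ∧ ∀ u ∈ U, ∀ g : Diffeo, IsTranslate f u g → g ∈ N₀ ∧ IsTranslate (I f) (v u) (I g)

/-- `I` maps the smooth curves in `N₀` to smooth curves. -/
def CurveSmoothOn (N₀ : Set Diffeo) (I : Diffeo → Diffeo) : Prop :=
  ∀ c : ℝ → Diffeo, SmoothCurve c → (∀ t, c t ∈ N₀) → SmoothCurve (fun t => I (c t))

/-- `I` is a smooth map on `N₀`, in at least one of two senses: `C^∞` as a map between open subsets of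
the Fréchet manifold `Diff^∞(𝕋²)`, or mapping smooth curves to smooth curves. -/
def IsSmoothOn (N₀ : Set Diffeo) (I : Diffeo → Diffeo) : Prop :=
  FrechetSmoothOn N₀ I ∨ CurveSmoothOn N₀ I

end TotRen
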